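import Pool.Agent.Run7.h165.Torus

/-!
Bookkeeping for the thresholds.
-/

namespace Run7.h165

open MeasureTheory Filter Topology
open scoped Classical

theorem openGraph_anti {d : ℕ} {t t' : Fin 3} (h : t ≤ t') (ω : Config d) :
    openGraph t' ω ≤ openGraph t ω := by
  intro x y hxy
  obtain ⟨e, he, h'⟩ := hxy
  exact ⟨e, h.trans he, h'⟩

theorem HasInfCluster.anti {d : ℕ} {t t' : Fin 3} (h : t ≤ t') {ω : Config d}
    (hω : HasInfCluster t' ω) : HasInfCluster t ω := by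
  obtain ⟨x, hx⟩ := hω
  refine ⟨x, hx.mono ?_⟩
  intro y hy
  exact SimpleGraph.Reachable.mono (openGraph_anti h ω) hy

theorem percSet_anti {d : ℕ} {J₁ J₂ : ℝ} {t t' : Fin 3} (h : t ≤ t') :
    percSet d J₁ J₂ t' ⊆ percSet d J₁ J₂ t := by
  rintro β ⟨hβ, h'⟩
  refine ⟨hβ, fun μ hμ => ?_⟩
  filter_upwards [h' μ hμ] with ω hω
  exact hω.anti h

theorem asm {d : ℕ} {J₁ J₂ β₀ βl : ℝ} (h1 : ∀ β, β₀ < β → β ∈ percSet d J₁ J₂ 2)
    (h2 : ∀ β β', 0 < β → β < β' → β' ≤ β₀ → β' ∉ percSet d J₁ J₂ 2 → β ∉ percSet d J₁ J₂ 1)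
    (h3 : 0 < βl ∧ ∀ β, 0 < β → β ≤ βl → β ∉ percSet d J₁ J₂ 1) (hb : 0 < β₀) :
    ∃ βc, 0 < βc ∧ betaThreshold d J₁ J₂ 1 = βc ∧ betaThreshold d J₁ J₂ 2 = βc ∧
      (∀ β, βc < β → β ∈ percSet d J₁ J₂ 1 ∧ β ∈ percSet d J₁ J₂ 2) ∧
      (∀ β, 0 < β → β < βc → β ∉ percSet d J₁ J₂ 1 ∧ β ∉ percSet d J₁ J₂ 2) := by
  set P1 := percSet d J₁ J₂ 1 with hP1
  set P2 := percSet d J₁ J₂ 2 with hP2
  have hsub : P2 ⊆ P1 := percSet_anti (by decide)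
  have hne2 : P2.Nonempty := ⟨β₀ + 1, h1 _ (by linarith)⟩
  have hne1 : P1.Nonempty := hne2.mono hsub
  have hbd1 : ∀ β ∈ P1, βl ≤ β := by
    intro β hβ
    by_contra hcon
    push Not at hcon
    exact h3.2 β hβ.1 hcon.le hβ
  have hB1 : BddBelow P1 := ⟨βl, hbd1⟩
  have hB2 : BddBelow P2 := ⟨βl, fun β hβ => hbd1 β (hsub hβ)⟩
  have hc0 : 0 < sInf P1 := lt_of_lt_of_le h3.1 (le_csInf hne1 hbd1)
  have hup : ∀ β, sInf P1 < β → β ∈ P2 := by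
    intro β' hβ'
    rcases lt_or_ge β₀ β' with h | h
    · exact h1 β' h
    · by_contra hcon
      obtain ⟨β, hβ, hββ⟩ := (csInf_lt_iff hB1 hne1).mp hβ'
      exact h2 β β' hβ.1 hββ h hcon hβ
  have heq : sInf P2 = sInf P1 := by
    apply le_antisymm
    · apply le_of_forall_gt_imp_ge_of_dense
      intro β hβ
      exact csInf_le hB2 (hup β hβ)
    · exact csInf_le_csInf hB1 hne2 hsub
  refine ⟨sInf P1, hc0, rfl, heq, fun β hβ => ⟨hsub (hup β hβ), hup β hβ⟩, fun β hβ hβ' => ?_⟩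
  have : β ∉ P1 := fun h => absurd (csInf_le hB1 h) (not_le.mpr hβ')
  exact ⟨this, fun h => this (hsub h)⟩

end Run7.h165
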