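import Mathlib

/-!
Random-cluster representation of the Ashkin–Teller model on a finite graph.
-/

namespace Run7.h165

open Finset
open scoped Classical

/-! ### Indicators -/

/-- The indicator of a proposition. -/
noncomputable def ind (P : Prop) : ℝ := if P then 1 else 0

theorem ind_pos {P : Prop} (h : P) : ind P = 1 := if_pos h

theorem ind_neg {P : Prop} (h : ¬ P) : ind P = 0 := if_neg h

theorem ind_nonneg (P : Prop) : 0 ≤ ind P := by
  unfold ind; split_ifs <;> norm_num

theorem ind_le_one (P : Prop) : ind P ≤ 1 := by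
  unfold ind; split_ifs <;> norm_num

theorem ind_mono {P Q : Prop} (h : P → Q) : ind P ≤ ind Q := by
  by_cases hP : P
  · rw [ind_pos hP, ind_pos (h hP)]
  · rw [ind_neg hP]; exact ind_nonneg Q

theorem ind_and (P Q : Prop) : ind (P ∧ Q) = ind P * ind Q := by
  by_cases hP : P <;> by_cases hQ : Q <;> simp [ind, hP, hQ]

theorem ind_not (P : Prop) : ind (¬ P) = 1 - ind P := by
  by_cases hP : P <;> simp [ind, hP]

theorem ind_or_le (P Q : Prop) : ind (P ∨ Q) ≤ ind P + ind Q := by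
  by_cases hP : P <;> by_cases hQ : Q <;> simp [ind, hP, hQ]

/-! ### Weighted averages and stochastic domination -/

/-- The average of `h` with respect to the weight `w`. -/
noncomputable def Ex {Ω : Type*} [Fintype Ω] (w h : Ω → ℝ) : ℝ :=
  (∑ x, w x * h x) / ∑ x, w x

theorem Ex_const {Ω : Type*} [Fintype Ω] (w : Ω → ℝ) (c : ℝ) (hw : 0 < ∑ x, w x) :
    Ex w (fun _ => c) = c := by
  unfold Ex
  rw [← Finset.sum_mul, mul_div_assoc, mul_div_cancel₀]
  exact hw.ne'

theorem Ex_add {Ω : Type*} [Fintype Ω] (w f g : Ω → ℝ) :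
    Ex w (fun x => f x + g x) = Ex w f + Ex w g := by
  unfold Ex
  rw [← add_div, ← Finset.sum_add_distrib]
  simp only [mul_add]

theorem Ex_sub {Ω : Type*} [Fintype Ω] (w f g : Ω → ℝ) :
    Ex w (fun x => f x - g x) = Ex w f - Ex w g := by
  unfold Ex
  rw [← sub_div, ← Finset.sum_sub_distrib]
  simp only [mul_sub]

theorem Ex_sum {Ω α : Type*} [Fintype Ω] (s : Finset α) (w : Ω → ℝ) (f : α → Ω → ℝ) :
    Ex w (fun x => ∑ i ∈ s, f i x) = ∑ i ∈ s, Ex w (f i) := by
  unfold Ex
  rw [← Finset.sum_div, Finset.sum_comm]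
  simp only [Finset.mul_sum]

theorem Ex_mul_left {Ω : Type*} [Fintype Ω] (w f : Ω → ℝ) (c : ℝ) :
    Ex w (fun x => c * f x) = c * Ex w f := by
  unfold Ex
  rw [mul_div_assoc', Finset.mul_sum]
  congr 1
  apply Finset.sum_congr rfl
  intro x _
  ring

theorem Ex_mono {Ω : Type*} [Fintype Ω] (w f g : Ω → ℝ) (hw : ∀ x, 0 ≤ w x)
    (h : ∀ x, f x ≤ g x) : Ex w f ≤ Ex w g := by
  unfold Ex
  apply div_le_div_of_nonneg_right _ (Finset.sum_nonneg fun x _ => hw x)
  exact Finset.sum_le_sum fun x _ => mul_le_mul_of_nonneg_left (h x) (hw x)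

theorem Ex_nonneg {Ω : Type*} [Fintype Ω] (w f : Ω → ℝ) (hw : ∀ x, 0 ≤ w x)
    (h : ∀ x, 0 ≤ f x) : 0 ≤ Ex w f := by
  unfold Ex
  exact div_nonneg (Finset.sum_nonneg fun x _ => mul_nonneg (hw x) (h x))
    (Finset.sum_nonneg fun x _ => hw x)

/-- Holley's inequality on a finite distributive lattice. -/
theorem Ex_le_of_lattice {L : Type*} [Fintype L] [DistribLattice L] (w₁ w₂ h : L → ℝ)
    (h1 : ∀ x, 0 ≤ w₁ x) (h2 : ∀ x, 0 ≤ w₂ x)
    (s1 : 0 < ∑ x, w₁ x) (s2 : 0 < ∑ x, w₂ x)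
    (hl : ∀ a b, w₁ a * w₂ b ≤ w₁ (a ⊓ b) * w₂ (a ⊔ b)) (hm : Monotone h) :
    Ex w₁ h ≤ Ex w₂ h := by
  obtain ⟨c, hc⟩ : ∃ c : ℝ, ∀ x, 0 ≤ h x + c := by
    obtain ⟨m, hm'⟩ := (Set.finite_range h).bddBelow
    exact ⟨-m, fun x => by linarith [hm' (Set.mem_range_self x)]⟩
  have key := four_functions_theorem_univ (f₁ := fun x => w₁ x * (h x + c)) (f₂ := w₂)
    (f₃ := w₁) (f₄ := fun x => w₂ x * (h x + c))
    (fun x => mul_nonneg (h1 x) (hc x)) h2 h1 (fun x => mul_nonneg (h2 x) (hc x))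
    (by
      intro a b
      have e1 := hl a b
      have e2 : h a + c ≤ h (a ⊔ b) + c := by linarith [hm (le_sup_left : a ≤ a ⊔ b)]
      calc w₁ a * (h a + c) * w₂ b = (w₁ a * w₂ b) * (h a + c) := by ring
        _ ≤ (w₁ (a ⊓ b) * w₂ (a ⊔ b)) * (h (a ⊔ b) + c) :=
            mul_le_mul e1 e2 (hc a) (mul_nonneg (h1 _) (h2 _))
        _ = w₁ (a ⊓ b) * (w₂ (a ⊔ b) * (h (a ⊔ b) + c)) := by ring)
  have e3 : Ex w₁ (fun x => h x + c) ≤ Ex w₂ (fun x => h x + c) := by
    unfold Ex
    rw [div_le_div_iff₀ s1 s2]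
    calc _ ≤ _ := key
      _ = _ := by ring
  rw [Ex_add, Ex_add, Ex_const _ _ s1, Ex_const _ _ s2] at e3
  linarith

/-! ### Compatible labelings -/

variable {V E : Type*} [Fintype V] [DecidableEq V] [Fintype E] [DecidableEq E]

/-- A `±`-labeling `τ` of the vertices is compatible with the edge set `A`
when it is constant along each edge of `A`. -/
def Cmp (s t : E → V) (A : E → Prop) (τ : V → Bool) : Prop :=
  ∀ e, A e → τ (s e) = τ (t e)

/-- The finset of compatible labelings. -/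
noncomputable def cmpSet (s t : E → V) (A : E → Prop) : Finset (V → Bool) :=
  univ.filter (fun τ : V → Bool => Cmp s t A τ)

omit [Fintype E] [DecidableEq E] in
theorem mem_cmpSet (s t : E → V) (A : E → Prop) (τ : V → Bool) :
    τ ∈ cmpSet s t A ↔ ∀ e, A e → τ (s e) = τ (t e) := by
  unfold cmpSet
  rw [mem_filter]
  simp [Cmp]

/-- Number of compatible labelings; it equals `2 ^ (number of components of (V, A))`. -/
noncomputable def cc (s t : E → V) (A : E → Prop) : ℕ := (cmpSet s t A).card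

omit [Fintype E] [DecidableEq E] in
theorem cc_pos (s t : E → V) (A : E → Prop) : 0 < cc s t A := by
  unfold cc
  apply Finset.card_pos.mpr
  exact ⟨fun _ => true, by rw [mem_cmpSet]; simp⟩

omit [Fintype E] [DecidableEq E] in
theorem cc_anti (s t : E → V) {A B : E → Prop} (h : ∀ e, A e → B e) :
    cc s t B ≤ cc s t A := by
  unfold cc
  apply Finset.card_le_card
  intro τ hτ
  rw [mem_cmpSet] at hτ ⊢
  exact fun e he => hτ e (h e he)

omit [Fintype E] [DecidableEq E] in
theorem cc_supermod (s t : E → V) (A B : E → Prop) :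
    cc s t A * cc s t B ≤ cc s t (fun e => A e ∧ B e) * cc s t (fun e => A e ∨ B e) := by
  set WA := cmpSet s t A with hWA
  set WB := cmpSet s t B with hWB
  set WI := cmpSet s t (fun e => A e ∧ B e) with hWI
  set WU := cmpSet s t (fun e => A e ∨ B e) with hWU
  have h1 : (WA ×ˢ WB).card = WA.card * WB.card := Finset.card_product _ _
  let f : (V → Bool) × (V → Bool) → (V → Bool) := fun p v => xor (p.1 v) (p.2 v)
  have h2 : (WA ×ˢ WB).card ≤ WU.card * ((WA ×ˢ WB).image f).card := by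
    apply Finset.card_le_mul_card_image
    intro c hc
    obtain ⟨p0, hp0, hp0c⟩ := Finset.mem_image.mp hc
    refine Finset.card_le_card_of_injOn (fun p v => xor (p.1 v) (p0.1 v)) ?_ ?_
    · intro p hp
      rw [Finset.mem_coe, Finset.mem_filter, Finset.mem_product] at hp
      obtain ⟨⟨ha, hb⟩, hpc⟩ := hp
      rw [Finset.mem_product] at hp0
      obtain ⟨ha0, hb0⟩ := hp0
      rw [hWA, mem_cmpSet] at ha ha0
      rw [hWB, mem_cmpSet] at hb hb0
      rw [Finset.mem_coe, hWU, mem_cmpSet]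
      have hx : ∀ v, xor (p.1 v) (p0.1 v) = xor (p.2 v) (p0.2 v) := by
        intro v
        have := congrFun (hpc.trans hp0c.symm) v
        simp only [f] at this
        revert this
        cases p.1 v <;> cases p.2 v <;> cases p0.1 v <;> cases p0.2 v <;> simp
      intro e he
      rcases he with he | he
      · simp only [ha e he, ha0 e he]
      · simp only [hx, hb e he, hb0 e he]
    · intro p hp q hq hpq
      rw [Finset.mem_coe, Finset.mem_filter, Finset.mem_product] at hp hq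
      have hpc := hp.2
      have hqc := hq.2
      have e1 : p.1 = q.1 := by
        funext v
        have := congrFun hpq v
        simp only at this
        revert this
        cases p.1 v <;> cases q.1 v <;> cases p0.1 v <;> simp
      have e2 : p.2 = q.2 := by
        funext v
        have := congrFun (hpc.trans hqc.symm) v
        simp only [f] at this
        rw [e1] at this
        revert this
        cases p.2 v <;> cases q.2 v <;> cases q.1 v <;> simp
      exact Prod.ext e1 e2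
  have h3 : (WA ×ˢ WB).image f ⊆ WI := by
    intro c hc
    obtain ⟨p, hp, rfl⟩ := Finset.mem_image.mp hc
    rw [Finset.mem_product] at hp
    obtain ⟨hpa, hpb⟩ := hp
    rw [hWA, mem_cmpSet] at hpa
    rw [hWB, mem_cmpSet] at hpb
    rw [hWI, mem_cmpSet]
    intro e he
    simp only [f, hpa e he.1, hpb e he.2]
  have h4 := Finset.card_le_card h3
  have : WA.card * WB.card ≤ WI.card * WU.card := by
    rw [← h1]
    calc _ ≤ WU.card * ((WA ×ˢ WB).image f).card := h2
      _ ≤ WU.card * WI.card := Nat.mul_le_mul_left _ h4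
      _ = _ := Nat.mul_comm _ _
  exact this

/-! ### The random-cluster weight -/

/-- The Ashkin–Teller random-cluster weight
`∏ p(ω_e) · 2^{k(η₁ ∪ η₂)} · 2^{k(η₂)}`. -/
noncomputable def wt (s t : E → V) (p : Fin 3 → ℝ) (ω : E → Fin 3) : ℝ :=
  (∏ e, p (ω e)) * (cc s t (fun e => 1 ≤ ω e) : ℝ) * (cc s t (fun e => 2 ≤ ω e) : ℝ)

theorem wt_pos (s t : E → V) {p : Fin 3 → ℝ} (hp : ∀ i, 0 < p i) (ω : E → Fin 3) :
    0 < wt s t p ω := by
  unfold wt
  have h1 := cc_pos s t (fun e => 1 ≤ ω e)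
  have h2 := cc_pos s t (fun e => 2 ≤ ω e)
  have h3 : 0 < ∏ e, p (ω e) := Finset.prod_pos fun e _ => hp _
  positivity

/-- `p'` is at least as high as `p` (monotone likelihood ratio). -/
def MLR (p p' : Fin 3 → ℝ) : Prop := ∀ i j : Fin 3, i ≤ j → p j * p' i ≤ p i * p' j

theorem MLR_refl (p : Fin 3 → ℝ) : MLR p p := fun _ _ _ => (mul_comm _ _).le

theorem wt_lattice (s t : E → V) {p p' : Fin 3 → ℝ} (hp : ∀ i, 0 < p i) (hp' : ∀ i, 0 < p' i)
    (hm : MLR p p') (a b : E → Fin 3) :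
    wt s t p a * wt s t p' b ≤ wt s t p (a ⊓ b) * wt s t p' (a ⊔ b) := by
  have h1 : (∏ e, p (a e)) * (∏ e, p' (b e)) ≤
      (∏ e, p ((a ⊓ b) e)) * (∏ e, p' ((a ⊔ b) e)) := by
    rw [← Finset.prod_mul_distrib, ← Finset.prod_mul_distrib]
    apply Finset.prod_le_prod
    · intro e _
      exact (mul_pos (hp _) (hp' _)).le
    · intro e _
      rcases le_total (a e) (b e) with h | h
      · simp [inf_eq_left.mpr h, sup_eq_right.mpr h]
      · simp only [Pi.inf_apply, Pi.sup_apply, inf_eq_right.mpr h, sup_eq_left.mpr h]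
        have := hm _ _ h
        linarith
  have h2 : ∀ k : Fin 3, ((cc s t (fun e => k ≤ a e) : ℕ) : ℝ) * (cc s t (fun e => k ≤ b e) : ℕ) ≤
      ((cc s t (fun e => k ≤ (a ⊓ b) e) : ℕ) : ℝ) * (cc s t (fun e => k ≤ (a ⊔ b) e) : ℕ) := by
    intro k
    have := cc_supermod s t (fun e => k ≤ a e) (fun e => k ≤ b e)
    have e1 : (fun e => k ≤ (a ⊓ b) e) = (fun e => k ≤ a e ∧ k ≤ b e) := by
      funext e; simp [le_inf_iff]
    have e2 : (fun e => k ≤ (a ⊔ b) e) = (fun e => k ≤ a e ∨ k ≤ b e) := by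
      funext e; simp [le_sup_iff]
    rw [e1, e2]
    exact_mod_cast this
  have p1 : 0 ≤ (∏ e, p (a e)) * (∏ e, p' (b e)) :=
    mul_nonneg (Finset.prod_nonneg fun e _ => (hp _).le) (Finset.prod_nonneg fun e _ => (hp' _).le)
  have p2 : 0 ≤ (∏ e, p ((a ⊓ b) e)) * (∏ e, p' ((a ⊔ b) e)) :=
    mul_nonneg (Finset.prod_nonneg fun e _ => (hp _).le) (Finset.prod_nonneg fun e _ => (hp' _).le)
  unfold wt
  calc _ = ((∏ e, p (a e)) * (∏ e, p' (b e))) *
        (((cc s t (fun e => 1 ≤ a e) : ℕ) : ℝ) * (cc s t (fun e => 1 ≤ b e) : ℕ)) *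
        (((cc s t (fun e => 2 ≤ a e) : ℕ) : ℝ) * (cc s t (fun e => 2 ≤ b e) : ℕ)) := by ring
    _ ≤ ((∏ e, p ((a ⊓ b) e)) * (∏ e, p' ((a ⊔ b) e))) *
        (((cc s t (fun e => 1 ≤ (a ⊓ b) e) : ℕ) : ℝ) * (cc s t (fun e => 1 ≤ (a ⊔ b) e) : ℕ)) *
        (((cc s t (fun e => 2 ≤ (a ⊓ b) e) : ℕ) : ℝ) * (cc s t (fun e => 2 ≤ (a ⊔ b) e) : ℕ)) := by
        apply mul_le_mul (mul_le_mul h1 (h2 1) (by positivity) p2) (h2 2) (by positivity)
        exact mul_nonneg p2 (by positivity)
    _ = _ := by ring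

/-- The weight restricted to configurations vanishing off `F`. -/
noncomputable def wF (s t : E → V) (p : Fin 3 → ℝ) (F : E → Prop) (ω : E → Fin 3) : ℝ :=
  if ∀ e, ¬ F e → ω e = 0 then wt s t p ω else 0

theorem wF_nonneg (s t : E → V) {p : Fin 3 → ℝ} (hp : ∀ i, 0 < p i) (F : E → Prop)
    (ω : E → Fin 3) : 0 ≤ wF s t p F ω := by
  unfold wF
  split_ifs
  · exact (wt_pos s t hp ω).le
  · exact le_rfl

theorem wF_sum_pos (s t : E → V) {p : Fin 3 → ℝ} (hp : ∀ i, 0 < p i) (F : E → Prop) :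
    0 < ∑ ω, wF s t p F ω := by
  apply Finset.sum_pos' (fun ω _ => wF_nonneg s t hp F ω)
  refine ⟨fun _ => 0, mem_univ _, ?_⟩
  unfold wF
  rw [if_pos (fun e _ => rfl)]
  exact wt_pos s t hp _

theorem wF_univ (s t : E → V) (p : Fin 3 → ℝ) : wF s t p (fun _ => True) = wt s t p := by
  funext ω
  unfold wF
  simp

theorem wF_lattice (s t : E → V) {p p' : Fin 3 → ℝ} (hp : ∀ i, 0 < p i) (hp' : ∀ i, 0 < p' i)
    (hm : MLR p p') {F F' : E → Prop} (hF : ∀ e, F e → F' e) (a b : E → Fin 3) :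
    wF s t p F a * wF s t p' F' b ≤ wF s t p F (a ⊓ b) * wF s t p' F' (a ⊔ b) := by
  by_cases ha : ∀ e, ¬ F e → a e = 0
  · by_cases hb : ∀ e, ¬ F' e → b e = 0
    · have h1 : ∀ e, ¬ F e → (a ⊓ b) e = 0 := by
        intro e he
        have := ha e he
        simp only [Pi.inf_apply, this]
        exact le_antisymm inf_le_left (Fin.zero_le _)
      have h2 : ∀ e, ¬ F' e → (a ⊔ b) e = 0 := by
        intro e he
        simp [hb e he, ha e (fun h => he (hF e h))]
      unfold wF
      rw [if_pos ha, if_pos hb, if_pos h1, if_pos h2]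
      exact wt_lattice s t hp hp' hm a b
    · have : wF s t p' F' b = 0 := by unfold wF; rw [if_neg hb]
      rw [this, mul_zero]
      exact mul_nonneg (wF_nonneg s t hp _ _) (wF_nonneg s t hp' _ _)
  · have : wF s t p F a = 0 := by unfold wF; rw [if_neg ha]
    rw [this, zero_mul]
    exact mul_nonneg (wF_nonneg s t hp _ _) (wF_nonneg s t hp' _ _)

/-- Monotonicity of the random-cluster measure in the edge set and in the parameters. -/
theorem Ex_wF_mono (s t : E → V) {p p' : Fin 3 → ℝ} (hp : ∀ i, 0 < p i) (hp' : ∀ i, 0 < p' i)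
    (hm : MLR p p') {F F' : E → Prop} (hF : ∀ e, F e → F' e) {h : (E → Fin 3) → ℝ}
    (hh : Monotone h) :
    Ex (wF s t p F) h ≤ Ex (wF s t p' F') h :=
  Ex_le_of_lattice _ _ _ (wF_nonneg s t hp F) (wF_nonneg s t hp' F')
    (wF_sum_pos s t hp F) (wF_sum_pos s t hp' F') (wF_lattice s t hp hp' hm hF) hh

/-- Conditional domination: for a decreasing nonnegative function `h` and a function `g ≥ 0`
which only depends on the configuration off `F`,
`E[h g] ≤ E_F[h] E[g]`. -/
theorem Ex_cond_le (s t : E → V) {p : Fin 3 → ℝ} (hp : ∀ i, 0 < p i) (F : E → Prop)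
    {h g : (E → Fin 3) → ℝ} (hh : Antitone h) (h0 : ∀ ω, 0 ≤ h ω) (g0 : ∀ ω, 0 ≤ g ω)
    (hg : ∀ ω ω', (∀ e, ¬ F e → ω e = ω' e) → g ω = g ω') :
    Ex (wt s t p) (fun ω => h ω * g ω) ≤ Ex (wF s t p F) h * Ex (wt s t p) g := by
  have w0 : ∀ ω, 0 ≤ wt s t p ω := fun ω => (wt_pos s t hp ω).le
  have key := four_functions_theorem_univ (f₁ := fun x => wt s t p x * (h x * g x))
    (f₂ := wF s t p F) (f₃ := fun x => wF s t p F x * h x) (f₄ := fun x => wt s t p x * g x)
    (fun x => mul_nonneg (w0 x) (mul_nonneg (h0 x) (g0 x))) (wF_nonneg s t hp F)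
    (fun x => mul_nonneg (wF_nonneg s t hp F x) (h0 x))
    (fun x => mul_nonneg (w0 x) (g0 x))
    (by
      intro a b
      by_cases hb : ∀ e, ¬ F e → b e = 0
      · have h1 : ∀ e, ¬ F e → (a ⊓ b) e = 0 := by
          intro e he
          have := hb e he
          simp only [Pi.inf_apply, this]
          exact le_antisymm inf_le_right (Fin.zero_le _)
        have h2 : g (a ⊔ b) = g a := by
          apply hg
          intro e he
          simp [hb e he]
        have h3 : wF s t p F b = wt s t p b := by unfold wF; rw [if_pos hb]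
        have h4 : wF s t p F (a ⊓ b) = wt s t p (a ⊓ b) := by unfold wF; rw [if_pos h1]
        simp only [h3, h4, h2]
        have e1 := wt_lattice s t hp hp (MLR_refl p) a b
        have e2 : h a ≤ h (a ⊓ b) := hh inf_le_left
        calc wt s t p a * (h a * g a) * wt s t p b
            = (wt s t p a * wt s t p b) * h a * g a := by ring
          _ ≤ (wt s t p (a ⊓ b) * wt s t p (a ⊔ b)) * h (a ⊓ b) * g a := by
              apply mul_le_mul_of_nonneg_right _ (g0 a)
              exact mul_le_mul e1 e2 (h0 _) (mul_nonneg (w0 _) (w0 _))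
          _ = _ := by ring
      · have : wF s t p F b = 0 := by unfold wF; rw [if_neg hb]
        simp only [this, mul_zero]
        exact mul_nonneg (mul_nonneg (wF_nonneg s t hp _ _) (h0 _))
          (mul_nonneg (w0 _) (g0 _)))
  have s1 : 0 < ∑ ω, wt s t p ω := by
    have := wF_sum_pos s t hp (fun _ => True)
    rwa [wF_univ] at this
  have s2 := wF_sum_pos s t hp F
  unfold Ex
  rw [div_mul_div_comm, div_le_div_iff₀ s1 (mul_pos s2 s1)]
  calc (∑ x, wt s t p x * (h x * g x)) * ((∑ x, wF s t p F x) * ∑ x, wt s t p x)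
      = ((∑ x, wt s t p x * (h x * g x)) * (∑ x, wF s t p F x)) * ∑ x, wt s t p x := by ring
    _ ≤ ((∑ x, wF s t p F x * h x) * (∑ x, wt s t p x * g x)) * ∑ x, wt s t p x :=
        mul_le_mul_of_nonneg_right key s1.le
    _ = _ := by ring

end Run7.h165
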