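import Pool.Agent.Run7.h165.Kernel2

/-!
Supports and bounds of the kernels, and the final uniform kernel.
-/

namespace Run7.h165

open Finset
open scoped Classical

variable {d N : ℕ} [NeZero N]

/-- number of doublings in direction `i` among the first `n` ones -/
def cn (d n i : ℕ) : ℕ := n / d + if i < n % d then 1 else 0

theorem cn_succ {d : ℕ} (hd : 0 < d) (n i : ℕ) (hi : i < d) :
    cn d (n + 1) i = cn d n i + if i = n % d then 1 else 0 := by
  unfold cn
  have h0 := Nat.div_add_mod n d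
  have h1 := Nat.mod_lt n hd
  by_cases h : n % d + 1 < d
  · have e1 : (n + 1) % d = n % d + 1 := by
      rw [Nat.add_mod, Nat.mod_eq_of_lt (show 1 < d by omega), Nat.mod_eq_of_lt h]
    have e2 : (n + 1) / d = n / d := by
      rw [Nat.succ_div, if_neg]
      · rfl
      · intro hdvd
        have := Nat.mod_eq_zero_of_dvd hdvd
        omega
    rw [e1, e2]
    split_ifs <;> omega
  · have hr : n % d + 1 = d := by omega
    have e1 : (n + 1) % d = 0 := by
      rw [Nat.add_mod]
      rcases Nat.lt_or_ge 1 d with h2 | h2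
      · rw [Nat.mod_eq_of_lt h2, hr, Nat.mod_self]
      · have : d = 1 := by omega
        subst this
        simp [Nat.mod_one]
    have e2 : (n + 1) / d = n / d + 1 := by
      rw [Nat.succ_div, if_pos (Nat.dvd_of_mod_eq_zero e1)]
    rw [e1, e2]
    split_ifs <;> omega

theorem cn_self {d : ℕ} (n : ℕ) : cn d n (n % d) = n / d := by
  unfold cn
  simp

theorem cn_le {d : ℕ} (n i : ℕ) : cn d n i ≤ n / d + 1 := by
  unfold cn
  split_ifs <;> omega

theorem dblIter_supp [NeZero d] {K : ℕ} (hN : N = 2 ^ K) {n : ℕ} (hn : n ≤ K * d) :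
    ∀ x : TV d N, dblIter n x ≠ 0 → ∀ i : Fin d, (x i).val < 2 ^ (cn d n i) := by
  induction n with
  | zero =>
    intro x hx i
    simp only [dblIter, delta0, ne_eq, ite_eq_right_iff, one_ne_zero, imp_false, not_not] at hx
    rw [hx]
    simp
  | succ n ih =>
    intro x hx i
    have hd : 0 < d := Nat.pos_of_ne_zero (NeZero.ne d)
    have h1 := ih (by omega)
    simp only [dblIter, dblK] at hx
    rw [cn_succ hd n i i.2]
    by_cases hw : dblIter n x = 0
    · have hw2 : dblIter n (x - ev (Fin.ofNat d n) ((2 ^ (n / d) : ℕ) : ZMod N)) ≠ 0 := by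
        intro h
        apply hx
        rw [hw, h]; norm_num
      have h2 := h1 _ hw2 i
      by_cases hi : i.val = n % d
      · rw [if_pos hi]
        have hi' : i = Fin.ofNat d n := Fin.ext hi
        subst hi'
        simp only [Pi.sub_apply, ev, Pi.single_eq_same] at h2
        have h3 : x (Fin.ofNat d n) = (x (Fin.ofNat d n) - ((2 ^ (n / d) : ℕ) : ZMod N)) +
          ((2 ^ (n / d) : ℕ) : ZMod N) := by ring
        rw [h3]
        refine (ZMod.val_add_le _ _).trans_lt ?_
        have h4 : (((2 ^ (n / d) : ℕ) : ZMod N)).val ≤ 2 ^ (n / d) := by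
          rw [ZMod.val_natCast]; exact Nat.mod_le _ _
        have h5 : cn d n (Fin.ofNat d n).val = n / d := by
          rw [hi]; exact cn_self n
        rw [h5] at h2 ⊢
        rw [pow_succ]
        omega
      · rw [if_neg hi, add_zero]
        have hi' : i ≠ Fin.ofNat d n := fun h => hi (by rw [h]; rfl)
        have h7 : (ev (Fin.ofNat d n) ((2 ^ (n / d) : ℕ) : ZMod N) : TV d N) i = 0 :=
          Pi.single_eq_of_ne hi' _
        rw [Pi.sub_apply, h7, sub_zero] at h2
        exact h2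
    · refine (h1 x hw i).trans_le ?_
      exact Nat.pow_le_pow_right (by norm_num) (by omega)

theorem PK_dblIter [NeZero d] {K : ℕ} (hN : N = 2 ^ K) {n : ℕ} (hn : n ≤ K * d) :
    PK (dblIter n : TV d N → ℝ) ((1 / 2) ^ n) := by
  induction n with
  | zero => simpa [dblIter] using PK_delta0
  | succ n ih =>
    have hd : 0 < d := Nat.pos_of_ne_zero (NeZero.ne d)
    have h1 := ih (by omega)
    have h2 := h1.dbl (Fin.ofNat d n) (2 ^ (n / d))
    simp only [dblIter]
    refine ⟨h2.nonneg, h2.mass, fun x => ?_⟩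
    unfold dblK
    have hs := dblIter_supp hN (show n ≤ K * d by omega)
    have hk : n / d < K := by
      rw [Nat.div_lt_iff_lt_mul hd]
      omega
    have : (dblIter n x : ℝ) = 0 ∨
        dblIter n (x - ev (Fin.ofNat d n) ((2 ^ (n / d) : ℕ) : ZMod N)) = 0 := by
      by_contra hcon
      push Not at hcon
      have a1 := hs _ hcon.1 (Fin.ofNat d n)
      have a2 := hs _ hcon.2 (Fin.ofNat d n)
      have hval : (Fin.ofNat d n).val = n % d := rfl
      rw [hval, cn_self] at a1 a2
      simp only [Pi.sub_apply, ev, Pi.single_eq_same] at a2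
      have h3 : x (Fin.ofNat d n) = (x (Fin.ofNat d n) - ((2 ^ (n / d) : ℕ) : ZMod N)) +
          ((2 ^ (n / d) : ℕ) : ZMod N) := by ring
      have hlt : 2 ^ (n / d) < N := by
        rw [hN]; exact Nat.pow_lt_pow_right (by norm_num) hk
      have hlt2 : 2 ^ (n / d) + 2 ^ (n / d) ≤ N := by
        rw [hN, ← two_mul, ← pow_succ']
        exact Nat.pow_le_pow_right (by norm_num) hk
      have h4 : (((2 ^ (n / d) : ℕ) : ZMod N)).val = 2 ^ (n / d) := by
        rw [ZMod.val_natCast]; exact Nat.mod_eq_of_lt hlt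
      rw [h3, ZMod.val_add_of_lt (by rw [h4]; omega), h4] at a1
      omega
    rw [pow_succ]
    rcases this with h | h
    · rw [h]
      have := h1.le (x - ev (Fin.ofNat d n) ((2 ^ (n / d) : ℕ) : ZMod N))
      linarith
    · rw [h]
      have := h1.le x
      linarith

theorem starIter_delta_n1 (G : ℕ → Finset (Fin d)) (r : ℕ) :
    ∀ x : TV d N, starIter G r delta0 x ≠ 0 → n1 x ≤ r := by
  induction r with
  | zero =>
    intro x hx
    simp only [starIter, delta0, ne_eq, ite_eq_right_iff, one_ne_zero, imp_false, not_not] at hx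
    rw [hx]; simp
  | succ r ih =>
    intro x hx
    simp only [starIter] at hx
    obtain ⟨j, hj, a, ha, h2⟩ := starK_ne_zero hx
    have h3 := ih _ h2
    have h4 : n1 (ev j a : TV d N) ≤ 1 := by
      rw [n1_ev]
      rcases ha with rfl | rfl
      · exact zn_one
      · rw [zn_neg]; exact zn_one
    have h5 := n1_add (x - ev j a) (ev j a)
    rw [sub_add_cancel] at h5
    omega

theorem starK_ninf {g : Finset (Fin d)} {w : TV d N → ℝ} {r : ℕ}
    (h : ∀ x, w x ≠ 0 → ninf x ≤ r) (x : TV d N) (hx : starK g w x ≠ 0) : ninf x ≤ r + 1 := by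
  obtain ⟨j, hj, a, ha, h2⟩ := starK_ne_zero hx
  have h3 := h _ h2
  have h4 : ninf (ev j a : TV d N) ≤ 1 := by
    refine (ninf_ev j a).trans ?_
    rcases ha with rfl | rfl
    · exact zn_one
    · rw [zn_neg]; exact zn_one
  have h5 := ninf_add (x - ev j a) (ev j a)
  rw [sub_add_cancel] at h5
  omega

theorem starIter_ninf (G : ℕ → Finset (Fin d)) (T : ℕ) {w : TV d N → ℝ} {r : ℕ}
    (h : ∀ x, w x ≠ 0 → ninf x ≤ r) : ∀ x : TV d N, starIter G T w x ≠ 0 → ninf x ≤ r + T := by
  induction T with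
  | zero => exact h
  | succ T ih =>
    intro x hx
    simp only [starIter] at hx
    exact starK_ninf ih x hx

theorem Wk_n1 [NeZero d] (G : ℕ → Finset (Fin d)) {T j : ℕ} (hj : j ≤ T) (x : TV d N)
    (hx : Wk G T j x ≠ 0) : n1 x ≤ j + 1 := by
  unfold Wk at hx
  rw [min_eq_left hj, Nat.sub_eq_zero_of_le hj] at hx
  simp only [dblIter] at hx
  obtain ⟨i, hi, a, ha, h2⟩ := starK_ne_zero hx
  have h3 := starIter_delta_n1 _ _ _ h2
  have h4 : n1 (ev i a : TV d N) ≤ 1 := by
    rw [n1_ev]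
    rcases ha with rfl | rfl
    · exact zn_one
    · rw [zn_neg]; exact zn_one
  have h5 := n1_add (x - ev i a) (ev i a)
  rw [sub_add_cancel] at h5
  omega

theorem Wk_ninf [NeZero d] {K : ℕ} (hN : N = 2 ^ K) (G : ℕ → Finset (Fin d)) {T n : ℕ}
    (hn : n ≤ K * d) (x : TV d N) (hx : Wk G T (T + n) x ≠ 0) :
    ninf x ≤ 2 ^ (n / d + 1) + T + 1 := by
  unfold Wk at hx
  rw [min_eq_right (by omega), show T + n - T = n by omega] at hx
  refine starK_ninf (starIter_ninf G T ?_) x hx
  intro y hy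
  rw [ninf_le_iff]
  intro i
  have h1 := dblIter_supp hN hn y hy i
  have h2 := zn_le_val (y i)
  have h3 := Nat.pow_le_pow_right (show 0 < 2 by norm_num) (cn_le (d := d) n i)
  omega

theorem PK_Wk_star [NeZero d] (hN : 3 ≤ N) (G : ℕ → Finset (Fin d)) {T m : ℕ} (hm : 0 < m)
    (hG : ∀ r < T, (G r).card = m) (hdis : ∀ r < T, ∀ r' < r, Disjoint (G r) (G r'))
    {j : ℕ} (hj : j ≤ T) : PK (Wk G T j : TV d N → ℝ) ((1 / (2 * m)) ^ j) := by
  have hd : 0 < (univ : Finset (Fin d)).card := by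
    rw [card_univ, Fintype.card_fin]; exact Nat.pos_of_ne_zero (NeZero.ne d)
  unfold Wk
  rw [min_eq_left hj, Nat.sub_eq_zero_of_le hj]
  exact (PK_starIter_delta hN G hm hG hdis hj).star _ hd

theorem PK_Wk_zero [NeZero d] (hN : 3 ≤ N) (G : ℕ → Finset (Fin d)) {T m : ℕ} (hm : 0 < m)
    (hmd : m ≤ d) : PK (Wk G T 0 : TV d N → ℝ) (1 / (2 * m)) := by
  have hd : 0 < (univ : Finset (Fin d)).card := by
    rw [card_univ, Fintype.card_fin]; exact Nat.pos_of_ne_zero (NeZero.ne d)
  have h := PK_star_gain hN (univ : Finset (Fin d)) hd (PK_delta0 (N := N)) (by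
    intro x hx i _
    simp only [delta0, ne_eq, ite_eq_right_iff, one_ne_zero, imp_false, not_not] at hx
    rw [hx]; rfl)
  have e : (Wk G T 0 : TV d N → ℝ) = starK univ delta0 := by
    unfold Wk
    simp [starIter, dblIter]
  rw [e]
  refine h.mono ?_
  rw [card_univ, Fintype.card_fin]
  have h1 : (0 : ℝ) < m := by exact_mod_cast hm
  have h2 : (m : ℝ) ≤ d := by exact_mod_cast hmd
  apply one_div_le_one_div_of_le (by positivity)
  linarith

theorem PK_Wk_star' [NeZero d] (hN : 3 ≤ N) (G : ℕ → Finset (Fin d)) {T m : ℕ} (hm : 0 < m)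
    (hmd : m ≤ d)
    (hG : ∀ r < T, (G r).card = m) (hdis : ∀ r < T, ∀ r' < r, Disjoint (G r) (G r'))
    {j : ℕ} (hj : j ≤ T) : PK (Wk G T j : TV d N → ℝ) (1 / (2 * m)) := by
  have h1 : (1 : ℝ) ≤ m := by exact_mod_cast hm
  rcases Nat.eq_zero_or_pos j with h | h
  · rw [h]; exact PK_Wk_zero hN G hm hmd
  · refine (PK_Wk_star hN G hm hG hdis hj).mono ?_
    calc (1 / (2 * (m : ℝ))) ^ j ≤ (1 / (2 * (m : ℝ))) ^ 1 := by
          apply pow_le_pow_of_le_one (by positivity)
          · rw [div_le_one (by positivity)]; linarith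
          · exact h
      _ = _ := pow_one _

theorem PK_Wk_dbl [NeZero d] (hN : 3 ≤ N) (G : ℕ → Finset (Fin d)) {T m : ℕ} (hm : 0 < m)
    (hG : ∀ r < T, (G r).card = m) (hdis : ∀ r < T, ∀ r' < r, Disjoint (G r) (G r'))
    (n : ℕ) : PK (Wk G T (T + n) : TV d N → ℝ) ((1 / (2 * m)) ^ T) := by
  induction n with
  | zero => exact PK_Wk_star hN G hm hG hdis le_rfl
  | succ n ih =>
    rw [← add_assoc, Wk_succ_dbl]
    exact ih.dbl _ _

theorem PK_Wk_dbl' [NeZero d] {K : ℕ} (hN : N = 2 ^ K) (G : ℕ → Finset (Fin d)) {T m : ℕ}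
    (hm : 0 < m) (hG : ∀ r < T, (G r).card = m) {n : ℕ} (hn : n ≤ K * d) :
    PK (Wk G T (T + n) : TV d N → ℝ) ((1 / 2) ^ n) := by
  have hd : 0 < (univ : Finset (Fin d)).card := by
    rw [card_univ, Fintype.card_fin]; exact Nat.pos_of_ne_zero (NeZero.ne d)
  unfold Wk
  rw [min_eq_right (by omega), show T + n - T = n by omega]
  exact (PK_starIter G hm hG le_rfl (PK_dblIter hN hn)).star _ hd

/-- The last kernel is uniform. -/
theorem Wk_last [NeZero d] {K : ℕ} (hN : N = 2 ^ K) (G : ℕ → Finset (Fin d)) {T m : ℕ}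
    (hm : 0 < m) (hG : ∀ r < T, (G r).card = m) (x : TV d N) :
    Wk G T (T + K * d) x = 1 / (N : ℝ) ^ d := by
  have h := PK_Wk_dbl' hN G hm hG le_rfl
  have h1 : (1 / 2 : ℝ) ^ (K * d) = 1 / (N : ℝ) ^ d := by
    rw [hN]; push_cast
    rw [div_pow, one_pow, pow_mul]
  rw [h1] at h
  have hc : (Fintype.card (TV d N) : ℝ) = (N : ℝ) ^ d := by
    rw [Fintype.card_fun, ZMod.card, Fintype.card_fin]; push_cast; rfl
  have hNR : (0 : ℝ) < (N : ℝ) ^ d := by
    have : 0 < N := Nat.pos_of_ne_zero (NeZero.ne N)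
    positivity
  have h2 : ∑ y : TV d N, (1 / (N : ℝ) ^ d - Wk G T (T + K * d) y) = 0 := by
    rw [Finset.sum_sub_distrib, h.mass, Finset.sum_const, nsmul_eq_mul, card_univ, hc]
    field_simp
    ring
  have h3 := (Finset.sum_eq_zero_iff_of_nonneg (fun y _ => sub_nonneg.mpr (h.le y))).mp h2 x
    (mem_univ x)
  linarith

/-- spatial mean of the spin vector -/
noncomputable def Mm (σ : TV d N → Sp) (a : Fin 3) : ℝ :=
  (1 / (N : ℝ) ^ d) * ∑ x, Sv (σ x) a

theorem avg_last [NeZero d] {K : ℕ} (hN : N = 2 ^ K) (G : ℕ → Finset (Fin d)) {T m : ℕ}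
    (hm : 0 < m) (hG : ∀ r < T, (G r).card = m) (σ : TV d N → Sp) (y : TV d N) (a : Fin 3) :
    avg (Wk G T (T + K * d)) σ y a = Mm σ a := by
  unfold avg Mm
  simp only [Wk_last hN G hm hG]
  rw [← Finset.mul_sum]
  congr 1
  exact Equiv.sum_comp (Equiv.addLeft y) (fun x => Sv (σ x) a)

theorem avg_first [NeZero d] (G : ℕ → Finset (Fin d)) (T : ℕ) (σ : TV d N → Sp) (y : TV d N)
    (a : Fin 3) : avg (Wk G T 0) σ y a = star σ y a := by
  have e : (Wk G T 0 : TV d N → ℝ) = starK univ delta0 := by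
    unfold Wk
    simp [starIter, dblIter]
  rw [e]
  unfold avg star starK
  rw [card_univ, Fintype.card_fin]
  simp only [mul_assoc]
  rw [← Finset.mul_sum]
  congr 1
  simp only [Finset.sum_mul]
  rw [Finset.sum_comm]
  apply Finset.sum_congr rfl
  intro i _
  simp only [add_mul, Finset.sum_add_distrib]
  rw [Finset.sum_eq_single (ev i 1), Finset.sum_eq_single (-(ev i 1))]
  · simp [delta0, sub_eq_add_neg]
  · intro x _ hx
    have : delta0 (x + ev i 1) = (0 : ℝ) := by
      unfold delta0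
      rw [if_neg]
      intro h
      exact hx (eq_neg_of_add_eq_zero_left h)
    rw [this, zero_mul]
  · simp
  · intro x _ hx
    have : delta0 (x - ev i 1) = (0 : ℝ) := by
      unfold delta0
      rw [if_neg]
      intro h
      exact hx (sub_eq_zero.mp h)
    rw [this, zero_mul]
  · simp

end Run7.h165
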