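import Pool.Agent.Run7.h165.ES
import Pool.Agent.Run7.h165.Kernel3

/-!
Chains: decomposition of a path of open edges into good vertices and jumps over balls.
-/

namespace Run7.h165

open Finset
open scoped Classical

variable {d N : ℕ} [NeZero N]

/-! ### Path surgery -/

/-- connection avoiding the set `A` -/
def ConnA (ω : TE d N → Fin 3) (A : Finset (TV d N)) (x z : TV d N) : Prop :=
  x ∉ A ∧ Relation.ReflTransGen (fun u v => AdjT 1 ω u v ∧ v ∉ A) x z

omit [NeZero N] in
theorem ConnA.connT {ω : TE d N → Fin 3} {A : Finset (TV d N)} {x z : TV d N}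
    (h : ConnA ω A x z) : ConnT 1 ω x z :=
  Relation.ReflTransGen.mono (fun _ _ h => h.1) _ _ h.2

theorem last_exit {ω : TE d N → Fin 3} {A S : Finset (TV d N)} {x z : TV d N}
    (h : ConnA ω A x z) (hz : z ∉ S) :
    ConnA ω (A ∪ S) x z ∨ ∃ w ∈ S, ∃ x', AdjT 1 ω w x' ∧ ConnA ω (A ∪ S) x' z := by
  obtain ⟨hx, h⟩ := h
  induction h using Relation.ReflTransGen.head_induction_on with
  | refl =>
    left
    exact ⟨by rw [mem_union]; tauto, Relation.ReflTransGen.refl⟩
  | @head u v h' _ ih =>
    rcases ih h'.2 with h1 | h1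
    · by_cases hu : u ∈ S
      · right
        exact ⟨u, hu, v, h'.1, h1⟩
      · left
        refine ⟨by rw [mem_union]; tauto, Relation.ReflTransGen.head ⟨h'.1, h1.1⟩ h1.2⟩
    · right; exact h1

/-! ### Elements of chains -/

/-- a vertex together with its colour (good vertex) or its bad level -/
abbrev El (d N : ℕ) : Type := TV d N × (Sp ⊕ ℕ)

/-- the block of vertices removed by an element -/
noncomputable def blk (Bl : ℕ → Finset (TV d N)) (e : El d N) : Finset (TV d N) :=
  match e.2 with
  | Sum.inl _ => {e.1}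
  | Sum.inr j => univ.filter (fun z => z - e.1 ∈ Bl j)

theorem mem_blk_self {Bl : ℕ → Finset (TV d N)} (h0 : ∀ j, (0 : TV d N) ∈ Bl j) (e : El d N) :
    e.1 ∈ blk Bl e := by
  obtain ⟨x, c | j⟩ := e
  · simp [blk]
  · simp only [blk, mem_filter, mem_univ, true_and, sub_self]
    exact h0 j

/-- possible next vertices -/
noncomputable def nb (Bl : ℕ → Finset (TV d N)) (e : El d N) : Finset (TV d N) :=
  univ.filter (fun x' => ∃ w ∈ blk Bl e, ∃ i : Fin d, x' = w + ev i 1 ∨ x' = w - ev i 1)

omit [NeZero N] in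
theorem AdjT.exists {t : Fin 3} {ω : TE d N → Fin 3} {u v : TV d N} (h : AdjT t ω u v) :
    ∃ i : Fin d, v = u + ev i 1 ∨ v = u - ev i 1 := by
  obtain ⟨e, -, h | h⟩ := h
  · refine ⟨e.2, Or.inl ?_⟩
    rw [h.1, h.2]; rfl
  · refine ⟨e.2, Or.inr ?_⟩
    rw [h.1, h.2]
    simp [tsrc, ttgt]

/-- one step of a chain -/
def Stp (Bl : ℕ → Finset (TV d N)) (ω : TE d N → Fin 3) (e e' : El d N) : Prop :=
  e'.1 ∈ nb Bl e ∧ (∀ c, e.2 = Sum.inl c → AdjT 1 ω e.1 e'.1)

theorem chain_exists {Bl : ℕ → Finset (TV d N)} (h0 : ∀ j, (0 : TV d N) ∈ Bl j)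
    (ω : TE d N → Fin 3) (z : TV d N) (pick : TV d N → Sp ⊕ ℕ) :
    ∀ (n : ℕ) (A : Finset (TV d N)) (x : TV d N), Aᶜ.card ≤ n → ConnA ω A x z →
      ∃ l : List (El d N), l.head? = some (x, pick x) ∧
        (∀ e ∈ l, e.2 = pick e.1 ∧ e.1 ∉ A ∧ ConnT 1 ω e.1 z) ∧
        l.Pairwise (fun e e' => e'.1 ∉ blk Bl e) ∧ l.IsChain (Stp Bl ω) ∧
        ∃ e, l.getLast? = some e ∧ z ∈ blk Bl e := by
  intro n
  induction n with
  | zero =>
    intro A x hA h
    exfalso
    have h1 : Aᶜ = ∅ := Finset.card_eq_zero.mp (Nat.le_zero.mp hA)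
    have h2 : x ∈ Aᶜ := Finset.mem_compl.mpr h.1
    rw [h1] at h2
    simp at h2
  | succ n ih =>
    intro A x hA h
    by_cases hz : z ∈ blk Bl (x, pick x)
    · refine ⟨[(x, pick x)], rfl, ?_, ?_, ?_, ⟨(x, pick x), rfl, hz⟩⟩
      · intro e he
        rw [List.mem_singleton] at he
        subst he
        exact ⟨rfl, h.1, h.connT⟩
      · simp
      · simp
    · have hxb : x ∈ blk Bl (x, pick x) := mem_blk_self h0 (x, pick x)
      rcases last_exit h hz with h1 | ⟨w, hw, x', hadj, h1⟩
      · exfalso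
        apply h1.1
        rw [mem_union]
        exact Or.inr hxb
      · have hcard : (A ∪ blk Bl (x, pick x))ᶜ.card ≤ n := by
          have h2 : (A ∪ blk Bl (x, pick x))ᶜ ⊂ Aᶜ := by
            rw [Finset.ssubset_iff_of_subset]
            · refine ⟨x, Finset.mem_compl.mpr h.1, ?_⟩
              rw [Finset.mem_compl, not_not, mem_union]
              exact Or.inr hxb
            · intro y hy
              rw [Finset.mem_compl, mem_union] at hy
              rw [Finset.mem_compl]
              tauto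
          have := Finset.card_lt_card h2
          omega
        obtain ⟨l, hl1, hl2, hl3, hl4, e₁, hl5, hl6⟩ := ih _ x' hcard h1
        refine ⟨(x, pick x) :: l, rfl, ?_, ?_, ?_, ⟨e₁, ?_, hl6⟩⟩
        · intro e he
          rcases List.mem_cons.mp he with rfl | he
          · exact ⟨rfl, h.1, h.connT⟩
          · obtain ⟨a1, a2, a3⟩ := hl2 e he
            rw [mem_union] at a2
            exact ⟨a1, fun h => a2 (Or.inl h), a3⟩
        · rw [List.pairwise_cons]
          refine ⟨fun e he => ?_, hl3⟩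
          obtain ⟨a1, a2, a3⟩ := hl2 e he
          rw [mem_union] at a2
          exact fun h => a2 (Or.inr h)
        · rw [List.isChain_cons]
          refine ⟨fun y hy => ?_, hl4⟩
          rw [hl1] at hy
          simp only [Option.mem_def, Option.some.injEq] at hy
          subst hy
          constructor
          · unfold nb
            rw [mem_filter]
            exact ⟨mem_univ _, w, hw, hadj.exists⟩
          · intro c hc
            have : w = x := by
              have hc' : pick x = Sum.inl c := hc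
              simp only [blk, hc', mem_singleton] at hw
              exact hw
            rw [← this]
            exact hadj
        · cases l with
          | nil => simp at hl1
          | cons a l => simpa using hl5

/-! ### Weighted sums over chains -/

theorem sum_biUnion_le {α β : Type*} [DecidableEq β] (S : Finset α) (t : α → Finset β) (f : β → ℝ)
    (hf : ∀ b, 0 ≤ f b) : ∑ b ∈ S.biUnion t, f b ≤ ∑ a ∈ S, ∑ b ∈ t a, f b := by
  induction S using Finset.induction_on with
  | empty => simp
  | insert a S ha ih =>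
    rw [Finset.biUnion_insert, Finset.sum_insert ha]
    have h1 := Finset.sum_union_inter (s₁ := t a) (s₂ := S.biUnion t) (f := f)
    have h2 : 0 ≤ ∑ b ∈ t a ∩ S.biUnion t, f b := Finset.sum_nonneg fun b _ => hf b
    linarith

noncomputable def Ls (nxt : El d N → Finset (El d N)) : ℕ → El d N → Finset (List (El d N))
  | 0, e => {[e]}
  | L + 1, e => (nxt e).biUnion (fun e' => (Ls nxt L e').image (fun l => e :: l))

theorem mem_Ls {nxt : El d N → Finset (El d N)} :
    ∀ (L : ℕ) (e : El d N) (l : List (El d N)), l.head? = some e → l.length = L + 1 →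
      l.IsChain (fun e e' => e' ∈ nxt e) → l ∈ Ls nxt L e := by
  intro L
  induction L with
  | zero =>
    intro e l h1 h2 _
    match l, h1, h2 with
    | [a], h1, _ =>
      simp only [List.head?_cons, Option.some.injEq] at h1
      simp [Ls, h1]
  | succ L ih =>
    intro e l h1 h2 h3
    match l, h1, h2, h3 with
    | a :: b :: r, h1, h2, h3 =>
      simp only [List.head?_cons, Option.some.injEq] at h1
      subst h1
      rw [List.isChain_cons_cons] at h3
      simp only [Ls, mem_biUnion, mem_image]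
      refine ⟨b, h3.1, b :: r, ih b (b :: r) rfl ?_ h3.2, rfl⟩
      simpa using h2

theorem Ls_head {nxt : El d N → Finset (El d N)} (L : ℕ) (e : El d N) (l : List (El d N))
    (h : l ∈ Ls nxt L e) : ∃ r, l = e :: r := by
  cases L with
  | zero =>
    simp only [Ls, mem_singleton] at h
    exact ⟨[], h⟩
  | succ L =>
    simp only [Ls, mem_biUnion, mem_image] at h
    obtain ⟨_, _, l', _, rfl⟩ := h
    exact ⟨l', rfl⟩

/-- weight of a chain -/
def Wl (v : El d N → ℝ) (s : El d N → El d N → ℝ) : List (El d N) → ℝ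
  | [] => 1
  | [e] => v e
  | e :: e' :: r => v e * s e e' * Wl v s (e' :: r)

theorem Wl_nonneg {v : El d N → ℝ} {s : El d N → El d N → ℝ} (hv : ∀ e, 0 ≤ v e)
    (hs : ∀ e e', 0 ≤ s e e') : ∀ l, 0 ≤ Wl v s l
  | [] => zero_le_one
  | [e] => hv e
  | e :: e' :: r => mul_nonneg (mul_nonneg (hv e) (hs e e')) (Wl_nonneg hv hs (e' :: r))

theorem sum_Ls_le {nxt : El d N → Finset (El d N)} {v : El d N → ℝ} {s : El d N → El d N → ℝ}
    (hv : ∀ e, 0 ≤ v e) (hs : ∀ e e', 0 ≤ s e e') {H : El d N → ℝ} {q : ℝ} (hq : 0 ≤ q)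
    {ok : El d N → Prop} (hnxt : ∀ e, ok e → ∀ e' ∈ nxt e, ok e')
    (hH : ∀ e, ok e → 1 ≤ H e)
    (hstep : ∀ e, ok e → ∑ e' ∈ nxt e, s e e' * (v e' * H e') ≤ q * H e) :
    ∀ (L : ℕ) (e : El d N), ok e → ∑ l ∈ Ls nxt L e, Wl v s l ≤ v e * H e * q ^ L := by
  intro L
  induction L with
  | zero =>
    intro e he
    simp only [Ls, sum_singleton, Wl, pow_zero, mul_one]
    exact le_mul_of_one_le_right (hv e) (hH e he)
  | succ L ih =>
    intro e he
    simp only [Ls]
    have h1 : ∑ l ∈ (nxt e).biUnion (fun e' => (Ls nxt L e').image (fun l => e :: l)), Wl v s l ≤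
        ∑ e' ∈ nxt e, ∑ l ∈ (Ls nxt L e').image (fun l => e :: l), Wl v s l :=
      sum_biUnion_le _ _ _ (fun l => Wl_nonneg hv hs l)
    refine h1.trans ?_
    have h2 : ∀ e' ∈ nxt e, ∑ l ∈ (Ls nxt L e').image (fun l => e :: l), Wl v s l ≤
        v e * s e e' * (v e' * H e' * q ^ L) := by
      intro e' he'
      rw [Finset.sum_image (by intro a _ b _ h; exact (List.cons.inj h).2)]
      calc ∑ l ∈ Ls nxt L e', Wl v s (e :: l) = ∑ l ∈ Ls nxt L e', v e * s e e' * Wl v s l := by
            apply Finset.sum_congr rfl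
            intro l hl
            obtain ⟨r, rfl⟩ := Ls_head L e' l hl
            rfl
        _ = v e * s e e' * ∑ l ∈ Ls nxt L e', Wl v s l := by rw [← Finset.mul_sum]
        _ ≤ _ := mul_le_mul_of_nonneg_left (ih e' (hnxt e he e' he'))
            (mul_nonneg (hv e) (hs e e'))
    calc _ ≤ ∑ e' ∈ nxt e, v e * s e e' * (v e' * H e' * q ^ L) := Finset.sum_le_sum h2
      _ = (v e * q ^ L) * ∑ e' ∈ nxt e, s e e' * (v e' * H e') := by
          rw [Finset.mul_sum]
          apply Finset.sum_congr rfl; intro e' _; ring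
      _ ≤ (v e * q ^ L) * (q * H e) :=
          mul_le_mul_of_nonneg_left (hstep e he) (mul_nonneg (hv e) (pow_nonneg hq L))
      _ = _ := by rw [pow_succ]; ring

end Run7.h165
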