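import Pool.Agent.Run7.h165.Chain

/-!
The probability of one chain, and the sum over all chains.
-/

namespace Run7.h165

open Finset
open scoped Classical

variable {d N : ℕ} [NeZero N]

/-! ### Edges of a chain -/

def joins (e : TE d N) (u v : TV d N) : Prop :=
  (u = tsrc e ∧ v = ttgt e) ∨ (u = ttgt e ∧ v = tsrc e)

theorem joins_unique (hN : 3 ≤ N) {e e' : TE d N} {u v : TV d N} (h : joins e u v)
    (h' : joins e' u v) : e = e' := by
  have key : ∀ (e e' : TE d N), tsrc e = tsrc e' → ttgt e = ttgt e' → e = e' := by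
    rintro ⟨x, i⟩ ⟨x', i'⟩ h1 h2
    simp only [tsrc, ttgt] at h1 h2
    subst h1
    have h3 : (Pi.single i 1 : TV d N) = Pi.single i' 1 := add_left_cancel h2
    have h4 := congrFun h3 i
    by_cases hi : i = i'
    · rw [hi]
    · rw [Pi.single_eq_same, Pi.single_eq_of_ne hi] at h4
      exact absurd h4 (one_ne_zero_of hN)
  have key2 : ∀ (e e' : TE d N), tsrc e = ttgt e' → ttgt e = tsrc e' → False := by
    rintro ⟨x, i⟩ ⟨x', i'⟩ h1 h2
    simp only [tsrc, ttgt] at h1 h2
    rw [h1] at h2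
    have h3 : (Pi.single i' 1 : TV d N) + Pi.single i 1 = 0 := by
      have : x' + (Pi.single i' 1 + Pi.single i 1) = x' + 0 := by
        rw [← add_assoc, h2, add_zero]
      exact add_left_cancel this
    have h4 := congrFun h3 i
    by_cases hi : i = i'
    · subst hi
      rw [Pi.add_apply, Pi.single_eq_same] at h4
      exact two_ne_zero_of hN h4
    · rw [Pi.add_apply, Pi.single_eq_same, Pi.single_eq_of_ne hi, zero_add] at h4
      exact one_ne_zero_of hN h4
  rcases h with ⟨h1, h2⟩ | ⟨h1, h2⟩ <;> rcases h' with ⟨h3, h4⟩ | ⟨h3, h4⟩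
  · exact key e e' (h1.symm.trans h3) (h2.symm.trans h4)
  · exact (key2 e e' (h1.symm.trans h3) (h2.symm.trans h4)).elim
  · exact (key2 e' e (h3.symm.trans h1) (h4.symm.trans h2)).elim
  · exact key e e' (h2.symm.trans h4) (h1.symm.trans h3)

noncomputable def ed [NeZero d] (u v : TV d N) : TE d N :=
  if h : ∃ e : TE d N, joins e u v then h.choose else (0, 0)

theorem ed_joins [NeZero d] {u v : TV d N} (h : ∃ e : TE d N, joins e u v) :
    joins (ed u v) u v := by
  unfold ed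
  rw [dif_pos h]
  exact h.choose_spec

theorem AdjT.ed_open [NeZero d] (hN : 3 ≤ N) {ω : TE d N → Fin 3} {u v : TV d N}
    (h : AdjT 1 ω u v) : 1 ≤ ω (ed u v) := by
  obtain ⟨e, he, hj⟩ := h
  have h1 := ed_joins ⟨e, hj⟩
  rw [← joins_unique hN hj h1]
  exact he

/-- edges between consecutive good vertices -/
noncomputable def edl [NeZero d] : List (El d N) → List (TE d N)
  | [] => []
  | [_] => []
  | e :: e' :: r => if e.2.isLeft ∧ e'.2.isLeft then ed e.1 e'.1 :: edl (e' :: r) else edl (e' :: r)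

/-- edge factor -/
noncomputable def sf (P Q : ℝ) (e e' : El d N) : ℝ :=
  match e.2, e'.2 with
  | Sum.inl c, Sum.inl c' => rr P Q c c'
  | _, _ => 1

theorem sf_nonneg {P Q : ℝ} (hP : 0 ≤ P) (hQ : 0 ≤ Q) (e e' : El d N) : 0 ≤ sf P Q e e' := by
  obtain ⟨x, c | j⟩ := e <;> obtain ⟨x', c' | j'⟩ := e'
  · exact rr_nonneg hP hQ _ _
  all_goals exact zero_le_one

noncomputable def Sl (P Q : ℝ) : List (El d N) → ℝ
  | [] => 1
  | [_] => 1
  | e :: e' :: r => sf P Q e e' * Sl P Q (e' :: r)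

theorem Sl_nonneg {P Q : ℝ} (hP : 0 ≤ P) (hQ : 0 ≤ Q) : ∀ l : List (El d N), 0 ≤ Sl P Q l
  | [] => zero_le_one
  | [_] => zero_le_one
  | _ :: e' :: r => mul_nonneg (sf_nonneg hP hQ _ _) (Sl_nonneg hP hQ (e' :: r))

theorem Wl_eq (v : El d N → ℝ) (P Q : ℝ) : ∀ l : List (El d N),
    Wl v (sf P Q) l = Sl P Q l * (l.map v).prod
  | [] => by simp [Wl, Sl]
  | [e] => by simp [Wl, Sl]
  | e :: e' :: r => by
    have ih := Wl_eq v P Q (e' :: r)
    simp only [Wl, Sl, List.map_cons, List.prod_cons] at ih ⊢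
    rw [ih]
    ring

/-- spin event of a chain -/
def SpinOK (Good : (TV d N → Sp) → TV d N → Prop) (Bad : ℕ → (TV d N → Sp) → TV d N → Prop)
    (l : List (El d N)) (σ : TV d N → Sp) : Prop :=
  (∀ x c, (x, Sum.inl c) ∈ l → σ x = c ∧ Good σ x) ∧ (∀ x j, (x, Sum.inr j) ∈ l → Bad j σ x)

def AdjG (e e' : El d N) : Prop := e.2.isLeft = true → ∃ f : TE d N, joins f e.1 e'.1

theorem AdjG_of_nb {Bl : ℕ → Finset (TV d N)} {e e' : El d N} (h : e'.1 ∈ nb Bl e) :
    AdjG e e' := by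
  intro he
  obtain ⟨x, c | j⟩ := e
  · unfold nb at h
    rw [mem_filter] at h
    obtain ⟨-, w, hw, i, hi⟩ := h
    simp only [blk, mem_singleton] at hw
    rw [hw] at hi
    rcases hi with hi | hi
    · exact ⟨(x, i), Or.inl ⟨rfl, hi⟩⟩
    · refine ⟨(e'.1, i), Or.inr ⟨?_, rfl⟩⟩
      show x = e'.1 + Pi.single i 1
      rw [hi]
      simp [ev]
  · simp at he

theorem edl_ends [NeZero d] : ∀ (l : List (El d N)), l.IsChain AdjG → ∀ f ∈ edl l,
    ∀ u, (u = tsrc f ∨ u = ttgt f) → ∃ e ∈ l, e.1 = u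
  | [], _, f, hf, _, _ => by simp [edl] at hf
  | [_], _, f, hf, _, _ => by simp [edl] at hf
  | e :: e' :: r, h, f, hf, u, hu => by
    rw [List.isChain_cons_cons] at h
    simp only [edl] at hf
    have ih := edl_ends (e' :: r) h.2
    split_ifs at hf with hc
    · rcases List.mem_cons.mp hf with hf | hf
      · have hj := ed_joins (h.1 hc.1)
        rw [← hf] at hj
        rcases hj with ⟨h1, h2⟩ | ⟨h1, h2⟩ <;> rcases hu with hu | hu
        · exact ⟨e, by simp, by rw [h1, hu]⟩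
        · exact ⟨e', by simp, by rw [h2, hu]⟩
        · exact ⟨e', by simp, by rw [h2, hu]⟩
        · exact ⟨e, by simp, by rw [h1, hu]⟩
      · obtain ⟨e₁, he₁, h1⟩ := ih f hf u hu
        exact ⟨e₁, List.mem_cons_of_mem _ he₁, h1⟩
    · obtain ⟨e₁, he₁, h1⟩ := ih f hf u hu
      exact ⟨e₁, List.mem_cons_of_mem _ he₁, h1⟩

theorem edl_nodup [NeZero d] : ∀ (l : List (El d N)), l.IsChain AdjG →
    l.Pairwise (fun e e' => e.1 ≠ e'.1) → (edl l).Nodup
  | [], _, _ => by simp [edl]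
  | [_], _, _ => by simp [edl]
  | e :: e' :: r, h, hp => by
    have h' := h
    rw [List.isChain_cons_cons] at h
    rw [List.pairwise_cons] at hp
    have ih := edl_nodup (e' :: r) h.2 hp.2
    simp only [edl]
    split_ifs with hc
    · rw [List.nodup_cons]
      refine ⟨fun hf => ?_, ih⟩
      have hj := ed_joins (h.1 hc.1)
      obtain ⟨e₁, he₁, h1⟩ := edl_ends (e' :: r) h.2 _ hf e.1 (by
        rcases hj with ⟨h1, h2⟩ | ⟨h1, h2⟩
        · exact Or.inl h1
        · exact Or.inr h1)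
      exact hp.1 e₁ he₁ h1.symm
    · exact ih

theorem edl_open [NeZero d] (hN : 3 ≤ N) {Bl : ℕ → Finset (TV d N)} {ω : TE d N → Fin 3} :
    ∀ (l : List (El d N)), l.IsChain (Stp Bl ω) → ∀ f ∈ edl l, 1 ≤ ω f
  | [], _, f, hf => by simp [edl] at hf
  | [_], _, f, hf => by simp [edl] at hf
  | e :: e' :: r, h, f, hf => by
    rw [List.isChain_cons_cons] at h
    simp only [edl] at hf
    have ih := edl_open hN (e' :: r) h.2
    split_ifs at hf with hc
    · rcases List.mem_cons.mp hf with hf | hf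
      · rw [hf]
        obtain ⟨c, hc'⟩ := Sum.isLeft_iff.mp hc.1
        exact (h.1.2 c hc').ed_open hN
      · exact ih f hf
    · exact ih f hf

theorem edl_prod [NeZero d] {P Q : ℝ} {Good : (TV d N → Sp) → TV d N → Prop}
    {Bad : ℕ → (TV d N → Sp) → TV d N → Prop} {σ : TV d N → Sp} :
    ∀ (l : List (El d N)), l.IsChain AdjG → SpinOK Good Bad l σ →
    ((edl l).map (fun f => rr P Q (σ (tsrc f)) (σ (ttgt f)))).prod = Sl P Q l
  | [], _, _ => by simp [edl, Sl]
  | [_], _, _ => by simp [edl, Sl]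
  | e :: e' :: r, h, hs => by
    rw [List.isChain_cons_cons] at h
    have hs' : SpinOK Good Bad (e' :: r) σ :=
      ⟨fun x c hx => hs.1 x c (List.mem_cons_of_mem _ hx),
        fun x j hx => hs.2 x j (List.mem_cons_of_mem _ hx)⟩
    have ih := edl_prod (P := P) (Q := Q) (e' :: r) h.2 hs'
    obtain ⟨x, c | j⟩ := e <;> obtain ⟨x', c' | j'⟩ := e'
    · have e1 : edl ((x, Sum.inl c) :: (x', Sum.inl c') :: r) =
          ed x x' :: edl ((x', Sum.inl c') :: r) := by simp [edl]
      rw [e1, List.map_cons, List.prod_cons, ih]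
      have e2 : Sl P Q ((x, Sum.inl c) :: (x', Sum.inl c') :: r) =
          rr P Q c c' * Sl P Q ((x', Sum.inl c') :: r) := rfl
      rw [e2]
      congr 1
      have hx := (hs.1 x c (by simp)).1
      have hx' := (hs.1 x' c' (by simp)).1
      have hj : joins (ed x x') x x' := ed_joins (h.1 rfl)
      rcases hj with ⟨h1, h2⟩ | ⟨h1, h2⟩
      · rw [← h1, ← h2, hx, hx']
      · rw [← h1, ← h2, hx, hx']
        unfold rr
        simp only [eq_comm]
    · have e1 : edl ((x, Sum.inl c) :: (x', Sum.inr j') :: r) =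
          edl ((x', Sum.inr j') :: r) := by simp [edl]
      have e2 : Sl P Q ((x, Sum.inl c) :: (x', Sum.inr j') :: r) =
          1 * Sl P Q ((x', Sum.inr j') :: r) := rfl
      rw [e1, e2, ih, one_mul]
    · have e1 : edl ((x, Sum.inr j) :: (x', Sum.inl c') :: r) =
          edl ((x', Sum.inl c') :: r) := by simp [edl]
      have e2 : Sl P Q ((x, Sum.inr j) :: (x', Sum.inl c') :: r) =
          1 * Sl P Q ((x', Sum.inl c') :: r) := rfl
      rw [e1, e2, ih, one_mul]
    · have e1 : edl ((x, Sum.inr j) :: (x', Sum.inr j') :: r) =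
          edl ((x', Sum.inr j') :: r) := by simp [edl]
      have e2 : Sl P Q ((x, Sum.inr j) :: (x', Sum.inr j') :: r) =
          1 * Sl P Q ((x', Sum.inr j') :: r) := rfl
      rw [e1, e2, ih, one_mul]

/-! ### Counting -/

noncomputable def gc (l : List (El d N)) : ℕ := (l.filter (fun e => e.2.isLeft)).length

noncomputable def bc (j : ℕ) (l : List (El d N)) : ℕ :=
  (l.filter (fun e => decide (e.2 = Sum.inr j))).length

/-- vertex weight without distance factor -/
noncomputable def v0 (ρ : ℝ) (b : ℕ → ℝ) (e : El d N) : ℝ :=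
  match e.2 with
  | Sum.inl _ => ρ
  | Sum.inr j => b j

theorem v0_nonneg {ρ : ℝ} (hρ : 0 ≤ ρ) {b : ℕ → ℝ} (hb : ∀ j, 0 ≤ b j) (e : El d N) :
    0 ≤ v0 ρ b e := by
  obtain ⟨x, c | j⟩ := e
  · exact hρ
  · exact hb j

theorem prod_v0 (ρ : ℝ) (b : ℕ → ℝ) (J : ℕ) : ∀ l : List (El d N),
    (∀ x j, (x, Sum.inr j) ∈ l → j < J) →
    (l.map (v0 ρ b)).prod = ρ ^ gc l * ∏ j ∈ range J, b j ^ bc j l
  | [], _ => by simp [gc, bc]
  | e :: l, h => by
    have ih := prod_v0 ρ b J l (fun x j hx => h x j (List.mem_cons_of_mem _ hx))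
    rw [List.map_cons, List.prod_cons, ih]
    obtain ⟨x, c | j⟩ := e
    · have e1 : gc ((x, Sum.inl c) :: l) = gc l + 1 := by simp [gc]
      have e2 : ∀ j, bc j ((x, Sum.inl c) :: l) = bc j l := by intro j; simp [bc]
      rw [e1]
      simp only [e2, pow_succ]
      show ρ * _ = _
      ring
    · have e1 : gc ((x, Sum.inr j) :: l) = gc l := by simp [gc]
      have e2 : ∀ j', bc j' ((x, Sum.inr j) :: l) = bc j' l + if j = j' then 1 else 0 := by
        intro j'
        by_cases hj : j = j'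
        · subst hj; simp [bc]
        · simp [bc, hj]
      have e3 : ∏ j' ∈ range J, b j' ^ bc j' ((x, Sum.inr j) :: l) =
          (∏ j' ∈ range J, b j' ^ bc j' l) * b j := by
        simp only [e2, pow_add]
        rw [Finset.prod_mul_distrib]
        congr 1
        rw [Finset.prod_eq_single j]
        · simp
        · intro j' _ hj'
          rw [if_neg (Ne.symm hj'), pow_zero]
        · intro hj
          exact absurd (mem_range.mpr (h x j (by simp))) hj
      rw [e1, e3]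
      show b j * _ = _
      ring

theorem geo_bound {P ρ : ℝ} (hP : 0 ≤ P) (hρ : 0 ≤ ρ) (J : ℕ) (κ b : ℕ → ℝ) (g : ℕ)
    (m : ℕ → ℕ) (hb : ∀ j, 0 ≤ b j) (hκ : ∀ j, 0 ≤ κ j) (hκ1 : ∑ j ∈ range J, κ j ≤ 1)
    (h1 : P ≤ ρ ^ g) (h2 : ∀ j < J, P ≤ b j ^ m j) :
    P ≤ (ρ ^ (1 - ∑ j ∈ range J, κ j)) ^ g * ∏ j ∈ range J, (b j ^ κ j) ^ m j := by
  have hsw : ∀ (x t : ℝ) (k : ℕ), 0 ≤ x → (x ^ t) ^ k = (x ^ k) ^ t := by
    intro x t k hx
    rw [← Real.rpow_natCast, ← Real.rpow_natCast, ← Real.rpow_mul hx, ← Real.rpow_mul hx,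
      mul_comm]
  rcases hP.eq_or_lt with h0 | h0
  · rw [← h0]
    apply mul_nonneg (pow_nonneg (Real.rpow_nonneg hρ _) _)
    exact Finset.prod_nonneg fun j _ => pow_nonneg (Real.rpow_nonneg (hb j) _) _
  · have e1 : P = P ^ (1 - ∑ j ∈ range J, κ j) * ∏ j ∈ range J, P ^ κ j := by
      rw [← Real.rpow_sum_of_pos h0, ← Real.rpow_add h0, sub_add_cancel, Real.rpow_one]
    rw [hsw _ _ _ hρ]
    simp only [hsw _ _ _ (hb _)]
    calc P = P ^ (1 - ∑ j ∈ range J, κ j) * ∏ j ∈ range J, P ^ κ j := e1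
      _ ≤ _ := by
        apply mul_le_mul
        · exact Real.rpow_le_rpow hP h1 (by linarith)
        · apply Finset.prod_le_prod
          · intro j _; exact Real.rpow_nonneg hP _
          · intro j hj
            exact Real.rpow_le_rpow hP (h2 j (mem_range.mp hj)) (hκ j)
        · exact Finset.prod_nonneg fun j _ => Real.rpow_nonneg hP _
        · exact Real.rpow_nonneg (pow_nonneg hρ _) _

/-- The probability of one chain. -/
theorem chain_prob [NeZero d] (hN : 3 ≤ N) {β J₁ J₂ : ℝ} (hβ : 0 < β) (h1 : 0 < J₁) (h2 : J₁ < J₂)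
    {Good : (TV d N → Sp) → TV d N → Prop} {Bad : ℕ → (TV d N → Sp) → TV d N → Prop}
    {Bl : ℕ → Finset (TV d N)} (h0 : ∀ j, (0 : TV d N) ∈ Bl j) {ρ : ℝ} (hρ : 0 ≤ ρ) {J : ℕ}
    {b κ : ℕ → ℝ} (hb : ∀ j, 0 ≤ b j) (hκ : ∀ j, 0 ≤ κ j) (hκ1 : ∑ j ∈ range J, κ j ≤ 1)
    (HG : ∀ (c : TV d N → Sp) (V : Finset (TV d N)), (∀ x ∈ V, ∀ y ∈ V, (c x).1 = (c y).1) →
      SP (k2 d β J₁) (k4 d β J₁ J₂) (fun σ => ∀ x ∈ V, σ x = c x ∧ Good σ x) ≤ ρ ^ V.card)
    (HB : ∀ j < J, ∀ Y : Finset (TV d N),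
      (∀ y ∈ Y, ∀ y' ∈ Y, y ≠ y' → y' - y ∉ Bl j ∨ y - y' ∉ Bl j) →
      SP (k2 d β J₁) (k4 d β J₁ J₂) (fun σ => ∀ y ∈ Y, Bad j σ y) ≤ b j ^ Y.card)
    (l : List (El d N)) (hpw : l.Pairwise (fun e e' => e'.1 ∉ blk Bl e))
    (hst : ∀ x j, (x, Sum.inr j) ∈ l → j < J)
    (hθ : ∀ x c x' c', (x, Sum.inl c) ∈ l → (x', Sum.inl c') ∈ l → c.1 = c'.1)
    (hch : l.IsChain (fun e e' => e'.1 ∈ nb Bl e)) :
    JP β J₁ J₂ (fun ω σ => SpinOK Good Bad l σ ∧ l.IsChain (Stp Bl ω)) ≤
      Sl (β * J₂) (β * (J₂ - J₁)) l *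
        (l.map (v0 (ρ ^ (1 - ∑ j ∈ range J, κ j)) (fun j => b j ^ κ j))).prod := by
  have hd : 0 < d := Nat.pos_of_ne_zero (NeZero.ne d)
  have hP : 0 ≤ β * J₂ := mul_nonneg hβ.le (by linarith)
  have hQ : 0 ≤ β * (J₂ - J₁) := mul_nonneg hβ.le (by linarith)
  have hpw1 : l.Pairwise (fun e e' => e.1 ≠ e'.1) := by
    refine hpw.imp ?_
    intro e e' h heq
    apply h
    rw [← heq]
    exact mem_blk_self h0 e
  have hadj : l.IsChain AdjG := hch.imp (fun e e' h => AdjG_of_nb h)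
  have hnd := edl_nodup l hadj hpw1
  -- step 1: edges
  have s1 : JP β J₁ J₂ (fun ω σ => SpinOK Good Bad l σ ∧ l.IsChain (Stp Bl ω)) ≤
      Sl (β * J₂) (β * (J₂ - J₁)) l *
        SP (k2 d β J₁) (k4 d β J₁ J₂) (SpinOK Good Bad l) := by
    calc _ ≤ JP β J₁ J₂ (fun (ω : TE d N → Fin 3) σ =>
          SpinOK Good Bad l σ ∧ ∀ f ∈ (edl l).toFinset, 1 ≤ ω f) := by
          apply Ex_mono
          · intro x; exact jw_nonneg _ _ (par_pos hβ h1 h2) _ _
          · intro x
            apply ind_mono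
            rintro ⟨a1, a2⟩
            refine ⟨a1, fun f hf => ?_⟩
            exact edl_open hN l a2 f (List.mem_toFinset.mp hf)
      _ ≤ _ := by
          apply JP_open hd hβ h1 h2
          intro σ hσ
          rw [List.prod_toFinset _ hnd, edl_prod l hadj hσ]
  -- step 2: spins
  set PP := SP (k2 d β J₁) (k4 d β J₁ J₂) (SpinOK Good Bad l) with hPP
  have s2 : PP ≤ ρ ^ gc l := by
    set V := ((l.filter (fun e => e.2.isLeft)).map Prod.fst).toFinset with hV
    have hVc : V.card = gc l := by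
      rw [hV, List.toFinset_card_of_nodup, List.length_map]
      · rfl
      · rw [List.Nodup, List.pairwise_map]
        exact hpw1.filter _
    have hVm : ∀ x ∈ V, ∃ c, (x, Sum.inl c) ∈ l := by
      intro x hx
      rw [hV, List.mem_toFinset, List.mem_map] at hx
      obtain ⟨e, he, rfl⟩ := hx
      rw [List.mem_filter] at he
      obtain ⟨c, hc⟩ := Sum.isLeft_iff.mp he.2
      exact ⟨c, by rw [← hc]; exact he.1⟩
    let c : TV d N → Sp := fun x => if h : ∃ c, (x, Sum.inl c) ∈ l then h.choose else (true, true)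
    have hc : ∀ x ∈ V, (x, Sum.inl (c x)) ∈ l := by
      intro x hx
      have h := hVm x hx
      simp only [c, dif_pos h]
      exact h.choose_spec
    rw [← hVc]
    refine le_trans ?_ (HG c V (fun x hx y hy => hθ _ _ _ _ (hc x hx) (hc y hy)))
    apply SP_mono
    intro σ hσ x hx
    exact hσ.1 x _ (hc x hx)
  have s3 : ∀ j < J, PP ≤ b j ^ bc j l := by
    intro j hj
    set Y := ((l.filter (fun e => decide (e.2 = Sum.inr j))).map Prod.fst).toFinset with hY
    have hYc : Y.card = bc j l := by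
      rw [hY, List.toFinset_card_of_nodup, List.length_map]
      · rfl
      · rw [List.Nodup, List.pairwise_map]
        exact hpw1.filter _
    have hYm : ∀ x ∈ Y, (x, Sum.inr j) ∈ l := by
      intro x hx
      rw [hY, List.mem_toFinset, List.mem_map] at hx
      obtain ⟨e, he, rfl⟩ := hx
      rw [List.mem_filter, decide_eq_true_eq] at he
      rw [← he.2]
      exact he.1
    rw [← hYc]
    refine le_trans ?_ (HB j hj Y ?_)
    · apply SP_mono
      intro σ hσ y hy
      exact hσ.2 y j (hYm y hy)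
    · intro y hy y' hy' hne
      have hsym : ∀ e ∈ l, ∀ e' ∈ l, e.1 ≠ e'.1 → (e'.1 ∉ blk Bl e ∨ e.1 ∉ blk Bl e') := by
        haveI hS : Std.Symm (fun e e' : El d N =>
            e.1 ≠ e'.1 → (e'.1 ∉ blk Bl e ∨ e.1 ∉ blk Bl e')) :=
          ⟨fun e e' h hne' => (h hne'.symm).symm⟩
        apply List.Pairwise.forall_of_forall
        · intro e _ h
          exact absurd rfl h
        · refine hpw.imp ?_
          intro e e' h _
          exact Or.inl h
      rcases hsym _ (hYm y hy) _ (hYm y' hy') hne with h | h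
      · left
        intro h'
        apply h
        simp only [blk, mem_filter, mem_univ, true_and]
        exact h'
      · right
        intro h'
        apply h
        simp only [blk, mem_filter, mem_univ, true_and]
        exact h'
  have s4 := geo_bound (SP_nonneg _ _ _) hρ J κ b (gc l) (fun j => bc j l) hb hκ hκ1 s2 s3
  rw [prod_v0 _ _ J l hst]
  exact s1.trans (mul_le_mul_of_nonneg_left s4 (Sl_nonneg hP hQ l))

end Run7.h165
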