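import Pool.Agent.Run7.h165.Chain2

/-!
The sum over all chains: exponential decay.
-/

namespace Run7.h165

open Finset
open scoped Classical

variable {d N : ℕ} [NeZero N]

/-- distance covered by an element -/
def De (Dl : ℕ → ℕ) (e : El d N) : ℕ :=
  match e.2 with
  | Sum.inl _ => 1
  | Sum.inr j => Dl j

theorem zn_one' : zn (-1 : ZMod N) ≤ 1 := by rw [zn_neg]; exact zn_one

theorem blk_dist {Bl : ℕ → Finset (TV d N)} {Dl : ℕ → ℕ}
    (hD : ∀ j, ∀ z ∈ Bl j, ninf z + 1 ≤ Dl j) (e : El d N) {z : TV d N} (hz : z ∈ blk Bl e) :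
    ninf (z - e.1) + 1 ≤ De Dl e := by
  obtain ⟨x, c | j⟩ := e
  · simp only [blk, mem_singleton] at hz
    rw [hz]
    simp [De]
  · simp only [blk, mem_filter, mem_univ, true_and] at hz
    exact hD j _ hz

theorem nb_dist {Bl : ℕ → Finset (TV d N)} {Dl : ℕ → ℕ}
    (hD : ∀ j, ∀ z ∈ Bl j, ninf z + 1 ≤ Dl j) (e : El d N) {z : TV d N} (hz : z ∈ nb Bl e) :
    ninf (z - e.1) ≤ De Dl e := by
  unfold nb at hz
  rw [mem_filter] at hz
  obtain ⟨-, w, hw, i, hi⟩ := hz
  have h1 := blk_dist hD e hw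
  rcases hi with hi | hi
  · have h2 : z - e.1 = (w - e.1) + ev i 1 := by rw [hi]; abel
    have h3 := ninf_add (w - e.1) (ev i 1)
    have h4 : ninf (ev i 1 : TV d N) ≤ 1 := (ninf_ev i 1).trans zn_one
    rw [h2]; omega
  · have h2 : z - e.1 = (w - e.1) - ev i 1 := by rw [hi]; abel
    have h3 := ninf_sub (w - e.1) (ev i 1)
    have h4 : ninf (ev i 1 : TV d N) ≤ 1 := (ninf_ev i 1).trans zn_one
    rw [h2]; omega

theorem chain_dist {Bl : ℕ → Finset (TV d N)} {Dl : ℕ → ℕ}
    (hD : ∀ j, ∀ z ∈ Bl j, ninf z + 1 ≤ Dl j) (z : TV d N) :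
    ∀ (l : List (El d N)) (e e₁ : El d N), l.IsChain (fun e e' => e'.1 ∈ nb Bl e) →
      l.head? = some e → l.getLast? = some e₁ → z ∈ blk Bl e₁ →
      ninf (z - e.1) ≤ (l.map (De Dl)).sum
  | [], e, e₁, _, h, _, _ => by simp at h
  | [a], e, e₁, _, h, h', hz => by
    simp only [List.head?_cons, Option.some.injEq] at h
    simp only [List.getLast?_singleton, Option.some.injEq] at h'
    subst h h'
    have := blk_dist hD _ hz
    simp only [List.map_cons, List.map_nil, List.sum_cons, List.sum_nil]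
    omega
  | a :: b :: r, e, e₁, hc, h, h', hz => by
    simp only [List.head?_cons, Option.some.injEq] at h
    subst h
    rw [List.isChain_cons_cons] at hc
    have ih := chain_dist hD z (b :: r) b e₁ hc.2 rfl (by simpa using h') hz
    have h1 := nb_dist hD a hc.1
    have h2 : z - a.1 = (z - b.1) + (b.1 - a.1) := by abel
    have h3 := ninf_add (z - b.1) (b.1 - a.1)
    rw [List.map_cons, List.sum_cons, h2]
    omega

noncomputable def states (J : ℕ) : Finset (Sp ⊕ ℕ) := (univ : Finset Sp).disjSum (range J)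

theorem inl_mem_states (J : ℕ) (c : Sp) : Sum.inl c ∈ states J := by simp [states]

theorem inr_mem_states {J j : ℕ} : Sum.inr j ∈ states J ↔ j < J := by simp [states]

theorem sum_states (J : ℕ) (f : Sp ⊕ ℕ → ℝ) :
    ∑ s ∈ states J, f s = (∑ c, f (Sum.inl c)) + ∑ j ∈ range J, f (Sum.inr j) := by
  unfold states
  rw [Finset.sum_disjSum]

/-- potential -/
noncomputable def Hp (h : ℕ → ℝ) (e : El d N) : ℝ :=
  match e.2 with
  | Sum.inl _ => 1
  | Sum.inr j => h j

noncomputable def nxt (Bl : ℕ → Finset (TV d N)) (J : ℕ) (e : El d N) : Finset (El d N) :=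
  (nb Bl e) ×ˢ (states J)

theorem nb_good_card {Bl : ℕ → Finset (TV d N)} (x : TV d N) (c : Sp) :
    (nb Bl (x, Sum.inl c)).card ≤ 2 * d := by
  have h : nb Bl (x, Sum.inl c) ⊆ (univ : Finset (Fin d × Bool)).image
      (fun p => if p.2 then x + ev p.1 1 else x - ev p.1 1) := by
    intro z hz
    unfold nb at hz
    rw [mem_filter] at hz
    obtain ⟨-, w, hw, i, hi⟩ := hz
    simp only [blk, mem_singleton] at hw
    rw [hw] at hi
    rw [mem_image]
    rcases hi with hi | hi
    · exact ⟨(i, true), mem_univ _, by simp [hi]⟩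
    · exact ⟨(i, false), mem_univ _, by simp [hi]⟩
  refine (Finset.card_le_card h).trans (Finset.card_image_le.trans ?_)
  rw [card_univ, Fintype.card_prod, Fintype.card_fin, Fintype.card_bool, mul_comm]

theorem ConnT.theta {ω : TE d N → Fin 3} {σ : TV d N → Sp}
    (hc : ∀ e, 1 ≤ ω e → (σ (tsrc e)).1 = (σ (ttgt e)).1) {x y : TV d N} (h : ConnT 1 ω x y) :
    (σ x).1 = (σ y).1 := by
  induction h with
  | refl => rfl
  | tail _ h ih =>
    obtain ⟨e, he, h | h⟩ := h
    · rw [ih, h.1, h.2]; exact hc e he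
    · rw [ih, h.1, h.2]; exact (hc e he).symm

/-- Exponential decay of the connectivity by chains. -/
theorem chain_bound [NeZero d] (hN : 3 ≤ N) {β J₁ J₂ : ℝ} (hβ : 0 < β) (h1 : 0 < J₁)
    (h2 : J₁ < J₂)
    {Good : (TV d N → Sp) → TV d N → Prop} {Bad : ℕ → (TV d N → Sp) → TV d N → Prop}
    {Bl : ℕ → Finset (TV d N)} (h0 : ∀ j, (0 : TV d N) ∈ Bl j) {ρ : ℝ} (hρ : 0 ≤ ρ) {J : ℕ}
    {b κ : ℕ → ℝ} (hb : ∀ j, 0 ≤ b j) (hκ : ∀ j, 0 ≤ κ j) (hκ1 : ∑ j ∈ range J, κ j ≤ 1)
    (HG : ∀ (c : TV d N → Sp) (V : Finset (TV d N)), (∀ x ∈ V, ∀ y ∈ V, (c x).1 = (c y).1) →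
      SP (k2 d β J₁) (k4 d β J₁ J₂) (fun σ => ∀ x ∈ V, σ x = c x ∧ Good σ x) ≤ ρ ^ V.card)
    (HB : ∀ j < J, ∀ Y : Finset (TV d N),
      (∀ y ∈ Y, ∀ y' ∈ Y, y ≠ y' → y' - y ∉ Bl j ∨ y - y' ∉ Bl j) →
      SP (k2 d β J₁) (k4 d β J₁ J₂) (fun σ => ∀ y ∈ Y, Bad j σ y) ≤ b j ^ Y.card)
    {Dl : ℕ → ℕ} (hD : ∀ j, ∀ z ∈ Bl j, ninf z + 1 ≤ Dl j)
    {Nb : ℕ → ℝ} (hNb : ∀ j < J, ∀ x, ((nb Bl (x, Sum.inr j)).card : ℝ) ≤ Nb j)
    {α q ρ' Sb : ℝ} (hα : 0 ≤ α) (hq0 : 0 < q) (hq1 : q < 1)
    (hρ' : ρ' = ρ ^ (1 - ∑ j ∈ range J, κ j) * Real.exp α) (hρ1 : ρ' ≤ 1)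
    (hNb1 : ∀ j < J, 1 ≤ Nb j)
    (hSb : Sb = ∑ j ∈ range J, b j ^ κ j * Real.exp (α * Dl j) * (5 * Nb j / q))
    (hSb1 : Sb ≤ 1) (hstep : 4 * k4 d β J₁ J₂ * ρ' + 2 * d * Sb ≤ q) (x : TV d N) (n : ℕ) :
    JP β J₁ J₂ (fun ω σ => (∀ y, Good σ y ∨ ∃ j < J, Bad j σ y) ∧
      ∃ z, n ≤ ninf (z - x) ∧ ConnT 1 ω x z) ≤ 5 / (1 - q) * Real.exp (-(α * n)) := by
  have hd : 0 < d := Nat.pos_of_ne_zero (NeZero.ne d)
  have hdR : (0 : ℝ) < d := by exact_mod_cast hd
  set P := β * J₂ with hPdef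
  set Q := β * (J₂ - J₁) with hQdef
  have hP : 0 ≤ P := mul_nonneg hβ.le (by linarith)
  have hQ : 0 ≤ Q := mul_nonneg hβ.le (by linarith)
  set v : El d N → ℝ := fun e => v0 (ρ ^ (1 - ∑ j ∈ range J, κ j)) (fun j => b j ^ κ j) e *
    Real.exp (α * De Dl e) with hv
  have hv0 : ∀ e, 0 ≤ v e := fun e =>
    mul_nonneg (v0_nonneg (Real.rpow_nonneg hρ _) (fun j => Real.rpow_nonneg (hb j) _) e)
      (Real.exp_pos _).le
  have hvl : ∀ (x : TV d N) (c : Sp), v (x, Sum.inl c) = ρ' := by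
    intro x c
    rw [hρ']
    simp [hv, v0, De]
  have hvr : ∀ (x : TV d N) (j : ℕ), v (x, Sum.inr j) = b j ^ κ j * Real.exp (α * Dl j) := by
    intro x j
    simp [hv, v0, De]
  have hρ'0 : 0 ≤ ρ' := by
    rw [hρ']; exact mul_nonneg (Real.rpow_nonneg hρ _) (Real.exp_pos _).le
  have hs0 : ∀ e e' : El d N, 0 ≤ sf P Q e e' := sf_nonneg hP hQ
  set H : El d N → ℝ := Hp (fun j => 5 * Nb j / q) with hH
  have hHl : ∀ (x : TV d N) (c : Sp), H (x, Sum.inl c) = 1 := fun _ _ => rfl
  have hHr : ∀ (x : TV d N) (j : ℕ), H (x, Sum.inr j) = 5 * Nb j / q := fun _ _ => rfl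
  have hSb0 : 0 ≤ Sb := by
    rw [hSb]
    apply Finset.sum_nonneg
    intro j hj
    have := hNb1 j (mem_range.mp hj)
    have h5 := Real.rpow_nonneg (hb j) (κ j)
    positivity
  -- the index set
  set Lm := Fintype.card (TV d N) with hLm
  set S : Finset (List (El d N)) := (states J).biUnion (fun s =>
    (range Lm).biUnion (fun L => Ls (nxt Bl J) L (x, s))) with hS
  -- deterministic constraints
  let Det : List (El d N) → Prop := fun l =>
    l.Pairwise (fun e e' => e'.1 ∉ blk Bl e) ∧ (∀ x j, (x, Sum.inr j) ∈ l → j < J) ∧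
    (∀ x c x' c', (x, Sum.inl c) ∈ l → (x', Sum.inl c') ∈ l → c.1 = c'.1) ∧
    l.IsChain (fun e e' => e'.1 ∈ nb Bl e) ∧ n ≤ (l.map (De Dl)).sum
  have hunion : JP β J₁ J₂ (fun ω σ => (∀ y, Good σ y ∨ ∃ j < J, Bad j σ y) ∧
      ∃ z, n ≤ ninf (z - x) ∧ ConnT 1 ω x z) ≤
      ∑ l ∈ S, JP β J₁ J₂ (fun ω σ => Det l ∧ (SpinOK Good Bad l σ ∧ l.IsChain (Stp Bl ω))) := by
    apply JP_union hβ h1 h2
    rintro ω σ hc ⟨hgb, z, hz, hcon⟩
    let pick : TV d N → Sp ⊕ ℕ := fun y =>
      if Good σ y then Sum.inl (σ y) else if h : ∃ j < J, Bad j σ y then Sum.inr h.choose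
        else Sum.inr 0
    have hp1 : ∀ y c, Sum.inl c = pick y → Good σ y ∧ c = σ y := by
      intro y c h
      simp only [pick] at h
      split_ifs at h with h3 h4
      exact ⟨h3, Sum.inl.inj h⟩
    have hp2 : ∀ y j, Sum.inr j = pick y → j < J ∧ Bad j σ y := by
      intro y j h
      simp only [pick] at h
      split_ifs at h with h3 h4
      · rw [Sum.inr.inj h]
        exact h4.choose_spec
      · rcases hgb y with h5 | h5
        · exact absurd h5 h3
        · exact absurd h5 h4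
    have hst : ∀ y, pick y ∈ states J := by
      intro y
      rcases hpy : pick y with c | j
      · exact inl_mem_states J c
      · exact inr_mem_states.mpr (hp2 y j hpy.symm).1
    obtain ⟨l, l1, l2, l3, l4, e₁, l5, l6⟩ := chain_exists h0 ω z pick _ ∅ x le_rfl
      ⟨by simp, Relation.ReflTransGen.mono (fun u v h => ⟨h, by simp⟩) _ _ hcon⟩
    have l4' : l.IsChain (fun e e' => e'.1 ∈ nb Bl e) := l4.imp (fun e e' h => h.1)
    refine ⟨l, ?_, ⟨l3, ?_, ?_, l4', ?_⟩, ⟨?_, ?_⟩, l4⟩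
    · -- membership
      have hlen : l.length ≤ Lm := by
        have hnd : (l.map Prod.fst).Nodup := by
          rw [List.Nodup, List.pairwise_map]
          refine l3.imp ?_
          intro e e' h heq
          apply h
          rw [← heq]
          exact mem_blk_self h0 e
        have := List.Nodup.length_le_card hnd
        rwa [List.length_map] at this
      have hlen0 : l.length ≠ 0 := by
        intro h
        rw [List.length_eq_zero_iff] at h
        rw [h] at l1
        simp at l1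
      rw [hS, mem_biUnion]
      refine ⟨pick x, hst x, ?_⟩
      rw [mem_biUnion]
      refine ⟨l.length - 1, mem_range.mpr (by omega), ?_⟩
      apply mem_Ls _ _ _ l1 (by omega)
      refine l4.imp_of_mem_imp ?_
      intro e e' _ he' hstp
      unfold nxt
      rw [mem_product]
      refine ⟨hstp.1, ?_⟩
      rw [(l2 e' he').1]
      exact hst _
    · intro y j hy
      exact (hp2 y j (l2 _ hy).1).1
    · intro y c y' c' hy hy'
      have a1 := (hp1 y c (l2 _ hy).1).2
      have a2 := (hp1 y' c' (l2 _ hy').1).2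
      have a3 := ConnT.theta hc (l2 _ hy).2.2
      have a4 := ConnT.theta hc (l2 _ hy').2.2
      rw [a1, a2]
      exact a3.trans a4.symm
    · exact hz.trans (chain_dist hD z l _ e₁ l4' l1 l5 l6)
    · intro y c hy
      have a1 := hp1 y c (l2 _ hy).1
      exact ⟨a1.2.symm, a1.1⟩
    · intro y j hy
      exact (hp2 y j (l2 _ hy).1).2
  -- bound of one chain
  have hone : ∀ l ∈ S, JP β J₁ J₂
      (fun ω σ => Det l ∧ (SpinOK Good Bad l σ ∧ l.IsChain (Stp Bl ω))) ≤
      Real.exp (-(α * n)) * Wl v (sf P Q) l := by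
    intro l _
    by_cases hdet : Det l
    · have hdet' := hdet
      obtain ⟨d1, d2, d3, d4, d5⟩ := hdet'
      have e1 : JP β J₁ J₂
          (fun ω σ => Det l ∧ (SpinOK Good Bad l σ ∧ l.IsChain (Stp Bl ω))) =
          JP β J₁ J₂ (fun ω σ => SpinOK Good Bad l σ ∧ l.IsChain (Stp Bl ω)) := by
        congr 1
        funext ω σ
        simp only [hdet, true_and]
      rw [e1]
      refine (chain_prob hN hβ h1 h2 h0 hρ hb hκ hκ1 HG HB l d1 d2 d3 d4).trans ?_
      rw [Wl_eq]
      have e2 : ∀ l : List (El d N), (l.map v).prod =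
          (l.map (v0 (ρ ^ (1 - ∑ j ∈ range J, κ j)) (fun j => b j ^ κ j))).prod *
            Real.exp (α * (l.map (De Dl)).sum) := by
        intro l
        induction l with
        | nil => simp
        | cons a l ih =>
          simp only [List.map_cons, List.prod_cons, List.sum_cons]
          rw [ih]
          push_cast
          rw [mul_add, Real.exp_add]
          simp only [hv]
          ring
      have e3 : 0 ≤ (l.map (v0 (ρ ^ (1 - ∑ j ∈ range J, κ j)) (fun j => b j ^ κ j))).prod := by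
        apply List.prod_nonneg
        intro a ha
        rw [List.mem_map] at ha
        obtain ⟨e, _, rfl⟩ := ha
        exact v0_nonneg (Real.rpow_nonneg hρ _) (fun j => Real.rpow_nonneg (hb j) _) e
      have e4 : 1 ≤ Real.exp (-(α * n)) * Real.exp (α * (l.map (De Dl)).sum) := by
        rw [← Real.exp_add]
        apply Real.one_le_exp
        have : (n : ℝ) ≤ ((l.map (De Dl)).sum : ℕ) := by exact_mod_cast d5
        nlinarith
      have e5 := mul_nonneg (Sl_nonneg hP hQ l) e3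
      rw [e2]
      calc _ ≤ (Sl P Q l * (l.map (v0 (ρ ^ (1 - ∑ j ∈ range J, κ j))
            (fun j => b j ^ κ j))).prod) *
              (Real.exp (-(α * n)) * Real.exp (α * (l.map (De Dl)).sum)) :=
            le_mul_of_one_le_right e5 e4
        _ = _ := by ring
    · have e1 : JP β J₁ J₂
          (fun ω σ => Det l ∧ (SpinOK Good Bad l σ ∧ l.IsChain (Stp Bl ω))) = 0 := by
        unfold JP Ex
        simp only [hdet, false_and]
        have : ind False = 0 := ind_neg (fun h => h)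
        simp [this]
      rw [e1]
      exact mul_nonneg (Real.exp_pos _).le (Wl_nonneg hv0 hs0 l)
  -- step inequality
  have hstep' : ∀ e : El d N, e.2 ∈ states J →
      ∑ e' ∈ nxt Bl J e, sf P Q e e' * (v e' * H e') ≤ q * H e := by
    rintro ⟨y, c | j⟩ he
    · unfold nxt
      rw [Finset.sum_product]
      have e1 : ∀ y' ∈ nb Bl (y, Sum.inl c), ∑ s ∈ states J,
          sf P Q (y, Sum.inl c) (y', s) * (v (y', s) * H (y', s)) = (P + Q) * ρ' + Sb := by
        intro y' _
        rw [sum_states]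
        simp only [hvl, hvr, hHl, hHr, mul_one]
        have e2 : ∀ c' : Sp, sf P Q (y, Sum.inl c) (y', Sum.inl c') = rr P Q c c' :=
          fun _ => rfl
        have e3 : ∀ j : ℕ, sf P Q (y, Sum.inl c) (y', Sum.inr j) = 1 := fun _ => rfl
        simp only [e2, e3, one_mul]
        rw [← Finset.sum_mul, rr_sum, hSb]
      rw [Finset.sum_congr rfl e1, Finset.sum_const, nsmul_eq_mul, hHl, mul_one]
      have e4 : ((nb Bl (y, Sum.inl c)).card : ℝ) ≤ 2 * d := by
        exact_mod_cast nb_good_card y c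
      calc _ ≤ (2 * d) * ((P + Q) * ρ' + Sb) := by
            apply mul_le_mul_of_nonneg_right e4
            positivity
        _ = 4 * k4 d β J₁ J₂ * ρ' + 2 * d * Sb := by
            rw [hPdef, hQdef]; unfold k4; ring
        _ ≤ q := hstep
    · have hj : j < J := inr_mem_states.mp he
      unfold nxt
      rw [Finset.sum_product]
      have e1 : ∀ y' ∈ nb Bl (y, Sum.inr j), ∑ s ∈ states J,
          sf P Q (y, Sum.inr j) (y', s) * (v (y', s) * H (y', s)) = 4 * ρ' + Sb := by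
        intro y' _
        rw [sum_states]
        simp only [hvl, hvr, hHl, hHr, mul_one]
        have e2 : ∀ c' : Sp, sf P Q (y, Sum.inr j) (y', Sum.inl c') = 1 :=
          fun _ => rfl
        have e3 : ∀ j' : ℕ, sf P Q (y, Sum.inr j) (y', Sum.inr j') = 1 := fun _ => rfl
        simp only [e2, e3, one_mul]
        rw [← hSb]
        simp
      rw [Finset.sum_congr rfl e1, Finset.sum_const, nsmul_eq_mul, hHr]
      have e4 := hNb j hj y
      have e5 := hNb1 j hj
      calc _ ≤ Nb j * (4 * ρ' + Sb) := by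
            apply mul_le_mul_of_nonneg_right e4
            positivity
        _ ≤ Nb j * 5 := by
            apply mul_le_mul_of_nonneg_left _ (by linarith)
            linarith
        _ = q * (5 * Nb j / q) := by field_simp
  have hsum : ∀ s ∈ states J, ∀ L, ∑ l ∈ Ls (nxt Bl J) L (x, s), Wl v (sf P Q) l ≤
      v (x, s) * H (x, s) * q ^ L := by
    intro s hs L
    apply sum_Ls_le hv0 hs0 hq0.le (ok := fun e => e.2 ∈ states J)
    · intro e _ e' he'
      unfold nxt at he'
      exact (mem_product.mp he').2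
    · rintro ⟨y, c | j⟩ he
      · exact le_rfl
      · have hj : j < J := inr_mem_states.mp he
        have := hNb1 j hj
        show 1 ≤ 5 * Nb j / q
        rw [le_div_iff₀ hq0]
        linarith
    · exact hstep'
    · exact hs
  have hW0 : ∀ l, 0 ≤ Wl v (sf P Q) l := Wl_nonneg hv0 hs0
  have htot : ∑ l ∈ S, Wl v (sf P Q) l ≤ 5 / (1 - q) := by
    calc ∑ l ∈ S, Wl v (sf P Q) l ≤ ∑ s ∈ states J, ∑ L ∈ range Lm,
          ∑ l ∈ Ls (nxt Bl J) L (x, s), Wl v (sf P Q) l := by
          refine (sum_biUnion_le _ _ _ hW0).trans ?_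
          exact Finset.sum_le_sum fun s _ => sum_biUnion_le _ _ _ hW0
      _ ≤ ∑ s ∈ states J, ∑ L ∈ range Lm, v (x, s) * H (x, s) * q ^ L :=
          Finset.sum_le_sum fun s hs => Finset.sum_le_sum fun L _ => hsum s hs L
      _ = (∑ s ∈ states J, v (x, s) * H (x, s)) * ∑ L ∈ range Lm, q ^ L := by
          rw [Finset.sum_mul]
          exact Finset.sum_congr rfl fun s _ => by rw [Finset.mul_sum]
      _ = (4 * ρ' + Sb) * ∑ L ∈ range Lm, q ^ L := by
          rw [sum_states]
          simp only [hvl, hvr, hHl, hHr, mul_one]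
          rw [← hSb]
          simp
      _ ≤ 5 * (1 / (1 - q)) := by
          have e6 : ∑ L ∈ range Lm, q ^ L ≤ 1 / (1 - q) := by
            rw [geom_sum_eq hq1.ne, ← neg_div_neg_eq]
            have h3 : 0 < 1 - q := by linarith
            rw [show -(q - 1) = 1 - q by ring]
            apply div_le_div_of_nonneg_right _ h3.le
            have := pow_nonneg hq0.le Lm
            linarith
          apply mul_le_mul (by linarith) e6
          · exact Finset.sum_nonneg fun L _ => pow_nonneg hq0.le L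
          · norm_num
      _ = _ := by ring
  calc _ ≤ ∑ l ∈ S, JP β J₁ J₂
          (fun ω σ => Det l ∧ (SpinOK Good Bad l σ ∧ l.IsChain (Stp Bl ω))) := hunion
    _ ≤ ∑ l ∈ S, Real.exp (-(α * n)) * Wl v (sf P Q) l := Finset.sum_le_sum hone
    _ = Real.exp (-(α * n)) * ∑ l ∈ S, Wl v (sf P Q) l := by rw [Finset.mul_sum]
    _ ≤ Real.exp (-(α * n)) * (5 / (1 - q)) :=
        mul_le_mul_of_nonneg_left htot (Real.exp_pos _).le
    _ = _ := by ring

end Run7.h165
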