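import Mathlib

/-!
Definitions for the Ashkin–Teller random-cluster model on `ℤ^d`.
-/

namespace Run7.h165

open MeasureTheory Filter Topology
open scoped Classical

/-- An edge of the hypercubic lattice `ℤ^d`: the pair `(x, i)` stands for the nearest-neighbour
edge `{x, x + e_i}`. -/
abbrev Edge (d : ℕ) : Type := (Fin d → ℤ) × Fin d

/-- The first endpoint of an edge. -/
def esrc {d : ℕ} (e : Edge d) : Fin d → ℤ := e.1

/-- The second endpoint of an edge. -/
def etgt {d : ℕ} (e : Edge d) : Fin d → ℤ := e.1 + Pi.single e.2 1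

/-- Configurations `ω ∈ {0, 1, 2}^E`. -/
abbrev Config (d : ℕ) : Type := Edge d → Fin 3

/-- The subgraph of `ℤ^d` formed by the edges with `ω(e) ≥ t`
(`t = 1`: the edges of type 1/2; `t = 2`: the edges of type 2). -/
def openGraph {d : ℕ} (t : Fin 3) (ω : Config d) : SimpleGraph (Fin d → ℤ) where
  Adj x y := ∃ e : Edge d, t ≤ ω e ∧
    ((x = esrc e ∧ y = etgt e) ∨ (x = etgt e ∧ y = esrc e))
  symm := ⟨by
    rintro x y ⟨e, h, h'⟩
    exact ⟨e, h, h'.symm.imp (fun a => ⟨a.2, a.1⟩) (fun a => ⟨a.2, a.1⟩)⟩⟩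
  loopless := ⟨by
    rintro x ⟨e, -, h⟩
    have : esrc e = etgt e := by
      rcases h with ⟨h1, h2⟩ | ⟨h1, h2⟩
      · exact h1.symm.trans h2
      · exact h2.symm.trans h1
    have h3 := congrFun this e.2
    simp [esrc, etgt] at h3⟩

/-- There is an infinite cluster of the edges with `ω(e) ≥ t`. -/
def HasInfCluster {d : ℕ} (t : Fin 3) (ω : Config d) : Prop :=
  ∃ x : Fin d → ℤ, {y | (openGraph t ω).Reachable x y}.Infinite

/-- The box `Λ_n = {-n, …, n}^d`. -/
noncomputable def box (d n : ℕ) : Finset (Fin d → ℤ) := Fintype.piFinset fun _ => Finset.Icc (-(n : ℤ)) n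

/-- The edges with both endpoints in the box `Λ_n`. -/
noncomputable def boxEdges (d n : ℕ) : Finset (Edge d) :=
  ((box d n) ×ˢ (Finset.univ : Finset (Fin d))).filter (fun e => etgt e ∈ box d n)

/-- Extension by `0` of a configuration on the edges of the box `Λ_n`. -/
noncomputable def extend0 {d n : ℕ} (ω : boxEdges d n → Fin 3) : Config d :=
  fun e => if h : e ∈ boxEdges d n then ω ⟨e, h⟩ else 0

/-- The number `k(F)` of connected components of the graph `(Λ_n, F)`,
`F` the set of the edges of the box with `ω(e) ≥ t`. -/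
noncomputable def numComp {d n : ℕ} (t : Fin 3) (ω : boxEdges d n → Fin 3) : ℕ :=
  Nat.card (((openGraph t (extend0 ω)).induce (box d n : Set (Fin d → ℤ))).ConnectedComponent)

/-- The parameters `p₀ = e^{-βJ₂}`, `p₁ = e^{-βJ₁} - e^{-βJ₂}`, `p₂ = 1 - e^{-βJ₁}`. -/
noncomputable def par (β J₁ J₂ : ℝ) : Fin 3 → ℝ :=
  ![Real.exp (-β * J₂), Real.exp (-β * J₁) - Real.exp (-β * J₂), 1 - Real.exp (-β * J₁)]

/-- The weight `p₀^{|η₀|} p₁^{|η₁|} p₂^{|η₂|} 2^{k(η₁ ∪ η₂) + k(η₂)}` on the box `Λ_n`. -/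
noncomputable def boxWeight (d n : ℕ) (β J₁ J₂ : ℝ) (ω : boxEdges d n → Fin 3) : ℝ :=
  (∏ e, par β J₁ J₂ (ω e)) * 2 ^ (numComp 1 ω + numComp 2 ω)

/-- The Ashkin–Teller random-cluster measure `φ_{Λ_n, p}`, as a measure on the configurations on
`ℤ^d` (all edges outside the box have the value `0`). -/
noncomputable def boxMeasure (d n : ℕ) (β J₁ J₂ : ℝ) : Measure (Config d) :=
  ∑ ω : boxEdges d n → Fin 3,
    ENNReal.ofReal (boxWeight d n β J₁ J₂ ω / ∑ ω', boxWeight d n β J₁ J₂ ω') •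
      Measure.dirac (extend0 ω)

/-- `μ` is the weak limit of the measures `φ_{Λ_n, p}` as `n → ∞`: it is a probability measure
and the integrals of bounded continuous functions converge. -/
def IsWeakLimit (d : ℕ) (β J₁ J₂ : ℝ) (μ : Measure (Config d)) : Prop :=
  IsProbabilityMeasure μ ∧ ∀ f : BoundedContinuousFunction (Config d) ℝ,
    Tendsto (fun n => ∫ ω, f ω ∂(boxMeasure d n β J₁ J₂)) atTop (𝓝 (∫ ω, f ω ∂μ))

/-- The set of `β > 0` such that almost surely there is an infinite cluster of the edges with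
`ω(e) ≥ t` in the weak limit of the measures `φ_{Λ_n, p}`. -/
def percSet (d : ℕ) (J₁ J₂ : ℝ) (t : Fin 3) : Set ℝ :=
  {β | 0 < β ∧ ∀ μ, IsWeakLimit d β J₁ J₂ μ → ∀ᵐ ω ∂μ, HasInfCluster t ω}

/-- The threshold `β_t`. -/
noncomputable def betaThreshold (d : ℕ) (J₁ J₂ : ℝ) (t : Fin 3) : ℝ := sInf (percSet d J₁ J₂ t)

end Run7.h165
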