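import Pool.Agent.Run7.h165.Spin

/-!
The joint (Edwards–Sokal) weight of edges and spins.
-/

namespace Run7.h165

open Finset
open scoped Classical

section general

variable {V E : Type*} [Fintype V] [DecidableEq V] [Fintype E] [DecidableEq E]

/-- compatibility of the spins at the endpoints of an edge with the state of the edge -/
def cmpE (i : Fin 3) (c c' : Sp) : Prop := (1 ≤ i → c.1 = c'.1) ∧ (2 ≤ i → c.2 = c'.2)

noncomputable def ew (p : Fin 3 → ℝ) (i : Fin 3) (c c' : Sp) : ℝ := p i * ind (cmpE i c c')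

/-- joint weight -/
noncomputable def jw (s t : E → V) (p : Fin 3 → ℝ) (ω : E → Fin 3) (σ : V → Sp) : ℝ :=
  ∏ e, ew p (ω e) (σ (s e)) (σ (t e))

theorem ew_nonneg {p : Fin 3 → ℝ} (hp : ∀ i, 0 < p i) (i : Fin 3) (c c' : Sp) :
    0 ≤ ew p i c c' := mul_nonneg (hp i).le (ind_nonneg _)

omit [Fintype V] [DecidableEq V] [DecidableEq E] in
theorem jw_nonneg (s t : E → V) {p : Fin 3 → ℝ} (hp : ∀ i, 0 < p i) (ω : E → Fin 3)
    (σ : V → Sp) : 0 ≤ jw s t p ω σ := Finset.prod_nonneg fun e _ => ew_nonneg hp _ _ _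

omit [Fintype V] [DecidableEq V] [DecidableEq E] in
theorem prod_ind {ι : Type*} (S : Finset ι) (P : ι → Prop) :
    ∏ e ∈ S, ind (P e) = ind (∀ e ∈ S, P e) := by
  by_cases h : ∀ e ∈ S, P e
  · rw [ind_pos h]
    exact Finset.prod_eq_one fun e he => ind_pos (h e he)
  · rw [ind_neg h]
    push Not at h
    obtain ⟨e, he, h⟩ := h
    exact Finset.prod_eq_zero he (ind_neg h)

omit [Fintype V] [DecidableEq V] [DecidableEq E] in
theorem jw_eq (s t : E → V) (p : Fin 3 → ℝ) (ω : E → Fin 3) (σ : V → Sp) :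
    jw s t p ω σ = (∏ e, p (ω e)) * (ind (∀ e, 1 ≤ ω e → (σ (s e)).1 = (σ (t e)).1) *
      ind (∀ e, 2 ≤ ω e → (σ (s e)).2 = (σ (t e)).2)) := by
  unfold jw ew
  rw [Finset.prod_mul_distrib, prod_ind, ← ind_and]
  congr 2
  apply propext
  unfold cmpE
  constructor
  · intro h
    exact ⟨fun e => (h e (mem_univ _)).1, fun e => (h e (mem_univ _)).2⟩
  · intro h e _
    exact ⟨h.1 e, h.2 e⟩

omit [Fintype V] [DecidableEq V] [DecidableEq E] in
theorem jw_supp (s t : E → V) (p : Fin 3 → ℝ) {ω : E → Fin 3} {σ : V → Sp}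
    (h : jw s t p ω σ ≠ 0) (e : E) (he : 1 ≤ ω e) : (σ (s e)).1 = (σ (t e)).1 := by
  rw [jw_eq] at h
  by_contra hcon
  apply h
  rw [ind_neg (P := ∀ e, 1 ≤ ω e → (σ (s e)).1 = (σ (t e)).1) (fun h' => hcon (h' e he))]
  simp

omit [DecidableEq E] in
theorem sum_jw_spin (s t : E → V) (p : Fin 3 → ℝ) (ω : E → Fin 3) :
    ∑ σ : V → Sp, jw s t p ω σ = wt s t p ω := by
  simp only [jw_eq]
  rw [← Finset.mul_sum]
  have e1 : ∑ σ : V → Sp, ind (∀ e, 1 ≤ ω e → (σ (s e)).1 = (σ (t e)).1) *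
      ind (∀ e, 2 ≤ ω e → (σ (s e)).2 = (σ (t e)).2) =
      (∑ θ : V → Bool, ind (∀ e, 1 ≤ ω e → θ (s e) = θ (t e))) *
        ∑ τ : V → Bool, ind (∀ e, 2 ≤ ω e → τ (s e) = τ (t e)) := by
    rw [← Equiv.sum_comp (Equiv.arrowProdEquivProdArrow V (fun _ => Bool) (fun _ => Bool)).symm
      (fun σ : V → Sp => ind (∀ e, 1 ≤ ω e → (σ (s e)).1 = (σ (t e)).1) *
      ind (∀ e, 2 ≤ ω e → (σ (s e)).2 = (σ (t e)).2)), Fintype.sum_prod_type,
      Finset.sum_mul_sum]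
    rfl
  have e2 : ∀ k : Fin 3, ∑ θ : V → Bool, ind (∀ e, k ≤ ω e → θ (s e) = θ (t e)) =
      (cc s t (fun e => k ≤ ω e) : ℝ) := by
    intro k
    unfold cc cmpSet Cmp ind
    rw [Finset.card_filter]
    push_cast
    exact Finset.sum_congr rfl fun θ _ => by congr
  rw [e1, e2 1, e2 2]
  unfold wt
  ring

omit [Fintype V] [DecidableEq V] in
theorem sum_jw_conf (s t : E → V) (p : Fin 3 → ℝ) (σ : V → Sp) :
    ∑ ω : E → Fin 3, jw s t p ω σ = ∏ e, ∑ i, ew p i (σ (s e)) (σ (t e)) := by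
  have := Finset.prod_univ_sum (fun _ : E => (univ : Finset (Fin 3)))
    (fun e i => ew p i (σ (s e)) (σ (t e)))
  rw [Fintype.piFinset_univ] at this
  rw [this]
  rfl

/-- bound of the conditional probability that an edge is open -/
noncomputable def rr (P Q : ℝ) (c c' : Sp) : ℝ := if c = c' then P else if c.1 = c'.1 then Q else 0

theorem rr_nonneg {P Q : ℝ} (hP : 0 ≤ P) (hQ : 0 ≤ Q) (c c' : Sp) : 0 ≤ rr P Q c c' := by
  unfold rr; split_ifs <;> first | assumption | exact le_rfl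

theorem rr_sum (P Q : ℝ) (c : Sp) : ∑ c', rr P Q c c' = P + Q := by
  obtain ⟨c1, c2⟩ := c
  unfold rr
  simp only [Fintype.sum_prod_type, Fintype.sum_bool]
  cases c1 <;> cases c2 <;> simp <;> ring

theorem ew_open_le {p : Fin 3 → ℝ} {P Q : ℝ}
    (hPQ1 : p 1 + p 2 ≤ P * (p 0 + p 1 + p 2)) (hPQ2 : p 1 ≤ Q * (p 0 + p 1)) (c c' : Sp) :
    ∑ i, ew p i c c' * ind (1 ≤ i) ≤ rr P Q c c' * ∑ i, ew p i c c' := by
  rw [Fin.sum_univ_three, Fin.sum_univ_three]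
  have i0 : ind ((1 : Fin 3) ≤ 0) = 0 := ind_neg (by decide)
  have i1 : ind ((1 : Fin 3) ≤ 1) = 1 := ind_pos (by decide)
  have i2 : ind ((1 : Fin 3) ≤ 2) = 1 := ind_pos (by decide)
  rw [i0, i1, i2]
  have c0 : ind (cmpE 0 c c') = 1 := ind_pos (by
    refine ⟨fun h => ?_, fun h => ?_⟩
    · exact absurd h (by decide)
    · exact absurd h (by decide))
  unfold ew rr
  rw [c0]
  by_cases h : c = c'
  · subst h
    have c1 : ind (cmpE 1 c c) = 1 := ind_pos ⟨fun _ => rfl, fun _ => rfl⟩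
    have c2 : ind (cmpE 2 c c) = 1 := ind_pos ⟨fun _ => rfl, fun _ => rfl⟩
    rw [c1, c2, if_pos rfl]
    linarith
  · rw [if_neg h]
    by_cases h1 : c.1 = c'.1
    · have h2 : c.2 ≠ c'.2 := fun h2 => h (Prod.ext h1 h2)
      have c1 : ind (cmpE 1 c c') = 1 := ind_pos ⟨fun _ => h1, fun h => absurd h (by decide)⟩
      have c2 : ind (cmpE 2 c c') = 0 := ind_neg (fun h => h2 (h.2 le_rfl))
      rw [c1, c2, if_pos h1]
      linarith
    · have c1 : ind (cmpE 1 c c') = 0 := ind_neg (fun h => h1 (h.1 le_rfl))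
      have c2 : ind (cmpE 2 c c') = 0 := ind_neg (fun h => h1 (h.1 (by decide)))
      rw [c1, c2, if_neg h1]
      linarith

omit [Fintype V] [DecidableEq V] in
/-- open edges given the spins -/
theorem sum_jw_open (s t : E → V) {p : Fin 3 → ℝ} (hp : ∀ i, 0 < p i) {P Q : ℝ}
    (hPQ1 : p 1 + p 2 ≤ P * (p 0 + p 1 + p 2)) (hPQ2 : p 1 ≤ Q * (p 0 + p 1)) (F : Finset E)
    (σ : V → Sp) :
    ∑ ω : E → Fin 3, jw s t p ω σ * ind (∀ f ∈ F, 1 ≤ ω f) ≤
      (∏ f ∈ F, rr P Q (σ (s f)) (σ (t f))) * ∑ ω : E → Fin 3, jw s t p ω σ := by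
  have e1 : ∀ ω : E → Fin 3, jw s t p ω σ * ind (∀ f ∈ F, 1 ≤ ω f) =
      ∏ e, (ew p (ω e) (σ (s e)) (σ (t e)) * (if e ∈ F then ind (1 ≤ ω e) else 1)) := by
    intro ω
    rw [Finset.prod_mul_distrib]
    congr 1
    rw [← prod_ind, Finset.prod_ite_mem, univ_inter]
  simp only [e1]
  have e2 := Finset.prod_univ_sum (fun _ : E => (univ : Finset (Fin 3)))
    (fun e i => ew p i (σ (s e)) (σ (t e)) * (if e ∈ F then ind (1 ≤ i) else 1))
  rw [Fintype.piFinset_univ] at e2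
  rw [← e2, sum_jw_conf]
  have e3 : (∏ f ∈ F, rr P Q (σ (s f)) (σ (t f))) =
      ∏ e, (if e ∈ F then rr P Q (σ (s e)) (σ (t e)) else 1) := by
    rw [Finset.prod_ite_mem, univ_inter]
  rw [e3, ← Finset.prod_mul_distrib]
  apply Finset.prod_le_prod
  · intro e _
    apply Finset.sum_nonneg
    intro i _
    apply mul_nonneg (ew_nonneg hp _ _ _)
    split_ifs
    · exact ind_nonneg _
    · exact zero_le_one
  · intro e _
    by_cases he : e ∈ F
    · simp only [if_pos he]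
      exact ew_open_le hPQ1 hPQ2 _ _
    · simp only [if_neg he, mul_one, one_mul]
      exact le_rfl

end general

/-! ### The torus -/

variable {d N : ℕ} [NeZero N]

/-- the coupling `K₂` -/
noncomputable def k2 (d : ℕ) (β J₁ : ℝ) : ℝ := β * d * J₁ / 2

/-- the coupling `K₄` -/
noncomputable def k4 (d : ℕ) (β J₁ J₂ : ℝ) : ℝ := β * d * (J₂ - J₁ / 2)

theorem par_pos {β J₁ J₂ : ℝ} (hβ : 0 < β) (h1 : 0 < J₁) (h2 : J₁ < J₂) (i : Fin 3) :
    0 < par β J₁ J₂ i := by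
  unfold par
  fin_cases i
  · exact Real.exp_pos _
  · show 0 < Real.exp (-β * J₁) - Real.exp (-β * J₂)
    rw [sub_pos]
    apply Real.exp_lt_exp.mpr
    nlinarith
  · show 0 < 1 - Real.exp (-β * J₁)
    rw [sub_pos, Real.exp_lt_one_iff]
    nlinarith

theorem par_PQ1 {β J₁ J₂ : ℝ} :
    par β J₁ J₂ 1 + par β J₁ J₂ 2 ≤ (β * J₂) * (par β J₁ J₂ 0 + par β J₁ J₂ 1 + par β J₁ J₂ 2) := by
  have e0 : par β J₁ J₂ 0 = Real.exp (-β * J₂) := rfl
  have e1 : par β J₁ J₂ 1 = Real.exp (-β * J₁) - Real.exp (-β * J₂) := rfl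
  have e2 : par β J₁ J₂ 2 = 1 - Real.exp (-β * J₁) := rfl
  rw [e0, e1, e2]
  have := Real.add_one_le_exp (-β * J₂)
  nlinarith

theorem par_PQ2 {β J₁ J₂ : ℝ} :
    par β J₁ J₂ 1 ≤ (β * (J₂ - J₁)) * (par β J₁ J₂ 0 + par β J₁ J₂ 1) := by
  have e0 : par β J₁ J₂ 0 = Real.exp (-β * J₂) := rfl
  have e1 : par β J₁ J₂ 1 = Real.exp (-β * J₁) - Real.exp (-β * J₂) := rfl
  rw [e0, e1]
  have h1 : Real.exp (-β * J₂) = Real.exp (-β * J₁) * Real.exp (-(β * (J₂ - J₁))) := by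
    rw [← Real.exp_add]; congr 1; ring
  have h2 := Real.add_one_le_exp (-(β * (J₂ - J₁)))
  have h3 := Real.exp_pos (-β * J₁)
  have h4 := mul_le_mul_of_nonneg_left h2 h3.le
  rw [h1]
  linarith

/-- the joint probability -/
noncomputable def JP (β J₁ J₂ : ℝ) (A : (TE d N → Fin 3) → (TV d N → Sp) → Prop) : ℝ :=
  Ex (fun x : (TE d N → Fin 3) × (TV d N → Sp) => jw tsrc ttgt (par β J₁ J₂) x.1 x.2)
    (fun x => ind (A x.1 x.2))

/-- normalisation constant -/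
noncomputable def ecst (d N : ℕ) (β J₁ J₂ : ℝ) : ℝ :=
  Real.exp (-((N : ℝ) ^ d * d * (β * J₂ / 2 + β * J₁ / 4)))

theorem sum_ew_eq {β J₁ J₂ : ℝ} (hd : 0 < d) (c c' : Sp) :
    ∑ i, ew (par β J₁ J₂) i c c' = Real.exp (-(β * J₂ / 2 + β * J₁ / 4) +
      1 / (2 * (d : ℝ)) * ∑ a : Fin 3, Kv (k2 d β J₁) (k4 d β J₁ J₂) a * Sv c a * Sv c' a) := by
  have hdR : (d : ℝ) ≠ 0 := by exact_mod_cast hd.ne'
  have e0 : par β J₁ J₂ 0 = Real.exp (-β * J₂) := rfl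
  have e1 : par β J₁ J₂ 1 = Real.exp (-β * J₁) - Real.exp (-β * J₂) := rfl
  have e2 : par β J₁ J₂ 2 = 1 - Real.exp (-β * J₁) := rfl
  rw [Fin.sum_univ_three, Fin.sum_univ_three, Kv_zero, Kv_one, Kv_two]
  unfold ew
  have c0 : ind (cmpE 0 c c') = 1 := ind_pos (by
    refine ⟨fun h => ?_, fun h => ?_⟩
    · exact absurd h (by decide)
    · exact absurd h (by decide))
  rw [c0, e0, e1, e2]
  obtain ⟨c1, c2⟩ := c
  obtain ⟨c1', c2'⟩ := c'
  by_cases h1 : c1 = c1'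
  · by_cases h2 : c2 = c2'
    · have f1 : ind (cmpE 1 (c1, c2) (c1', c2')) = 1 := ind_pos ⟨fun _ => h1, fun _ => h2⟩
      have f2 : ind (cmpE 2 (c1, c2) (c1', c2')) = 1 := ind_pos ⟨fun _ => h1, fun _ => h2⟩
      rw [f1, f2]
      have g : Real.exp (-(β * J₂ / 2 + β * J₁ / 4) +
        1 / (2 * (d : ℝ)) * (k2 d β J₁ * Sv (c1, c2) 0 * Sv (c1', c2') 0 +
          k2 d β J₁ * Sv (c1, c2) 1 * Sv (c1', c2') 1 +
          k4 d β J₁ J₂ * Sv (c1, c2) 2 * Sv (c1', c2') 2)) = 1 := by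
        rw [← Real.exp_zero]
        congr 1
        subst h1 h2
        unfold k2 k4
        cases c1 <;> cases c2 <;> simp [sg] <;> field_simp <;> ring
      rw [g]; ring
    · have f1 : ind (cmpE 1 (c1, c2) (c1', c2')) = 1 :=
        ind_pos ⟨fun _ => h1, fun h => absurd h (by decide)⟩
      have f2 : ind (cmpE 2 (c1, c2) (c1', c2')) = 0 := ind_neg (fun h => h2 (h.2 le_rfl))
      rw [f1, f2]
      have g : Real.exp (-(β * J₂ / 2 + β * J₁ / 4) +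
        1 / (2 * (d : ℝ)) * (k2 d β J₁ * Sv (c1, c2) 0 * Sv (c1', c2') 0 +
          k2 d β J₁ * Sv (c1, c2) 1 * Sv (c1', c2') 1 +
          k4 d β J₁ J₂ * Sv (c1, c2) 2 * Sv (c1', c2') 2)) = Real.exp (-β * J₁) := by
        congr 1
        subst h1
        unfold k2 k4
        revert h2
        cases c1 <;> cases c2 <;> cases c2' <;> simp [sg] <;> field_simp <;> ring
      rw [g]; ring
  · have f1 : ind (cmpE 1 (c1, c2) (c1', c2')) = 0 := ind_neg (fun h => h1 (h.1 le_rfl))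
    have f2 : ind (cmpE 2 (c1, c2) (c1', c2')) = 0 := ind_neg (fun h => h1 (h.1 (by decide)))
    rw [f1, f2]
    have g : Real.exp (-(β * J₂ / 2 + β * J₁ / 4) +
        1 / (2 * (d : ℝ)) * (k2 d β J₁ * Sv (c1, c2) 0 * Sv (c1', c2') 0 +
          k2 d β J₁ * Sv (c1, c2) 1 * Sv (c1', c2') 1 +
          k4 d β J₁ J₂ * Sv (c1, c2) 2 * Sv (c1', c2') 2)) = Real.exp (-β * J₂) := by
      congr 1
      unfold k2 k4
      revert h1
      cases c1 <;> cases c2 <;> cases c1' <;> cases c2' <;> simp [sg] <;> field_simp <;> ring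
    rw [g]; ring

theorem sum_jw_conf_torus {β J₁ J₂ : ℝ} (hd : 0 < d) (σ : TV d N → Sp) :
    ∑ ω : TE d N → Fin 3, jw tsrc ttgt (par β J₁ J₂) ω σ =
      ecst d N β J₁ J₂ * sw (k2 d β J₁) (k4 d β J₁ J₂) σ := by
  rw [sum_jw_conf]
  simp only [sum_ew_eq hd]
  rw [← Real.exp_sum]
  unfold ecst sw Ham
  rw [← Real.exp_add]
  congr 1
  rw [Finset.sum_add_distrib, ← Finset.mul_sum]
  congr 1
  rw [Finset.sum_const, nsmul_eq_mul, card_univ, Fintype.card_prod, Fintype.card_fun, ZMod.card,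
    Fintype.card_fin]
  push_cast
  ring

theorem JP_conf {β J₁ J₂ : ℝ} (A : (TE d N → Fin 3) → Prop) :
    JP β J₁ J₂ (fun ω (_ : TV d N → Sp) => A ω) =
      Ex (wt (tsrc : TE d N → TV d N) ttgt (par β J₁ J₂)) (fun ω => ind (A ω)) := by
  unfold JP Ex
  rw [Fintype.sum_prod_type, Fintype.sum_prod_type]
  simp only [← Finset.sum_mul, sum_jw_spin]

theorem JP_spin {β J₁ J₂ : ℝ} (hd : 0 < d) (B : (TV d N → Sp) → Prop) :
    JP β J₁ J₂ (fun (_ : TE d N → Fin 3) σ => B σ) = SP (k2 d β J₁) (k4 d β J₁ J₂) B := by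
  unfold JP SP Ex
  rw [Fintype.sum_prod_type_right, Fintype.sum_prod_type_right]
  simp only [← Finset.sum_mul, sum_jw_conf_torus hd, mul_assoc]
  rw [← Finset.mul_sum, ← Finset.mul_sum]
  rw [mul_div_mul_left]
  exact (Real.exp_pos _).ne'

theorem JP_denom {β J₁ J₂ : ℝ} (hd : 0 < d) :
    ∑ x : (TE d N → Fin 3) × (TV d N → Sp), jw tsrc ttgt (par β J₁ J₂) x.1 x.2 =
      ecst d N β J₁ J₂ * ∑ σ : TV d N → Sp, sw (k2 d β J₁) (k4 d β J₁ J₂) σ := by
  rw [Fintype.sum_prod_type_right]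
  simp only [sum_jw_conf_torus hd]
  rw [← Finset.mul_sum]

theorem JP_open {β J₁ J₂ : ℝ} (hd : 0 < d) (hβ : 0 < β) (h1 : 0 < J₁) (h2 : J₁ < J₂)
    (B : (TV d N → Sp) → Prop) (F : Finset (TE d N)) {r : ℝ}
    (hr : ∀ σ, B σ → ∏ f ∈ F, rr (β * J₂) (β * (J₂ - J₁)) (σ (tsrc f)) (σ (ttgt f)) ≤ r) :
    JP β J₁ J₂ (fun (ω : TE d N → Fin 3) σ => B σ ∧ ∀ f ∈ F, 1 ≤ ω f) ≤
      r * SP (k2 d β J₁) (k4 d β J₁ J₂) B := by
  have hpos := sw_sum_pos (d := d) (N := N) (k2 d β J₁) (k4 d β J₁ J₂)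
  have hc : 0 < ecst d N β J₁ J₂ := Real.exp_pos _
  unfold JP SP
  unfold Ex
  rw [JP_denom hd, mul_div_assoc', div_le_div_iff₀ (mul_pos hc hpos) hpos]
  have key : ∑ x : (TE d N → Fin 3) × (TV d N → Sp), jw tsrc ttgt (par β J₁ J₂) x.1 x.2 *
      ind (B x.2 ∧ ∀ f ∈ F, 1 ≤ x.1 f) ≤ ecst d N β J₁ J₂ *
        (r * ∑ σ : TV d N → Sp, sw (k2 d β J₁) (k4 d β J₁ J₂) σ * ind (B σ)) := by
    rw [Fintype.sum_prod_type_right, Finset.mul_sum, Finset.mul_sum]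
    apply Finset.sum_le_sum
    intro σ _
    simp only [ind_and]
    have e1 : ∀ ω : TE d N → Fin 3, jw tsrc ttgt (par β J₁ J₂) ω σ *
        (ind (B σ) * ind (∀ f ∈ F, 1 ≤ ω f)) =
        ind (B σ) * (jw tsrc ttgt (par β J₁ J₂) ω σ * ind (∀ f ∈ F, 1 ≤ ω f)) := by
      intro ω; ring
    simp only [e1]
    rw [← Finset.mul_sum]
    by_cases hB : B σ
    · rw [ind_pos hB, one_mul, mul_one]
      refine (sum_jw_open tsrc ttgt (par_pos hβ h1 h2) par_PQ1 par_PQ2 F σ).trans ?_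
      rw [sum_jw_conf_torus hd]
      calc _ ≤ r * (ecst d N β J₁ J₂ * sw (k2 d β J₁) (k4 d β J₁ J₂) σ) :=
            mul_le_mul_of_nonneg_right (hr σ hB) (mul_nonneg hc.le (sw_pos _ _ _).le)
        _ = _ := by ring
    · rw [ind_neg hB]
      simp
  calc _ ≤ (ecst d N β J₁ J₂ *
        (r * ∑ σ : TV d N → Sp, sw (k2 d β J₁) (k4 d β J₁ J₂) σ * ind (B σ))) *
          ∑ σ : TV d N → Sp, sw (k2 d β J₁) (k4 d β J₁ J₂) σ :=
        mul_le_mul_of_nonneg_right key hpos.le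
    _ = _ := by ring

/-- union bound on the support of the joint measure -/
theorem JP_union {β J₁ J₂ : ℝ} (hβ : 0 < β) (h1 : 0 < J₁) (h2 : J₁ < J₂)
    {ι : Type*} (S : Finset ι) (A : (TE d N → Fin 3) → (TV d N → Sp) → Prop)
    (B : ι → (TE d N → Fin 3) → (TV d N → Sp) → Prop)
    (h : ∀ ω σ, (∀ e, 1 ≤ ω e → (σ (tsrc e)).1 = (σ (ttgt e)).1) → A ω σ → ∃ i ∈ S, B i ω σ) :
    JP β J₁ J₂ A ≤ ∑ i ∈ S, JP β J₁ J₂ (B i) := by
  unfold JP
  rw [← Ex_sum]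
  unfold Ex
  apply div_le_div_of_nonneg_right _
    (Finset.sum_nonneg fun x _ => jw_nonneg _ _ (par_pos hβ h1 h2) _ _)
  apply Finset.sum_le_sum
  intro x _
  beta_reduce
  by_cases hx : jw tsrc ttgt (par β J₁ J₂) x.1 x.2 = 0
  · rw [hx]; simp
  · apply mul_le_mul_of_nonneg_left _ (jw_nonneg _ _ (par_pos hβ h1 h2) _ _)
    by_cases hA : A x.1 x.2
    · obtain ⟨i, hi, hB⟩ := h x.1 x.2 (fun e he => jw_supp _ _ _ hx e he) hA
      rw [ind_pos hA, ← ind_pos hB]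
      exact Finset.single_le_sum (f := fun i => ind (B i x.1 x.2)) (fun i _ => ind_nonneg _) hi
    · rw [ind_neg hA]
      exact Finset.sum_nonneg fun i _ => ind_nonneg _

theorem JP_nonneg {β J₁ J₂ : ℝ} (hβ : 0 < β) (h1 : 0 < J₁) (h2 : J₁ < J₂)
    (A : (TE d N → Fin 3) → (TV d N → Sp) → Prop) : 0 ≤ JP β J₁ J₂ A :=
  Ex_nonneg _ _ (fun _ => jw_nonneg _ _ (par_pos hβ h1 h2) _ _) (fun _ => ind_nonneg _)

/-- connection by the edges with state at least `t` -/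
def AdjT (t : Fin 3) (ω : TE d N → Fin 3) (u v : TV d N) : Prop :=
  ∃ e : TE d N, t ≤ ω e ∧ ((u = tsrc e ∧ v = ttgt e) ∨ (u = ttgt e ∧ v = tsrc e))

def ConnT (t : Fin 3) (ω : TE d N → Fin 3) (u v : TV d N) : Prop :=
  Relation.ReflTransGen (AdjT t ω) u v

omit [NeZero N] in
theorem AdjT.symm {t : Fin 3} {ω : TE d N → Fin 3} {u v : TV d N} (h : AdjT t ω u v) :
    AdjT t ω v u := by
  obtain ⟨e, he, h⟩ := h
  exact ⟨e, he, h.symm.imp And.symm And.symm⟩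

/-- two-point function and connectivity -/
theorem two_point_conf {β J₁ J₂ : ℝ} (hβ : 0 < β) (h1 : 0 < J₁) (h2 : J₁ < J₂)
    (ω : TE d N → Fin 3) (x y : TV d N) {a : Fin 3} (ha : a = 0 ∨ a = 1) :
    ∑ σ : TV d N → Sp, jw tsrc ttgt (par β J₁ J₂) ω σ * (Sv (σ x) a * Sv (σ y) a) ≤
      ∑ σ : TV d N → Sp, jw tsrc ttgt (par β J₁ J₂) ω σ * ind (ConnT 2 ω x y) := by
  by_cases hc : ConnT 2 ω x y
  · rw [ind_pos hc]
    apply Finset.sum_le_sum
    intro σ _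
    apply mul_le_mul_of_nonneg_left _ (jw_nonneg _ _ (par_pos hβ h1 h2) _ _)
    have := abs_Sv (σ x) a
    have h3 := abs_Sv (σ y) a
    calc Sv (σ x) a * Sv (σ y) a ≤ |Sv (σ x) a * Sv (σ y) a| := le_abs_self _
      _ = 1 := by rw [abs_mul, this, h3, one_mul]
  · rw [ind_neg hc]
    simp only [mul_zero, Finset.sum_const_zero]
    -- flip `τ` on the cluster of `x`
    let Φ : (TV d N → Sp) → (TV d N → Sp) := fun σ z =>
      ((σ z).1, if ConnT 2 ω x z then !(σ z).2 else (σ z).2)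
    have hΦ : Function.Involutive Φ := by
      intro σ
      funext z
      simp only [Φ]
      split_ifs <;> simp
    have hJ : ∀ σ, jw tsrc ttgt (par β J₁ J₂) ω (Φ σ) = jw tsrc ttgt (par β J₁ J₂) ω σ := by
      intro σ
      rw [jw_eq, jw_eq]
      congr 2
      congr 1
      apply propext
      apply forall_congr'
      intro e
      apply imp_congr_right
      intro he
      have hst : ConnT 2 ω x (tsrc e) ↔ ConnT 2 ω x (ttgt e) := by
        constructor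
        · intro h
          exact h.tail ⟨e, he, Or.inl ⟨rfl, rfl⟩⟩
        · intro h
          exact h.tail ⟨e, he, Or.inr ⟨rfl, rfl⟩⟩
      simp only [Φ, hst]
      split_ifs
      · constructor
        · intro h; simpa using h
        · intro h; simpa using h
      · exact Iff.rfl
    have hS : ∀ σ, Sv (Φ σ x) a * Sv (Φ σ y) a = -(Sv (σ x) a * Sv (σ y) a) := by
      intro σ
      have hx : ConnT 2 ω x x := Relation.ReflTransGen.refl
      have hsg : ∀ b : Bool, sg (!b) = -sg b := by intro b; cases b <;> simp [sg]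
      rcases ha with rfl | rfl
      · simp only [Φ, Sv_zero, if_pos hx, if_neg hc, hsg]
        ring
      · simp only [Φ, Sv_one, if_pos hx, if_neg hc, hsg]
        ring
    have h3 : ∑ σ : TV d N → Sp, jw tsrc ttgt (par β J₁ J₂) ω σ * (Sv (σ x) a * Sv (σ y) a) =
        ∑ σ : TV d N → Sp, -(jw tsrc ttgt (par β J₁ J₂) ω σ * (Sv (σ x) a * Sv (σ y) a)) := by
      rw [← Equiv.sum_comp (Function.Involutive.toPerm Φ hΦ)]
      apply Finset.sum_congr rfl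
      intro σ _
      have : (Function.Involutive.toPerm Φ hΦ) σ = Φ σ := rfl
      rw [this, hJ, hS]
      ring
    rw [Finset.sum_neg_distrib] at h3
    linarith

theorem two_point {β J₁ J₂ : ℝ} (hd : 0 < d) (hβ : 0 < β) (h1 : 0 < J₁) (h2 : J₁ < J₂)
    (x y : TV d N) {a : Fin 3} (ha : a = 0 ∨ a = 1) :
    Ex (sw (k2 d β J₁) (k4 d β J₁ J₂)) (fun σ : TV d N → Sp => Sv (σ x) a * Sv (σ y) a) ≤
      Ex (wt (tsrc : TE d N → TV d N) ttgt (par β J₁ J₂)) (fun ω => ind (ConnT 2 ω x y)) := by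
  have hpos := sw_sum_pos (d := d) (N := N) (k2 d β J₁) (k4 d β J₁ J₂)
  have hc : 0 < ecst d N β J₁ J₂ := Real.exp_pos _
  have e0 : ∑ ω : TE d N → Fin 3, wt (tsrc : TE d N → TV d N) ttgt (par β J₁ J₂) ω =
      ecst d N β J₁ J₂ * ∑ σ : TV d N → Sp, sw (k2 d β J₁) (k4 d β J₁ J₂) σ := by
    rw [← JP_denom hd, Fintype.sum_prod_type]
    simp only [sum_jw_spin]
  unfold Ex
  rw [e0, div_le_div_iff₀ hpos (mul_pos hc hpos)]
  have e1 : ecst d N β J₁ J₂ * ∑ σ : TV d N → Sp, sw (k2 d β J₁) (k4 d β J₁ J₂) σ *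
      (Sv (σ x) a * Sv (σ y) a) = ∑ ω : TE d N → Fin 3,
        ∑ σ : TV d N → Sp, jw tsrc ttgt (par β J₁ J₂) ω σ * (Sv (σ x) a * Sv (σ y) a) := by
    rw [Finset.sum_comm, Finset.mul_sum]
    apply Finset.sum_congr rfl
    intro σ _
    rw [← Finset.sum_mul, sum_jw_conf_torus hd]
    ring
  have e2 : ∑ ω : TE d N → Fin 3, wt (tsrc : TE d N → TV d N) ttgt (par β J₁ J₂) ω *
      ind (ConnT 2 ω x y) = ∑ ω : TE d N → Fin 3,
        ∑ σ : TV d N → Sp, jw tsrc ttgt (par β J₁ J₂) ω σ * ind (ConnT 2 ω x y) := by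
    apply Finset.sum_congr rfl
    intro ω _
    rw [← Finset.sum_mul, sum_jw_spin]
  have key : ecst d N β J₁ J₂ * ∑ σ : TV d N → Sp, sw (k2 d β J₁) (k4 d β J₁ J₂) σ *
      (Sv (σ x) a * Sv (σ y) a) ≤ ∑ ω : TE d N → Fin 3,
        wt (tsrc : TE d N → TV d N) ttgt (par β J₁ J₂) ω * ind (ConnT 2 ω x y) := by
    rw [e1, e2]
    exact Finset.sum_le_sum fun ω _ => two_point_conf hβ h1 h2 ω x y ha
  calc _ = (ecst d N β J₁ J₂ * ∑ σ : TV d N → Sp, sw (k2 d β J₁) (k4 d β J₁ J₂) σ *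
      (Sv (σ x) a * Sv (σ y) a)) * ∑ σ : TV d N → Sp, sw (k2 d β J₁) (k4 d β J₁ J₂) σ := by ring
    _ ≤ _ := mul_le_mul_of_nonneg_right key hpos.le

end Run7.h165
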