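import Pool.Agent.Run7.h165.Num
import Pool.Agent.Run7.h643.TR

/-!
Consequences of the mean-field estimates.
-/

namespace Run7.h165

open Finset Filter Topology
open scoped Classical

variable {d N : ℕ} [NeZero N]

/-! ### The groups of directions -/

noncomputable def grp (d m r : ℕ) : Finset (Fin d) :=
  univ.filter (fun i : Fin d => r * m ≤ i.val ∧ i.val < (r + 1) * m)

theorem grp_card {d m r : ℕ} (h : (r + 1) * m ≤ d) : (grp d m r).card = m := by
  have h1 : (grp d m r).card = (Finset.Ico (r * m) ((r + 1) * m)).card := by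
    apply Finset.card_bij (fun i _ => i.val)
    · intro i hi
      unfold grp at hi
      rw [mem_filter] at hi
      rw [Finset.mem_Ico]
      exact hi.2
    · intro i _ j _ hij
      exact Fin.ext hij
    · intro a ha
      rw [Finset.mem_Ico] at ha
      refine ⟨⟨a, by omega⟩, ?_, rfl⟩
      unfold grp
      rw [mem_filter]
      exact ⟨mem_univ _, ha⟩
  rw [h1, Nat.card_Ico, add_mul, one_mul]
  omega

theorem grp_disj {d m r r' : ℕ} (h : r' < r) : Disjoint (grp d m r) (grp d m r') := by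
  rw [Finset.disjoint_left]
  intro i hi hi'
  unfold grp at hi hi'
  rw [mem_filter] at hi hi'
  have : (r' + 1) * m ≤ r * m := Nat.mul_le_mul_right m h
  omega

/-! ### Mean-field conclusions -/

def Wev (K2 K4 : ℝ) (σ : TV d N → Sp) : Prop :=
  |Ham K2 K4 σ - Vo d N / 2 * ∑ a, Kv K2 K4 a * Mm σ a ^ 2| ≤ 1 / 10 ^ 6 * Vo d N

theorem mf_W (hd : 0 < d) {K2 K4 : ℝ} (h2 : 0 ≤ K2) (h24 : K2 ≤ K4) (h4 : K4 ≤ 84 / 100)
    (hB : ∀ x : TV d N, SP K2 K4 (fun σ => ∃ a, 1 / 20000000 < |star σ x a - Mm σ a|) ≤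
      1 / 10 ^ 8) :
    SP K2 K4 (fun σ : TV d N → Sp => ¬ Wev K2 K4 σ) ≤ 1 / 8 := by
  have h := W_event hd h2 (h2.trans h24) (ε := 1 / 20000000) (δ := 1 / 10 ^ 6) (by norm_num)
    (by norm_num) hB
  unfold Wev
  simp only [not_le]
  refine h.trans ?_
  rw [div_le_iff₀ (by norm_num)]
  nlinarith

theorem mf_b (hd : 0 < d) (hN : N ≠ 1) {K2 K4 : ℝ} (h2 : 0 ≤ K2) (h24 : K2 ≤ K4)
    (h4 : K4 ≤ 84 / 100) :
    SP K2 K4 (fun σ : TV d N → Sp => ∃ a, 1 / 200 < |Mm σ a|) ≤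
      SP K2 K4 (fun σ : TV d N → Sp => ¬ Wev K2 K4 σ) +
      SP K2 K4 (fun σ : TV d N → Sp => 1 / 1000 < |Mm σ 0|) +
      SP K2 K4 (fun σ : TV d N → Sp => 1 / 1000 < |Mm σ 1|) +
      (2 * Vo d N + 1) * Real.exp (-(1 / 10 ^ 7 * Vo d N)) := by
  have hV := Vo_pos (d := d) (N := N)
  set A' : (TV d N → Sp) → Prop := fun σ => Wev K2 K4 σ ∧ |Mm σ 0| ≤ 1 / 1000 ∧
    |Mm σ 1| ≤ 1 / 1000 ∧ 1 / 200 < |Mm σ 2| with hA'
  have h1 : SP K2 K4 A' ≤ (2 * Vo d N + 1) * Real.exp (-(1 / 10 ^ 7 * Vo d N)) := by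
    have := SP_ld (K2 := K2) (K4 := K4) (2 : Fin 3) (A := A') (R := -(1 / 10 ^ 7 * Vo d N))
      (z := 0) (by
        rw [Real.exp_zero, mul_one]
        exact Z_lower_unif hd hN K2 K4) (by
        rintro σ ⟨w, m0, m1, m2⟩
        unfold Wev at w
        have w1 := (abs_le.mp w).2
        rw [Fin.sum_univ_three, Kv_zero, Kv_one, Kv_two] at w1
        have e0 : Mm σ 0 ^ 2 ≤ 1 / 10 ^ 6 := by
          rw [← sq_abs]
          have := abs_nonneg (Mm σ 0)
          nlinarith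
        have e1 : Mm σ 1 ^ 2 ≤ 1 / 10 ^ 6 := by
          rw [← sq_abs]
          have := abs_nonneg (Mm σ 1)
          nlinarith
        have e2 : 1 / 40000 ≤ Mm σ 2 ^ 2 := by
          rw [← sq_abs]
          nlinarith
        have f0 : K2 * Mm σ 0 ^ 2 ≤ 84 / 100 * (1 / 10 ^ 6) :=
          mul_le_mul (h24.trans h4) e0 (sq_nonneg _) (by norm_num)
        have f1 : K2 * Mm σ 1 ^ 2 ≤ 84 / 100 * (1 / 10 ^ 6) :=
          mul_le_mul (h24.trans h4) e1 (sq_nonneg _) (by norm_num)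
        have f2 : K4 * Mm σ 2 ^ 2 ≤ 84 / 100 * Mm σ 2 ^ 2 :=
          mul_le_mul_of_nonneg_right h4 (sq_nonneg _)
        have f3 : K2 * Mm σ 0 ^ 2 + K2 * Mm σ 1 ^ 2 + K4 * Mm σ 2 ^ 2 ≤
            Mm σ 2 ^ 2 - 2 / 10 ^ 6 - 2 / 10 ^ 7 := by
          have : 16 / 100 * (1 / 40000) ≤ 16 / 100 * Mm σ 2 ^ 2 := by linarith
          norm_num at this ⊢
          linarith
        have f4 := mul_le_mul_of_nonneg_left f3 (by positivity : 0 ≤ Vo d N / 2)
        norm_num at f4 w1 ⊢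
        linarith)
    rwa [sub_zero] at this
  have h3 : ∀ σ : TV d N → Sp, ind (∃ a, 1 / 200 < |Mm σ a|) ≤ ind (¬ Wev K2 K4 σ) +
      ind (1 / 1000 < |Mm σ 0|) + ind (1 / 1000 < |Mm σ 1|) + ind (A' σ) := by
    intro σ
    have i1 := ind_nonneg (¬ Wev K2 K4 σ)
    have i2 := ind_nonneg (1 / 1000 < |Mm σ 0|)
    have i3 := ind_nonneg (1 / 1000 < |Mm σ 1|)
    have i4 := ind_nonneg (A' σ)
    by_cases h : ∃ a, 1 / 200 < |Mm σ a|
    · rw [ind_pos h]
      by_cases hw : Wev K2 K4 σ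
      · by_cases g0 : 1 / 1000 < |Mm σ 0|
        · rw [ind_pos g0]; linarith
        · by_cases g1 : 1 / 1000 < |Mm σ 1|
          · rw [ind_pos g1]; linarith
          · have : A' σ := by
              refine ⟨hw, not_lt.mp g0, not_lt.mp g1, ?_⟩
              obtain ⟨a, ha⟩ := h
              have g0' := not_lt.mp g0
              have g1' := not_lt.mp g1
              fin_cases a
              · exfalso
                simp only [Fin.zero_eta] at ha
                linarith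
              · exfalso
                simp only [Fin.mk_one] at ha
                linarith
              · exact ha
            rw [ind_pos this]; linarith
      · rw [ind_pos hw]; linarith
    · rw [ind_neg h]; linarith
  have h5 := Ex_mono (sw K2 K4) _ _ (fun σ => (sw_pos K2 K4 σ).le) h3
  rw [Ex_add, Ex_add, Ex_add] at h5
  unfold SP at h1 ⊢
  linarith

theorem mf_b' (hd : 0 < d) (hN : N ≠ 1) {K2 K4 : ℝ} (h2 : 0 ≤ K2) (h24 : K2 ≤ K4)
    (h4 : K4 ≤ 3 / 10) :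
    SP K2 K4 (fun σ : TV d N → Sp => ∃ a, 1 / 200 < |Mm σ a|) ≤
      SP K2 K4 (fun σ : TV d N → Sp => ¬ Wev K2 K4 σ) +
      3 * ((2 * Vo d N + 1) * Real.exp (-(1 / 10 ^ 7 * Vo d N))) := by
  have hV := Vo_pos (d := d) (N := N)
  have hKv : ∀ a, Kv K2 K4 a ≤ 3 / 10 := by
    intro a
    fin_cases a
    · exact h24.trans h4
    · exact h24.trans h4
    · exact h4
  set A' : Fin 3 → (TV d N → Sp) → Prop := fun a σ => Wev K2 K4 σ ∧ 1 / 200 < |Mm σ a| ∧
    ∀ b, |Mm σ b| ≤ |Mm σ a| with hA'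
  have h1 : ∀ a, SP K2 K4 (A' a) ≤ (2 * Vo d N + 1) * Real.exp (-(1 / 10 ^ 7 * Vo d N)) := by
    intro a
    have := SP_ld (K2 := K2) (K4 := K4) a (A := A' a) (R := -(1 / 10 ^ 7 * Vo d N))
      (z := 0) (by
        rw [Real.exp_zero, mul_one]
        exact Z_lower_unif hd hN K2 K4) (by
        rintro σ ⟨w, m0, m1⟩
        unfold Wev at w
        have w1 := (abs_le.mp w).2
        have e2 : 1 / 40000 ≤ Mm σ a ^ 2 := by
          rw [← sq_abs]
          nlinarith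
        have e3 : ∀ b, Kv K2 K4 b * Mm σ b ^ 2 ≤ 3 / 10 * Mm σ a ^ 2 := by
          intro b
          have : Mm σ b ^ 2 ≤ Mm σ a ^ 2 := sq_le_sq.mpr (m1 b)
          exact mul_le_mul (hKv b) this (sq_nonneg _) (by norm_num)
        have e4 : ∑ b, Kv K2 K4 b * Mm σ b ^ 2 ≤ 9 / 10 * Mm σ a ^ 2 := by
          calc _ ≤ ∑ _b : Fin 3, 3 / 10 * Mm σ a ^ 2 := Finset.sum_le_sum fun b _ => e3 b
            _ = _ := by simp; ring
        have f3 : ∑ b, Kv K2 K4 b * Mm σ b ^ 2 ≤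
            Mm σ a ^ 2 - 2 / 10 ^ 6 - 2 / 10 ^ 7 := by
          have : 1 / 10 * (1 / 40000) ≤ 1 / 10 * Mm σ a ^ 2 := by linarith
          norm_num at this ⊢
          linarith
        have f4 := mul_le_mul_of_nonneg_left f3 (by positivity : 0 ≤ Vo d N / 2)
        norm_num at f4 w1 ⊢
        linarith)
    rwa [sub_zero] at this
  have h3 : ∀ σ : TV d N → Sp, ind (∃ a, 1 / 200 < |Mm σ a|) ≤ ind (¬ Wev K2 K4 σ) +
      ∑ a, ind (A' a σ) := by
    intro σ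
    have i1 := ind_nonneg (¬ Wev K2 K4 σ)
    have i2 : 0 ≤ ∑ a, ind (A' a σ) := Finset.sum_nonneg fun a _ => ind_nonneg _
    by_cases h : ∃ a, 1 / 200 < |Mm σ a|
    · rw [ind_pos h]
      by_cases hw : Wev K2 K4 σ
      · obtain ⟨a, -, ha⟩ := Finset.exists_max_image (univ : Finset (Fin 3)) (fun a => |Mm σ a|)
          univ_nonempty
        obtain ⟨b, hb⟩ := h
        have : A' a σ := ⟨hw, lt_of_lt_of_le hb (ha b (mem_univ _)), fun b => ha b (mem_univ _)⟩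
        have h5 := Finset.single_le_sum (f := fun a => ind (A' a σ)) (fun a _ => ind_nonneg _)
          (mem_univ a)
        beta_reduce at h5
        rw [ind_pos this] at h5
        linarith
      · rw [ind_pos hw]; linarith
    · rw [ind_neg h]; linarith
  have h5 := Ex_mono (sw K2 K4) _ _ (fun σ => (sw_pos K2 K4 σ).le) h3
  rw [Ex_add, Ex_sum] at h5
  have h6 : ∑ a, SP K2 K4 (A' a) ≤
      3 * ((2 * Vo d N + 1) * Real.exp (-(1 / 10 ^ 7 * Vo d N))) := by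
    calc _ ≤ ∑ _a : Fin 3, (2 * Vo d N + 1) * Real.exp (-(1 / 10 ^ 7 * Vo d N)) :=
          Finset.sum_le_sum fun a _ => h1 a
      _ = _ := by simp
  unfold SP at h6 ⊢
  linarith

theorem log_three_lt : Real.log 3 < 11 / 10 := by
  rw [Real.log_lt_iff_lt_exp (by norm_num)]
  have h1 : Real.exp (11 / 10) ^ 10 = Real.exp 1 ^ 11 := by
    rw [← Real.exp_nat_mul, ← Real.exp_nat_mul]
    norm_num
  have h2 : (3 : ℝ) ^ 10 < Real.exp 1 ^ 11 := by
    have := Real.exp_one_gt_d9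
    calc (3 : ℝ) ^ 10 < (2.7182818283 : ℝ) ^ 11 := by norm_num
      _ < _ := pow_lt_pow_left₀ this (by norm_num) (by norm_num)
  rw [← h1] at h2
  exact lt_of_pow_lt_pow_left₀ 10 (Real.exp_pos _).le h2

theorem mf_a (hd : 0 < d) (hN : N ≠ 1) {K2 K4 : ℝ} (h2 : 83 / 100 ≤ K2) (h24 : K2 ≤ K4)
    (h4 : K4 ≤ 84 / 100) :
    SP K2 K4 (fun σ : TV d N → Sp => Mm σ 0 ^ 2 + Mm σ 1 ^ 2 ≤ 1 / 10 ^ 6) ≤
      SP K2 K4 (fun σ : TV d N → Sp => ¬ Wev K2 K4 σ) +
      (2 * Vo d N + 1) * Real.exp (-(1 / 10 ^ 7 * Vo d N)) := by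
  have hV := Vo_pos (d := d) (N := N)
  set A' : (TV d N → Sp) → Prop := fun σ => Wev K2 K4 σ ∧
    Mm σ 0 ^ 2 + Mm σ 1 ^ 2 ≤ 1 / 10 ^ 6 with hA'
  have h1 : SP K2 K4 A' ≤ (2 * Vo d N + 1) * Real.exp (-(1 / 10 ^ 7 * Vo d N)) := by
    have := SP_ld (K2 := K2) (K4 := K4) (2 : Fin 3) (A := A') (R := 2 / 10 ^ 6 * Vo d N)
      (z := Vo d N * (2 / 9 * (2 * K2 + K4) - Real.log 3 / 2))
      (Z_lower_ord hd hN K2 K4) (by
        rintro σ ⟨w, m0⟩
        unfold Wev at w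
        have w1 := (abs_le.mp w).2
        rw [Fin.sum_univ_three, Kv_zero, Kv_one, Kv_two] at w1
        have e0 := sq_nonneg (Mm σ 0)
        have e1 := sq_nonneg (Mm σ 1)
        have e2 := sq_nonneg (Mm σ 2)
        have f3 : K2 * Mm σ 0 ^ 2 + K2 * Mm σ 1 ^ 2 + K4 * Mm σ 2 ^ 2 ≤
            Mm σ 2 ^ 2 + 1 / 10 ^ 6 := by
          have g1 : K2 * (Mm σ 0 ^ 2 + Mm σ 1 ^ 2) ≤ 1 * (1 / 10 ^ 6) :=
            mul_le_mul (by linarith) m0 (by linarith) (by norm_num)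
          have g2 : K4 * Mm σ 2 ^ 2 ≤ 1 * Mm σ 2 ^ 2 :=
            mul_le_mul_of_nonneg_right (by linarith) e2
          linarith
        have f4 := mul_le_mul_of_nonneg_left f3 (by positivity : 0 ≤ Vo d N / 2)
        norm_num at f4 w1 ⊢
        linarith)
    refine this.trans ?_
    apply mul_le_mul_of_nonneg_left _ (by positivity)
    apply Real.exp_le_exp.mpr
    have hl := log_three_lt
    have g : 1 / 1000 ≤ 2 / 9 * (2 * K2 + K4) - Real.log 3 / 2 := by linarith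
    have := mul_le_mul_of_nonneg_left g hV.le
    norm_num at this ⊢
    linarith
  have h3 : ∀ σ : TV d N → Sp, ind (Mm σ 0 ^ 2 + Mm σ 1 ^ 2 ≤ 1 / 10 ^ 6) ≤
      ind (¬ Wev K2 K4 σ) + ind (A' σ) := by
    intro σ
    have i1 := ind_nonneg (¬ Wev K2 K4 σ)
    have i4 := ind_nonneg (A' σ)
    by_cases h : Mm σ 0 ^ 2 + Mm σ 1 ^ 2 ≤ 1 / 10 ^ 6
    · rw [ind_pos h]
      by_cases hw : Wev K2 K4 σ
      · rw [ind_pos (show A' σ from ⟨hw, h⟩)]; linarith
      · rw [ind_pos hw]; linarith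
    · rw [ind_neg h]; linarith
  have h5 := Ex_mono (sw K2 K4) _ _ (fun σ => (sw_pos K2 K4 σ).le) h3
  rw [Ex_add] at h5
  unfold SP at h1 ⊢
  linarith

/-- Second moments of the means and connectivity. -/
theorem msq_le {β J₁ J₂ : ℝ} (hd : 0 < d) (hβ : 0 < β) (h1 : 0 < J₁) (h2 : J₁ < J₂)
    {a : Fin 3} (ha : a = 0 ∨ a = 1) (n : ℕ) :
    Ex (sw (k2 d β J₁) (k4 d β J₁ J₂)) (fun σ : TV d N → Sp => Mm σ a ^ 2) ≤
      (2 * n + 1) ^ d / Vo d N + tprob d N β J₁ J₂ (DD 2 0 n) := by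
  have hV := Vo_pos (d := d) (N := N)
  set W := wt (tsrc : TE d N → TV d N) ttgt (par β J₁ J₂) with hW
  have hW0 : ∀ ω, 0 ≤ W ω := fun ω => (wt_pos _ _ (par_pos hβ h1 h2) ω).le
  set c : TV d N → ℝ := fun z => Ex W (fun ω => ind (ConnT 2 ω 0 z)) with hc
  have e1 : ∀ σ : TV d N → Sp, Mm σ a ^ 2 = (1 / Vo d N ^ 2) * ∑ x, ∑ y, Sv (σ x) a * Sv (σ y) a := by
    intro σ
    have : Mm σ a = (1 / Vo d N) * ∑ x, Sv (σ x) a := rfl
    rw [this, mul_pow, sq (∑ x, Sv (σ x) a), Finset.sum_mul_sum]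
    congr 1
    rw [div_pow, one_pow]
  have e2 : Ex (sw (k2 d β J₁) (k4 d β J₁ J₂)) (fun σ : TV d N → Sp => Mm σ a ^ 2) ≤
      (1 / Vo d N ^ 2) * ∑ x : TV d N, ∑ y : TV d N, c (y - x) := by
    simp only [e1]
    rw [Ex_mul_left, Ex_sum]
    apply mul_le_mul_of_nonneg_left _ (by positivity)
    apply Finset.sum_le_sum; intro x _
    rw [Ex_sum]
    apply Finset.sum_le_sum; intro y _
    refine (two_point hd hβ h1 h2 x y ha).trans (le_of_eq ?_)
    rw [hc]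
    exact Run7.h643.AT.tr_trans 2 x y
  have e3 : ∀ x : TV d N, ∑ y : TV d N, c (y - x) = ∑ z, c z := fun x => sum_shift_sub c x
  have e4 : ∀ z, c z ≤ ind (z ∈ nball d N n) + tprob d N β J₁ J₂ (DD 2 0 n) := by
    intro z
    have hpos : 0 < ∑ ω, W ω := Finset.sum_pos
      (fun ω _ => wt_pos _ _ (par_pos hβ h1 h2) ω) univ_nonempty
    have ht0 : 0 ≤ tprob d N β J₁ J₂ (DD 2 0 n) := Ex_nonneg _ _ hW0 (fun _ => ind_nonneg _)
    by_cases hz : z ∈ nball d N n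
    · rw [ind_pos hz]
      have : c z ≤ 1 := by
        rw [hc, ← Ex_const W 1 hpos]
        exact Ex_mono _ _ _ hW0 (fun _ => ind_le_one _)
      linarith
    · rw [ind_neg hz, zero_add]
      apply Ex_mono _ _ _ hW0
      intro ω
      apply ind_mono
      intro hcon
      apply Run7.h643.AT.tr_far hd 2 n ω z _ hcon
      unfold nball at hz
      rw [mem_filter] at hz
      push Not at hz
      exact (hz (mem_univ _)).le
  have e5 : ∑ z, c z ≤ (2 * n + 1) ^ d + Vo d N * tprob d N β J₁ J₂ (DD 2 0 n) := by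
    calc _ ≤ ∑ z : TV d N, (ind (z ∈ nball d N n) + tprob d N β J₁ J₂ (DD 2 0 n)) :=
          Finset.sum_le_sum fun z _ => e4 z
      _ = ((nball d N n).card : ℝ) + Vo d N * tprob d N β J₁ J₂ (DD 2 0 n) := by
          rw [Finset.sum_add_distrib, Finset.sum_const, nsmul_eq_mul, card_univ, card_TV]
          congr 1
          calc ∑ z : TV d N, ind (z ∈ nball d N n) = ∑ z ∈ nball d N n, ind (z ∈ nball d N n) :=
                (Finset.sum_subset (subset_univ _) (fun x _ hx => ind_neg hx)).symm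
            _ = ∑ z ∈ nball d N n, (1 : ℝ) := Finset.sum_congr rfl (fun x hx => ind_pos hx)
            _ = _ := by simp
      _ ≤ _ := by
          have := nball_card (d := d) (N := N) n
          have h3 : ((nball d N n).card : ℝ) ≤ (2 * n + 1) ^ d := by exact_mod_cast this
          linarith
  calc _ ≤ (1 / Vo d N ^ 2) * ∑ x : TV d N, ∑ y : TV d N, c (y - x) := e2
    _ = (1 / Vo d N) * ∑ z, c z := by
        simp only [e3]
        rw [Finset.sum_const, nsmul_eq_mul, card_univ, card_TV]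
        field_simp
    _ ≤ (1 / Vo d N) * ((2 * n + 1) ^ d + Vo d N * tprob d N β J₁ J₂ (DD 2 0 n)) :=
        mul_le_mul_of_nonneg_left e5 (by positivity)
    _ = _ := by field_simp

theorem SP_markov {K2 K4 : ℝ} (a : Fin 3) :
    SP K2 K4 (fun σ : TV d N → Sp => 1 / 1000 < |Mm σ a|) ≤
      10 ^ 6 * Ex (sw K2 K4) (fun σ : TV d N → Sp => Mm σ a ^ 2) := by
  unfold SP
  rw [← Ex_mul_left]
  apply Ex_mono _ _ _ (fun σ => (sw_pos K2 K4 σ).le)
  intro σ
  by_cases h : 1 / 1000 < |Mm σ a|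
  · rw [ind_pos h, ← sq_abs]
    nlinarith
  · rw [ind_neg h]
    positivity

/-! ### Limits along `N = 2 ^ K` -/

theorem Vo_tendsto (hd : 0 < d) : Tendsto (fun K : ℕ => Vo d (2 ^ K)) atTop atTop := by
  have h1 : ∀ K : ℕ, Vo d (2 ^ K) = ((2 : ℝ) ^ d) ^ K := by
    intro K
    unfold Vo
    push_cast
    rw [← pow_mul, ← pow_mul, mul_comm]
  simp only [h1]
  apply tendsto_pow_atTop_atTop_of_one_lt
  exact one_lt_pow₀ (by norm_num) hd.ne'

theorem ev_small (hd : 0 < d) {δ : ℝ} (hδ : 0 < δ) :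
    ∃ K₀ : ℕ, ∀ K, K₀ ≤ K →
      (2 * Vo d (2 ^ K) + 1) * Real.exp (-(1 / 10 ^ 7 * Vo d (2 ^ K))) ≤ δ := by
  have h1 : Tendsto (fun x : ℝ => (2 * x + 1) * Real.exp (-(1 / 10 ^ 7 * x))) atTop (𝓝 0) := by
    have e1 : Tendsto (fun y : ℝ => y ^ 1 * Real.exp (-y)) atTop (𝓝 0) :=
      Real.tendsto_pow_mul_exp_neg_atTop_nhds_zero 1
    have e0 : Tendsto (fun y : ℝ => y ^ 0 * Real.exp (-y)) atTop (𝓝 0) :=
      Real.tendsto_pow_mul_exp_neg_atTop_nhds_zero 0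
    have e2 : Tendsto (fun y : ℝ => (2 * 10 ^ 7) * (y ^ 1 * Real.exp (-y)) +
        (y ^ 0 * Real.exp (-y))) atTop (𝓝 0) := by
      simpa using (e1.const_mul (2 * 10 ^ 7)).add e0
    have e3 : Tendsto (fun x : ℝ => 1 / 10 ^ 7 * x) atTop atTop :=
      tendsto_id.const_mul_atTop (by norm_num)
    refine (e2.comp e3).congr ?_
    intro x
    simp only [Function.comp]
    ring
  have h2 := (h1.comp (Vo_tendsto hd)).eventually (gt_mem_nhds hδ)
  obtain ⟨K₀, hK⟩ := eventually_atTop.mp h2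
  exact ⟨K₀, fun K h => (hK K h).le⟩

theorem ev_small2 (hd : 0 < d) (c : ℝ) {δ : ℝ} (hδ : 0 < δ) :
    ∃ K₀ : ℕ, ∀ K, K₀ ≤ K → c / Vo d (2 ^ K) ≤ δ := by
  have h1 : Tendsto (fun K : ℕ => c / Vo d (2 ^ K)) atTop (𝓝 0) :=
    (Vo_tendsto hd).const_div_atTop c
  obtain ⟨K₀, hK⟩ := eventually_atTop.mp (h1.eventually (gt_mem_nhds hδ))
  exact ⟨K₀, fun K h => (hK K h).le⟩

end Run7.h165
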