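import Pool.Agent.Run7.h643.IV3

/-!
The zero-one law in the form: either there is almost surely an infinite cluster in every weak
limit, or there is almost surely none in every weak limit.
(The first steps are those of the proof of `Run7.h643.AT.iv_zero_one`.)
-/

namespace Run7.h165

open Finset MeasureTheory Filter Topology
open scoped Classical
open Run7.h643.AT

theorem zero_one_gen {d : ℕ} {β J₁ J₂ : ℝ} (hβ : 0 < β) (h1 : 0 < J₁) (h2 : J₁ < J₂) (t : Fin 3)
    (h : β ∉ percSet d J₁ J₂ t) (m₀ : ℕ) (ε : ℝ) (hε : 0 < ε) :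
    ∃ n, ∀ M, n ≤ M → bprob d M β J₁ J₂ (DD t m₀ n) ≤ ε := by
  have hex : ∃ μ, IsWeakLimit d β J₁ J₂ μ ∧ ¬ ∀ᵐ ω ∂μ, HasInfCluster t ω := by
    by_contra hcon
    push Not at hcon
    exact h ⟨hβ, hcon⟩
  obtain ⟨μ, hμ, hnot⟩ := hex
  have hprob : IsProbabilityMeasure μ := hμ.1
  -- events
  set N : ℕ → ℕ → Set (Config d) := fun m n => {ω | ¬ DD t m n ω} with hN
  set U : ℕ → Set (Config d) := fun m => {ω | ¬ ∀ n, DD t m n ω} with hU
  set Ec : Set (Config d) := {ω | ¬ HasInfCluster t ω} with hEc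
  have hUN : ∀ m, U m = ⋃ n, N m n := by
    intro m
    ext ω
    simp [hU, hN]
  have hEU : Ec = ⋂ m, U m := by
    ext ω
    simp only [hEc, hU, Set.mem_ofPred_eq, Set.mem_iInter, hasInf_iff, not_exists]
  have hNmono : ∀ m, Monotone (N m) := fun m n n' hn ω hω hD => hω (DD_anti_outer hn hD)
  have hUanti : Antitone U := by
    intro m m' hm ω hω hD
    exact hω fun n => DD_mono_inner hm (hD n)
  have hNmeas : ∀ m n, MeasurableSet (N m n) := fun m n => (DD_cyl t m n).not.measurable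
  have hUmeas : ∀ m, MeasurableSet (U m) := by
    intro m
    rw [hUN]
    exact MeasurableSet.iUnion fun n => hNmeas m n
  have hEmeas : MeasurableSet Ec := by
    rw [hEU]
    exact MeasurableSet.iInter hUmeas
  set a : ℝ := μ.real Ec with ha
  have ha0 : 0 ≤ a := measureReal_nonneg
  have hUlim : Tendsto (fun k => μ.real (U k)) atTop (𝓝 a) := by
    have := tendsto_real_iInter μ hUanti hUmeas
    rwa [← hEU] at this
  -- Step 1
  have s1 : ∀ m n k M2, n ≤ k → k < M2 →
      μ.real (N m n ∩ N k M2) ≤ bprob d k β J₁ J₂ (fun ω => ¬ DD t m n ω) * μ.real (N k M2) := by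
    intro m n k M2 hnk hkM
    have e1 := tendsto_cyl hβ h1 h2 hμ
      ((((DD_cyl (d := d) t m n).mono (le_max_left n M2)).not).and
        (((DD_cyl (d := d) t k M2).mono (le_max_right n M2)).not))
    have e2 := (tendsto_cyl hβ h1 h2 hμ (DD_cyl (d := d) t k M2).not).const_mul
      (bprob d k β J₁ J₂ (fun ω => ¬ DD t m n ω))
    refine le_of_tendsto_of_tendsto e1 e2 ?_
    rw [EventuallyLE, eventually_atTop]
    refine ⟨k, fun M hM => ?_⟩
    exact fv_cond (A := DD t m n) (B := fun ω => ¬ DD t k M2 ω) hM hβ h1 h2 (DD_inc t m n)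
      ((DD_cyl t m n).mono hnk) (fun ω ω' hω => not_congr (DD_off_iff hkM ω ω' hω))
  -- Step 2
  have s2 : ∀ m n k, n ≤ k →
      μ.real (N m n ∩ Ec) ≤ bprob d k β J₁ J₂ (fun ω => ¬ DD t m n ω) * μ.real (U k) := by
    intro m n k hnk
    have e1 : Tendsto (fun M2 => μ.real (N m n ∩ N k M2)) atTop
        (𝓝 (μ.real (⋃ M2, N m n ∩ N k M2))) :=
      tendsto_real_iUnion μ (fun M M' hM => Set.inter_subset_inter_right _ (hNmono k hM))
    rw [← Set.inter_iUnion, ← hUN] at e1
    have e2 : μ.real (N m n ∩ U k) ≤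
        bprob d k β J₁ J₂ (fun ω => ¬ DD t m n ω) * μ.real (U k) := by
      refine le_of_tendsto e1 ?_
      rw [eventually_atTop]
      refine ⟨k + 1, fun M2 hM2 => ?_⟩
      refine (s1 m n k M2 hnk (by omega)).trans ?_
      apply mul_le_mul_of_nonneg_left _ (bprob_nonneg k hβ h1 h2 _)
      refine measureReal_mono ?_
      rw [hUN]
      exact Set.subset_iUnion _ _
    refine le_trans (measureReal_mono ?_) e2
    apply Set.inter_subset_inter_right
    rw [hEU]
    exact Set.iInter_subset _ _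
  -- Step 3
  have s3 : ∀ m n, μ.real (N m n ∩ Ec) ≤ μ.real (N m n) * a := by
    intro m n
    have e1 := (tendsto_cyl hβ h1 h2 hμ (DD_cyl (d := d) t m n).not).mul hUlim
    refine ge_of_tendsto e1 ?_
    rw [eventually_atTop]
    exact ⟨n, fun k hk => s2 m n k hk⟩
  -- Step 4
  have s4 : ∀ m, a ≤ μ.real (U m) * a := by
    intro m
    have e1 : Tendsto (fun n => μ.real (N m n ∩ Ec)) atTop (𝓝 (μ.real (⋃ n, N m n ∩ Ec))) :=
      tendsto_real_iUnion μ (fun M M' hM => Set.inter_subset_inter_left _ (hNmono m hM))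
    rw [← Set.iUnion_inter, ← hUN] at e1
    have e2 : U m ∩ Ec = Ec := by
      apply Set.inter_eq_right.mpr
      rw [hEU]
      exact Set.iInter_subset _ _
    rw [e2] at e1
    refine le_of_tendsto' e1 ?_
    intro n
    refine (s3 m n).trans ?_
    apply mul_le_mul_of_nonneg_right _ ha0
    refine measureReal_mono ?_
    rw [hUN]
    exact Set.subset_iUnion _ _
  -- Step 5
  have s5 : a ≤ a * a := ge_of_tendsto' (hUlim.mul_const a) s4
  have hapos : 0 < a := by
    rcases ha0.lt_or_eq with h3 | h3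
    · exact h3
    · exfalso
      apply hnot
      have h4 : μ Ec = 0 := by
        have := h3.symm
        rw [ha, measureReal_eq_zero_iff] at this
        exact this
      exact h4
  have ha1 : 1 ≤ a := by
    by_contra h3
    push Not at h3
    nlinarith
  -- Step 7
  have s7 : μ.real {ω : Config d | ∀ n, DD t m₀ n ω} = 0 := by
    have e1 : {ω : Config d | ∀ n, DD t m₀ n ω} ⊆ Ecᶜ := by
      intro ω hω
      rw [Set.mem_compl_iff, hEc, Set.mem_ofPred_eq, not_not]
      exact (hasInf_iff t ω).mpr ⟨m₀, hω⟩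
    have e2 : μ.real Ecᶜ = 1 - a := probReal_compl_eq_one_sub hEmeas
    have e3 : μ.real {ω : Config d | ∀ n, DD t m₀ n ω} ≤ μ.real Ecᶜ := measureReal_mono e1
    have e4 : 0 ≤ μ.real {ω : Config d | ∀ n, DD t m₀ n ω} := measureReal_nonneg
    linarith
  have s8 : Tendsto (fun n => μ.real {ω : Config d | DD t m₀ n ω}) atTop (𝓝 0) := by
    have e1 : Antitone (fun n => {ω : Config d | DD t m₀ n ω}) :=
      fun n n' hn ω hω => DD_anti_outer hn hω
    have e2 := tendsto_real_iInter μ e1 (fun n => (DD_cyl t m₀ n).measurable)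
    have e3 : (⋂ n, {ω : Config d | DD t m₀ n ω}) = {ω : Config d | ∀ n, DD t m₀ n ω} := by
      ext ω
      simp
    rw [e3, s7] at e2
    exact e2
  obtain ⟨n, hn⟩ := (s8.eventually (gt_mem_nhds hε)).exists
  refine ⟨n, fun M _ => ?_⟩
  have hmono : Monotone (fun M => bprob d M β J₁ J₂ (DD t m₀ n)) := fun M M' hM =>
    fv_mono hM hβ le_rfl h1 h2 (DD_inc t m₀ n)
  exact (hmono.ge_of_tendsto (tendsto_cyl hβ h1 h2 hμ (DD_cyl t m₀ n)) M).trans hn.le

theorem zero_one_ae {d : ℕ} {β J₁ J₂ : ℝ} (hβ : 0 < β) (h1 : 0 < J₁) (h2 : J₁ < J₂) (t : Fin 3)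
    (h : β ∉ percSet d J₁ J₂ t) (μ : Measure (Config d)) (hμ : IsWeakLimit d β J₁ J₂ μ) :
    ∀ᵐ ω ∂μ, ¬ HasInfCluster t ω := by
  have hprob : IsProbabilityMeasure μ := hμ.1
  have key : ∀ m, μ.real {ω : Config d | ∀ n, DD t m n ω} = 0 := by
    intro m
    apply le_antisymm _ measureReal_nonneg
    apply le_of_forall_pos_le_add
    intro ε hε
    obtain ⟨n, hn⟩ := zero_one_gen hβ h1 h2 t h m ε hε
    have h3 : μ.real {ω | DD t m n ω} ≤ ε :=
      le_of_tendsto (tendsto_cyl hβ h1 h2 hμ (DD_cyl t m n)) (eventually_atTop.mpr ⟨n, hn⟩)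
    have h4 : μ.real {ω : Config d | ∀ n, DD t m n ω} ≤ μ.real {ω | DD t m n ω} :=
      measureReal_mono (fun ω hω => hω n)
    linarith
  have key2 : ∀ᵐ ω ∂μ, ∀ m, ¬ ∀ n, DD t m n ω := by
    rw [ae_all_iff]
    intro m
    have := key m
    rw [measureReal_eq_zero_iff] at this
    rw [ae_iff]
    simpa only [not_not] using this
  filter_upwards [key2] with ω hω hinf
  obtain ⟨m, hm⟩ := (hasInf_iff t ω).mp hinf
  exact hω m hm

end Run7.h165
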