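import Pool.Agent.Run7.h165.Final1
import Pool.Agent.Run7.h165.Asm
import Pool.Agent.Run7.h165.ZeroOne
import Pool.Agent.Run7.h643.AT4
import Pool.Agent.Run7.h643.IV3

/-!
Main assembly: in high dimension and for `J₂/J₁` close to `1`, the two thresholds coincide.
-/

namespace Run7.h165

open Finset Filter Topology
open scoped Classical

open Run7.h643.AT (fv_mono fv_torus fv_transfer iv_not_mem iv_zero_one DD_inc DD_cyl DD_anti_outer)

/-! ### Numerical facts -/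

theorem h0_ge : 1285 / 1000 ≤ h0 := by
  have l2 := Real.log_two_gt_d9
  have l5 : 16 / 10 ≤ Real.log 5 := by
    rw [Real.le_log_iff_exp_le (by norm_num)]
    have h1 : Real.exp (16 / 10) ^ 5 = Real.exp 1 ^ 8 := by
      rw [← Real.exp_nat_mul, ← Real.exp_nat_mul]
      norm_num
    have h2 : Real.exp 1 ^ 8 ≤ 5 ^ 5 := by
      have := Real.exp_one_lt_d9
      calc Real.exp 1 ^ 8 ≤ (2.7182818286 : ℝ) ^ 8 :=
            pow_le_pow_left₀ (Real.exp_pos _).le this.le 8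
        _ ≤ _ := by norm_num
    rw [← h1] at h2
    exact le_of_pow_le_pow_left₀ (by norm_num) (by norm_num) h2
  have e1 : Real.log (4 / 10) = Real.log 2 - Real.log 5 := by
    rw [show (4 / 10 : ℝ) = 2 / 5 by norm_num, Real.log_div (by norm_num) (by norm_num)]
  have e2 : Real.log (1 / 4) = -(2 * Real.log 2) := by
    rw [show (1 / 4 : ℝ) = ((2 : ℝ) ^ 2)⁻¹ by norm_num, Real.log_inv, Real.log_pow]
    push_cast; ring
  have e3 : Real.log (1 / 10) = -(Real.log 2 + Real.log 5) := by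
    rw [show (1 / 10 : ℝ) = (2 * 5)⁻¹ by norm_num, Real.log_inv,
      Real.log_mul (by norm_num) (by norm_num)]
  unfold h0
  rw [e1, e2, e3]
  norm_num at l2 ⊢
  linarith

theorem exp_num : 4 * (84 / 100) * Real.exp (-(12372 / 10000)) ≤ 98 / 100 := by
  have h1 : Real.exp (12 / 10) ^ 5 = Real.exp 1 ^ 6 := by
    rw [← Real.exp_nat_mul, ← Real.exp_nat_mul]
    norm_num
  have h2 : (332 / 100 : ℝ) ^ 5 ≤ Real.exp 1 ^ 6 := by
    have := Real.exp_one_gt_d9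
    calc (332 / 100 : ℝ) ^ 5 ≤ (2.7182818283 : ℝ) ^ 6 := by norm_num
      _ ≤ _ := pow_le_pow_left₀ (by norm_num) this.le 6
  rw [← h1] at h2
  have h3 : 332 / 100 ≤ Real.exp (12 / 10) :=
    le_of_pow_le_pow_left₀ (by norm_num) (Real.exp_pos _).le h2
  have h4 := Real.add_one_le_exp (372 / 10000)
  have h5 : Real.exp (12372 / 10000) = Real.exp (12 / 10) * Real.exp (372 / 10000) := by
    rw [← Real.exp_add]; norm_num
  have h6 : 34286 / 10000 ≤ Real.exp (12372 / 10000) := by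
    rw [h5]
    calc (34286 / 10000 : ℝ) ≤ 332 / 100 * (372 / 10000 + 1) := by norm_num
      _ ≤ _ := mul_le_mul h3 h4 (by norm_num) (Real.exp_pos _).le
  rw [Real.exp_neg]
  have h7 : (Real.exp (12372 / 10000))⁻¹ ≤ (34286 / 10000)⁻¹ :=
    inv_anti₀ (by norm_num) h6
  have h8 : 4 * (84 / 100) * (34286 / 10000 : ℝ)⁻¹ ≤ 98 / 100 := by norm_num
  linarith

/-- The dimension is large enough. -/
def Dok (d : ℕ) : Prop := 6 ≤ d ∧ ∀ K, SbL d 6 (d / 6) K (1 / 20000000) (1 / 4) (1 / 100) (1 / 100)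
  (99 / 100) ≤ 1 / 10 ^ 8 / d

theorem exists_Dok : ∃ d₀ : ℕ, ∀ d, d₀ ≤ d → Dok d := by
  obtain ⟨d₀, h⟩ := num (ε := 1 / 20000000) (k0 := 1 / 4) (κ := 1 / 100) (α := 1 / 100)
    (q := 99 / 100) (by norm_num) (by norm_num) (by norm_num) (by norm_num) (by norm_num)
    (by norm_num) (δ := 1 / 10 ^ 8) (by norm_num)
  exact ⟨max d₀ 6, fun d hd => ⟨(le_max_right _ _).trans hd, h d ((le_max_left _ _).trans hd)⟩⟩

section dim

variable {d : ℕ} [NeZero d] (hD : Dok d)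

include hD

theorem Dok.pos : 0 < d := by have := hD.1; omega

theorem Dok.Sb_le (K : ℕ) : SbL d 6 (d / 6) K (1 / 20000000) (1 / 4) (1 / 100) (1 / 100)
    (99 / 100) ≤ 1 / 10 ^ 8 := by
  have h := hD.2 K
  have hd : (1 : ℝ) ≤ d := by exact_mod_cast hD.pos
  refine h.trans (div_le_self (by norm_num) hd)

theorem Dok.m_pos : 0 < d / 6 := Nat.div_pos hD.1 (by norm_num)

theorem Dok.grp_card' : ∀ r < 6, (grp d (d / 6) r).card = d / 6 := by
  intro r hr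
  apply grp_card
  have h1 : (r + 1) * (d / 6) ≤ 6 * (d / 6) := Nat.mul_le_mul_right _ hr
  have h2 := Nat.mul_div_le d 6
  omega

theorem star0 {N : ℕ} [NeZero N] {K : ℕ} (hN : N = 2 ^ K) (hK : 2 ≤ K) {K2 K4 : ℝ}
    (h2 : 1 / 4 ≤ K2) (h4 : 1 / 4 ≤ K4) (x : TV d N) :
    SP K2 K4 (fun σ => ∃ a, 1 / 20000000 < |star σ x a - Mm σ a|) ≤ 1 / 10 ^ 8 := by
  refine (star_prob hN hK (G := grp d (d / 6)) (T := 6) (m := d / 6) (by norm_num) hD.m_pos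
    (Nat.div_le_self d 6) hD.grp_card' (fun r _ r' hr => grp_disj hr) (ε := 1 / 20000000)
    (k0 := 1 / 4) (κ := 1 / 100) (α := 1 / 100) (q := 99 / 100) (by norm_num) (by norm_num) h2 h4
    (by norm_num) (by norm_num) (by norm_num) (by norm_num) (by norm_num)
    ((hD.Sb_le K).trans (by norm_num)) x).trans (hD.Sb_le K)

theorem decay0 {N : ℕ} [NeZero N] {K : ℕ} (hN : N = 2 ^ K) (hK : 2 ≤ K) {β J₁ J₂ : ℝ}
    (hβ : 0 < β) (h1 : 0 < J₁) (h2 : J₁ < J₂) (hk2 : 1 / 4 ≤ k2 d β J₁)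
    (hk24 : k2 d β J₁ ≤ k4 d β J₁ J₂) (hk4 : k4 d β J₁ J₂ ≤ 84 / 100) (x : TV d N) (n : ℕ) :
    JP β J₁ J₂ (fun ω σ => (∀ a, |Mm σ a| ≤ 1 / 200) ∧
      ∃ z, n ≤ ninf (z - x) ∧ ConnT 1 ω x z) ≤ 500 * Real.exp (-(1 / 100 * n)) := by
  have hh := h0_ge
  have hx : 12598 / 10000 ≤ h0 - (2 * k2 d β J₁ + k4 d β J₁ J₂) * (1 / 100) := by linarith
  have hρle : Real.exp (-(h0 - (2 * k2 d β J₁ + k4 d β J₁ J₂) * (1 / 100))) ≤ 1 := by
    rw [Real.exp_le_one_iff]; linarith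
  have hρ : Real.exp (-(h0 - (2 * k2 d β J₁ + k4 d β J₁ J₂) * (1 / 100))) ^ ((1 : ℝ) - 1 / 100) *
      Real.exp (1 / 100) ≤ Real.exp (-(12372 / 10000)) := by
    rw [← Real.exp_mul, ← Real.exp_add]
    apply Real.exp_le_exp.mpr
    norm_num
    linarith
  have hρ1 : Real.exp (-(h0 - (2 * k2 d β J₁ + k4 d β J₁ J₂) * (1 / 100))) ^
      ((1 : ℝ) - 1 / 100) * Real.exp (1 / 100) ≤ 1 := by
    refine hρ.trans ?_
    rw [Real.exp_le_one_iff]; norm_num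
  have hSb := hD.Sb_le K
  have hdR : (0 : ℝ) < d := by exact_mod_cast hD.pos
  have hSb2 : 2 * (d : ℝ) * SbL d 6 (d / 6) K (1 / 20000000) (1 / 4) (1 / 100) (1 / 100)
      (99 / 100) ≤ 1 / 100 := by
    have h := mul_le_mul_of_nonneg_left (hD.2 K) (by positivity : 0 ≤ 2 * (d : ℝ))
    refine h.trans ?_
    have : 2 * (d : ℝ) * (1 / 10 ^ 8 / d) = 2 / 10 ^ 8 := by field_simp
    rw [this]
    norm_num
  have key := decay hN hK (G := grp d (d / 6)) (T := 6) (m := d / 6) (by norm_num) hD.m_pos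
    (Nat.div_le_self d 6) hD.grp_card' (fun r _ r' hr => grp_disj hr) hβ h1 h2
    (ε := 1 / 20000000) (k0 := 1 / 4) (κ := 1 / 100) (η := 1 / 100) (α := 1 / 100)
    (q := 99 / 100) (by norm_num) (by norm_num) hk2 (hk2.trans hk24)
    (by norm_num) (by norm_num) (by norm_num) (by norm_num) (by norm_num) hρle hρ1
    (hSb.trans (by norm_num)) (by
      have e1 : 4 * k4 d β J₁ J₂ * (Real.exp (-(h0 - (2 * k2 d β J₁ + k4 d β J₁ J₂) *
          (1 / 100))) ^ ((1 : ℝ) - 1 / 100) * Real.exp (1 / 100)) ≤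
          4 * (84 / 100) * Real.exp (-(12372 / 10000)) := by
        apply mul_le_mul (by linarith) hρ (by positivity) (by norm_num)
      have := exp_num
      linarith) x n
  refine le_trans ?_ (key.trans (le_of_eq ?_))
  · apply Ex_mono
    · intro y; exact jw_nonneg _ _ (par_pos hβ h1 h2) _ _
    · intro y
      apply ind_mono
      rintro ⟨a1, a2⟩
      exact ⟨fun a => (a1 a).trans (by norm_num), a2⟩
  · norm_num

/-- If the means are small with probability at least `1/2` then there is no percolation. -/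
theorem conn_upper {β J₁ J₂ : ℝ} (hβ : 0 < β) (h1 : 0 < J₁) (h2 : J₁ < J₂)
    (hk2 : 1 / 4 ≤ k2 d β J₁) (hk24 : k2 d β J₁ ≤ k4 d β J₁ J₂)
    (hk4 : k4 d β J₁ J₂ ≤ 84 / 100)
    (hM : ∃ K₀ : ℕ, ∀ K, K₀ ≤ K → SP (k2 d β J₁) (k4 d β J₁ J₂)
      (fun σ : TV d (2 ^ K) → Sp => ∃ a, 1 / 200 < |Mm σ a|) ≤ 1 / 2) (m : ℕ) :
    ∃ n, m ≤ n ∧ ∀ M, n ≤ M → bprob d M β J₁ J₂ (DD 1 m n) ≤ 1 - 1 / 4 := by
  obtain ⟨K₀, hK₀⟩ := hM
  -- choice of n
  obtain ⟨r, hr0, hr⟩ : ∃ r : ℕ, 0 < r ∧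
      ((box d m).card : ℝ) * (500 * Real.exp (-(1 / 100 * r))) ≤ 1 / 4 := by
    have e1 : Tendsto (fun r : ℕ => ((box d m).card : ℝ) * (500 * Real.exp (-(1 / 100 * r))))
        atTop (𝓝 (((box d m).card : ℝ) * (500 * 0))) := by
      apply Tendsto.const_mul
      apply Tendsto.const_mul
      apply Real.tendsto_exp_neg_atTop_nhds_zero.comp
      exact tendsto_natCast_atTop_atTop.const_mul_atTop (by norm_num)
    rw [mul_zero, mul_zero] at e1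
    obtain ⟨r₀, hr₀⟩ := eventually_atTop.mp
      (e1.eventually (gt_mem_nhds (show (0 : ℝ) < 1 / 4 by norm_num)))
    exact ⟨max r₀ 1, by omega, (hr₀ _ (le_max_left _ _)).le⟩
  refine ⟨m + r, by omega, fun M hM => ?_⟩
  -- choice of K
  obtain ⟨K, hK1, hK2, hK3⟩ : ∃ K, K₀ ≤ K ∧ 2 ≤ K ∧ 2 * M + 1 < 2 ^ K := by
    refine ⟨max K₀ (2 * M + 2), le_max_left _ _, by omega, ?_⟩
    have h3 : 2 * M + 2 ≤ max K₀ (2 * M + 2) := le_max_right _ _
    calc 2 * M + 1 < 2 ^ (2 * M + 1) := Nat.lt_two_pow_self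
      _ ≤ _ := Nat.pow_le_pow_right (by norm_num) (by omega)
  have e1 : bprob d M β J₁ J₂ (DD 1 m (m + r)) ≤ tprob d (2 ^ K) β J₁ J₂ (DD 1 m (m + r)) := by
    apply fv_torus hK3 hβ h1 h2
    · exact DD_inc 1 m (m + r)
    · intro ω ω' h
      apply DD_cyl 1 m (m + r) ω ω'
      intro e he
      apply h
      unfold boxEdges at he ⊢
      rw [mem_filter, mem_product] at he ⊢
      have hbox : ∀ x : Fin d → ℤ, x ∈ box d (m + r) → x ∈ box d M := by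
        intro x hx
        unfold box at hx ⊢
        rw [Fintype.mem_piFinset] at hx ⊢
        intro i
        have := hx i
        rw [Finset.mem_Icc] at this ⊢
        have h5 : ((m + r : ℕ) : ℤ) ≤ M := by exact_mod_cast hM
        constructor <;> linarith [this.1, this.2]
      exact ⟨⟨hbox _ he.1.1, he.1.2⟩, hbox _ he.2⟩
  have e2 : tprob d (2 ^ K) β J₁ J₂ (DD 1 m (m + r)) =
      JP β J₁ J₂ (fun ω (_ : TV d (2 ^ K) → Sp) => DD 1 m (m + r) (pull ω)) := by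
    rw [JP_conf]
    rfl
  have e3 : JP β J₁ J₂ (fun ω (_ : TV d (2 ^ K) → Sp) => DD 1 m (m + r) (pull ω)) ≤
      JP β J₁ J₂ (fun (_ : TE d (2 ^ K) → Fin 3) σ => ∃ a, 1 / 200 < |Mm σ a|) +
      ∑ x ∈ box d m, JP β J₁ J₂ (fun ω (σ : TV d (2 ^ K) → Sp) => (∀ a, |Mm σ a| ≤ 1 / 200) ∧
        ∃ z : TV d (2 ^ K), r ≤ ninf (z - (fun i => ((x i : ℤ) : ZMod (2 ^ K)))) ∧
          ConnT 1 ω (fun i => ((x i : ℤ) : ZMod (2 ^ K))) z) := by
    unfold JP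
    rw [← Ex_sum, ← Ex_add]
    apply Ex_mono
    · intro y; exact jw_nonneg _ _ (par_pos hβ h1 h2) _ _
    · intro y
      have i1 := ind_nonneg (∃ a, 1 / 200 < |Mm y.2 a|)
      have i2 : 0 ≤ ∑ x ∈ box d m, ind ((∀ a, |Mm y.2 a| ≤ 1 / 200) ∧
        ∃ z : TV d (2 ^ K), r ≤ ninf (z - (fun i => ((x i : ℤ) : ZMod (2 ^ K)))) ∧
          ConnT 1 y.1 (fun i => ((x i : ℤ) : ZMod (2 ^ K))) z) :=
        Finset.sum_nonneg fun x _ => ind_nonneg _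
      by_cases hd : DD 1 m (m + r) (pull y.1)
      · rw [ind_pos hd]
        by_cases ha : ∃ a, 1 / 200 < |Mm y.2 a|
        · rw [ind_pos ha]; linarith
        · have ha' := ha
          push Not at ha'
          obtain ⟨x, hx, z, hz, hc⟩ := Run7.h643.AT.tr_DD (le_refl 1) (show m < m + r by omega)
            (show 2 * (m + r) < 2 ^ K by omega) y.1 hd
          rw [show m + r - m = r by omega] at hz
          have h5 := Finset.single_le_sum (f := fun x => ind ((∀ a, |Mm y.2 a| ≤ 1 / 200) ∧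
            ∃ z : TV d (2 ^ K), r ≤ ninf (z - (fun i => ((x i : ℤ) : ZMod (2 ^ K)))) ∧
              ConnT 1 y.1 (fun i => ((x i : ℤ) : ZMod (2 ^ K))) z)) (fun x _ => ind_nonneg _) hx
          beta_reduce at h5
          rw [ind_pos (show _ from ⟨ha', z, hz, hc⟩)] at h5
          linarith
      · rw [ind_neg hd]; linarith
  have e4 : JP β J₁ J₂ (fun (_ : TE d (2 ^ K) → Fin 3) σ => ∃ a, 1 / 200 < |Mm σ a|) ≤ 1 / 2 := by
    rw [JP_spin hD.pos]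
    exact hK₀ K hK1
  have e5 : ∑ x ∈ box d m, JP β J₁ J₂
      (fun ω (σ : TV d (2 ^ K) → Sp) => (∀ a, |Mm σ a| ≤ 1 / 200) ∧
        ∃ z : TV d (2 ^ K), r ≤ ninf (z - (fun i => ((x i : ℤ) : ZMod (2 ^ K)))) ∧
          ConnT 1 ω (fun i => ((x i : ℤ) : ZMod (2 ^ K))) z) ≤ 1 / 4 := by
    refine le_trans ?_ hr
    rw [← nsmul_eq_mul, ← Finset.sum_const]
    apply Finset.sum_le_sum
    intro x _
    exact decay0 hD rfl hK2 hβ h1 h2 hk2 hk24 hk4 _ r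
  linarith

/-- Part (b): no percolation of the type-2 edges slightly above `β` implies no percolation of the
type-1/2 edges at `β`. -/
theorem part_b {β β' J₁ J₂ : ℝ} (hβ : 0 < β) (hββ : β < β') (h1 : 0 < J₁) (h2 : J₁ < J₂)
    (hk2 : 1 / 4 ≤ k2 d β J₁) (hk24 : k2 d β J₁ ≤ k4 d β J₁ J₂)
    (hk4 : k4 d β J₁ J₂ ≤ 84 / 100) (hβ' : β' ∉ percSet d J₁ J₂ 2) :
    β ∉ percSet d J₁ J₂ 1 := by
  have hβ'0 : 0 < β' := hβ.trans hββ
  have hd := hD.pos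
  apply iv_not_mem hβ h1 h2 1 (1 / 4) (by norm_num)
  apply conn_upper hD hβ h1 h2 hk2 hk24 hk4
  obtain ⟨n, hn⟩ := iv_zero_one hβ'0 h1 h2 2 hβ' (1 / 10 ^ 8) (by norm_num)
  obtain ⟨N₀, hN₀⟩ := fv_transfer hd hβ hββ h1 h2 n (DD_inc 2 0 n) (DD_cyl 2 0 n)
    (1 / 10 ^ 8) (by norm_num)
  obtain ⟨K₁, hK₁⟩ := ev_small hd (show (0 : ℝ) < 1 / 8 by norm_num)
  obtain ⟨K₂, hK₂⟩ := ev_small2 hd ((2 * n + 1) ^ d) (show (0 : ℝ) < 1 / 10 ^ 8 by norm_num)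
  refine ⟨max (max K₁ K₂) (max N₀ 2), fun K hK => ?_⟩
  have a1 : K₁ ≤ K := ((le_max_left _ _).trans (le_max_left _ _)).trans hK
  have a2 : K₂ ≤ K := ((le_max_right _ _).trans (le_max_left _ _)).trans hK
  have a3 : N₀ ≤ K := ((le_max_left _ _).trans (le_max_right _ _)).trans hK
  have a4 : 2 ≤ K := ((le_max_right _ _).trans (le_max_right _ _)).trans hK
  have hN1 : (2 : ℕ) ^ K ≠ 1 := by
    have : 2 ^ 2 ≤ 2 ^ K := Nat.pow_le_pow_right (by norm_num) a4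
    omega
  have hT : tprob d (2 ^ K) β J₁ J₂ (DD 2 0 n) ≤ 2 / 10 ^ 8 := by
    obtain ⟨M, hM⟩ := hN₀ (2 ^ K) (a3.trans Nat.lt_two_pow_self.le)
    have h3 : bprob d M β' J₁ J₂ (DD 2 0 n) ≤ bprob d (max M n) β' J₁ J₂ (DD 2 0 n) :=
      fv_mono (le_max_left _ _) hβ'0 le_rfl h1 h2 (DD_inc 2 0 n)
    have h4 := hn (max M n) (le_max_right _ _)
    norm_num at h4 hM ⊢
    linarith
  have hsq : ∀ a : Fin 3, a = 0 ∨ a = 1 →
      SP (k2 d β J₁) (k4 d β J₁ J₂) (fun σ : TV d (2 ^ K) → Sp => 1 / 1000 < |Mm σ a|) ≤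
      1 / 16 := by
    intro a ha
    have h5 := msq_le (N := 2 ^ K) hd hβ h1 h2 ha n
    have h6 := SP_markov (N := 2 ^ K) (d := d) (K2 := k2 d β J₁) (K4 := k4 d β J₁ J₂) a
    have h7 := hK₂ K a2
    have h8 : Ex (sw (k2 d β J₁) (k4 d β J₁ J₂))
        (fun σ : TV d (2 ^ K) → Sp => Mm σ a ^ 2) ≤ 3 / 10 ^ 8 := by
      norm_num at h5 h7 hT ⊢
      linarith
    norm_num at h6 h8 ⊢
    linarith
  have hW := mf_W (N := 2 ^ K) hd (by linarith) hk24 hk4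
    (star0 hD rfl a4 hk2 (hk2.trans hk24))
  have hb := mf_b (N := 2 ^ K) hd hN1 (by linarith) hk24 hk4
  have hs0 := hsq 0 (Or.inl rfl)
  have hs1 := hsq 1 (Or.inr rfl)
  have hx := hK₁ K a1
  linarith

/-- No percolation at low `β`. -/
theorem part_low {β J₁ J₂ : ℝ} (hβ : 0 < β) (h1 : 0 < J₁) (h2 : J₁ < J₂)
    (hk2 : 1 / 4 ≤ k2 d β J₁) (hk24 : k2 d β J₁ ≤ k4 d β J₁ J₂)
    (hk4 : k4 d β J₁ J₂ ≤ 3 / 10) (β' : ℝ) (hβ'0 : 0 < β') (hβ' : β' ≤ β) :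
    β' ∉ percSet d J₁ J₂ 1 := by
  have hd := hD.pos
  apply iv_not_mem hβ'0 h1 h2 1 (1 / 4) (by norm_num)
  intro m
  obtain ⟨n, hmn, hn⟩ := conn_upper hD hβ h1 h2 hk2 hk24 (hk4.trans (by norm_num)) (by
    obtain ⟨K₁, hK₁⟩ := ev_small hd (show (0 : ℝ) < 1 / 8 by norm_num)
    refine ⟨max K₁ 2, fun K hK => ?_⟩
    have a1 : K₁ ≤ K := (le_max_left _ _).trans hK
    have a4 : 2 ≤ K := (le_max_right _ _).trans hK
    have hN1 : (2 : ℕ) ^ K ≠ 1 := by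
      have : 2 ^ 2 ≤ 2 ^ K := Nat.pow_le_pow_right (by norm_num) a4
      omega
    have hW := mf_W (N := 2 ^ K) hd (by linarith) hk24 (hk4.trans (by norm_num))
      (star0 hD rfl a4 hk2 (hk2.trans hk24))
    have hb := mf_b' (N := 2 ^ K) hd hN1 (by linarith) hk24 hk4
    have hx := hK₁ K a1
    linarith) m
  refine ⟨n, hmn, fun M hM => ?_⟩
  refine le_trans ?_ (hn M hM)
  exact fv_mono le_rfl hβ'0 hβ' h1 h2 (DD_inc 1 m n)

/-- Part (a): percolation of the type-2 edges above `β₀`. -/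
theorem part_a {β β' J₁ J₂ : ℝ} (hβ : 0 < β) (hββ : β < β') (h1 : 0 < J₁) (h2 : J₁ < J₂)
    (hk2 : 83 / 100 ≤ k2 d β J₁) (hk24 : k2 d β J₁ ≤ k4 d β J₁ J₂)
    (hk4 : k4 d β J₁ J₂ ≤ 84 / 100) :
    β' ∈ percSet d J₁ J₂ 2 := by
  by_contra hcon
  have hβ'0 : 0 < β' := hβ.trans hββ
  have hd := hD.pos
  obtain ⟨n, hn⟩ := iv_zero_one hβ'0 h1 h2 2 hcon (1 / 10 ^ 8) (by norm_num)
  obtain ⟨N₀, hN₀⟩ := fv_transfer hd hβ hββ h1 h2 n (DD_inc 2 0 n) (DD_cyl 2 0 n)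
    (1 / 10 ^ 8) (by norm_num)
  obtain ⟨K₁, hK₁⟩ := ev_small hd (show (0 : ℝ) < 1 / 8 by norm_num)
  obtain ⟨K₂, hK₂⟩ := ev_small2 hd ((2 * n + 1) ^ d) (show (0 : ℝ) < 1 / 10 ^ 8 by norm_num)
  set K := max (max K₁ K₂) (max N₀ 2) with hK
  have a1 : K₁ ≤ K := ((le_max_left _ _).trans (le_max_left _ _))
  have a2 : K₂ ≤ K := ((le_max_right _ _).trans (le_max_left _ _))
  have a3 : N₀ ≤ K := ((le_max_left _ _).trans (le_max_right _ _))
  have a4 : 2 ≤ K := ((le_max_right _ _).trans (le_max_right _ _))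
  have hN1 : (2 : ℕ) ^ K ≠ 1 := by
    have : 2 ^ 2 ≤ 2 ^ K := Nat.pow_le_pow_right (by norm_num) a4
    omega
  have hT : tprob d (2 ^ K) β J₁ J₂ (DD 2 0 n) ≤ 2 / 10 ^ 8 := by
    obtain ⟨M, hM⟩ := hN₀ (2 ^ K) (a3.trans Nat.lt_two_pow_self.le)
    have h3 : bprob d M β' J₁ J₂ (DD 2 0 n) ≤ bprob d (max M n) β' J₁ J₂ (DD 2 0 n) :=
      fv_mono (le_max_left _ _) hβ'0 le_rfl h1 h2 (DD_inc 2 0 n)
    have h4 := hn (max M n) (le_max_right _ _)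
    norm_num at h4 hM ⊢
    linarith
  have hsq : ∀ a : Fin 3, a = 0 ∨ a = 1 →
      Ex (sw (k2 d β J₁) (k4 d β J₁ J₂)) (fun σ : TV d (2 ^ K) → Sp => Mm σ a ^ 2) ≤
        3 / 10 ^ 8 := by
    intro a ha
    have h5 := msq_le (N := 2 ^ K) hd hβ h1 h2 ha n
    have h7 := hK₂ K a2
    norm_num at h5 h7 hT ⊢
    linarith
  have hW := mf_W (N := 2 ^ K) hd (by linarith) hk24 hk4
    (star0 hD rfl a4 (by linarith) (by linarith))
  have hb := mf_a (N := 2 ^ K) hd hN1 hk2 hk24 hk4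
  have hs0 := hsq 0 (Or.inl rfl)
  have hs1 := hsq 1 (Or.inr rfl)
  have hx := hK₁ K a1
  -- Markov
  have h8 : ∀ σ : TV d (2 ^ K) → Sp,
      (1 : ℝ) ≤ ind (Mm σ 0 ^ 2 + Mm σ 1 ^ 2 ≤ 1 / 10 ^ 6) +
      (10 ^ 6 * Mm σ 0 ^ 2 + 10 ^ 6 * Mm σ 1 ^ 2) := by
    intro σ
    by_cases h : Mm σ 0 ^ 2 + Mm σ 1 ^ 2 ≤ 1 / 10 ^ 6
    · rw [ind_pos h]
      have := sq_nonneg (Mm σ 0)
      have := sq_nonneg (Mm σ 1)
      linarith
    · rw [ind_neg h]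
      push Not at h
      norm_num at h ⊢
      linarith
  have h9 := Ex_mono (sw (k2 d β J₁) (k4 d β J₁ J₂)) (fun _ => (1 : ℝ)) _
    (fun σ => (sw_pos _ _ σ).le) h8
  rw [Ex_const _ _ (sw_sum_pos _ _), Ex_add, Ex_add, Ex_mul_left, Ex_mul_left] at h9
  unfold SP at hb hW
  norm_num at h9 hs0 hs1 hb hW hx
  linarith

/-- The main theorem. -/
theorem main {J₁ J₂ : ℝ} (h1 : 0 < J₁) (h2 : J₁ < J₂) (h3 : J₂ ≤ 503 / 500 * J₁) :
    ∃ βc, 0 < βc ∧ betaThreshold d J₁ J₂ 1 = βc ∧ betaThreshold d J₁ J₂ 2 = βc ∧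
      (∀ β, βc < β → β ∈ percSet d J₁ J₂ 1 ∧ β ∈ percSet d J₁ J₂ 2) ∧
      (∀ β, 0 < β → β < βc → β ∉ percSet d J₁ J₂ 1 ∧ β ∉ percSet d J₁ J₂ 2) := by
  have hd : (0 : ℝ) < d := by exact_mod_cast hD.pos
  have hJ : 0 < J₂ - J₁ / 2 := by linarith
  set β₀ : ℝ := 83 / 100 * 2 / (d * J₁) with hβ₀
  set βl : ℝ := 3 / 10 / (d * (J₂ - J₁ / 2)) with hβl
  have p0 : 0 < β₀ := by positivity
  have pl : 0 < βl := by positivity
  have k20 : k2 d β₀ J₁ = 83 / 100 := by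
    unfold k2; rw [hβ₀]; field_simp
  have k4l : k4 d βl J₁ J₂ = 3 / 10 := by
    have hne : (d : ℝ) * (J₂ - J₁ / 2) ≠ 0 := by positivity
    unfold k4
    rw [hβl, mul_assoc]
    exact div_mul_cancel₀ _ hne
  have k24 : ∀ β, 0 < β → k2 d β J₁ ≤ k4 d β J₁ J₂ := by
    intro β hβ
    unfold k2 k4
    have : 0 < β * d := by positivity
    nlinarith
  have k42 : ∀ β, 0 < β → k4 d β J₁ J₂ ≤ 1012 / 1000 * k2 d β J₁ := by
    intro β hβ
    unfold k2 k4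
    have : 0 < β * d := by positivity
    nlinarith
  have k2m : ∀ β β', β ≤ β' → k2 d β J₁ ≤ k2 d β' J₁ := by
    intro β β' h
    unfold k2
    have : 0 < d * J₁ := by positivity
    nlinarith
  have k4m : ∀ β β', β ≤ β' → k4 d β J₁ J₂ ≤ k4 d β' J₁ J₂ := by
    intro β β' h
    unfold k4
    have : 0 < d * (J₂ - J₁ / 2) := by positivity
    nlinarith
  have k40 : k4 d β₀ J₁ J₂ ≤ 84 / 100 := by
    have := k42 β₀ p0
    rw [k20] at this
    linarith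
  have k2l : 1 / 4 ≤ k2 d βl J₁ := by
    have := k42 βl pl
    rw [k4l] at this
    linarith
  have low := part_low hD pl h1 h2 k2l (k24 βl pl) k4l.le
  refine asm (β₀ := β₀) (βl := βl) ?_ ?_ ⟨pl, fun β hβ hβ' => low β hβ hβ'⟩ p0
  · intro β hβ
    exact part_a hD p0 hβ h1 h2 k20.ge (k24 β₀ p0) k40
  · intro β β' hβ hββ hβ' hn
    rcases le_or_gt β βl with h | h
    · exact low β hβ h
    · apply part_b hD hβ hββ h1 h2 _ (k24 β hβ) _ hn
      · exact k2l.trans (k2m _ _ h.le)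
      · exact (k4m _ _ (hββ.le.trans hβ')).trans k40

end dim

end Run7.h165
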