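import Pool.Agent.Run7.h165.Level

/-!
Averaging kernels on the torus and the flows between them.
-/

namespace Run7.h165

open Finset
open scoped Classical

variable {d N : ℕ} [NeZero N]

/-- unit vector times `ℓ` -/
abbrev ev (i : Fin d) (ℓ : ZMod N) : TV d N := Pi.single i ℓ

/-- averaging over the neighbours in the directions of `g` -/
noncomputable def starK (g : Finset (Fin d)) (w : TV d N → ℝ) : TV d N → ℝ :=
  fun x => (1 / (2 * (g.card : ℝ))) * ∑ i ∈ g, (w (x - ev i 1) + w (x + ev i 1))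

/-- averaging of `w` and its shift by `ℓ e_i` -/
noncomputable def dblK (i : Fin d) (ℓ : ℕ) (w : TV d N → ℝ) : TV d N → ℝ :=
  fun x => (w x + w (x - ev i (ℓ : ZMod N))) / 2

/-- average of the spin vector with kernel `w` around `y` -/
noncomputable def avg (w : TV d N → ℝ) (σ : TV d N → Sp) (y : TV d N) (a : Fin 3) : ℝ :=
  ∑ x, w x * Sv (σ (y + x)) a

noncomputable def uS (g : Finset (Fin d)) (w : TV d N → ℝ) : TE d N → ℝ :=
  fun e => if e.2 ∈ g then (1 / (2 * (g.card : ℝ))) * (w (e.1 + ev e.2 1) - w e.1) else 0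

noncomputable def uD (i : Fin d) (ℓ : ℕ) (w : TV d N → ℝ) : TE d N → ℝ :=
  fun e => if e.2 = i then -(1 / 2) * ∑ t ∈ range ℓ, w (e.1 - ev i (t : ZMod N)) else 0

theorem sum_shift_add (f : TV d N → ℝ) (v : TV d N) : ∑ x, f (x + v) = ∑ x, f x :=
  Equiv.sum_comp (Equiv.addRight v) f

theorem sum_shift_sub (f : TV d N → ℝ) (v : TV d N) : ∑ x, f (x - v) = ∑ x, f x :=
  Equiv.sum_comp (Equiv.subRight v) f

theorem flow_star (g : Finset (Fin d)) (hg : 0 < g.card) (w f : TV d N → ℝ) :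
    ∑ x, w x * f x - ∑ x, starK g w x * f x =
      ∑ e : TE d N, uS g w e * (f (ttgt e) - f (tsrc e)) := by
  have hgR : (g.card : ℝ) ≠ 0 := by exact_mod_cast hg.ne'
  have h1 : ∑ e : TE d N, uS g w e * (f (ttgt e) - f (tsrc e)) =
      ∑ i ∈ g, ∑ x : TV d N, (1 / (2 * (g.card : ℝ))) *
        ((w (x + ev i 1) - w x) * (f (x + ev i 1) - f x)) := by
    rw [Fintype.sum_prod_type, Finset.sum_comm, ← Finset.sum_subset (Finset.subset_univ g)]
    · apply Finset.sum_congr rfl; intro i hi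
      apply Finset.sum_congr rfl; intro x _
      simp only [uS, if_pos hi, ttgt, tsrc]
      ring
    · intro i _ hi
      apply Finset.sum_eq_zero; intro x _
      simp [uS, hi]
  have h2 : ∀ i : Fin d, ∑ x : TV d N, ((w (x + ev i 1) - w x) * (f (x + ev i 1) - f x)) =
      2 * (∑ x, w x * f x) - ∑ x, (w (x - ev i 1) + w (x + ev i 1)) * f x := by
    intro i
    have e1 : ∑ x : TV d N, w (x + ev i 1) * f (x + ev i 1) = ∑ x, w x * f x :=
      sum_shift_add (fun x => w x * f x) (ev i 1)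
    have e2 : ∑ x : TV d N, w x * f (x + ev i 1) = ∑ x, w (x - ev i 1) * f x := by
      rw [← sum_shift_sub (fun x => w x * f (x + ev i 1)) (ev i 1)]
      apply Finset.sum_congr rfl; intro x _
      simp
    have e3 : ∀ x : TV d N, (w (x + ev i 1) - w x) * (f (x + ev i 1) - f x) =
        w (x + ev i 1) * f (x + ev i 1) - w (x + ev i 1) * f x - w x * f (x + ev i 1)
          + w x * f x := by intro x; ring
    simp only [e3, Finset.sum_add_distrib, Finset.sum_sub_distrib, e1, e2, add_mul]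
    ring
  rw [h1]
  simp only [← Finset.mul_sum, h2]
  have h3 : ∑ x, starK g w x * f x = (1 / (2 * (g.card : ℝ))) *
      ∑ i ∈ g, ∑ x, (w (x - ev i 1) + w (x + ev i 1)) * f x := by
    unfold starK
    simp only [Finset.mul_sum, Finset.sum_mul]
    rw [Finset.sum_comm]
    apply Finset.sum_congr rfl; intro i _
    apply Finset.sum_congr rfl; intro x _
    ring
  rw [h3, Finset.sum_sub_distrib, Finset.sum_const, nsmul_eq_mul]
  field_simp

theorem flow_dbl (i : Fin d) (ℓ : ℕ) (w f : TV d N → ℝ) :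
    ∑ x, w x * f x - ∑ x, dblK i ℓ w x * f x =
      ∑ e : TE d N, uD i ℓ w e * (f (ttgt e) - f (tsrc e)) := by
  have h1 : ∑ e : TE d N, uD i ℓ w e * (f (ttgt e) - f (tsrc e)) =
      ∑ x : TV d N, -(1 / 2) * ∑ t ∈ range ℓ, w (x - ev i (t : ZMod N)) *
        (f (x + ev i 1) - f x) := by
    rw [Fintype.sum_prod_type]
    apply Finset.sum_congr rfl; intro x _
    rw [Finset.sum_eq_single i]
    · simp only [uD, if_pos, ttgt, tsrc, Finset.sum_mul, Finset.mul_sum]
      apply Finset.sum_congr rfl; intro t _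
      ring
    · intro j _ hj
      simp [uD, hj]
    · simp
  rw [h1, ← Finset.mul_sum, Finset.sum_comm]
  have h2 : ∀ t : ℕ, ∑ x : TV d N, w (x - ev i (t : ZMod N)) * (f (x + ev i 1) - f x) =
      ∑ x : TV d N, w x * (f (x + ev i ((t + 1 : ℕ) : ZMod N)) - f (x + ev i (t : ZMod N))) := by
    intro t
    rw [← sum_shift_add (fun x => w (x - ev i (t : ZMod N)) * (f (x + ev i 1) - f x))
      (ev i (t : ZMod N))]
    apply Finset.sum_congr rfl; intro x _
    have e1 : x + ev i (t : ZMod N) + ev i 1 = x + ev i ((t + 1 : ℕ) : ZMod N) := by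
      rw [add_assoc, ← Pi.single_add]
      push_cast
      rfl
    simp only [add_sub_cancel_right, e1]
  have h3 : ∑ t ∈ range ℓ, ∑ x : TV d N, w (x - ev i (t : ZMod N)) * (f (x + ev i 1) - f x) =
      ∑ x : TV d N, w x * (f (x + ev i (ℓ : ZMod N)) - f x) := by
    rw [Finset.sum_congr rfl (fun t _ => h2 t), Finset.sum_comm]
    apply Finset.sum_congr rfl; intro x _
    rw [← Finset.mul_sum, Finset.sum_range_sub (fun t : ℕ => f (x + ev i (t : ZMod N)))]
    simp
  rw [h3]
  have h4 : ∑ x, dblK i ℓ w x * f x =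
      ((∑ x, w x * f x) + ∑ x, w x * f (x + ev i (ℓ : ZMod N))) / 2 := by
    unfold dblK
    have e2 : ∑ x : TV d N, w x * f (x + ev i (ℓ : ZMod N)) =
        ∑ x, w (x - ev i (ℓ : ZMod N)) * f x := by
      rw [← sum_shift_sub (fun x => w x * f (x + ev i (ℓ : ZMod N))) (ev i (ℓ : ZMod N))]
      apply Finset.sum_congr rfl; intro x _
      simp
    rw [e2, ← Finset.sum_add_distrib, Finset.sum_div]
    apply Finset.sum_congr rfl; intro x _
    ring
  rw [h4]
  simp only [mul_sub, Finset.sum_sub_distrib]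
  ring

theorem Xf_star (g : Finset (Fin d)) (hg : 0 < g.card) (w : TV d N → ℝ) (σ : TV d N → Sp)
    (y : TV d N) (a : Fin 3) : avg w σ y a - avg (starK g w) σ y a = Xf (uS g w) σ y a :=
  flow_star g hg w (fun x => Sv (σ (y + x)) a)

theorem Xf_dbl (i : Fin d) (ℓ : ℕ) (w : TV d N → ℝ) (σ : TV d N → Sp)
    (y : TV d N) (a : Fin 3) : avg w σ y a - avg (dblK i ℓ w) σ y a = Xf (uD i ℓ w) σ y a :=
  flow_dbl i ℓ w (fun x => Sv (σ (y + x)) a)

/-- probability kernels bounded by `s` -/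
structure PK (w : TV d N → ℝ) (s : ℝ) : Prop where
  nonneg : ∀ x, 0 ≤ w x
  mass : ∑ x, w x = 1
  le : ∀ x, w x ≤ s

theorem PK.sq_le {w : TV d N → ℝ} {s : ℝ} (h : PK w s) : ∑ x, w x ^ 2 ≤ s := by
  calc ∑ x, w x ^ 2 ≤ ∑ x, s * w x := Finset.sum_le_sum fun x _ => by
        rw [sq]; exact mul_le_mul_of_nonneg_right (h.le x) (h.nonneg x)
    _ = s := by rw [← Finset.mul_sum, h.mass, mul_one]

theorem PK.mono {w : TV d N → ℝ} {s s' : ℝ} (h : PK w s) (hs : s ≤ s') : PK w s' :=
  ⟨h.nonneg, h.mass, fun x => (h.le x).trans hs⟩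

theorem PK.star {w : TV d N → ℝ} {s : ℝ} (h : PK w s) (g : Finset (Fin d)) (hg : 0 < g.card) :
    PK (starK g w) s := by
  have hgR : (0 : ℝ) < g.card := by exact_mod_cast hg
  refine ⟨fun x => ?_, ?_, fun x => ?_⟩
  · unfold starK
    exact mul_nonneg (by positivity) (Finset.sum_nonneg fun i _ =>
      add_nonneg (h.nonneg _) (h.nonneg _))
  · unfold starK
    rw [← Finset.mul_sum, Finset.sum_comm]
    have : ∀ i : Fin d, ∑ x : TV d N, (w (x - ev i 1) + w (x + ev i 1)) = 2 := by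
      intro i
      rw [Finset.sum_add_distrib, sum_shift_sub, sum_shift_add, h.mass]
      norm_num
    rw [Finset.sum_congr rfl (fun i _ => this i), Finset.sum_const, nsmul_eq_mul]
    field_simp
  · unfold starK
    have : ∑ i ∈ g, (w (x - ev i 1) + w (x + ev i 1)) ≤ ∑ _i ∈ g, 2 * s :=
      Finset.sum_le_sum fun i _ => by linarith [h.le (x - ev i 1), h.le (x + ev i 1)]
    rw [Finset.sum_const, nsmul_eq_mul] at this
    calc _ ≤ (1 / (2 * (g.card : ℝ))) * (g.card * (2 * s)) :=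
          mul_le_mul_of_nonneg_left this (by positivity)
      _ = s := by field_simp

theorem PK.dbl {w : TV d N → ℝ} {s : ℝ} (h : PK w s) (i : Fin d) (ℓ : ℕ) :
    PK (dblK i ℓ w) s := by
  refine ⟨fun x => ?_, ?_, fun x => ?_⟩
  · unfold dblK
    have := h.nonneg x
    have := h.nonneg (x - ev i (ℓ : ZMod N))
    linarith
  · unfold dblK
    rw [← Finset.sum_div, Finset.sum_add_distrib, sum_shift_sub, h.mass]
    norm_num
  · unfold dblK
    have := h.le x
    have := h.le (x - ev i (ℓ : ZMod N))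
    linarith

theorem uS_energy (g : Finset (Fin d)) (hg : 0 < g.card) {w : TV d N → ℝ} {s : ℝ} (h : PK w s) :
    ∑ e, uS g w e ^ 2 ≤ s / (2 * g.card) := by
  have hgR : (0 : ℝ) < g.card := by exact_mod_cast hg
  have h1 : ∑ e : TE d N, uS g w e ^ 2 =
      ∑ i ∈ g, ∑ x : TV d N, ((1 / (2 * (g.card : ℝ))) * (w (x + ev i 1) - w x)) ^ 2 := by
    rw [Fintype.sum_prod_type, Finset.sum_comm, ← Finset.sum_subset (Finset.subset_univ g)]
    · apply Finset.sum_congr rfl; intro i hi
      apply Finset.sum_congr rfl; intro x _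
      simp only [uS, if_pos hi]
    · intro i _ hi
      apply Finset.sum_eq_zero; intro x _
      simp [uS, hi]
  rw [h1]
  have h2 : ∀ i : Fin d, ∑ x : TV d N, ((1 / (2 * (g.card : ℝ))) * (w (x + ev i 1) - w x)) ^ 2 ≤
      (1 / (2 * (g.card : ℝ))) ^ 2 * (2 * s) := by
    intro i
    calc _ ≤ ∑ x : TV d N, (1 / (2 * (g.card : ℝ))) ^ 2 * (w (x + ev i 1) ^ 2 + w x ^ 2) := by
          apply Finset.sum_le_sum; intro x _
          rw [mul_pow]
          apply mul_le_mul_of_nonneg_left _ (sq_nonneg _)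
          have := mul_nonneg (h.nonneg (x + ev i 1)) (h.nonneg x)
          nlinarith
      _ = (1 / (2 * (g.card : ℝ))) ^ 2 * (2 * ∑ x, w x ^ 2) := by
          rw [← Finset.mul_sum, Finset.sum_add_distrib,
            sum_shift_add (fun x => w x ^ 2) (ev i 1)]
          ring
      _ ≤ _ := by
          apply mul_le_mul_of_nonneg_left _ (sq_nonneg _)
          linarith [h.sq_le]
  calc _ ≤ ∑ _i ∈ g, (1 / (2 * (g.card : ℝ))) ^ 2 * (2 * s) := Finset.sum_le_sum fun i _ => h2 i
    _ = s / (2 * g.card) := by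
        rw [Finset.sum_const, nsmul_eq_mul]
        field_simp

theorem uD_energy (i : Fin d) (ℓ : ℕ) {w : TV d N → ℝ} {s : ℝ} (h : PK w s) :
    ∑ e, uD i ℓ w e ^ 2 ≤ (ℓ : ℝ) ^ 2 * s / 4 := by
  have h1 : ∑ e : TE d N, uD i ℓ w e ^ 2 =
      ∑ x : TV d N, (-(1 / 2) * ∑ t ∈ range ℓ, w (x - ev i (t : ZMod N))) ^ 2 := by
    rw [Fintype.sum_prod_type]
    apply Finset.sum_congr rfl; intro x _
    rw [Finset.sum_eq_single i]
    · simp [uD]
    · intro j _ hj
      simp [uD, hj]
    · simp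
  rw [h1]
  calc _ ≤ ∑ x : TV d N, (1 / 4) * ((ℓ : ℝ) * ∑ t ∈ range ℓ, w (x - ev i (t : ZMod N)) ^ 2) := by
        apply Finset.sum_le_sum; intro x _
        have := sq_sum_le_card_mul_sum_sq (s := range ℓ) (f := fun t => w (x - ev i (t : ZMod N)))
        rw [card_range] at this
        rw [mul_pow]
        norm_num
        linarith
    _ = (1 / 4) * ((ℓ : ℝ) * ∑ t ∈ range ℓ, ∑ x : TV d N, w (x - ev i (t : ZMod N)) ^ 2) := by
        rw [← Finset.mul_sum, ← Finset.mul_sum, Finset.sum_comm]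
    _ = (1 / 4) * ((ℓ : ℝ) * (ℓ * ∑ x, w x ^ 2)) := by
        congr 2
        rw [Finset.sum_congr rfl (fun t _ => sum_shift_sub (fun x => w x ^ 2) _)]
        simp
    _ ≤ (1 / 4) * ((ℓ : ℝ) * (ℓ * s)) := by
        have := h.sq_le
        gcongr
    _ = _ := by ring

end Run7.h165
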