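import Pool.Agent.Run7.h165.Kernel

/-!
The sequence of kernels: star average, group stars, doublings.
-/

namespace Run7.h165

open Finset
open scoped Classical

variable {d N : ℕ} [NeZero N]

/-! ### norms on the torus -/

/-- absolute value on `ℤ/N` -/
def zn (a : ZMod N) : ℕ := a.valMinAbs.natAbs

omit [NeZero N] in
@[simp] theorem zn_zero : zn (0 : ZMod N) = 0 := by simp [zn]

omit [NeZero N] in
theorem zn_neg (a : ZMod N) : zn (-a) = zn a := ZMod.natAbs_valMinAbs_neg a

omit [NeZero N] in
theorem zn_add (a b : ZMod N) : zn (a + b) ≤ zn a + zn b :=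
  (ZMod.natAbs_valMinAbs_add_le a b).trans (Int.natAbs_add_le _ _)

theorem zn_le_val (a : ZMod N) : zn a ≤ a.val := by
  unfold zn
  rw [ZMod.valMinAbs_natAbs_eq_min]
  exact min_le_left _ _

theorem zn_natCast (ℓ : ℕ) : zn (ℓ : ZMod N) ≤ ℓ := by
  refine (zn_le_val _).trans ?_
  rw [ZMod.val_natCast]
  exact Nat.mod_le _ _

theorem zn_one : zn (1 : ZMod N) ≤ 1 := by
  have := zn_natCast (N := N) 1
  simpa using this

/-- ℓ¹ norm -/
def n1 (x : TV d N) : ℕ := ∑ i, zn (x i)

/-- sup norm -/
def ninf (x : TV d N) : ℕ := univ.sup (fun i => zn (x i))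

omit [NeZero N] in
theorem n1_neg (x : TV d N) : n1 (-x) = n1 x := by simp [n1, zn_neg]

omit [NeZero N] in
theorem ninf_neg (x : TV d N) : ninf (-x) = ninf x := by simp [ninf, zn_neg]

omit [NeZero N] in
theorem n1_add (x y : TV d N) : n1 (x + y) ≤ n1 x + n1 y := by
  unfold n1
  rw [← Finset.sum_add_distrib]
  exact Finset.sum_le_sum fun i _ => zn_add _ _

omit [NeZero N] in
theorem zn_le_ninf (x : TV d N) (i : Fin d) : zn (x i) ≤ ninf x :=
  Finset.le_sup (f := fun i => zn (x i)) (mem_univ i)

omit [NeZero N] in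
theorem ninf_le_iff (x : TV d N) (r : ℕ) : ninf x ≤ r ↔ ∀ i, zn (x i) ≤ r := by
  unfold ninf
  rw [Finset.sup_le_iff]
  simp

omit [NeZero N] in
theorem ninf_add (x y : TV d N) : ninf (x + y) ≤ ninf x + ninf y := by
  rw [ninf_le_iff]
  intro i
  exact (zn_add _ _).trans (add_le_add (zn_le_ninf x i) (zn_le_ninf y i))

omit [NeZero N] in
theorem ninf_le_n1 (x : TV d N) : ninf x ≤ n1 x := by
  rw [ninf_le_iff]
  intro i
  exact Finset.single_le_sum (f := fun i => zn (x i)) (fun _ _ => Nat.zero_le _) (mem_univ i)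

omit [NeZero N] in
@[simp] theorem n1_zero : n1 (0 : TV d N) = 0 := by simp [n1]

omit [NeZero N] in
@[simp] theorem ninf_zero : ninf (0 : TV d N) = 0 := by
  have := ninf_le_n1 (0 : TV d N)
  simpa using this

omit [NeZero N] in
theorem n1_ev (i : Fin d) (a : ZMod N) : n1 (ev i a : TV d N) = zn a := by
  unfold n1
  rw [Finset.sum_eq_single i]
  · simp
  · intro j _ hj
    simp [ev, hj]
  · simp

omit [NeZero N] in
theorem ninf_ev (i : Fin d) (a : ZMod N) : ninf (ev i a : TV d N) ≤ zn a := by
  rw [← n1_ev (d := d) i a]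
  exact ninf_le_n1 _

omit [NeZero N] in
theorem n1_sub (x y : TV d N) : n1 (x - y) ≤ n1 x + n1 y := by
  rw [sub_eq_add_neg, ← n1_neg y]
  exact n1_add _ _

omit [NeZero N] in
theorem ninf_sub (x y : TV d N) : ninf (x - y) ≤ ninf x + ninf y := by
  rw [sub_eq_add_neg, ← ninf_neg y]
  exact ninf_add _ _

/-! ### commutation -/

theorem starK_comm (g h : Finset (Fin d)) (w : TV d N → ℝ) :
    starK g (starK h w) = starK h (starK g w) := by
  funext x
  simp only [starK, Finset.mul_sum, ← Finset.sum_add_distrib, mul_add]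
  rw [Finset.sum_comm]
  apply Finset.sum_congr rfl; intro i _
  apply Finset.sum_congr rfl; intro j _
  have e1 : x - ev j 1 - ev i 1 = x - ev i 1 - ev j (1 : ZMod N) := by abel
  have e2 : x - ev j 1 + ev i 1 = x + ev i 1 - ev j (1 : ZMod N) := by abel
  have e3 : x + ev j 1 - ev i 1 = x - ev i 1 + ev j (1 : ZMod N) := by abel
  have e4 : x + ev j 1 + ev i 1 = x + ev i 1 + ev j (1 : ZMod N) := by abel
  rw [e1, e2, e3, e4]
  ring

theorem starK_dblK (g : Finset (Fin d)) (i : Fin d) (ℓ : ℕ) (w : TV d N → ℝ) :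
    starK g (dblK i ℓ w) = dblK i ℓ (starK g w) := by
  funext x
  simp only [starK, dblK]
  rw [← mul_add, ← Finset.sum_add_distrib, mul_div_assoc, Finset.sum_div]
  congr 1
  apply Finset.sum_congr rfl; intro j _
  have e1 : x - ev j 1 - ev i (ℓ : ZMod N) = x - ev i (ℓ : ZMod N) - ev j 1 := by abel
  have e2 : x + ev j 1 - ev i (ℓ : ZMod N) = x - ev i (ℓ : ZMod N) + ev j 1 := by abel
  rw [e1, e2]
  ring

/-! ### iterated kernels -/

noncomputable def delta0 : TV d N → ℝ := fun x => if x = 0 then 1 else 0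

noncomputable def starIter (G : ℕ → Finset (Fin d)) : ℕ → (TV d N → ℝ) → (TV d N → ℝ)
  | 0, w => w
  | r + 1, w => starK (G r) (starIter G r w)

noncomputable def dblIter [NeZero d] : ℕ → (TV d N → ℝ)
  | 0 => delta0
  | n + 1 => dblK (Fin.ofNat d n) (2 ^ (n / d)) (dblIter n)

/-- the `j`-th kernel -/
noncomputable def Wk [NeZero d] (G : ℕ → Finset (Fin d)) (T j : ℕ) : TV d N → ℝ :=
  starK univ (starIter G (min j T) (dblIter (j - T)))

theorem starIter_starK (G : ℕ → Finset (Fin d)) (g : Finset (Fin d)) (r : ℕ) (w : TV d N → ℝ) :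
    starIter G r (starK g w) = starK g (starIter G r w) := by
  induction r with
  | zero => rfl
  | succ r ih => simp only [starIter, ih, starK_comm]

theorem starIter_dblK (G : ℕ → Finset (Fin d)) (i : Fin d) (ℓ : ℕ) (r : ℕ) (w : TV d N → ℝ) :
    starIter G r (dblK i ℓ w) = dblK i ℓ (starIter G r w) := by
  induction r with
  | zero => rfl
  | succ r ih => simp only [starIter, ih, starK_dblK]

theorem Wk_succ_star [NeZero d] (G : ℕ → Finset (Fin d)) {T j : ℕ} (hj : j < T) :
    (Wk G T (j + 1) : TV d N → ℝ) = starK (G j) (Wk G T j) := by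
  unfold Wk
  rw [min_eq_left (Nat.succ_le_of_lt hj), min_eq_left hj.le,
    Nat.sub_eq_zero_of_le (Nat.succ_le_of_lt hj), Nat.sub_eq_zero_of_le hj.le]
  simp only [starIter]
  rw [starK_comm]

theorem Wk_succ_dbl [NeZero d] (G : ℕ → Finset (Fin d)) (T n : ℕ) :
    (Wk G T (T + n + 1) : TV d N → ℝ) =
      dblK (Fin.ofNat d n) (2 ^ (n / d)) (Wk G T (T + n)) := by
  unfold Wk
  rw [min_eq_right (by omega), min_eq_right (by omega),
    show T + n + 1 - T = n + 1 by omega, show T + n - T = n by omega]
  simp only [dblIter]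
  rw [starIter_dblK, starK_dblK]

/-! ### bounds of the kernels -/

theorem PK_delta0 : PK (delta0 : TV d N → ℝ) 1 := by
  refine ⟨fun x => ?_, ?_, fun x => ?_⟩
  · unfold delta0; split_ifs <;> norm_num
  · simp [delta0]
  · unfold delta0; split_ifs <;> norm_num

omit [NeZero N] in
theorem one_ne_zero_of {N : ℕ} (hN : 3 ≤ N) : (1 : ZMod N) ≠ 0 := by
  intro h
  have := (ZMod.natCast_eq_zero_iff 1 N).mp (by simpa using h)
  have := Nat.le_of_dvd one_pos this
  omega

omit [NeZero N] in
theorem two_ne_zero_of {N : ℕ} (hN : 3 ≤ N) : (1 : ZMod N) + 1 ≠ 0 := by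
  intro h
  have := (ZMod.natCast_eq_zero_iff 2 N).mp (by
    have h2 : ((2 : ℕ) : ZMod N) = 1 + 1 := by norm_num
    rw [h2]
    exact h)
  have := Nat.le_of_dvd two_pos this
  omega

theorem PK_star_gain (hN : 3 ≤ N) (g : Finset (Fin d)) (hg : 0 < g.card) {w : TV d N → ℝ} {s : ℝ}
    (h : PK w s) (hw : ∀ x, w x ≠ 0 → ∀ i ∈ g, x i = 0) :
    PK (starK g w) (s / (2 * g.card)) := by
  have h0 := h.star g hg
  have hgR : (0 : ℝ) < g.card := by exact_mod_cast hg
  have hs : 0 ≤ s := (h.nonneg 0).trans (h.le 0)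
  refine ⟨h0.nonneg, h0.mass, fun x => ?_⟩
  unfold starK
  have key : ∑ i ∈ g, (w (x - ev i 1) + w (x + ev i 1)) ≤ s := by
    by_cases hx : ∀ i ∈ g, w (x - ev i 1) = 0 ∧ w (x + ev i 1) = 0
    · rw [Finset.sum_eq_zero]
      · exact hs
      · intro i hi
        rw [(hx i hi).1, (hx i hi).2, add_zero]
    · push Not at hx
      obtain ⟨i, hi, hi'⟩ := hx
      have hxi : x i = 1 ∨ x i = -1 := by
        by_cases h1 : w (x - ev i 1) = 0
        · right
          have := hw _ (hi' h1) i hi
          simp only [Pi.add_apply, ev, Pi.single_eq_same] at this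
          exact eq_neg_of_add_eq_zero_left this
        · left
          have := hw _ h1 i hi
          simp only [Pi.sub_apply, ev, Pi.single_eq_same] at this
          exact sub_eq_zero.mp this
      have hxi0 : x i ≠ 0 := by
        rcases hxi with h | h <;> rw [h]
        · exact one_ne_zero_of hN
        · exact neg_ne_zero.mpr (one_ne_zero_of hN)
      rw [Finset.sum_eq_single i]
      · rcases hxi with h1 | h1
        · have : w (x + ev i 1) = 0 := by
            by_contra h2
            have := hw _ h2 i hi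
            simp only [Pi.add_apply, ev, Pi.single_eq_same, h1] at this
            exact two_ne_zero_of hN this
          rw [this, add_zero]
          exact h.le _
        · have : w (x - ev i 1) = 0 := by
            by_contra h2
            have := hw _ h2 i hi
            simp only [Pi.sub_apply, ev, Pi.single_eq_same, h1] at this
            apply two_ne_zero_of hN
            have h3 : -(1 + 1 : ZMod N) = 0 := by rw [← this]; ring
            exact neg_eq_zero.mp h3
          rw [this, zero_add]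
          exact h.le _
      · intro j hj hji
        have e1 : w (x - ev j 1) = 0 := by
          by_contra h2
          have := hw _ h2 i hi
          simp only [Pi.sub_apply, ev, Pi.single_apply, Ne.symm hji, if_false, sub_zero] at this
          exact hxi0 this
        have e2 : w (x + ev j 1) = 0 := by
          by_contra h2
          have := hw _ h2 i hi
          simp only [Pi.add_apply, ev, Pi.single_apply, Ne.symm hji, if_false, add_zero] at this
          exact hxi0 this
        rw [e1, e2, add_zero]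
      · intro h; exact absurd hi h
  calc _ ≤ (1 / (2 * (g.card : ℝ))) * s := mul_le_mul_of_nonneg_left key (by positivity)
    _ = _ := by ring

theorem starK_ne_zero {g : Finset (Fin d)} {w : TV d N → ℝ} {x : TV d N} (h : starK g w x ≠ 0) :
    ∃ i ∈ g, ∃ a : ZMod N, (a = 1 ∨ a = -1) ∧ w (x - ev i a) ≠ 0 := by
  unfold starK at h
  have h1 : ∑ i ∈ g, (w (x - ev i 1) + w (x + ev i 1)) ≠ 0 := fun h0 => h (by rw [h0, mul_zero])
  obtain ⟨i, hi, h2⟩ := Finset.exists_ne_zero_of_sum_ne_zero h1
  by_cases h3 : w (x - ev i 1) = 0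
  · refine ⟨i, hi, -1, Or.inr rfl, ?_⟩
    rw [h3, zero_add] at h2
    rw [show x - ev i (-1 : ZMod N) = x + ev i 1 by simp [ev, Pi.single_neg]]
    exact h2
  · exact ⟨i, hi, 1, Or.inl rfl, h3⟩

theorem starIter_delta_supp (G : ℕ → Finset (Fin d)) (r : ℕ) :
    ∀ x : TV d N, starIter G r delta0 x ≠ 0 → ∀ i, (∀ r' < r, i ∉ G r') → x i = 0 := by
  induction r with
  | zero =>
    intro x hx i _
    simp only [starIter, delta0, ne_eq, ite_eq_right_iff, one_ne_zero, imp_false, not_not] at hx
    rw [hx]; rfl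
  | succ r ih =>
    intro x hx i hi
    simp only [starIter] at hx
    obtain ⟨j, hj, a, -, h2⟩ := starK_ne_zero hx
    have h3 := ih _ h2 i (fun r' hr' => hi r' (hr'.trans (Nat.lt_succ_self _)))
    have hij : i ≠ j := by
      rintro rfl
      exact hi r (Nat.lt_succ_self _) hj
    simpa [ev, Pi.single_apply, hij] using h3

theorem PK_starIter_delta (hN : 3 ≤ N) (G : ℕ → Finset (Fin d)) {T m : ℕ} (hm : 0 < m)
    (hG : ∀ r < T, (G r).card = m) (hdis : ∀ r < T, ∀ r' < r, Disjoint (G r) (G r'))
    {r : ℕ} (hr : r ≤ T) : PK (starIter G r (delta0 : TV d N → ℝ)) ((1 / (2 * m)) ^ r) := by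
  induction r with
  | zero => simpa [starIter] using PK_delta0
  | succ r ih =>
    have h1 := ih (by omega)
    simp only [starIter]
    have h2 := PK_star_gain hN (G r) (by rw [hG r (by omega)]; exact hm) h1 (by
      intro x hx i hi
      apply starIter_delta_supp G r x hx i
      intro r' hr' hi'
      exact Finset.disjoint_left.mp (hdis r (by omega) r' hr') hi hi')
    rw [hG r (by omega)] at h2
    refine h2.mono (le_of_eq ?_)
    rw [pow_succ]
    ring

theorem PK_starIter (G : ℕ → Finset (Fin d)) {T m : ℕ} (hm : 0 < m)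
    (hG : ∀ r < T, (G r).card = m) {r : ℕ} (hr : r ≤ T) {w : TV d N → ℝ} {s : ℝ} (h : PK w s) :
    PK (starIter G r w) s := by
  induction r with
  | zero => exact h
  | succ r ih =>
    simp only [starIter]
    exact (ih (by omega)).star _ (by rw [hG r (by omega)]; exact hm)

end Run7.h165
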