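import Pool.Agent.Run7.h165.Spin
import Pool.Agent.Run7.h711.GD

/-!
Gaussian domination in flow form and the bound for bad vertices of a given level.
-/

namespace Run7.h165

open Finset
open scoped Classical

variable {d N : ℕ} [NeZero N]

theorem gd_flow {M : ℕ} (hd : 0 < d) (hM : 2 ≤ M) (hN : N = 2 * M) {K2 K4 : ℝ} (hK2 : 0 < K2)
    (hK4 : 0 < K4) (F : TE d N → Fin 3 → ℝ) :
    Ex (sw K2 K4) (fun σ => Real.exp (∑ e, ∑ a, F e a * (Sv (σ (ttgt e)) a - Sv (σ (tsrc e)) a))) ≤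
      Real.exp (d * ∑ e, ∑ a, F e a ^ 2 / Kv K2 K4 a) := by
  have hKv : ∀ a, 0 < Kv K2 K4 a := by
    intro a
    fin_cases a
    · exact hK2
    · exact hK2
    · exact hK4
  have hdR : (0 : ℝ) < d := by exact_mod_cast hd
  have key := Run7.h711.GD.gd (d := d) (N := N) hM hN (S := Sp) (κ := Fin 3)
    (fun s a => Real.sqrt (Kv K2 K4 a / (4 * d)) * Sv s a)
    (fun e a => F e a * Real.sqrt (d / Kv K2 K4 a))
  have hsq : ∀ a, Real.sqrt (Kv K2 K4 a / (4 * d)) * Real.sqrt (d / Kv K2 K4 a) = 1 / 2 := by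
    intro a
    rw [← Real.sqrt_mul (div_nonneg (hKv a).le (by positivity))]
    rw [show Kv K2 K4 a / (4 * d) * (d / Kv K2 K4 a) = (1 / 2) ^ 2 by
      have := (hKv a).ne'
      field_simp
      norm_num]
    exact Real.sqrt_sq (by norm_num)
  have hs1 : ∀ a, Real.sqrt (Kv K2 K4 a / (4 * d)) ^ 2 = Kv K2 K4 a / (4 * d) := fun a =>
    Real.sq_sqrt (div_nonneg (hKv a).le (by positivity))
  have hs2 : ∀ a, Real.sqrt (d / Kv K2 K4 a) ^ 2 = d / Kv K2 K4 a := fun a =>
    Real.sq_sqrt (div_nonneg hdR.le (hKv a).le)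
  set C : ℝ := ∑ _e : TE d N, ∑ a : Fin 3, Kv K2 K4 a / (2 * d) with hC
  -- the quadratic form
  have hQ : ∀ σ : TV d N → Sp, ∑ e : TE d N, ∑ a : Fin 3,
      (Real.sqrt (Kv K2 K4 a / (4 * d)) * Sv (σ (ttgt e)) a -
        Real.sqrt (Kv K2 K4 a / (4 * d)) * Sv (σ (tsrc e)) a) ^ 2 = C - Ham K2 K4 σ := by
    intro σ
    rw [hC]
    unfold Ham
    rw [Finset.mul_sum, ← Finset.sum_sub_distrib]
    apply Finset.sum_congr rfl; intro e _
    rw [Finset.mul_sum, ← Finset.sum_sub_distrib]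
    apply Finset.sum_congr rfl; intro a _
    have e1 := hs1 a
    have e2 := Sv_sq (σ (ttgt e)) a
    have e3 := Sv_sq (σ (tsrc e)) a
    calc (Real.sqrt (Kv K2 K4 a / (4 * d)) * Sv (σ (ttgt e)) a -
        Real.sqrt (Kv K2 K4 a / (4 * d)) * Sv (σ (tsrc e)) a) ^ 2 =
        Real.sqrt (Kv K2 K4 a / (4 * d)) ^ 2 * (Sv (σ (ttgt e)) a ^ 2 + Sv (σ (tsrc e)) a ^ 2 -
          2 * (Sv (σ (tsrc e)) a * Sv (σ (ttgt e)) a)) := by ring
      _ = Kv K2 K4 a / (4 * d) * (1 + 1 - 2 * (Sv (σ (tsrc e)) a * Sv (σ (ttgt e)) a)) := by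
          rw [e1, e2, e3]
      _ = _ := by field_simp; ring
  have hQ2 : ∀ σ : TV d N → Sp, ∑ e : TE d N, ∑ a : Fin 3,
      (Real.sqrt (Kv K2 K4 a / (4 * d)) * Sv (σ (ttgt e)) a -
        Real.sqrt (Kv K2 K4 a / (4 * d)) * Sv (σ (tsrc e)) a -
        F e a * Real.sqrt (d / Kv K2 K4 a)) ^ 2 = C - Ham K2 K4 σ
        - ∑ e, ∑ a, F e a * (Sv (σ (ttgt e)) a - Sv (σ (tsrc e)) a)
        + d * ∑ e, ∑ a, F e a ^ 2 / Kv K2 K4 a := by
    intro σ
    rw [← hQ σ, Finset.mul_sum, ← Finset.sum_sub_distrib, ← Finset.sum_add_distrib]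
    apply Finset.sum_congr rfl; intro e _
    rw [Finset.mul_sum, ← Finset.sum_sub_distrib, ← Finset.sum_add_distrib]
    apply Finset.sum_congr rfl; intro a _
    have e1 := hsq a
    have e2 := hs2 a
    calc (Real.sqrt (Kv K2 K4 a / (4 * d)) * Sv (σ (ttgt e)) a -
        Real.sqrt (Kv K2 K4 a / (4 * d)) * Sv (σ (tsrc e)) a -
        F e a * Real.sqrt (d / Kv K2 K4 a)) ^ 2 =
        (Real.sqrt (Kv K2 K4 a / (4 * d)) * Sv (σ (ttgt e)) a -
        Real.sqrt (Kv K2 K4 a / (4 * d)) * Sv (σ (tsrc e)) a) ^ 2 -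
        2 * (Real.sqrt (Kv K2 K4 a / (4 * d)) * Real.sqrt (d / Kv K2 K4 a)) * (F e a *
          (Sv (σ (ttgt e)) a - Sv (σ (tsrc e)) a)) +
          F e a ^ 2 * Real.sqrt (d / Kv K2 K4 a) ^ 2 := by ring
      _ = _ := by rw [e1, e2]; ring
  simp only [hQ, hQ2] at key
  have hpos := sw_sum_pos (d := d) (N := N) K2 K4
  unfold Ex
  rw [div_le_iff₀ hpos]
  have e1 : ∀ σ : TV d N → Sp, Real.exp (-(C - Ham K2 K4 σ)) = Real.exp (-C) * sw K2 K4 σ := by
    intro σ
    unfold sw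
    rw [← Real.exp_add]; congr 1; ring
  have e2 : ∀ σ : TV d N → Sp, Real.exp (-(C - Ham K2 K4 σ
        - ∑ e, ∑ a, F e a * (Sv (σ (ttgt e)) a - Sv (σ (tsrc e)) a)
        + d * ∑ e, ∑ a, F e a ^ 2 / Kv K2 K4 a)) =
      Real.exp (-C) * Real.exp (-(d * ∑ e, ∑ a, F e a ^ 2 / Kv K2 K4 a)) *
        (sw K2 K4 σ * Real.exp (∑ e, ∑ a, F e a * (Sv (σ (ttgt e)) a - Sv (σ (tsrc e)) a))) := by
    intro σ
    unfold sw
    rw [← Real.exp_add, ← Real.exp_add, ← Real.exp_add]; congr 1; ring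
  simp only [e1, e2] at key
  rw [← Finset.mul_sum, ← Finset.mul_sum, mul_assoc] at key
  have h2 := le_of_mul_le_mul_left key (Real.exp_pos (-C))
  rw [Real.exp_neg, inv_mul_le_iff₀ (Real.exp_pos _)] at h2
  exact h2

/-- The linear functional with flow `u` (translated to `y`). -/
noncomputable def Xf (u : TE d N → ℝ) (σ : TV d N → Sp) (y : TV d N) (a : Fin 3) : ℝ :=
  ∑ e : TE d N, u e * (Sv (σ (y + ttgt e)) a - Sv (σ (y + tsrc e)) a)

theorem Xf_eq (u : TE d N → ℝ) (σ : TV d N → Sp) (y : TV d N) (a : Fin 3) :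
    Xf u σ y a = ∑ e : TE d N, u (e.1 - y, e.2) * (Sv (σ (ttgt e)) a - Sv (σ (tsrc e)) a) := by
  unfold Xf
  rw [← Equiv.sum_comp ((Equiv.subRight y).prodCongr (Equiv.refl (Fin d)))]
  apply Finset.sum_congr rfl
  rintro ⟨x, i⟩ _
  simp only [Equiv.prodCongr_apply, Prod.map_apply, Equiv.subRight_apply, Equiv.refl_apply, ttgt,
    tsrc]
  have e1 : y + (x - y + Pi.single i 1) = x + Pi.single i 1 := by abel
  have e2 : y + (x - y) = x := by abel
  rw [e1, e2]

theorem sq_sum_of_disj {α : Type*} [Fintype α] (f : α → ℝ)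
    (h : ∀ x y, x ≠ y → f x * f y = 0) : (∑ x, f x) ^ 2 = ∑ x, f x ^ 2 := by
  rw [sq, Finset.sum_mul]
  apply Finset.sum_congr rfl
  intro x _
  rw [Finset.mul_sum, Finset.sum_eq_single x]
  · ring
  · intro y _ hy
    exact h x y (Ne.symm hy)
  · simp

theorem level_bound {M : ℕ} (hd : 0 < d) (hM : 2 ≤ M) (hN : N = 2 * M) {K2 K4 k : ℝ} (hk : 0 < k)
    (hK2 : k ≤ K2) (hK4 : k ≤ K4) (u : TE d N → ℝ) {U : ℝ} (hU0 : 0 < U)
    (hU : ∑ e, u e ^ 2 ≤ U) {ε : ℝ} (hε : 0 < ε) (Y : Finset (TV d N))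
    (hdisj : ∀ y ∈ Y, ∀ y' ∈ Y, y ≠ y' → ∀ e : TE d N, u (e.1 - y, e.2) = 0 ∨
      u (e.1 - y', e.2) = 0) :
    SP K2 K4 (fun σ => ∀ y ∈ Y, ∃ a, ε < |Xf u σ y a|) ≤
      (6 * Real.exp (-(ε ^ 2 * k / (4 * d * U)))) ^ Y.card := by
  have hdR : (0 : ℝ) < d := by exact_mod_cast hd
  have hK2' : 0 < K2 := lt_of_lt_of_le hk hK2
  have hK4' : 0 < K4 := lt_of_lt_of_le hk hK4
  have hKv : ∀ a, k ≤ Kv K2 K4 a := by
    intro a
    fin_cases a
    · exact hK2
    · exact hK2
    · exact hK4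
  set L : ℝ := ε * k / (2 * d * U) with hL
  have hL0 : 0 < L := by positivity
  -- pointwise bound of the indicator
  have h1 : ∀ σ : TV d N → Sp, ind (∀ y ∈ Y, ∃ a, ε < |Xf u σ y a|) ≤
      ∑ A : Y → Fin 3 × Bool,
        Real.exp (∑ y : Y, L * (sg (A y).2 * Xf u σ y (A y).1 - ε)) := by
    intro σ
    have e1 := Finset.prod_univ_sum (fun _ : Y => (univ : Finset (Fin 3 × Bool)))
      (fun y p => Real.exp (L * (sg p.2 * Xf u σ y p.1 - ε)))
    rw [Fintype.piFinset_univ] at e1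
    have e2 : ∑ A : Y → Fin 3 × Bool,
        Real.exp (∑ y : Y, L * (sg (A y).2 * Xf u σ y (A y).1 - ε)) =
        ∏ y : Y, ∑ p : Fin 3 × Bool, Real.exp (L * (sg p.2 * Xf u σ y p.1 - ε)) := by
      rw [e1]
      apply Finset.sum_congr rfl
      intro A _
      rw [Real.exp_sum]
    rw [e2]
    by_cases h : ∀ y ∈ Y, ∃ a, ε < |Xf u σ y a|
    · rw [ind_pos h]
      have : ∀ y : Y, (1 : ℝ) ≤ ∑ p : Fin 3 × Bool,
          Real.exp (L * (sg p.2 * Xf u σ y p.1 - ε)) := by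
        rintro ⟨y, hy⟩
        obtain ⟨a, ha⟩ := h y hy
        obtain ⟨b, hb⟩ : ∃ b : Bool, ε < sg b * Xf u σ y a := by
          rcases lt_abs.mp ha with h' | h'
          · exact ⟨true, by simpa [sg] using h'⟩
          · exact ⟨false, by simpa [sg] using h'⟩
        calc (1 : ℝ) ≤ Real.exp (L * (sg b * Xf u σ y a - ε)) := by
              apply Real.one_le_exp
              exact mul_nonneg hL0.le (by linarith)
          _ ≤ _ := Finset.single_le_sum (f := fun p : Fin 3 × Bool =>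
              Real.exp (L * (sg p.2 * Xf u σ y p.1 - ε)))
              (fun p _ => (Real.exp_pos _).le) (mem_univ (a, b))
      calc (1 : ℝ) = ∏ _y : Y, (1 : ℝ) := by simp
        _ ≤ _ := Finset.prod_le_prod (fun _ _ => zero_le_one) (fun y _ => this y)
    · rw [ind_neg h]
      exact Finset.prod_nonneg fun y _ => Finset.sum_nonneg fun p _ => (Real.exp_pos _).le
  -- bound of each expectation
  have h2 : ∀ A : Y → Fin 3 × Bool,
      Ex (sw K2 K4) (fun σ => Real.exp (∑ y : Y, L * (sg (A y).2 * Xf u σ y (A y).1 - ε))) ≤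
        Real.exp (-(ε ^ 2 * k / (4 * d * U))) ^ Y.card := by
    intro A
    set F : TE d N → Fin 3 → ℝ := fun e a =>
      ∑ y : Y, (if (A y).1 = a then L * sg (A y).2 else 0) * u (e.1 - y, e.2) with hF
    have e1 : ∀ σ : TV d N → Sp, ∑ y : Y, L * (sg (A y).2 * Xf u σ y (A y).1 - ε) =
        (∑ e, ∑ a, F e a * (Sv (σ (ttgt e)) a - Sv (σ (tsrc e)) a)) - L * ε * Y.card := by
      intro σ
      have e2 : ∀ y : Y, L * (sg (A y).2 * Xf u σ y (A y).1) =
          ∑ e : TE d N, ∑ a, ((if (A y).1 = a then L * sg (A y).2 else 0) * u (e.1 - y, e.2)) *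
            (Sv (σ (ttgt e)) a - Sv (σ (tsrc e)) a) := by
        intro y
        rw [Xf_eq, ← mul_assoc, Finset.mul_sum]
        apply Finset.sum_congr rfl
        intro e _
        rw [Finset.sum_eq_single (A y).1]
        · simp; ring
        · intro a _ ha
          rw [if_neg (Ne.symm ha)]; ring
        · simp
      have e0 : ∑ y : Y, L * (sg (A y).2 * Xf u σ y (A y).1 - ε) =
          ∑ y : Y, L * (sg (A y).2 * Xf u σ y (A y).1) - ∑ _y : Y, L * ε := by
        rw [← Finset.sum_sub_distrib]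
        apply Finset.sum_congr rfl; intro y _; ring
      rw [e0, Finset.sum_congr rfl (fun y _ => e2 y), Finset.sum_comm]
      congr 1
      · apply Finset.sum_congr rfl; intro e _
        rw [Finset.sum_comm]
        apply Finset.sum_congr rfl; intro a _
        rw [hF]
        simp only
        rw [← Finset.sum_mul]
      · simp; ring
    have e3 : ∑ e, ∑ a, F e a ^ 2 / Kv K2 K4 a ≤ L ^ 2 * Y.card * U / k := by
      have e4 : ∀ e a, F e a ^ 2 = ∑ y : Y,
          ((if (A y).1 = a then L * sg (A y).2 else 0) * u (e.1 - y, e.2)) ^ 2 := by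
        intro e a
        apply sq_sum_of_disj
        intro y y' hy
        rcases hdisj y y.2 y' y'.2 (fun h => hy (Subtype.ext h)) e with h | h <;>
          rw [h] <;> ring
      have e5 : ∀ e : TE d N, ∑ a, F e a ^ 2 / Kv K2 K4 a ≤
          ∑ y : Y, L ^ 2 * u (e.1 - y, e.2) ^ 2 / k := by
        intro e
        calc ∑ a, F e a ^ 2 / Kv K2 K4 a ≤ ∑ a, F e a ^ 2 / k :=
              Finset.sum_le_sum fun a _ => div_le_div_of_nonneg_left (sq_nonneg _) hk (hKv a)
          _ = ∑ a, ∑ y : Y,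
              ((if (A y).1 = a then L * sg (A y).2 else 0) * u (e.1 - y, e.2)) ^ 2 / k := by
              apply Finset.sum_congr rfl; intro a _
              rw [e4, Finset.sum_div]
          _ = ∑ y : Y, ∑ a,
              ((if (A y).1 = a then L * sg (A y).2 else 0) * u (e.1 - y, e.2)) ^ 2 / k :=
              Finset.sum_comm
          _ = ∑ y : Y, L ^ 2 * u (e.1 - y, e.2) ^ 2 / k := by
              apply Finset.sum_congr rfl; intro y _
              rw [Finset.sum_eq_single (A y).1]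
              · rw [if_pos rfl]
                have := sg_sq (A y).2
                calc (L * sg (A y).2 * u (e.1 - y, e.2)) ^ 2 / k =
                    L ^ 2 * u (e.1 - y, e.2) ^ 2 / k * sg (A y).2 ^ 2 := by ring
                  _ = _ := by rw [this, mul_one]
              · intro a _ ha
                rw [if_neg (Ne.symm ha)]; ring
              · simp
          _ ≤ _ := le_rfl
      calc ∑ e, ∑ a, F e a ^ 2 / Kv K2 K4 a ≤
            ∑ e : TE d N, ∑ y : Y, L ^ 2 * u (e.1 - y, e.2) ^ 2 / k :=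
            Finset.sum_le_sum fun e _ => e5 e
        _ = ∑ y : Y, ∑ e : TE d N, L ^ 2 * u (e.1 - y, e.2) ^ 2 / k := Finset.sum_comm
        _ = ∑ _y : Y, ∑ e : TE d N, L ^ 2 * u e ^ 2 / k := by
            apply Finset.sum_congr rfl; intro y _
            rw [← Equiv.sum_comp ((Equiv.subRight (y : TV d N)).prodCongr (Equiv.refl (Fin d)))
              (fun e : TE d N => L ^ 2 * u e ^ 2 / k)]
            rfl
        _ ≤ ∑ _y : Y, L ^ 2 * U / k := by
            apply Finset.sum_le_sum; intro y _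
            rw [← Finset.sum_div, ← Finset.mul_sum]
            apply div_le_div_of_nonneg_right _ hk.le
            exact mul_le_mul_of_nonneg_left hU (sq_nonneg _)
        _ = _ := by simp; ring
    have e6 := gd_flow hd hM hN hK2' hK4' F
    have e7 : (fun σ : TV d N → Sp =>
        Real.exp (∑ y : Y, L * (sg (A y).2 * Xf u σ y (A y).1 - ε))) =
        (fun σ => Real.exp (-(L * ε * Y.card)) *
          Real.exp (∑ e, ∑ a, F e a * (Sv (σ (ttgt e)) a - Sv (σ (tsrc e)) a))) := by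
      funext σ
      rw [e1 σ, ← Real.exp_add]
      congr 1; ring
    rw [e7, Ex_mul_left]
    calc Real.exp (-(L * ε * Y.card)) * Ex (sw K2 K4) (fun σ =>
          Real.exp (∑ e, ∑ a, F e a * (Sv (σ (ttgt e)) a - Sv (σ (tsrc e)) a)))
        ≤ Real.exp (-(L * ε * Y.card)) * Real.exp (d * ∑ e, ∑ a, F e a ^ 2 / Kv K2 K4 a) :=
          mul_le_mul_of_nonneg_left e6 (Real.exp_pos _).le
      _ = Real.exp (-(L * ε * Y.card) + d * ∑ e, ∑ a, F e a ^ 2 / Kv K2 K4 a) := by
          rw [Real.exp_add]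
      _ ≤ Real.exp (Y.card * (-(ε ^ 2 * k / (4 * d * U)))) := by
          apply Real.exp_le_exp.mpr
          have e8 := mul_le_mul_of_nonneg_left e3 hdR.le
          have e9 : -(L * ε * Y.card) + d * (L ^ 2 * Y.card * U / k) =
              Y.card * (-(ε ^ 2 * k / (4 * d * U))) := by
            rw [hL]
            field_simp
            ring
          linarith
      _ = _ := by rw [Real.exp_nat_mul]
  calc SP K2 K4 (fun σ => ∀ y ∈ Y, ∃ a, ε < |Xf u σ y a|)
      ≤ Ex (sw K2 K4) (fun σ => ∑ A : Y → Fin 3 × Bool,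
        Real.exp (∑ y : Y, L * (sg (A y).2 * Xf u σ y (A y).1 - ε))) :=
        Ex_mono _ _ _ (fun σ => (sw_pos K2 K4 σ).le) h1
    _ = ∑ A : Y → Fin 3 × Bool, Ex (sw K2 K4) (fun σ =>
        Real.exp (∑ y : Y, L * (sg (A y).2 * Xf u σ y (A y).1 - ε))) := Ex_sum _ _ _
    _ ≤ ∑ _A : Y → Fin 3 × Bool, Real.exp (-(ε ^ 2 * k / (4 * d * U))) ^ Y.card :=
        Finset.sum_le_sum fun A _ => h2 A
    _ = _ := by
        rw [Finset.sum_const, nsmul_eq_mul, mul_pow]
        congr 1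
        simp [Finset.card_univ]

end Run7.h165
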