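import Pool.Agent.Run7.h165.Spin

/-!
The resampling bound: the probability that the spins on `V` take prescribed values with the same
`θ`, while all the star averages at the vertices of `V` are small.
-/

namespace Run7.h165

open Finset
open scoped Classical

variable {d N : ℕ} [NeZero N]

/-- New spins on `V`. -/
noncomputable def upd (V : Finset (TV d N)) (σ : TV d N → Sp) (s : V → Sp) : TV d N → Sp :=
  fun x => if h : x ∈ V then s ⟨x, h⟩ else σ x

/-- The trial distribution. -/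
noncomputable def piC (c t : Sp) : ℝ := (1 + 3 / 10 * (Sv c 0 * Sv t 0) + 3 / 10 * (Sv c 1 * Sv t 1)) / 4

theorem piC_pos (c t : Sp) : 0 < piC c t := by
  obtain ⟨c1, c2⟩ := c
  obtain ⟨t1, t2⟩ := t
  unfold piC
  cases c1 <;> cases c2 <;> cases t1 <;> cases t2 <;> simp [sg] <;> norm_num

theorem piC_sum (c : Sp) : ∑ t, piC c t = 1 := by
  obtain ⟨c1, c2⟩ := c
  unfold piC
  simp only [Fintype.sum_prod_type, Fintype.sum_bool]
  cases c1 <;> cases c2 <;> simp [sg] <;> norm_num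

theorem piC_mean (c : Sp) (a : Fin 3) :
    ∑ t, piC c t * Sv t a = ![3 / 10 * Sv c 0, 3 / 10 * Sv c 1, 0] a := by
  obtain ⟨c1, c2⟩ := c
  unfold piC
  simp only [Fintype.sum_prod_type, Fintype.sum_bool]
  fin_cases a <;> cases c1 <;> cases c2 <;> simp [sg] <;> norm_num

/-- Entropy of the trial distribution. -/
noncomputable def h0 : ℝ :=
  -(4 / 10 * Real.log (4 / 10) + 5 / 10 * Real.log (1 / 4) + 1 / 10 * Real.log (1 / 10))

theorem piC_ent (c : Sp) : ∑ t, piC c t * Real.log (piC c t) = -h0 := by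
  obtain ⟨c1, c2⟩ := c
  have e1 : (1 + 3 / 10 + 3 / 10 : ℝ) / 4 = 4 / 10 := by norm_num
  have e2 : (1 - 3 / 10 - 3 / 10 : ℝ) / 4 = 1 / 10 := by norm_num
  have e3 : (1 + 3 / 10 - 3 / 10 : ℝ) / 4 = 1 / 4 := by norm_num
  have e4 : (1 - 3 / 10 + 3 / 10 : ℝ) / 4 = 1 / 4 := by norm_num
  have key : ∀ t : Sp, piC (c1, c2) t =
      if t = (c1, c2) then 4 / 10 else if t.1 = c1 then 1 / 10 else 1 / 4 := by
    rintro ⟨t1, t2⟩
    unfold piC
    cases c1 <;> cases c2 <;> cases t1 <;> cases t2 <;> simp [sg] <;> norm_num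
  simp only [key, Fintype.sum_prod_type, Fintype.sum_bool]
  unfold h0
  cases c1 <;> cases c2 <;> simp <;> ring

/-- Bilinear form along the edges. -/
noncomputable def Bf (K2 K4 : ℝ) (f g : TV d N → Fin 3 → ℝ) : ℝ :=
  ∑ e : TE d N, ∑ a : Fin 3, Kv K2 K4 a * f (tsrc e) a * g (ttgt e) a

theorem Ham_eq (K2 K4 : ℝ) (σ : TV d N → Sp) :
    Ham K2 K4 σ = (1 / (2 * (d : ℝ))) * Bf K2 K4 (fun x => Sv (σ x)) (fun x => Sv (σ x)) := rfl

theorem sum_TE {f : TE d N → ℝ} : ∑ e : TE d N, f e = ∑ x : TV d N, ∑ i : Fin d, f (x, i) :=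
  Fintype.sum_prod_type _

theorem Ham_add (K2 K4 : ℝ) (σ σ' : TV d N → Sp) :
    Ham K2 K4 σ' = Ham K2 K4 σ
      + ∑ x, ∑ a, Kv K2 K4 a * (Sv (σ' x) a - Sv (σ x) a) * star σ x a
      + (1 / (2 * (d : ℝ))) * ∑ e : TE d N, ∑ a : Fin 3, Kv K2 K4 a *
          ((Sv (σ' (tsrc e)) a - Sv (σ (tsrc e)) a) * (Sv (σ' (ttgt e)) a - Sv (σ (ttgt e)) a)) := by
  have h1 : ∑ x, ∑ a, Kv K2 K4 a * (Sv (σ' x) a - Sv (σ x) a) * star σ x a =
      (1 / (2 * (d : ℝ))) * (∑ e : TE d N, ∑ a : Fin 3, Kv K2 K4 a *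
        (Sv (σ' (tsrc e)) a - Sv (σ (tsrc e)) a) * Sv (σ (ttgt e)) a +
        ∑ e : TE d N, ∑ a : Fin 3, Kv K2 K4 a *
        Sv (σ (tsrc e)) a * (Sv (σ' (ttgt e)) a - Sv (σ (ttgt e)) a)) := by
    have h2 : ∑ e : TE d N, ∑ a : Fin 3, Kv K2 K4 a *
        Sv (σ (tsrc e)) a * (Sv (σ' (ttgt e)) a - Sv (σ (ttgt e)) a) =
        ∑ x : TV d N, ∑ i : Fin d, ∑ a : Fin 3, Kv K2 K4 a *
        Sv (σ (x - Pi.single i 1)) a * (Sv (σ' x) a - Sv (σ x) a) := by
      rw [sum_TE, Finset.sum_comm]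
      conv_rhs => rw [Finset.sum_comm]
      apply Finset.sum_congr rfl
      intro i _
      rw [← Equiv.sum_comp (Equiv.subRight (Pi.single i (1 : ZMod N) : TV d N))]
      apply Finset.sum_congr rfl
      intro x _
      simp [tsrc, ttgt]
    rw [h2, sum_TE, ← Finset.sum_add_distrib, Finset.mul_sum]
    apply Finset.sum_congr rfl
    intro x _
    rw [← Finset.sum_add_distrib]
    unfold star
    simp only [Finset.mul_sum, tsrc, ttgt]
    rw [Finset.sum_comm]
    apply Finset.sum_congr rfl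
    intro i _
    rw [← Finset.sum_add_distrib, Finset.mul_sum]
    apply Finset.sum_congr rfl
    intro a _
    ring
  rw [h1]
  unfold Ham
  rw [← mul_add, ← mul_add, ← Finset.sum_add_distrib, ← Finset.sum_add_distrib,
    ← Finset.sum_add_distrib]
  congr 1
  apply Finset.sum_congr rfl
  intro e _
  rw [← Finset.sum_add_distrib, ← Finset.sum_add_distrib, ← Finset.sum_add_distrib]
  apply Finset.sum_congr rfl
  intro a _
  ring

theorem src_ne_tgt (hN : N ≠ 1) (e : TE d N) : tsrc e ≠ ttgt e := by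
  intro h
  have h1 := congrFun h e.2
  simp only [tsrc, ttgt, Pi.add_apply, Pi.single_eq_same] at h1
  have h2 : (1 : ZMod N) = 0 := by
    have := h1.symm
    rwa [add_eq_left] at this
  have : N = 1 := by
    have h3 := (ZMod.natCast_eq_zero_iff 1 N).mp (by simpa using h2)
    exact Nat.dvd_one.mp h3
  exact hN this

/-- Mean displacement. -/
noncomputable def Dm (V : Finset (TV d N)) (c : TV d N → Sp) (x : TV d N) (a : Fin 3) : ℝ :=
  if x ∈ V then (![3 / 10 * Sv (c x) 0, 3 / 10 * Sv (c x) 1, 0] a) - Sv (c x) a else 0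

theorem upd_mem {V : Finset (TV d N)} {σ : TV d N → Sp} {s : V → Sp} {x : TV d N} (h : x ∈ V) :
    upd V σ s x = s ⟨x, h⟩ := by simp [upd, h]

theorem upd_not_mem {V : Finset (TV d N)} {σ : TV d N → Sp} {s : V → Sp} {x : TV d N}
    (h : x ∉ V) : upd V σ s x = σ x := by simp [upd, h]

/-- Expectation of the energy under the trial measure. -/
theorem exp_energy (hN : N ≠ 1) (K2 K4 : ℝ) (c : TV d N → Sp) (V : Finset (TV d N))
    (σ : TV d N → Sp) (hσ : ∀ x ∈ V, σ x = c x) :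
    ∑ s : V → Sp, (∏ x : V, piC (c x) (s x)) * Ham K2 K4 (upd V σ s) =
      Ham K2 K4 σ + ∑ x, ∑ a, Kv K2 K4 a * Dm V c x a * star σ x a
      + (1 / (2 * (d : ℝ))) * ∑ e : TE d N, ∑ a : Fin 3, Kv K2 K4 a *
          (Dm V c (tsrc e) a * Dm V c (ttgt e) a) := by
  set W : (V → Sp) → ℝ := fun s => ∏ x : V, piC (c x) (s x) with hW
  have hW1 : ∑ s, W s = 1 := prod_sum_one (fun x : V => piC (c x)) (fun x => piC_sum _)
  have e1 : ∀ (x : TV d N) (a : Fin 3),
      ∑ s, W s * (Sv (upd V σ s x) a - Sv (σ x) a) = Dm V c x a := by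
    intro x a
    by_cases hx : x ∈ V
    · have := prod_exp_one (fun x : V => piC (c x)) (fun x => piC_sum _) ⟨x, hx⟩
        (fun t => Sv t a - Sv (σ x) a)
      simp only [upd_mem hx]
      rw [this]
      simp only [mul_sub, Finset.sum_sub_distrib, piC_mean, ← Finset.sum_mul, piC_sum, one_mul]
      rw [Dm, if_pos hx, hσ x hx]
    · simp [upd_not_mem hx, Dm, hx]
  have e2 : ∀ (x y : TV d N) (_ : x ≠ y) (a : Fin 3),
      ∑ s, W s * ((Sv (upd V σ s x) a - Sv (σ x) a) * (Sv (upd V σ s y) a - Sv (σ y) a)) =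
        Dm V c x a * Dm V c y a := by
    intro x y hxy a
    by_cases hx : x ∈ V
    · by_cases hy : y ∈ V
      · have := prod_exp_two (fun x : V => piC (c x)) (fun x => piC_sum _) ⟨x, hx⟩ ⟨y, hy⟩
          (fun h => hxy (congrArg Subtype.val h))
          (fun t => Sv t a - Sv (σ x) a) (fun t => Sv t a - Sv (σ y) a)
        simp only [upd_mem hx, upd_mem hy]
        rw [this]
        simp only [mul_sub, Finset.sum_sub_distrib, piC_mean, ← Finset.sum_mul, piC_sum, one_mul]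
        rw [Dm, if_pos hx, Dm, if_pos hy, hσ x hx, hσ y hy]
        ring
      · simp [upd_not_mem hy, Dm, hy]
    · simp [upd_not_mem hx, Dm, hx]
  have e3 : ∀ s, W s * Ham K2 K4 (upd V σ s) = W s * Ham K2 K4 σ +
      ∑ x, ∑ a, Kv K2 K4 a * (W s * (Sv (upd V σ s x) a - Sv (σ x) a)) * star σ x a +
      (1 / (2 * (d : ℝ))) * ∑ e : TE d N, ∑ a : Fin 3, Kv K2 K4 a *
          (W s * ((Sv (upd V σ s (tsrc e)) a - Sv (σ (tsrc e)) a) *
            (Sv (upd V σ s (ttgt e)) a - Sv (σ (ttgt e)) a))) := by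
    intro s
    rw [Ham_add K2 K4 σ (upd V σ s), mul_add, mul_add]
    congr 1
    · congr 1
      simp only [Finset.mul_sum]
      apply Finset.sum_congr rfl; intro x _
      apply Finset.sum_congr rfl; intro a _
      ring
    · simp only [Finset.mul_sum]
      apply Finset.sum_congr rfl; intro x _
      apply Finset.sum_congr rfl; intro a _
      ring
  rw [Finset.sum_congr rfl (fun s _ => e3 s), Finset.sum_add_distrib, Finset.sum_add_distrib,
    ← Finset.sum_mul, hW1, one_mul]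
  congr 1
  · congr 1
    rw [Finset.sum_comm]
    apply Finset.sum_congr rfl; intro x _
    rw [Finset.sum_comm]
    apply Finset.sum_congr rfl; intro a _
    rw [← Finset.sum_mul, ← Finset.mul_sum, e1]
  · rw [← Finset.mul_sum]
    congr 1
    rw [Finset.sum_comm]
    apply Finset.sum_congr rfl; intro e _
    rw [Finset.sum_comm]
    apply Finset.sum_congr rfl; intro a _
    rw [← Finset.mul_sum, e2 _ _ (src_ne_tgt hN e)]

theorem abs_Dm_le (V : Finset (TV d N)) (c : TV d N → Sp) (x : TV d N) (a : Fin 3) :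
    |Dm V c x a| ≤ 1 := by
  unfold Dm
  split_ifs
  · have h0 := abs_Sv (c x) 0
    have h1 := abs_Sv (c x) 1
    have h2 := abs_Sv (c x) 2
    fin_cases a
    · show |3 / 10 * Sv (c x) 0 - Sv (c x) 0| ≤ 1
      rw [show 3 / 10 * Sv (c x) 0 - Sv (c x) 0 = -(7 / 10) * Sv (c x) 0 by ring, abs_mul, h0]
      norm_num
    · show |3 / 10 * Sv (c x) 1 - Sv (c x) 1| ≤ 1
      rw [show 3 / 10 * Sv (c x) 1 - Sv (c x) 1 = -(7 / 10) * Sv (c x) 1 by ring, abs_mul, h1]
      norm_num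
    · show |0 - Sv (c x) 2| ≤ 1
      rw [zero_sub, abs_neg, h2]
  · simp

theorem Dm_edge_nonneg {K2 K4 : ℝ} (hK2 : 0 ≤ K2) (hK : 98 / 100 * K2 ≤ K4)
    (V : Finset (TV d N)) (c : TV d N → Sp)
    (hθ : ∀ x ∈ V, ∀ y ∈ V, (c x).1 = (c y).1) (x y : TV d N) :
    0 ≤ ∑ a : Fin 3, Kv K2 K4 a * (Dm V c x a * Dm V c y a) := by
  by_cases hx : x ∈ V
  · by_cases hy : y ∈ V
    · have hxy := hθ x hx y hy
      rw [Fin.sum_univ_three]
      have d0 : ∀ z ∈ V, Dm V c z 0 = 3 / 10 * sg (c z).2 - sg (c z).2 := fun z hz => by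
        rw [Dm, if_pos hz]; rfl
      have d1 : ∀ z ∈ V, Dm V c z 1 = 3 / 10 * (sg (c z).2 * sg (c z).1) -
          sg (c z).2 * sg (c z).1 := fun z hz => by
        rw [Dm, if_pos hz]; rfl
      have d2 : ∀ z ∈ V, Dm V c z 2 = 0 - sg (c z).1 := fun z hz => by
        rw [Dm, if_pos hz]; rfl
      rw [d0 x hx, d0 y hy, d1 x hx, d1 y hy, d2 x hx, d2 y hy, Kv_zero, Kv_one, Kv_two, hxy]
      have hs := sg_mul_self (c y).1
      have e : K2 * ((3 / 10 * sg (c x).2 - sg (c x).2) * (3 / 10 * sg (c y).2 - sg (c y).2)) +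
          K2 * ((3 / 10 * (sg (c x).2 * sg (c y).1) - sg (c x).2 * sg (c y).1) *
            (3 / 10 * (sg (c y).2 * sg (c y).1) - sg (c y).2 * sg (c y).1)) +
          K4 * ((0 - sg (c y).1) * (0 - sg (c y).1)) =
          49 / 100 * K2 * (sg (c x).2 * sg (c y).2) +
          49 / 100 * K2 * (sg (c x).2 * sg (c y).2) * (sg (c y).1 * sg (c y).1) +
          K4 * (sg (c y).1 * sg (c y).1) := by ring
      rw [e, hs]
      have h5 : -1 ≤ sg (c x).2 * sg (c y).2 := by
        cases (c x).2 <;> cases (c y).2 <;> simp [sg]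
      nlinarith
    · simp [Dm, hy]
  · simp [Dm, hx]

theorem resample_one (hN : N ≠ 1) {K2 K4 : ℝ} (hK2 : 0 ≤ K2) (hK : 98 / 100 * K2 ≤ K4)
    (c : TV d N → Sp) (V : Finset (TV d N)) (hθ : ∀ x ∈ V, ∀ y ∈ V, (c x).1 = (c y).1)
    {η : ℝ} (σ : TV d N → Sp)
    (hσ : ∀ x ∈ V, σ x = c x ∧ ∀ a, |star σ x a| ≤ η) :
    sw K2 K4 σ * Real.exp (V.card * (h0 - (2 * K2 + K4) * η)) ≤
      ∑ s : V → Sp, sw K2 K4 (upd V σ s) := by
  have hK4 : 0 ≤ K4 := by linarith [mul_nonneg (by norm_num : (0:ℝ) ≤ 98 / 100) hK2]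
  have key := jensen_prod (fun x : V => piC (c x)) (fun x t => piC_pos _ _)
    (fun x => piC_sum _) (fun s => Ham K2 K4 (upd V σ s))
  refine le_trans ?_ key
  unfold sw
  rw [← Real.exp_add]
  apply Real.exp_le_exp.mpr
  have e1 := exp_energy hN K2 K4 c V σ (fun x hx => (hσ x hx).1)
  simp only [mul_sub, Finset.sum_sub_distrib]
  rw [e1]
  have e2 : ∑ s : V → Sp, (∏ x : V, piC (c x) (s x)) * ∑ x : V, Real.log (piC (c x) (s x)) =
      -(V.card * h0) := by
    simp only [Finset.mul_sum]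
    rw [Finset.sum_comm]
    have : ∀ x : V, ∑ s : V → Sp, (∏ x : V, piC (c x) (s x)) * Real.log (piC (c x) (s x)) =
        -h0 := by
      intro x
      rw [prod_exp_one (fun x : V => piC (c x)) (fun x => piC_sum _) x
        (fun t => Real.log (piC (c x) t)), piC_ent]
    rw [Finset.sum_congr rfl (fun x _ => this x)]
    simp
  rw [e2]
  have e3 : -(V.card * ((2 * K2 + K4) * η)) ≤ ∑ x, ∑ a, Kv K2 K4 a * Dm V c x a * star σ x a := by
    have h1 : ∀ x, (if x ∈ V then -((2 * K2 + K4) * η) else 0) ≤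
        ∑ a, Kv K2 K4 a * Dm V c x a * star σ x a := by
      intro x
      by_cases hx : x ∈ V
      · rw [if_pos hx, Fin.sum_univ_three, Kv_zero, Kv_one, Kv_two]
        have hb : ∀ a, -η ≤ Dm V c x a * star σ x a := by
          intro a
          have h2 := (hσ x hx).2 a
          have h3 := abs_Dm_le V c x a
          have : |Dm V c x a * star σ x a| ≤ η := by
            rw [abs_mul]
            calc _ ≤ 1 * η := mul_le_mul h3 h2 (abs_nonneg _) zero_le_one
              _ = η := one_mul _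
          exact (abs_le.mp this).1
        have b0 := mul_le_mul_of_nonneg_left (hb 0) hK2
        have b1 := mul_le_mul_of_nonneg_left (hb 1) hK2
        have b2 := mul_le_mul_of_nonneg_left (hb 2) hK4
        linarith
      · rw [if_neg hx]
        simp [Dm, hx]
    calc -(V.card * ((2 * K2 + K4) * η)) = ∑ x, (if x ∈ V then -((2 * K2 + K4) * η) else 0) := by
          rw [← Finset.sum_filter]
          simp
      _ ≤ _ := Finset.sum_le_sum fun x _ => h1 x
  have e4 : 0 ≤ (1 / (2 * (d : ℝ))) * ∑ e : TE d N, ∑ a : Fin 3, Kv K2 K4 a *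
          (Dm V c (tsrc e) a * Dm V c (ttgt e) a) := by
    apply mul_nonneg (by positivity)
    exact Finset.sum_nonneg fun e _ => Dm_edge_nonneg hK2 hK V c hθ _ _
  linarith

theorem sum_upd_le (c : TV d N → Sp) (V : Finset (TV d N)) (A : Finset (TV d N → Sp))
    (hA : ∀ σ ∈ A, ∀ x ∈ V, σ x = c x) (g : (TV d N → Sp) → ℝ) (hg : ∀ σ, 0 ≤ g σ) :
    ∑ σ ∈ A, ∑ s : V → Sp, g (upd V σ s) ≤ ∑ σ, g σ := by
  rw [← Finset.sum_product']
  rw [← Finset.sum_image (s := A ×ˢ (univ : Finset (V → Sp)))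
    (f := g) (g := fun p : (TV d N → Sp) × (V → Sp) => upd V p.1 p.2)]
  · exact Finset.sum_le_univ_sum_of_nonneg hg
  · rintro ⟨σ, s⟩ h1 ⟨σ', s'⟩ h2 h
    simp only [coe_product, Set.mem_prod, mem_coe, coe_univ, Set.mem_univ, and_true] at h1 h2
    simp only at h
    have hs : s = s' := by
      funext x
      have := congrFun h x.1
      rwa [upd_mem x.2, upd_mem x.2] at this
    have hσ : σ = σ' := by
      funext x
      by_cases hx : x ∈ V
      · rw [hA σ h1 x hx, hA σ' h2 x hx]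
      · have := congrFun h x
        rwa [upd_not_mem hx, upd_not_mem hx] at this
    rw [hs, hσ]

/-- The resampling bound. -/
theorem resample (hN : N ≠ 1) {K2 K4 : ℝ} (hK2 : 0 ≤ K2) (hK : 98 / 100 * K2 ≤ K4)
    (c : TV d N → Sp) (V : Finset (TV d N)) (hθ : ∀ x ∈ V, ∀ y ∈ V, (c x).1 = (c y).1)
    {η : ℝ} :
    SP K2 K4 (fun σ => ∀ x ∈ V, σ x = c x ∧ ∀ a, |star σ x a| ≤ η) ≤
      Real.exp (-(h0 - (2 * K2 + K4) * η)) ^ V.card := by
  set A : Finset (TV d N → Sp) :=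
    univ.filter (fun σ => ∀ x ∈ V, σ x = c x ∧ ∀ a, |star σ x a| ≤ η) with hA
  have hpos := sw_sum_pos (d := d) (N := N) K2 K4
  have h1 : ∑ σ ∈ A, sw K2 K4 σ * Real.exp (V.card * (h0 - (2 * K2 + K4) * η)) ≤
      ∑ σ : TV d N → Sp, sw K2 K4 σ := by
    calc _ ≤ ∑ σ ∈ A, ∑ s : V → Sp, sw K2 K4 (upd V σ s) := by
          apply Finset.sum_le_sum
          intro σ hσ
          rw [hA, mem_filter] at hσ
          exact resample_one hN hK2 hK c V hθ σ hσ.2
      _ ≤ _ := sum_upd_le c V A (by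
          intro σ hσ x hx
          rw [hA, mem_filter] at hσ
          exact (hσ.2 x hx).1) _ (fun σ => (sw_pos K2 K4 σ).le)
  rw [← Finset.sum_mul] at h1
  have h2 : SP K2 K4 (fun σ : TV d N → Sp => ∀ x ∈ V, σ x = c x ∧ ∀ a, |star σ x a| ≤ η) =
      (∑ σ ∈ A, sw K2 K4 σ) / ∑ σ : TV d N → Sp, sw K2 K4 σ := by
    unfold SP Ex
    congr 1
    rw [hA, Finset.sum_filter]
    apply Finset.sum_congr rfl
    intro σ _
    beta_reduce
    by_cases h : ∀ x ∈ V, σ x = c x ∧ ∀ a, |star σ x a| ≤ η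
    · rw [ind_pos h, if_pos h, mul_one]
    · rw [ind_neg h, if_neg h, mul_zero]
  rw [h2, div_le_iff₀ hpos, ← Real.exp_nat_mul]
  have h3 : Real.exp (V.card * (h0 - (2 * K2 + K4) * η)) *
      Real.exp ((V.card : ℝ) * (-(h0 - (2 * K2 + K4) * η))) = 1 := by
    rw [← Real.exp_add, ← Real.exp_zero]
    congr 1
    ring
  calc ∑ σ ∈ A, sw K2 K4 σ = ((∑ σ ∈ A, sw K2 K4 σ) *
        Real.exp (V.card * (h0 - (2 * K2 + K4) * η))) *
        Real.exp ((V.card : ℝ) * (-(h0 - (2 * K2 + K4) * η))) := by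
        rw [mul_assoc, h3, mul_one]
    _ ≤ (∑ σ : TV d N → Sp, sw K2 K4 σ) *
        Real.exp ((V.card : ℝ) * (-(h0 - (2 * K2 + K4) * η))) :=
        mul_le_mul_of_nonneg_right h1 (Real.exp_pos _).le
    _ = _ := mul_comm _ _

end Run7.h165
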