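import Pool.Agent.Run7.h165.Kernel3
import Pool.Agent.Run7.h165.Resample

/-!
Mean-field estimates.
-/

namespace Run7.h165

open Finset
open scoped Classical

variable {d N : ℕ} [NeZero N]

/-- volume of the torus -/
noncomputable def Vo (d N : ℕ) : ℝ := (N : ℝ) ^ d

theorem Vo_pos : 0 < Vo d N := by
  unfold Vo
  have : 0 < N := Nat.pos_of_ne_zero (NeZero.ne N)
  positivity

theorem card_TV : (Fintype.card (TV d N) : ℝ) = Vo d N := by
  unfold Vo
  rw [Fintype.card_fun, ZMod.card, Fintype.card_fin]; push_cast; rfl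

theorem Ham_star (hd : 0 < d) (K2 K4 : ℝ) (σ : TV d N → Sp) :
    Ham K2 K4 σ = (1 / 2) * ∑ x, ∑ a, Kv K2 K4 a * Sv (σ x) a * star σ x a := by
  have hdR : (d : ℝ) ≠ 0 := by exact_mod_cast hd.ne'
  have e1 : ∀ (a : Fin 3) (i : Fin d), ∑ x : TV d N, Sv (σ x) a * Sv (σ (x - Pi.single i 1)) a =
      ∑ x : TV d N, Sv (σ x) a * Sv (σ (x + Pi.single i 1)) a := by
    intro a i
    refine (sum_shift_add (fun x => Sv (σ x) a * Sv (σ (x - Pi.single i 1)) a)
      (Pi.single i 1)).symm.trans ?_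
    apply Finset.sum_congr rfl
    intro x _
    simp only [add_sub_cancel_right]
    ring
  have e2 : ∑ x : TV d N, ∑ a, Kv K2 K4 a * Sv (σ x) a * star σ x a =
      ∑ a, Kv K2 K4 a * ((1 / (2 * (d : ℝ))) * ∑ i : Fin d,
        2 * ∑ x : TV d N, Sv (σ x) a * Sv (σ (x + Pi.single i 1)) a) := by
    rw [Finset.sum_comm]
    apply Finset.sum_congr rfl
    intro a _
    calc ∑ x : TV d N, Kv K2 K4 a * Sv (σ x) a * star σ x a =
        Kv K2 K4 a * ((1 / (2 * (d : ℝ))) * ∑ i : Fin d,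
          ∑ x : TV d N, (Sv (σ x) a * Sv (σ (x + Pi.single i 1)) a +
            Sv (σ x) a * Sv (σ (x - Pi.single i 1)) a)) := by
          rw [Finset.sum_comm, Finset.mul_sum, Finset.mul_sum]
          apply Finset.sum_congr rfl
          intro x _
          unfold star
          simp only [← mul_add]
          rw [← Finset.mul_sum]
          ring
      _ = _ := by
          congr 2
          apply Finset.sum_congr rfl
          intro i _
          rw [Finset.sum_add_distrib, e1]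
          ring
  rw [e2]
  unfold Ham
  rw [sum_TE]
  have e3 : ∑ x : TV d N, ∑ i : Fin d, ∑ a : Fin 3,
      Kv K2 K4 a * Sv (σ (tsrc (x, i))) a * Sv (σ (ttgt (x, i))) a =
      ∑ a : Fin 3, Kv K2 K4 a * ∑ i : Fin d,
        ∑ x : TV d N, Sv (σ x) a * Sv (σ (x + Pi.single i 1)) a := by
    have : ∀ x : TV d N, ∑ i : Fin d, ∑ a : Fin 3,
      Kv K2 K4 a * Sv (σ (tsrc (x, i))) a * Sv (σ (ttgt (x, i))) a =
      ∑ a : Fin 3, ∑ i : Fin d,
        Kv K2 K4 a * (Sv (σ x) a * Sv (σ (x + Pi.single i 1)) a) := by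
      intro x
      rw [Finset.sum_comm]
      apply Finset.sum_congr rfl; intro a _
      apply Finset.sum_congr rfl; intro i _
      simp only [tsrc, ttgt]
      ring
    simp only [this]
    rw [Finset.sum_comm]
    apply Finset.sum_congr rfl; intro a _
    rw [Finset.sum_comm, Finset.mul_sum]
    apply Finset.sum_congr rfl; intro i _
    rw [Finset.mul_sum]
  rw [e3, Finset.mul_sum, Finset.mul_sum]
  apply Finset.sum_congr rfl; intro a _
  rw [← Finset.mul_sum]
  ring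

theorem abs_Mm_le (σ : TV d N → Sp) (a : Fin 3) : |Mm σ a| ≤ 1 := by
  unfold Mm
  have hV := Vo_pos (d := d) (N := N)
  have h1 : |∑ x, Sv (σ x) a| ≤ Vo d N := by
    calc |∑ x, Sv (σ x) a| ≤ ∑ x, |Sv (σ x) a| := Finset.abs_sum_le_sum_abs _ _
      _ = Vo d N := by
        simp only [abs_Sv]
        rw [Finset.sum_const, nsmul_eq_mul, mul_one, card_univ, card_TV]
  rw [abs_mul, abs_of_pos (by have := hV; unfold Vo at this; positivity)]
  have e : (1 / (N : ℝ) ^ d) = 1 / Vo d N := rfl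
  rw [e, one_div, inv_mul_le_iff₀ hV, mul_one]
  exact h1

theorem abs_star_le (hd : 0 < d) (σ : TV d N → Sp) (x : TV d N) (a : Fin 3) :
    |star σ x a| ≤ 1 := by
  unfold star
  have hdR : (0 : ℝ) < d := by exact_mod_cast hd
  rw [abs_mul, abs_of_pos (by positivity : (0 : ℝ) < 1 / (2 * (d : ℝ)))]
  have h1 : |∑ i : Fin d, (Sv (σ (x + Pi.single i 1)) a + Sv (σ (x - Pi.single i 1)) a)| ≤
      2 * d := by
    calc _ ≤ ∑ i : Fin d, |Sv (σ (x + Pi.single i 1)) a + Sv (σ (x - Pi.single i 1)) a| :=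
          Finset.abs_sum_le_sum_abs _ _
      _ ≤ ∑ _i : Fin d, (2 : ℝ) := by
          apply Finset.sum_le_sum
          intro i _
          refine (abs_add_le _ _).trans ?_
          rw [abs_Sv, abs_Sv]
          norm_num
      _ = _ := by rw [Finset.sum_const, nsmul_eq_mul, card_univ, Fintype.card_fin]; ring
  rw [one_div, inv_mul_le_iff₀ (by positivity)]
  linarith

/-- The energy is close to its mean-field value with large probability. -/
theorem W_event (hd : 0 < d) {K2 K4 : ℝ} (h2 : 0 ≤ K2) (h4 : 0 ≤ K4) {ε δ B : ℝ} (hε : 0 ≤ ε)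
    (hδ : 0 < δ)
    (hB : ∀ x : TV d N, SP K2 K4 (fun σ => ∃ a, ε < |star σ x a - Mm σ a|) ≤ B) :
    SP K2 K4 (fun σ : TV d N → Sp =>
      δ * Vo d N < |Ham K2 K4 σ - Vo d N / 2 * ∑ a, Kv K2 K4 a * Mm σ a ^ 2|) ≤
      (2 * K2 + K4) * (ε + 2 * B) / (2 * δ) := by
  have hV := Vo_pos (d := d) (N := N)
  have hKv : ∀ a, 0 ≤ Kv K2 K4 a := by
    intro a
    fin_cases a
    · exact h2
    · exact h2
    · exact h4
  have hKs : ∑ a, Kv K2 K4 a = 2 * K2 + K4 := by
    rw [Fin.sum_univ_three, Kv_zero, Kv_one, Kv_two]; ring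
  have hMsum : ∀ (σ : TV d N → Sp) (a : Fin 3), Vo d N * Mm σ a = ∑ x, Sv (σ x) a := by
    intro σ a
    unfold Mm
    have : (1 / (N : ℝ) ^ d) = 1 / Vo d N := rfl
    rw [this]
    field_simp
  have h1 : ∀ σ : TV d N → Sp, Ham K2 K4 σ - Vo d N / 2 * ∑ a, Kv K2 K4 a * Mm σ a ^ 2 =
      (1 / 2) * ∑ x, ∑ a, Kv K2 K4 a * Sv (σ x) a * (star σ x a - Mm σ a) := by
    intro σ
    have e1 : Vo d N / 2 * ∑ a, Kv K2 K4 a * Mm σ a ^ 2 =
        (1 / 2) * ∑ x, ∑ a, Kv K2 K4 a * Sv (σ x) a * Mm σ a := by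
      rw [Finset.sum_comm]
      have : ∀ a, ∑ x, Kv K2 K4 a * Sv (σ x) a * Mm σ a =
          Vo d N * (Kv K2 K4 a * Mm σ a ^ 2) := by
        intro a
        rw [← Finset.sum_mul, ← Finset.mul_sum, ← hMsum]
        ring
      simp only [this]
      rw [← Finset.mul_sum]
      ring
    rw [Ham_star hd, e1, ← mul_sub, ← Finset.sum_sub_distrib]
    congr 1
    apply Finset.sum_congr rfl; intro x _
    rw [← Finset.sum_sub_distrib]
    apply Finset.sum_congr rfl; intro a _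
    ring
  have h3 : ∀ σ : TV d N → Sp,
      δ * Vo d N * ind (δ * Vo d N < |Ham K2 K4 σ - Vo d N / 2 * ∑ a, Kv K2 K4 a * Mm σ a ^ 2|) ≤
      ∑ x : TV d N, (1 / 2) * ((2 * K2 + K4) * (ε + 2 * ind (∃ a, ε < |star σ x a - Mm σ a|))) := by
    intro σ
    have e2 : |Ham K2 K4 σ - Vo d N / 2 * ∑ a, Kv K2 K4 a * Mm σ a ^ 2| ≤
        ∑ x : TV d N, (1 / 2) *
          ((2 * K2 + K4) * (ε + 2 * ind (∃ a, ε < |star σ x a - Mm σ a|))) := by
      rw [h1 σ, ← Finset.mul_sum, abs_mul, abs_of_pos (by norm_num : (0 : ℝ) < 1 / 2)]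
      apply mul_le_mul_of_nonneg_left _ (by norm_num)
      refine (Finset.abs_sum_le_sum_abs _ _).trans ?_
      apply Finset.sum_le_sum; intro x _
      refine (Finset.abs_sum_le_sum_abs _ _).trans ?_
      rw [← hKs, Finset.sum_mul]
      apply Finset.sum_le_sum; intro a _
      rw [abs_mul, abs_mul, abs_Sv, mul_one, abs_of_nonneg (hKv a)]
      apply mul_le_mul_of_nonneg_left _ (hKv a)
      by_cases hx : ∃ a, ε < |star σ x a - Mm σ a|
      · rw [ind_pos hx]
        have f1 := abs_star_le hd σ x a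
        have f2 := abs_Mm_le σ a
        have f3 := abs_sub (star σ x a) (Mm σ a)
        linarith
      · rw [ind_neg hx]
        push Not at hx
        have := hx a
        linarith
    by_cases hW : δ * Vo d N < |Ham K2 K4 σ - Vo d N / 2 * ∑ a, Kv K2 K4 a * Mm σ a ^ 2|
    · rw [ind_pos hW, mul_one]
      linarith
    · rw [ind_neg hW, mul_zero]
      exact (abs_nonneg _).trans e2
  have h5 : δ * Vo d N * SP K2 K4 (fun σ : TV d N → Sp =>
      δ * Vo d N < |Ham K2 K4 σ - Vo d N / 2 * ∑ a, Kv K2 K4 a * Mm σ a ^ 2|) ≤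
      Vo d N * ((1 / 2) * ((2 * K2 + K4) * (ε + 2 * B))) := by
    unfold SP
    rw [← Ex_mul_left]
    refine (Ex_mono _ _ _ (fun σ => (sw_pos K2 K4 σ).le) h3).trans ?_
    rw [Ex_sum]
    have e4 : ∀ x : TV d N, Ex (sw K2 K4) (fun σ => (1 / 2) * ((2 * K2 + K4) *
        (ε + 2 * ind (∃ a, ε < |star σ x a - Mm σ a|)))) ≤
        (1 / 2) * ((2 * K2 + K4) * (ε + 2 * B)) := by
      intro x
      rw [Ex_mul_left, Ex_mul_left, Ex_add, Ex_mul_left, Ex_const _ _ (sw_sum_pos K2 K4)]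
      have := hB x
      unfold SP at this
      have hK : 0 ≤ 2 * K2 + K4 := by linarith
      apply mul_le_mul_of_nonneg_left _ (by norm_num)
      apply mul_le_mul_of_nonneg_left _ hK
      linarith
    calc _ ≤ ∑ _x : TV d N, (1 / 2) * ((2 * K2 + K4) * (ε + 2 * B)) :=
          Finset.sum_le_sum fun x _ => e4 x
      _ = _ := by rw [Finset.sum_const, nsmul_eq_mul, card_univ, card_TV]
  rw [le_div_iff₀ (by positivity)]
  have h6 : Vo d N * (SP K2 K4 (fun σ : TV d N → Sp =>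
      δ * Vo d N < |Ham K2 K4 σ - Vo d N / 2 * ∑ a, Kv K2 K4 a * Mm σ a ^ 2|) * (2 * δ)) ≤
      Vo d N * ((2 * K2 + K4) * (ε + 2 * B)) := by
    linarith
  exact le_of_mul_le_mul_left h6 hV

/-- sum of the spins is an integer -/
theorem sum_Sv_int (σ : TV d N → Sp) (a : Fin 3) :
    ∃ k : ℤ, (k : ℝ) = ∑ x, Sv (σ x) a ∧ |k| ≤ (N ^ d : ℕ) := by
  have h1 : ∀ s : Sp, ∃ k : ℤ, (k : ℝ) = Sv s a := by
    rintro ⟨θ, τ⟩
    fin_cases a
    · cases τ
      · exact ⟨-1, by simp [sg]⟩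
      · exact ⟨1, by simp [sg]⟩
    · cases τ <;> cases θ
      · exact ⟨1, by simp [sg]⟩
      · exact ⟨-1, by simp [sg]⟩
      · exact ⟨-1, by simp [sg]⟩
      · exact ⟨1, by simp [sg]⟩
    · cases θ
      · exact ⟨-1, by simp [sg]⟩
      · exact ⟨1, by simp [sg]⟩
  choose f hf using h1
  refine ⟨∑ x, f (σ x), ?_, ?_⟩
  · push_cast
    exact Finset.sum_congr rfl fun x _ => hf _
  · have h2 : |((∑ x, f (σ x) : ℤ) : ℝ)| ≤ Vo d N := by
      push_cast
      simp only [hf]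
      calc |∑ x, Sv (σ x) a| ≤ ∑ x, |Sv (σ x) a| := Finset.abs_sum_le_sum_abs _ _
        _ = Vo d N := by
          simp only [abs_Sv]
          rw [Finset.sum_const, nsmul_eq_mul, mul_one, card_univ, card_TV]
    unfold Vo at h2
    exact_mod_cast h2

theorem sum_Sv_colour (a : Fin 3) (t : ℝ) :
    ∑ s : Sp, Real.exp (t * Sv s a) = 4 * Real.cosh t := by
  rw [Real.cosh_eq]
  simp only [Fintype.sum_prod_type, Fintype.sum_bool]
  fin_cases a <;> simp [sg] <;> ring

theorem chernoff (a : Fin 3) (m : ℝ) :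
    ∑ σ : TV d N → Sp, ind (Vo d N * m = ∑ x, Sv (σ x) a) ≤
      4 ^ (N ^ d) * Real.exp (-(Vo d N / 2 * m ^ 2)) := by
  have h1 : ∀ σ : TV d N → Sp, ind (Vo d N * m = ∑ x, Sv (σ x) a) ≤
      Real.exp (-(m ^ 2 * Vo d N)) * ∏ x, Real.exp (m * Sv (σ x) a) := by
    intro σ
    by_cases h : Vo d N * m = ∑ x, Sv (σ x) a
    · rw [ind_pos h, ← Real.exp_sum, ← Real.exp_add, ← Finset.mul_sum, ← h]
      apply le_of_eq
      rw [← Real.exp_zero]
      congr 1
      ring
    · rw [ind_neg h]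
      exact mul_nonneg (Real.exp_pos _).le (Finset.prod_nonneg fun x _ => (Real.exp_pos _).le)
  have h2 : ∑ σ : TV d N → Sp, ∏ x, Real.exp (m * Sv (σ x) a) = (4 * Real.cosh m) ^ (N ^ d) := by
    have := Finset.prod_univ_sum (fun _ : TV d N => (univ : Finset Sp))
      (fun _ s => Real.exp (m * Sv s a))
    rw [Fintype.piFinset_univ] at this
    rw [← this]
    simp only [sum_Sv_colour]
    rw [Finset.prod_const, card_univ, Fintype.card_fun, ZMod.card, Fintype.card_fin]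
  calc _ ≤ ∑ σ : TV d N → Sp, Real.exp (-(m ^ 2 * Vo d N)) * ∏ x, Real.exp (m * Sv (σ x) a) :=
        Finset.sum_le_sum fun σ _ => h1 σ
    _ = Real.exp (-(m ^ 2 * Vo d N)) * (4 * Real.cosh m) ^ (N ^ d) := by
        rw [← Finset.mul_sum, h2]
    _ ≤ Real.exp (-(m ^ 2 * Vo d N)) * (4 * Real.exp (m ^ 2 / 2)) ^ (N ^ d) := by
        apply mul_le_mul_of_nonneg_left _ (Real.exp_pos _).le
        apply pow_le_pow_left₀
        · have := Real.cosh_pos m; positivity
        · have := Real.cosh_le_exp_half_sq m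
          linarith
    _ = _ := by
        rw [mul_pow, ← Real.exp_nat_mul, mul_left_comm, ← Real.exp_add]
        congr 2
        unfold Vo
        push_cast
        ring

theorem sum_exp_M (a : Fin 3) :
    ∑ σ : TV d N → Sp, Real.exp (Vo d N / 2 * Mm σ a ^ 2) ≤
      (2 * Vo d N + 1) * 4 ^ (N ^ d) := by
  have hV := Vo_pos (d := d) (N := N)
  set R : Finset ℤ := Finset.Icc (-((N ^ d : ℕ) : ℤ)) ((N ^ d : ℕ) : ℤ) with hR
  have hM : ∀ (σ : TV d N → Sp) (k : ℤ), (k : ℝ) = ∑ x, Sv (σ x) a → Mm σ a = k / Vo d N := by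
    intro σ k hk
    unfold Mm
    rw [← hk]
    have : (1 / (N : ℝ) ^ d) = 1 / Vo d N := rfl
    rw [this]; ring
  have h1 : ∀ σ : TV d N → Sp, Real.exp (Vo d N / 2 * Mm σ a ^ 2) ≤
      ∑ k ∈ R, Real.exp (Vo d N / 2 * ((k : ℝ) / Vo d N) ^ 2) *
        ind (Vo d N * ((k : ℝ) / Vo d N) = ∑ x, Sv (σ x) a) := by
    intro σ
    obtain ⟨k, hk, hk2⟩ := sum_Sv_int σ a
    have hkR : k ∈ R := by
      rw [hR, Finset.mem_Icc]
      exact abs_le.mp hk2
    have e1 : Vo d N * ((k : ℝ) / Vo d N) = ∑ x, Sv (σ x) a := by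
      rw [← hk]; field_simp
    calc Real.exp (Vo d N / 2 * Mm σ a ^ 2) =
          Real.exp (Vo d N / 2 * ((k : ℝ) / Vo d N) ^ 2) *
            ind (Vo d N * ((k : ℝ) / Vo d N) = ∑ x, Sv (σ x) a) := by
          rw [ind_pos e1, mul_one, hM σ k hk]
      _ ≤ _ := Finset.single_le_sum (f := fun k : ℤ =>
            Real.exp (Vo d N / 2 * ((k : ℝ) / Vo d N) ^ 2) *
            ind (Vo d N * ((k : ℝ) / Vo d N) = ∑ x, Sv (σ x) a))
            (fun k _ => mul_nonneg (Real.exp_pos _).le (ind_nonneg _)) hkR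
  calc _ ≤ ∑ σ : TV d N → Sp, ∑ k ∈ R, Real.exp (Vo d N / 2 * ((k : ℝ) / Vo d N) ^ 2) *
        ind (Vo d N * ((k : ℝ) / Vo d N) = ∑ x, Sv (σ x) a) :=
        Finset.sum_le_sum fun σ _ => h1 σ
    _ = ∑ k ∈ R, Real.exp (Vo d N / 2 * ((k : ℝ) / Vo d N) ^ 2) *
        ∑ σ : TV d N → Sp, ind (Vo d N * ((k : ℝ) / Vo d N) = ∑ x, Sv (σ x) a) := by
        rw [Finset.sum_comm]
        apply Finset.sum_congr rfl; intro k _
        rw [Finset.mul_sum]
    _ ≤ ∑ k ∈ R, (4 : ℝ) ^ (N ^ d) := by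
        apply Finset.sum_le_sum; intro k _
        calc _ ≤ Real.exp (Vo d N / 2 * ((k : ℝ) / Vo d N) ^ 2) *
              (4 ^ (N ^ d) * Real.exp (-(Vo d N / 2 * ((k : ℝ) / Vo d N) ^ 2))) :=
              mul_le_mul_of_nonneg_left (chernoff a _) (Real.exp_pos _).le
          _ = 4 ^ (N ^ d) := by
              rw [mul_left_comm, ← Real.exp_add, add_neg_cancel, Real.exp_zero, mul_one]
    _ = _ := by
        rw [Finset.sum_const, nsmul_eq_mul, hR, Int.card_Icc]
        congr 1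
        have : ((((N ^ d : ℕ) : ℤ) + 1 - -((N ^ d : ℕ) : ℤ)).toNat : ℝ) = 2 * Vo d N + 1 := by
          have h3 : (((N ^ d : ℕ) : ℤ) + 1 - -((N ^ d : ℕ) : ℤ)) = ((2 * N ^ d + 1 : ℕ) : ℤ) := by
            push_cast; ring
          rw [h3, Int.toNat_natCast]
          unfold Vo
          push_cast
          ring
        exact this

/-- Gibbs variational lower bound of the partition function, i.i.d. trial measure. -/
theorem Z_lower (hd : 0 < d) (hN : N ≠ 1) (K2 K4 : ℝ) (π : Sp → ℝ) (hπ0 : ∀ t, 0 < π t)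
    (hπ1 : ∑ t, π t = 1) :
    Real.exp (Vo d N * ((1 / 2) * ∑ a, Kv K2 K4 a * (∑ t, π t * Sv t a) ^ 2 -
      ∑ t, π t * Real.log (π t))) ≤ ∑ σ : TV d N → Sp, sw K2 K4 σ := by
  have hdR : (d : ℝ) ≠ 0 := by exact_mod_cast hd.ne'
  have key := jensen_prod (X := TV d N) (fun _ => π) (fun _ t => hπ0 t) (fun _ => hπ1)
    (fun s => Ham K2 K4 s)
  refine le_trans (le_of_eq ?_) key
  congr 1
  simp only [mul_sub, Finset.sum_sub_distrib]
  congr 1
  · unfold Ham
    have e1 : ∀ e : TE d N, ∀ a : Fin 3, ∑ s : TV d N → Sp, (∏ x, π (s x)) *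
        (Kv K2 K4 a * Sv (s (tsrc e)) a * Sv (s (ttgt e)) a) =
        Kv K2 K4 a * (∑ t, π t * Sv t a) ^ 2 := by
      intro e a
      have := prod_exp_two (X := TV d N) (fun _ => π) (fun _ => hπ1) (tsrc e) (ttgt e)
        (src_ne_tgt hN e) (fun t => Sv t a) (fun t => Sv t a)
      rw [sq, ← this, Finset.mul_sum]
      apply Finset.sum_congr rfl; intro s _
      ring
    symm
    calc ∑ s : TV d N → Sp, (∏ x, π (s x)) * ((1 / (2 * (d : ℝ))) * ∑ e : TE d N, ∑ a : Fin 3,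
          Kv K2 K4 a * Sv (s (tsrc e)) a * Sv (s (ttgt e)) a) =
        (1 / (2 * (d : ℝ))) * ∑ e : TE d N, ∑ a : Fin 3, ∑ s : TV d N → Sp, (∏ x, π (s x)) *
          (Kv K2 K4 a * Sv (s (tsrc e)) a * Sv (s (ttgt e)) a) := by
          have : ∀ s : TV d N → Sp, (∏ x, π (s x)) * ((1 / (2 * (d : ℝ))) *
              ∑ e : TE d N, ∑ a : Fin 3, Kv K2 K4 a * Sv (s (tsrc e)) a * Sv (s (ttgt e)) a) =
              (1 / (2 * (d : ℝ))) * ∑ e : TE d N, ∑ a : Fin 3, (∏ x, π (s x)) *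
                (Kv K2 K4 a * Sv (s (tsrc e)) a * Sv (s (ttgt e)) a) := by
            intro s
            simp only [Finset.mul_sum]
            apply Finset.sum_congr rfl; intro e _
            apply Finset.sum_congr rfl; intro a _
            ring
          simp only [this]
          rw [← Finset.mul_sum, Finset.sum_comm]
          congr 1
          apply Finset.sum_congr rfl; intro e _
          rw [Finset.sum_comm]
      _ = (1 / (2 * (d : ℝ))) * ∑ _e : TE d N, ∑ a : Fin 3,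
            Kv K2 K4 a * (∑ t, π t * Sv t a) ^ 2 := by
          simp only [e1]
      _ = _ := by
          rw [Finset.sum_const, nsmul_eq_mul, card_univ, Fintype.card_prod, Fintype.card_fin]
          push_cast
          rw [card_TV]
          field_simp
  · have e2 : ∀ x : TV d N, ∑ s : TV d N → Sp, (∏ x, π (s x)) * Real.log (π (s x)) =
        ∑ t, π t * Real.log (π t) := by
      intro x
      exact prod_exp_one (X := TV d N) (fun _ => π) (fun _ => hπ1) x (fun t => Real.log (π t))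
    symm
    calc ∑ s : TV d N → Sp, (∏ x, π (s x)) * ∑ x, Real.log (π (s x)) =
        ∑ x, ∑ s : TV d N → Sp, (∏ x, π (s x)) * Real.log (π (s x)) := by
          rw [Finset.sum_comm]
          apply Finset.sum_congr rfl; intro s _
          rw [Finset.mul_sum]
      _ = ∑ _x : TV d N, ∑ t, π t * Real.log (π t) := Finset.sum_congr rfl fun x _ => e2 x
      _ = _ := by rw [Finset.sum_const, nsmul_eq_mul, card_univ, card_TV]

theorem Z_lower_unif (hd : 0 < d) (hN : N ≠ 1) (K2 K4 : ℝ) :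
    (4 : ℝ) ^ (N ^ d) ≤ ∑ σ : TV d N → Sp, sw K2 K4 σ := by
  have h := Z_lower hd hN K2 K4 (fun _ => 1 / 4) (fun _ => by norm_num) (by simp)
  refine le_trans (le_of_eq ?_) h
  have e1 : ∀ a : Fin 3, ∑ t : Sp, (1 / 4 : ℝ) * Sv t a = 0 := by
    intro a
    simp only [Fintype.sum_prod_type, Fintype.sum_bool]
    fin_cases a <;> simp [sg]
  have e2 : ∑ t : Sp, (1 / 4 : ℝ) * Real.log (1 / 4) = -Real.log 4 := by
    rw [Finset.sum_const, nsmul_eq_mul, card_univ]
    simp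
  simp only [e1]
  rw [e2]
  have e3 : Vo d N * (1 / 2 * ∑ a, Kv K2 K4 a * (0 : ℝ) ^ 2 - -Real.log 4) =
      ((N ^ d : ℕ) : ℝ) * Real.log 4 := by
    unfold Vo
    push_cast
    simp
  rw [e3, Real.exp_nat_mul, Real.exp_log (by norm_num)]

theorem Z_lower_ord (hd : 0 < d) (hN : N ≠ 1) (K2 K4 : ℝ) :
    (4 : ℝ) ^ (N ^ d) * Real.exp (Vo d N * (2 / 9 * (2 * K2 + K4) - Real.log 3 / 2)) ≤
      ∑ σ : TV d N → Sp, sw K2 K4 σ := by
  set π : Sp → ℝ := fun t => if t = (true, true) then 3 / 4 else 1 / 12 with hπ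
  have hsum : ∀ f : Sp → ℝ, ∑ t, f t = f (true, true) + f (true, false) + f (false, true) +
      f (false, false) := by
    intro f
    simp only [Fintype.sum_prod_type, Fintype.sum_bool]
    ring
  have p1 : π (true, true) = 3 / 4 := by simp [hπ]
  have p2 : π (true, false) = 1 / 12 := by simp [hπ]
  have p3 : π (false, true) = 1 / 12 := by simp [hπ]
  have p4 : π (false, false) = 1 / 12 := by simp [hπ]
  have h := Z_lower hd hN K2 K4 π (fun t => by
    simp only [hπ]; split_ifs <;> norm_num) (by rw [hsum, p1, p2, p3, p4]; norm_num)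
  refine le_trans (le_of_eq ?_) h
  have e1 : ∀ a : Fin 3, ∑ t : Sp, π t * Sv t a = 2 / 3 := by
    intro a
    rw [hsum, p1, p2, p3, p4]
    fin_cases a <;> simp [sg] <;> norm_num
  have e2 : ∑ t : Sp, π t * Real.log (π t) = Real.log 3 / 2 - Real.log 4 := by
    rw [hsum, p1, p2, p3, p4]
    have l1 : Real.log (3 / 4) = Real.log 3 - Real.log 4 := Real.log_div (by norm_num) (by norm_num)
    have l2 : Real.log (1 / 12) = -(Real.log 3 + Real.log 4) := by
      rw [one_div, Real.log_inv, show (12 : ℝ) = 3 * 4 by norm_num,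
        Real.log_mul (by norm_num) (by norm_num)]
    rw [l1, l2]
    ring
  simp only [e1]
  rw [e2, Fin.sum_univ_three, Kv_zero, Kv_one, Kv_two]
  have e3 : Vo d N * (1 / 2 * (K2 * (2 / 3 : ℝ) ^ 2 + K2 * (2 / 3) ^ 2 + K4 * (2 / 3) ^ 2) -
      (Real.log 3 / 2 - Real.log 4)) = ((N ^ d : ℕ) : ℝ) * Real.log 4 +
      Vo d N * (2 / 9 * (2 * K2 + K4) - Real.log 3 / 2) := by
    have : ((N ^ d : ℕ) : ℝ) = Vo d N := by unfold Vo; push_cast; rfl
    rw [this]
    ring
  rw [e3, Real.exp_add, Real.exp_nat_mul, Real.exp_log (by norm_num)]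

/-- Large deviation bound: if the energy is at most `R + V M_a² / 2` on `A`. -/
theorem SP_ld {K2 K4 : ℝ} (a : Fin 3) {A : (TV d N → Sp) → Prop} {R z : ℝ}
    (hz : (4 : ℝ) ^ (N ^ d) * Real.exp z ≤ ∑ σ : TV d N → Sp, sw K2 K4 σ)
    (hA : ∀ σ, A σ → Ham K2 K4 σ ≤ R + Vo d N / 2 * Mm σ a ^ 2) :
    SP K2 K4 A ≤ (2 * Vo d N + 1) * Real.exp (R - z) := by
  have hpos := sw_sum_pos (d := d) (N := N) K2 K4
  have hV := Vo_pos (d := d) (N := N)
  unfold SP Ex
  rw [div_le_iff₀ hpos]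
  have h1 : ∑ σ : TV d N → Sp, sw K2 K4 σ * ind (A σ) ≤
      Real.exp R * ((2 * Vo d N + 1) * 4 ^ (N ^ d)) := by
    calc _ ≤ ∑ σ : TV d N → Sp, Real.exp R * Real.exp (Vo d N / 2 * Mm σ a ^ 2) := by
          apply Finset.sum_le_sum; intro σ _
          by_cases h : A σ
          · rw [ind_pos h, mul_one, ← Real.exp_add]
            exact Real.exp_le_exp.mpr (hA σ h)
          · rw [ind_neg h, mul_zero]
            exact mul_nonneg (Real.exp_pos _).le (Real.exp_pos _).le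
      _ = Real.exp R * ∑ σ : TV d N → Sp, Real.exp (Vo d N / 2 * Mm σ a ^ 2) := by
          rw [Finset.mul_sum]
      _ ≤ _ := mul_le_mul_of_nonneg_left (sum_exp_M a) (Real.exp_pos _).le
  have h2 : Real.exp (R - z) * (4 ^ (N ^ d) * Real.exp z) = Real.exp R * 4 ^ (N ^ d) := by
    rw [Real.exp_sub]
    have := Real.exp_pos z
    field_simp
  calc _ ≤ Real.exp R * ((2 * Vo d N + 1) * 4 ^ (N ^ d)) := h1
    _ = (2 * Vo d N + 1) * (Real.exp (R - z) * (4 ^ (N ^ d) * Real.exp z)) := by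
        rw [h2]; ring
    _ ≤ (2 * Vo d N + 1) * (Real.exp (R - z) * ∑ σ : TV d N → Sp, sw K2 K4 σ) := by
        apply mul_le_mul_of_nonneg_left _ (by positivity)
        exact mul_le_mul_of_nonneg_left hz (Real.exp_pos _).le
    _ = _ := by ring

end Run7.h165
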