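import Pool.Agent.Run7.h165.Chain3
import Pool.Agent.Run7.h165.Level
import Pool.Agent.Run7.h165.MF

/-!
The levels: flows, supports, energies, and the resulting decay bound.
-/

namespace Run7.h165

open Finset
open scoped Classical

variable {d N : ℕ} [NeZero N]

/-! ### Sums of steps -/

/-- one step of the walk, or none -/
noncomputable def stp : Option (Fin d × Bool) → TV d N
  | none => 0
  | some (i, true) => ev i 1
  | some (i, false) => -ev i 1

/-- vertices reached by at most `R` steps -/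
noncomputable def Zs (d N : ℕ) [NeZero N] : ℕ → Finset (TV d N)
  | 0 => {0}
  | R + 1 => (Zs d N R ×ˢ (univ : Finset (Option (Fin d × Bool)))).image (fun p => p.1 + stp p.2)

theorem Zs_card (R : ℕ) : (Zs d N R).card ≤ (2 * d + 1) ^ R := by
  induction R with
  | zero => simp [Zs]
  | succ R ih =>
    simp only [Zs]
    refine Finset.card_image_le.trans ?_
    rw [Finset.card_product, card_univ, Fintype.card_option, Fintype.card_prod, Fintype.card_fin,
      Fintype.card_bool, pow_succ]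
    have : d * 2 + 1 = 2 * d + 1 := by ring
    rw [this]
    exact Nat.mul_le_mul_right _ ih

theorem Zs_step {R : ℕ} {x : TV d N} (hx : x ∈ Zs d N R) (s : Option (Fin d × Bool)) :
    x + stp s ∈ Zs d N (R + 1) := by
  simp only [Zs, mem_image, mem_product]
  exact ⟨(x, s), ⟨hx, mem_univ _⟩, rfl⟩

theorem Zs_succ {R : ℕ} {x : TV d N} (hx : x ∈ Zs d N R) : x ∈ Zs d N (R + 1) := by
  have := Zs_step hx none
  simpa [stp] using this

theorem Zs_mono {R R' : ℕ} (h : R ≤ R') {x : TV d N} (hx : x ∈ Zs d N R) : x ∈ Zs d N R' := by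
  induction h with
  | refl => exact hx
  | step _ ih => exact Zs_succ ih

theorem Zs_zero_mem (R : ℕ) : (0 : TV d N) ∈ Zs d N R :=
  Zs_mono (Nat.zero_le R) (by simp [Zs])

theorem Zs_neg {R : ℕ} : ∀ {x : TV d N}, x ∈ Zs d N R → -x ∈ Zs d N R := by
  induction R with
  | zero =>
    intro x hx
    simp only [Zs, mem_singleton] at hx ⊢
    rw [hx, neg_zero]
  | succ R ih =>
    intro x hx
    simp only [Zs, mem_image, mem_product] at hx
    obtain ⟨⟨y, s⟩, ⟨hy, -⟩, rfl⟩ := hx
    have h1 := ih hy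
    match s with
    | none =>
      have := Zs_step h1 none
      simpa [stp] using this
    | some (i, true) =>
      have := Zs_step h1 (some (i, false))
      simp only [stp] at this ⊢
      rw [neg_add]
      exact this
    | some (i, false) =>
      have := Zs_step h1 (some (i, true))
      simp only [stp] at this ⊢
      rw [neg_add, neg_neg]
      exact this

theorem Zs_add {R R' : ℕ} {x : TV d N} (hx : x ∈ Zs d N R) :
    ∀ {y : TV d N}, y ∈ Zs d N R' → x + y ∈ Zs d N (R + R') := by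
  induction R' with
  | zero =>
    intro y hy
    simp only [Zs, mem_singleton] at hy
    rw [hy, add_zero, add_zero]
    exact hx
  | succ R' ih =>
    intro y hy
    simp only [Zs, mem_image, mem_product] at hy
    obtain ⟨⟨y', s⟩, ⟨hy', -⟩, rfl⟩ := hy
    have := Zs_step (ih hy') s
    rw [← add_assoc, ← add_assoc]
    exact this

theorem Zs_ninf {R : ℕ} : ∀ {x : TV d N}, x ∈ Zs d N R → ninf x ≤ R := by
  induction R with
  | zero =>
    intro x hx
    simp only [Zs, mem_singleton] at hx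
    rw [hx]; simp
  | succ R ih =>
    intro x hx
    simp only [Zs, mem_image, mem_product] at hx
    obtain ⟨⟨y, s⟩, ⟨hy, -⟩, rfl⟩ := hx
    have h1 := ih hy
    have h2 : ninf (stp s : TV d N) ≤ 1 := by
      match s with
      | none => simp [stp]
      | some (i, true) => exact (ninf_ev i 1).trans zn_one
      | some (i, false) =>
        simp only [stp]
        rw [ninf_neg]
        exact (ninf_ev i 1).trans zn_one
    exact (ninf_add y (stp s)).trans (add_le_add h1 h2)

theorem starK_Zs {g : Finset (Fin d)} {w : TV d N → ℝ} {R : ℕ}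
    (hw : ∀ x, w x ≠ 0 → x ∈ Zs d N R) {x : TV d N} (h : starK g w x ≠ 0) :
    x ∈ Zs d N (R + 1) := by
  obtain ⟨i, -, a, ha, h2⟩ := starK_ne_zero h
  have h3 := hw _ h2
  rcases ha with rfl | rfl
  · have := Zs_step h3 (some (i, true))
    simpa [stp] using this
  · have := Zs_step h3 (some (i, false))
    have e : x - ev i (-1 : ZMod N) + stp (some (i, false)) = x := by
      simp only [stp, ev, Pi.single_neg]
      abel
    rwa [e] at this

theorem starIter_Zs (G : ℕ → Finset (Fin d)) (r : ℕ) :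
    ∀ x : TV d N, starIter G r delta0 x ≠ 0 → x ∈ Zs d N r := by
  induction r with
  | zero =>
    intro x hx
    simp only [starIter, delta0, ne_eq, ite_eq_right_iff, one_ne_zero, imp_false, not_not] at hx
    rw [hx]; exact Zs_zero_mem 0
  | succ r ih =>
    intro x hx
    simp only [starIter] at hx
    exact starK_Zs ih hx

theorem Wk_Zs [NeZero d] (G : ℕ → Finset (Fin d)) {T j : ℕ} (hj : j ≤ T) (x : TV d N)
    (hx : Wk G T j x ≠ 0) : x ∈ Zs d N (j + 1) := by
  unfold Wk at hx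
  rw [min_eq_left hj, Nat.sub_eq_zero_of_le hj] at hx
  simp only [dblIter] at hx
  exact starK_Zs (starIter_Zs G j) hx

/-! ### The flows -/

noncomputable def uL [NeZero d] (G : ℕ → Finset (Fin d)) (T j : ℕ) : TE d N → ℝ :=
  if j < T then uS (G j) (Wk G T j) else uD (Fin.ofNat d (j - T)) (2 ^ ((j - T) / d)) (Wk G T j)

theorem uL_step [NeZero d] {G : ℕ → Finset (Fin d)} {T : ℕ} (hG : ∀ r < T, 0 < (G r).card)
    (σ : TV d N → Sp) (y : TV d N) (a : Fin 3) (j : ℕ) :
    avg (Wk G T j) σ y a - avg (Wk G T (j + 1)) σ y a = Xf (uL G T j) σ y a := by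
  unfold uL
  by_cases hj : j < T
  · rw [if_pos hj, Wk_succ_star G hj]
    exact Xf_star _ (hG j hj) _ _ _ _
  · rw [if_neg hj]
    obtain ⟨n, rfl⟩ := Nat.exists_eq_add_of_le (Nat.le_of_not_lt hj)
    rw [Wk_succ_dbl, show T + n - T = n by omega]
    exact Xf_dbl _ _ _ _ _ _

theorem star_sub_M [NeZero d] {K : ℕ} (hN : N = 2 ^ K) {G : ℕ → Finset (Fin d)} {T m : ℕ}
    (hm : 0 < m) (hG : ∀ r < T, (G r).card = m) (σ : TV d N → Sp) (y : TV d N) (a : Fin 3) :
    star σ y a - Mm σ a = ∑ j ∈ range (T + K * d), Xf (uL G T j) σ y a := by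
  have hG' : ∀ r < T, 0 < (G r).card := fun r hr => by rw [hG r hr]; exact hm
  rw [← avg_first G T, ← avg_last hN G hm hG σ y a,
    ← Finset.sum_range_sub' (fun j => avg (Wk G T j) σ y a)]
  exact Finset.sum_congr rfl fun j _ => uL_step hG' σ y a j

/-- quantities depending on the type of the level -/
def lv {α : Type*} (T d : ℕ) (A : α) (f : ℕ → α) (j : ℕ) : α :=
  if j < T then A else f ((j - T) / d)

theorem sum_div_range {d : ℕ} (hd : 0 < d) (f : ℕ → ℝ) (K : ℕ) :
    ∑ n ∈ range (K * d), f (n / d) = d * ∑ k ∈ range K, f k := by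
  induction K with
  | zero => simp
  | succ K ih =>
    rw [Nat.succ_mul, Finset.sum_range_add, ih, Finset.sum_range_succ, mul_add]
    congr 1
    have : ∀ i ∈ range d, f ((K * d + i) / d) = f K := by
      intro i hi
      rw [mem_range] at hi
      congr 1
      rw [mul_comm, Nat.mul_add_div hd, Nat.div_eq_of_lt hi, add_zero]
    rw [Finset.sum_congr rfl this]
    simp

theorem sum_lv {d : ℕ} (hd : 0 < d) (T K : ℕ) (A : ℝ) (f : ℕ → ℝ) :
    ∑ j ∈ range (T + K * d), lv T d A f j = T * A + d * ∑ k ∈ range K, f k := by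
  rw [Finset.sum_range_add, ← sum_div_range hd f K]
  congr 1
  · have : ∀ j ∈ range T, lv T d A f j = A := by
      intro j hj
      unfold lv
      rw [if_pos (mem_range.mp hj)]
    rw [Finset.sum_congr rfl this]
    simp
  · apply Finset.sum_congr rfl
    intro n _
    unfold lv
    rw [if_neg (by omega), show T + n - T = n by omega]

theorem lv_cases {α : Type*} {T d : ℕ} {A : α} {f : ℕ → α} (P : α → Prop) (hA : P A)
    (hf : ∀ k, P (f k)) (j : ℕ) : P (lv T d A f j) := by
  unfold lv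
  split_ifs
  · exact hA
  · exact hf _

/-- radius of the support of the flows of the doubling levels -/
def rk (T k : ℕ) : ℕ := 3 * 2 ^ k + T + 1

noncomputable def nball (d N R : ℕ) [NeZero N] : Finset (TV d N) := univ.filter (fun z => ninf z ≤ R)

/-- support of the flows -/
noncomputable def SupL (d N : ℕ) [NeZero N] (T j : ℕ) : Finset (TV d N) :=
  lv T d (Zs d N (T + 1)) (fun k => nball d N (rk T k)) j

/-- balls of the levels -/
noncomputable def BlL (d N : ℕ) [NeZero N] (T j : ℕ) : Finset (TV d N) :=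
  lv T d (Zs d N (2 * (T + 1))) (fun k => nball d N (2 * rk T k)) j

theorem BlL_zero (T j : ℕ) : (0 : TV d N) ∈ BlL d N T j := by
  unfold BlL
  apply lv_cases (fun S : Finset (TV d N) => (0 : TV d N) ∈ S)
  · exact Zs_zero_mem _
  · intro k
    simp [nball]

theorem uL_supp [NeZero d] {K : ℕ} (hN : N = 2 ^ K) (G : ℕ → Finset (Fin d)) {T j : ℕ}
    (hj : j < T + K * d) (e : TE d N) (he : uL G T j e ≠ 0) : e.1 ∈ SupL d N T j := by
  unfold uL at he
  unfold SupL lv
  by_cases hjT : j < T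
  · rw [if_pos hjT] at he ⊢
    unfold uS at he
    split_ifs at he with hg
    · have h1 : Wk G T j (e.1 + ev e.2 1) - Wk G T j e.1 ≠ 0 := fun h => he (by rw [h, mul_zero])
      by_cases h2 : Wk G T j e.1 = 0
      · have h3 : Wk G T j (e.1 + ev e.2 1) ≠ 0 := by
          intro h; apply h1; rw [h, h2, sub_zero]
        have h4 := Zs_step (Wk_Zs G hjT.le _ h3) (some (e.2, false))
        have e5 : e.1 + ev e.2 1 + stp (some (e.2, false)) = e.1 := by
          simp only [stp]; abel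
        rw [e5] at h4
        exact Zs_mono (by omega) h4
      · exact Zs_mono (by omega) (Wk_Zs G hjT.le _ h2)
    · exact absurd rfl he
  · rw [if_neg hjT] at he ⊢
    obtain ⟨n, rfl⟩ := Nat.exists_eq_add_of_le (Nat.le_of_not_lt hjT)
    rw [show T + n - T = n by omega] at he ⊢
    unfold uD at he
    split_ifs at he with hg
    · have h1 : ∑ t ∈ range (2 ^ (n / d)), Wk G T (T + n) (e.1 - ev (Fin.ofNat d n) (t : ZMod N)) ≠
          0 := fun h => he (by rw [h, mul_zero])
      obtain ⟨t, ht, h2⟩ := Finset.exists_ne_zero_of_sum_ne_zero h1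
      rw [mem_range] at ht
      have h3 := Wk_ninf hN G (show n ≤ K * d by omega) _ h2
      have h4 : ninf (ev (Fin.ofNat d n) (t : ZMod N) : TV d N) ≤ t :=
        (ninf_ev _ _).trans (zn_natCast t)
      have h5 := ninf_add (e.1 - ev (Fin.ofNat d n) (t : ZMod N)) (ev (Fin.ofNat d n) (t : ZMod N))
      rw [sub_add_cancel] at h5
      unfold nball rk
      rw [mem_filter]
      refine ⟨mem_univ _, ?_⟩
      have h6 : 2 ^ (n / d + 1) = 2 * 2 ^ (n / d) := by rw [pow_succ]; ring
      omega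
    · exact absurd rfl he

theorem SupL_sub {T j : ℕ} {x y : TV d N} (hx : x ∈ SupL d N T j) (hy : y ∈ SupL d N T j) :
    x - y ∈ BlL d N T j := by
  unfold SupL BlL lv at *
  by_cases hjT : j < T
  · rw [if_pos hjT] at hx hy ⊢
    rw [sub_eq_add_neg, show 2 * (T + 1) = (T + 1) + (T + 1) by ring]
    exact Zs_add hx (Zs_neg hy)
  · rw [if_neg hjT] at hx hy ⊢
    simp only [nball, mem_filter, mem_univ, true_and] at hx hy ⊢
    have := ninf_sub x y
    omega

/-- distance covered by the jump -/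
def DlL (d T j : ℕ) : ℕ := lv T d (2 * (T + 1) + 1) (fun k => 2 * rk T k + 1) j

theorem DlL_spec (T j : ℕ) (z : TV d N) (hz : z ∈ BlL d N T j) : ninf z + 1 ≤ DlL d T j := by
  unfold BlL DlL lv at *
  by_cases hjT : j < T
  · rw [if_pos hjT] at hz ⊢
    exact Nat.succ_le_succ (Zs_ninf hz)
  · rw [if_neg hjT] at hz ⊢
    simp only [nball, mem_filter, mem_univ, true_and] at hz
    show ninf z + 1 ≤ 2 * rk T ((j - T) / d) + 1
    omega

/-- energy bound -/
noncomputable def UbL (d T m j : ℕ) : ℝ :=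
  lv T d ((1 / (2 * (m : ℝ))) ^ 2)
    (fun k => if k = 0 then (1 / (2 * (m : ℝ))) ^ T / 4 else 4 ^ k * (1 / 2) ^ (k * d) / 4) j

theorem UbL_pos {T m : ℕ} (hm : 0 < m) (j : ℕ) : 0 < UbL d T m j := by
  have hmR : (0 : ℝ) < m := by exact_mod_cast hm
  unfold UbL
  apply lv_cases (fun u : ℝ => 0 < u)
  · positivity
  · intro k
    split_ifs <;> positivity

theorem uL_energy [NeZero d] {K : ℕ} (hN : N = 2 ^ K) (hN3 : 3 ≤ N) {G : ℕ → Finset (Fin d)}
    {T m : ℕ} (hm : 0 < m) (hmd : m ≤ d) (hG : ∀ r < T, (G r).card = m)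
    (hdis : ∀ r < T, ∀ r' < r, Disjoint (G r) (G r')) {j : ℕ} (hj : j < T + K * d) :
    ∑ e : TE d N, uL G T j e ^ 2 ≤ UbL d T m j := by
  have hd : 0 < d := Nat.pos_of_ne_zero (NeZero.ne d)
  have hmR : (0 : ℝ) < m := by exact_mod_cast hm
  unfold uL UbL lv
  by_cases hjT : j < T
  · simp only [if_pos hjT]
    have h1 := uS_energy (G j) (by rw [hG j hjT]; exact hm)
      (PK_Wk_star' (N := N) hN3 G hm hmd hG hdis hjT.le)
    refine h1.trans (le_of_eq ?_)
    rw [hG j hjT]
    field_simp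
  · simp only [if_neg hjT]
    obtain ⟨n, rfl⟩ := Nat.exists_eq_add_of_le (Nat.le_of_not_lt hjT)
    rw [show T + n - T = n by omega]
    by_cases hk : n / d = 0
    · rw [if_pos hk, hk]
      have h1 := uD_energy (Fin.ofNat d n) (2 ^ 0) (PK_Wk_dbl (N := N) hN3 G hm hG hdis n)
      refine h1.trans (le_of_eq ?_)
      push_cast
      ring
    · rw [if_neg hk]
      have h1 := uD_energy (Fin.ofNat d n) (2 ^ (n / d))
        (PK_Wk_dbl' (N := N) hN G hm hG (show n ≤ K * d by omega))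
      refine h1.trans ?_
      have h2 : (1 / 2 : ℝ) ^ n ≤ (1 / 2) ^ (n / d * d) := by
        apply pow_le_pow_of_le_one (by norm_num) (by norm_num)
        exact Nat.div_mul_le_self n d
      have h3 : (((2 ^ (n / d) : ℕ) : ℝ)) ^ 2 = 4 ^ (n / d) := by
        push_cast
        rw [← pow_mul, mul_comm, pow_mul]
        norm_num
      rw [h3]
      apply div_le_div_of_nonneg_right _ (by norm_num)
      exact mul_le_mul_of_nonneg_left h2 (by positivity)

/-- number of the vertices next to a ball -/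
noncomputable def NbL (d T j : ℕ) : ℝ :=
  lv T d ((2 * (d : ℝ) + 1) ^ (2 * (T + 1) + 1))
    (fun k => (2 * (2 * (rk T k : ℝ) + 1) + 1) ^ d) j

theorem NbL_one_le (T j : ℕ) : 1 ≤ NbL d T j := by
  unfold NbL
  apply lv_cases (fun u : ℝ => 1 ≤ u)
  · apply one_le_pow₀
    have : (0 : ℝ) ≤ d := Nat.cast_nonneg _
    linarith
  · intro k
    apply one_le_pow₀
    have : (0 : ℝ) ≤ (rk T k : ℝ) := Nat.cast_nonneg _
    linarith

/-- error of level `j` allowed -/
noncomputable def spl (d T : ℕ) (ε : ℝ) (j : ℕ) : ℝ :=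
  lv T d (ε / (2 * T)) (fun k => ε * (1 / 2) ^ k / (4 * d)) j

theorem spl_sum {T : ℕ} (hd : 0 < d) (hT : 0 < T) {ε : ℝ} (hε : 0 ≤ ε) (K : ℕ) :
    ∑ j ∈ range (T + K * d), spl d T ε j ≤ ε := by
  have hdR : (0 : ℝ) < d := by exact_mod_cast hd
  have hTR : (0 : ℝ) < T := by exact_mod_cast hT
  have h := sum_lv hd T K (ε / (2 * T)) (fun k => ε * (1 / 2) ^ k / (4 * d))
  have e : ∑ j ∈ range (T + K * d), spl d T ε j = ∑ j ∈ range (T + K * d),
    lv T d (ε / (2 * T)) (fun k => ε * (1 / 2) ^ k / (4 * d)) j := rfl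
  rw [e, h]
  have h1 : ∑ k ∈ range K, ε * (1 / 2 : ℝ) ^ k / (4 * d) ≤ ε * 2 / (4 * d) := by
    rw [← Finset.sum_div, ← Finset.mul_sum]
    apply div_le_div_of_nonneg_right _ (by positivity)
    apply mul_le_mul_of_nonneg_left _ hε
    have h3 := geom_sum_eq (show (1 / 2 : ℝ) ≠ 1 by norm_num) K
    rw [h3]
    have h4 : (0 : ℝ) ≤ (1 / 2) ^ K := by positivity
    have : ((1 / 2 : ℝ) ^ K - 1) / (1 / 2 - 1) = 2 * (1 - (1 / 2) ^ K) := by
      norm_num; ring
    rw [this]; linarith
  calc (T : ℝ) * (ε / (2 * T)) + d * ∑ k ∈ range K, ε * (1 / 2 : ℝ) ^ k / (4 * d) ≤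
        (T : ℝ) * (ε / (2 * T)) + d * (ε * 2 / (4 * d)) := by
        have := mul_le_mul_of_nonneg_left h1 hdR.le
        linarith
    _ = ε := by field_simp; ring

theorem spl_pos {T : ℕ} (hd : 0 < d) (hT : 0 < T) {ε : ℝ} (hε : 0 < ε) (j : ℕ) :
    0 < spl d T ε j := by
  have hdR : (0 : ℝ) < d := by exact_mod_cast hd
  have hTR : (0 : ℝ) < T := by exact_mod_cast hT
  unfold spl
  apply lv_cases (fun u : ℝ => 0 < u)
  · positivity
  · intro k; positivity

/-- probability bound of level `j` -/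
noncomputable def bL (d T m : ℕ) (ε k0 : ℝ) (j : ℕ) : ℝ :=
  6 * Real.exp (-(spl d T ε j ^ 2 * k0 / (4 * d * UbL d T m j)))

def BadL [NeZero d] (G : ℕ → Finset (Fin d)) (T : ℕ) (ε : ℝ) (j : ℕ) (σ : TV d N → Sp)
    (y : TV d N) : Prop := ∃ a, spl d T ε j < |Xf (uL G T j) σ y a|

def GoodL (η : ℝ) (σ : TV d N → Sp) (y : TV d N) : Prop := ∀ a, |star σ y a| ≤ η

theorem BadL_bound [NeZero d] {K : ℕ} (hN : N = 2 ^ K) (hK : 2 ≤ K) {G : ℕ → Finset (Fin d)}
    {T m : ℕ} (hT : 0 < T) (hm : 0 < m) (hmd : m ≤ d) (hG : ∀ r < T, (G r).card = m)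
    (hdis : ∀ r < T, ∀ r' < r, Disjoint (G r) (G r')) {ε k0 K2 K4 : ℝ} (hε : 0 < ε)
    (hk0 : 0 < k0) (hK2 : k0 ≤ K2) (hK4 : k0 ≤ K4) {j : ℕ} (hj : j < T + K * d)
    (Y : Finset (TV d N))
    (hY : ∀ y ∈ Y, ∀ y' ∈ Y, y ≠ y' → y' - y ∉ BlL d N T j ∨ y - y' ∉ BlL d N T j) :
    SP K2 K4 (fun σ => ∀ y ∈ Y, BadL G T ε j σ y) ≤ bL d T m ε k0 j ^ Y.card := by
  have hd : 0 < d := Nat.pos_of_ne_zero (NeZero.ne d)
  have hN2 : N = 2 * 2 ^ (K - 1) := by
    rw [hN, ← pow_succ']
    congr 1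
    omega
  have hM : 2 ≤ 2 ^ (K - 1) := by
    calc 2 = 2 ^ 1 := by norm_num
      _ ≤ 2 ^ (K - 1) := Nat.pow_le_pow_right (by norm_num) (by omega)
  have hN3 : 3 ≤ N := by omega
  apply level_bound hd hM hN2 hk0 hK2 hK4 (uL G T j) (UbL_pos hm j)
    (uL_energy hN hN3 hm hmd hG hdis hj) (spl_pos hd hT hε j)
  intro y hy y' hy' hne e
  by_contra hcon
  push Not at hcon
  have h1 := uL_supp hN G hj _ hcon.1
  have h2 := uL_supp hN G hj _ hcon.2
  have h3 := SupL_sub h1 h2
  have h4 := SupL_sub h2 h1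
  have e3 : (e.1 - y) - (e.1 - y') = y' - y := by abel
  have e4 : (e.1 - y') - (e.1 - y) = y - y' := by abel
  simp only at h3 h4
  rw [e3] at h3
  rw [e4] at h4
  rcases hY y hy y' hy' hne with h | h
  · exact h h3
  · exact h h4

theorem good_or_bad [NeZero d] {K : ℕ} (hN : N = 2 ^ K) {G : ℕ → Finset (Fin d)}
    {T m : ℕ} (hT : 0 < T) (hm : 0 < m) (hG : ∀ r < T, (G r).card = m) {ε : ℝ} (hε : 0 < ε)
    (σ : TV d N → Sp) (y : TV d N) :
    (∀ a, |star σ y a - Mm σ a| ≤ ε) ∨ ∃ j < T + K * d, BadL G T ε j σ y := by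
  have hd : 0 < d := Nat.pos_of_ne_zero (NeZero.ne d)
  by_cases h : ∃ j < T + K * d, BadL G T ε j σ y
  · exact Or.inr h
  · left
    intro a
    push Not at h
    rw [star_sub_M hN hm hG]
    calc |∑ j ∈ range (T + K * d), Xf (uL G T j) σ y a| ≤
          ∑ j ∈ range (T + K * d), |Xf (uL G T j) σ y a| := Finset.abs_sum_le_sum_abs _ _
      _ ≤ ∑ j ∈ range (T + K * d), spl d T ε j := by
          apply Finset.sum_le_sum
          intro j hj
          have := h j (mem_range.mp hj)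
          unfold BadL at this
          push Not at this
          exact this a
      _ ≤ ε := spl_sum hd hT hε.le K

theorem zball_card (R : ℕ) : (univ.filter (fun a : ZMod N => zn a ≤ R)).card ≤ 2 * R + 1 := by
  have h : (univ.filter (fun a : ZMod N => zn a ≤ R)).card ≤
      (Finset.Icc (-(R : ℤ)) R).card := by
    apply Finset.card_le_card_of_injOn (fun a => a.valMinAbs)
    · intro a ha
      rw [mem_coe, mem_filter] at ha
      have h1 := ha.2
      unfold zn at h1
      rw [mem_coe, Finset.mem_Icc]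
      beta_reduce
      constructor <;> omega
    · intro a _ b _ hab
      exact ZMod.injective_valMinAbs hab
  refine h.trans (le_of_eq ?_)
  rw [Int.card_Icc]
  omega

theorem nball_card (R : ℕ) : (nball d N R).card ≤ (2 * R + 1) ^ d := by
  have h : nball d N R = Fintype.piFinset (fun _ : Fin d => univ.filter (fun a : ZMod N => zn a ≤ R)) := by
    ext z
    unfold nball
    rw [mem_filter, Fintype.mem_piFinset, ninf_le_iff]
    simp
  rw [h, Fintype.card_piFinset]
  simp only [Finset.prod_const, card_univ, Fintype.card_fin]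
  exact Nat.pow_le_pow_left (zball_card R) d

theorem nb_BlL_card (T j : ℕ) (x : TV d N) :
    ((nb (BlL d N T) (x, Sum.inr j)).card : ℝ) ≤ NbL d T j := by
  unfold NbL lv
  by_cases hjT : j < T
  · rw [if_pos hjT]
    have h : nb (BlL d N T) (x, Sum.inr j) ⊆ (Zs d N (2 * (T + 1) + 1)).image (fun z => x + z) := by
      intro z hz
      unfold nb at hz
      rw [mem_filter] at hz
      obtain ⟨-, w, hw, i, hi⟩ := hz
      simp only [blk, mem_filter, mem_univ, true_and, BlL, lv, if_pos hjT] at hw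
      rw [mem_image]
      refine ⟨z - x, ?_, by abel⟩
      rcases hi with hi | hi
      · have := Zs_step hw (some (i, true))
        have e : w - x + stp (some (i, true)) = z - x := by rw [hi]; simp only [stp]; abel
        rwa [e] at this
      · have := Zs_step hw (some (i, false))
        have e : w - x + stp (some (i, false)) = z - x := by rw [hi]; simp only [stp]; abel
        rwa [e] at this
    have h2 := (Finset.card_le_card h).trans (Finset.card_image_le.trans (Zs_card _))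
    calc ((nb (BlL d N T) (x, Sum.inr j)).card : ℝ) ≤ ((2 * d + 1) ^ (2 * (T + 1) + 1) : ℕ) := by
          exact_mod_cast h2
      _ = _ := by push_cast; rfl
  · rw [if_neg hjT]
    set R := rk T ((j - T) / d) with hR
    have h : nb (BlL d N T) (x, Sum.inr j) ⊆ (nball d N (2 * R + 1)).image (fun z => x + z) := by
      intro z hz
      unfold nb at hz
      rw [mem_filter] at hz
      obtain ⟨-, w, hw, i, hi⟩ := hz
      simp only [blk, mem_filter, mem_univ, true_and, BlL, lv, if_neg hjT, nball] at hw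
      rw [mem_image]
      refine ⟨z - x, ?_, by abel⟩
      unfold nball
      rw [mem_filter]
      refine ⟨mem_univ _, ?_⟩
      have h4 : ninf (ev i 1 : TV d N) ≤ 1 := (ninf_ev i 1).trans zn_one
      rcases hi with hi | hi
      · have e : z - x = (w - x) + ev i 1 := by rw [hi]; abel
        have := ninf_add (w - x) (ev i 1)
        rw [e]; omega
      · have e : z - x = (w - x) - ev i 1 := by rw [hi]; abel
        have := ninf_sub (w - x) (ev i 1)
        rw [e]; omega
    have h2 := (Finset.card_le_card h).trans (Finset.card_image_le.trans (nball_card _))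
    calc ((nb (BlL d N T) (x, Sum.inr j)).card : ℝ) ≤ ((2 * (2 * R + 1) + 1) ^ d : ℕ) := by
          exact_mod_cast h2
      _ = _ := by push_cast; rfl

/-- the sum of the bad-level weights -/
noncomputable def SbL (d T m K : ℕ) (ε k0 κ α q : ℝ) : ℝ :=
  ∑ j ∈ range (T + K * d), bL d T m ε k0 j ^ spl d T κ j * Real.exp (α * DlL d T j) *
    (5 * NbL d T j / q)

theorem bL_nonneg (T m : ℕ) (ε k0 : ℝ) (j : ℕ) : 0 ≤ bL d T m ε k0 j := by
  unfold bL; positivity

/-- Decay of the connectivity on the event of small means. -/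
theorem decay [NeZero d] {K : ℕ} (hN : N = 2 ^ K) (hK : 2 ≤ K) {G : ℕ → Finset (Fin d)}
    {T m : ℕ} (hT : 0 < T) (hm : 0 < m) (hmd : m ≤ d) (hG : ∀ r < T, (G r).card = m)
    (hdis : ∀ r < T, ∀ r' < r, Disjoint (G r) (G r'))
    {β J₁ J₂ : ℝ} (hβ : 0 < β) (h1 : 0 < J₁) (h2 : J₁ < J₂)
    {ε k0 κ η α q : ℝ} (hε : 0 < ε) (hk0 : 0 < k0) (hK2 : k0 ≤ k2 d β J₁)
    (hK4 : k0 ≤ k4 d β J₁ J₂) (hκ0 : 0 < κ) (hκ1 : κ ≤ 1) (hα : 0 ≤ α)
    (hq0 : 0 < q) (hq1 : q < 1)
    (hρle : Real.exp (-(h0 - (2 * k2 d β J₁ + k4 d β J₁ J₂) * η)) ≤ 1)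
    (hρ1 : Real.exp (-(h0 - (2 * k2 d β J₁ + k4 d β J₁ J₂) * η)) ^ (1 - κ) * Real.exp α ≤ 1)
    (hSb1 : SbL d T m K ε k0 κ α q ≤ 1)
    (hstep : 4 * k4 d β J₁ J₂ *
      (Real.exp (-(h0 - (2 * k2 d β J₁ + k4 d β J₁ J₂) * η)) ^ (1 - κ) * Real.exp α) +
      2 * d * SbL d T m K ε k0 κ α q ≤ q) (x : TV d N) (n : ℕ) :
    JP β J₁ J₂ (fun ω σ => (∀ a, |Mm σ a| ≤ η - ε) ∧
      ∃ z, n ≤ ninf (z - x) ∧ ConnT 1 ω x z) ≤ 5 / (1 - q) * Real.exp (-(α * n)) := by
  have hd : 0 < d := Nat.pos_of_ne_zero (NeZero.ne d)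
  have hN3 : 3 ≤ N := by
    rw [hN]
    calc 3 ≤ 2 ^ 2 := by norm_num
      _ ≤ 2 ^ K := Nat.pow_le_pow_right (by norm_num) hK
  set ρ := Real.exp (-(h0 - (2 * k2 d β J₁ + k4 d β J₁ J₂) * η)) with hρ
  have hρ0 : 0 < ρ := Real.exp_pos _
  set κ' := ∑ j ∈ range (T + K * d), spl d T κ j with hκ'
  have hκ'κ : κ' ≤ κ := spl_sum hd hT hκ0.le K
  have hρ'le : ρ ^ (1 - κ') * Real.exp α ≤ ρ ^ (1 - κ) * Real.exp α := by
    apply mul_le_mul_of_nonneg_right _ (Real.exp_pos _).le
    exact Real.rpow_le_rpow_of_exponent_ge hρ0 hρle (by linarith)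
  have hk4 : 0 ≤ k4 d β J₁ J₂ := by linarith
  have hk2 : 0 ≤ k2 d β J₁ := by linarith
  have hk24 : 98 / 100 * k2 d β J₁ ≤ k4 d β J₁ J₂ := by
    unfold k2 k4
    have : 0 ≤ β * d := by positivity
    nlinarith [mul_nonneg this (by linarith : (0:ℝ) ≤ J₂ - J₁), mul_nonneg this h1.le]
  have key := chain_bound (Good := GoodL η) (Bad := BadL G T ε) (Bl := BlL d N T)
    hN3 hβ h1 h2 (BlL_zero T) hρ0.le (J := T + K * d) (b := bL d T m ε k0) (κ := spl d T κ)
    (bL_nonneg T m ε k0) (fun j => (spl_pos hd hT hκ0 j).le) (hκ'κ.trans hκ1)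
    (fun c V hθ => resample (by omega) hk2 hk24 c V hθ)
    (fun j hj Y hY => BadL_bound hN hK hT hm hmd hG hdis hε hk0 hK2 hK4 hj Y hY)
    (Dl := DlL d T) (fun j z hz => DlL_spec T j z hz)
    (Nb := NbL d T) (fun j _ x => nb_BlL_card T j x)
    hα hq0 hq1 (ρ' := ρ ^ (1 - κ') * Real.exp α) rfl (hρ'le.trans hρ1)
    (fun j _ => NbL_one_le T j) (Sb := SbL d T m K ε k0 κ α q) rfl hSb1
    (by
      refine le_trans ?_ hstep
      have := mul_le_mul_of_nonneg_left hρ'le (by positivity : 0 ≤ 4 * k4 d β J₁ J₂)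
      linarith) x n
  refine le_trans ?_ key
  apply Ex_mono
  · intro y; exact jw_nonneg _ _ (par_pos hβ h1 h2) _ _
  · intro y
    apply ind_mono
    rintro ⟨a1, a2⟩
    refine ⟨fun z => ?_, a2⟩
    rcases good_or_bad hN hT hm hG hε y.2 z with h | h
    · left
      intro a
      have e1 := h a
      have e2 := a1 a
      have e3 : |star y.2 z a| ≤ |star y.2 z a - Mm y.2 a| + |Mm y.2 a| := by
        have := abs_add_le (star y.2 z a - Mm y.2 a) (Mm y.2 a)
        rwa [sub_add_cancel] at this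
      linarith
    · exact Or.inr h

theorem SP_union {K2 K4 : ℝ} {ι : Type*} (S : Finset ι) (A : (TV d N → Sp) → Prop)
    (B : ι → (TV d N → Sp) → Prop) (h : ∀ σ, A σ → ∃ i ∈ S, B i σ) :
    SP K2 K4 A ≤ ∑ i ∈ S, SP K2 K4 (B i) := by
  unfold SP
  rw [← Ex_sum]
  apply Ex_mono _ _ _ (fun σ => (sw_pos K2 K4 σ).le)
  intro σ
  by_cases hA : A σ
  · obtain ⟨i, hi, hB⟩ := h σ hA
    rw [ind_pos hA, ← ind_pos hB]
    exact Finset.single_le_sum (f := fun i => ind (B i σ)) (fun i _ => ind_nonneg _) hi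
  · rw [ind_neg hA]
    exact Finset.sum_nonneg fun i _ => ind_nonneg _

/-- The star averages are close to the mean with large probability. -/
theorem star_prob [NeZero d] {K : ℕ} (hN : N = 2 ^ K) (hK : 2 ≤ K) {G : ℕ → Finset (Fin d)}
    {T m : ℕ} (hT : 0 < T) (hm : 0 < m) (hmd : m ≤ d) (hG : ∀ r < T, (G r).card = m)
    (hdis : ∀ r < T, ∀ r' < r, Disjoint (G r) (G r'))
    {ε k0 κ α q K2 K4 : ℝ} (hε : 0 < ε) (hk0 : 0 < k0) (hK2 : k0 ≤ K2)
    (hK4 : k0 ≤ K4) (hκ0 : 0 < κ) (hκ1 : κ ≤ 1) (hα : 0 ≤ α)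
    (hq0 : 0 < q) (hq1 : q < 1) (hSb1 : SbL d T m K ε k0 κ α q ≤ 1) (y : TV d N) :
    SP K2 K4 (fun σ => ∃ a, ε < |star σ y a - Mm σ a|) ≤ SbL d T m K ε k0 κ α q := by
  have hd : 0 < d := Nat.pos_of_ne_zero (NeZero.ne d)
  have h1 : SP K2 K4 (fun σ : TV d N → Sp => ∃ a, ε < |star σ y a - Mm σ a|) ≤
      ∑ j ∈ range (T + K * d), SP K2 K4 (fun σ => BadL G T ε j σ y) := by
    apply SP_union
    intro σ hσ
    rcases good_or_bad hN hT hm hG hε σ y with h | h
    · obtain ⟨a, ha⟩ := hσ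
      exact absurd (h a) (not_le.mpr ha)
    · obtain ⟨j, hj, h⟩ := h
      exact ⟨j, mem_range.mpr hj, h⟩
  have h2 : ∀ j ∈ range (T + K * d), SP K2 K4 (fun σ => BadL G T ε j σ y) ≤
      bL d T m ε k0 j := by
    intro j hj
    have := BadL_bound hN hK hT hm hmd hG hdis hε hk0 hK2 hK4 (mem_range.mp hj) {y} (by
      intro a ha b hb hab
      rw [mem_singleton] at ha hb
      exact absurd (ha.trans hb.symm) hab)
    simpa using this
  -- each weight is at least b_j
  have hw : ∀ j, 0 ≤ bL d T m ε k0 j ^ spl d T κ j * Real.exp (α * DlL d T j) *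
      (5 * NbL d T j / q) := by
    intro j
    have := NbL_one_le (d := d) T j
    have := Real.rpow_nonneg (bL_nonneg (d := d) T m ε k0 j) (spl d T κ j)
    positivity
  have hκj : ∀ j ∈ range (T + K * d), spl d T κ j ≤ 1 := by
    intro j hj
    have h3 := Finset.single_le_sum (f := fun j => spl d T κ j)
      (fun j _ => (spl_pos hd hT hκ0 j).le) hj
    exact h3.trans ((spl_sum hd hT hκ0.le K).trans hκ1)
  have h4 : ∀ j ∈ range (T + K * d), bL d T m ε k0 j ≤
      bL d T m ε k0 j ^ spl d T κ j * Real.exp (α * DlL d T j) * (5 * NbL d T j / q) := by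
    intro j hj
    have e1 := Finset.single_le_sum (f := fun j => bL d T m ε k0 j ^ spl d T κ j *
      Real.exp (α * DlL d T j) * (5 * NbL d T j / q)) (fun j _ => hw j) hj
    have e2 : bL d T m ε k0 j ^ spl d T κ j ≤
        bL d T m ε k0 j ^ spl d T κ j * Real.exp (α * DlL d T j) * (5 * NbL d T j / q) := by
      have f1 := Real.rpow_nonneg (bL_nonneg (d := d) T m ε k0 j) (spl d T κ j)
      have f2 : 1 ≤ Real.exp (α * DlL d T j) := Real.one_le_exp (by positivity)
      have f3 : 1 ≤ 5 * NbL d T j / q := by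
        rw [le_div_iff₀ hq0]
        have := NbL_one_le (d := d) T j
        linarith
      calc _ = bL d T m ε k0 j ^ spl d T κ j * 1 * 1 := by ring
        _ ≤ _ := by gcongr
    have e3 : bL d T m ε k0 j ^ spl d T κ j ≤ 1 := e2.trans (e1.trans hSb1)
    have hκp := spl_pos (T := T) hd hT hκ0 j
    have e4 : bL d T m ε k0 j ≤ 1 := by
      by_contra hcon
      push Not at hcon
      have := Real.one_lt_rpow hcon hκp
      linarith
    have e5 : bL d T m ε k0 j ≤ bL d T m ε k0 j ^ spl d T κ j := by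
      have hb0 : 0 < bL d T m ε k0 j := by unfold bL; positivity
      calc bL d T m ε k0 j = bL d T m ε k0 j ^ (1 : ℝ) := (Real.rpow_one _).symm
        _ ≤ _ := Real.rpow_le_rpow_of_exponent_ge hb0 e4 (hκj j hj)
    exact e5.trans e2
  calc _ ≤ _ := h1
    _ ≤ ∑ j ∈ range (T + K * d), bL d T m ε k0 j := Finset.sum_le_sum h2
    _ ≤ _ := Finset.sum_le_sum h4

end Run7.h165
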