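import Pool.Agent.Run7.h165.Levels

/-!
Asymptotics of the sum of the bad-level weights.
-/

namespace Run7.h165

open Finset Filter Topology
open scoped Classical

theorem six_exp_rpow {X p : ℝ} (hp0 : 0 ≤ p) (hp1 : p ≤ 1) :
    (6 * Real.exp (-X)) ^ p ≤ 6 * Real.exp (-(X * p)) := by
  rw [Real.mul_rpow (by norm_num) (Real.exp_pos _).le, ← Real.exp_mul]
  have h1 : (6 : ℝ) ^ p ≤ 6 ^ (1 : ℝ) :=
    Real.rpow_le_rpow_of_exponent_le (by norm_num) hp1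
  rw [Real.rpow_one] at h1
  have h2 : -X * p = -(X * p) := by ring
  rw [h2]
  exact mul_le_mul_of_nonneg_right h1 (Real.exp_pos _).le

/-- weight of the star levels -/
noncomputable def A0 (d m : ℕ) (ε k0 κ α q : ℝ) : ℝ :=
  (6 * Real.exp (-((ε / (2 * (6 : ℕ))) ^ 2 * k0 / (4 * d * (1 / (2 * (m : ℝ))) ^ 2)))) ^
    (κ / (2 * (6 : ℕ))) * Real.exp (α * (2 * (6 + 1) + 1 : ℕ)) *
    (5 * (2 * (d : ℝ) + 1) ^ (2 * (6 + 1) + 1) / q)

/-- weight of the doubling levels -/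
noncomputable def Ak (d m : ℕ) (ε k0 κ α q : ℝ) (k : ℕ) : ℝ :=
  (6 * Real.exp (-((ε * (1 / 2) ^ k / (4 * d)) ^ 2 * k0 / (4 * d *
    (if k = 0 then (1 / (2 * (m : ℝ))) ^ 6 / 4 else 4 ^ k * (1 / 2) ^ (k * d) / 4))))) ^
    (κ * (1 / 2) ^ k / (4 * d)) * Real.exp (α * (2 * rk 6 k + 1 : ℕ)) *
    (5 * (2 * (2 * (rk 6 k : ℝ) + 1) + 1) ^ d / q)

theorem SbL_eq {d : ℕ} (hd : 0 < d) (m K : ℕ) (ε k0 κ α q : ℝ) :
    SbL d 6 m K ε k0 κ α q = 6 * A0 d m ε k0 κ α q + d * ∑ k ∈ range K, Ak d m ε k0 κ α q k := by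
  have h := sum_lv hd 6 K (A0 d m ε k0 κ α q) (Ak d m ε k0 κ α q)
  have e6 : ((6 : ℕ) : ℝ) = 6 := by norm_num
  rw [e6] at h
  rw [← h]
  unfold SbL
  apply Finset.sum_congr rfl
  intro j _
  unfold bL spl UbL DlL NbL lv
  by_cases hj : j < 6
  · simp only [if_pos hj]
    rfl
  · simp only [if_neg hj]
    rfl

theorem A0_le {d m : ℕ} (hd : 12 ≤ d) (hm : (d : ℝ) ≤ 12 * m) {ε k0 κ α q : ℝ}
    (hk0 : 0 < k0) (hκ : 0 < κ) (hκ1 : κ ≤ 1) (hα1 : α ≤ 1) (hq : 1 / 2 ≤ q) :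
    A0 d m ε k0 κ α q ≤
      60 * Real.exp 15 * (3 * d) ^ 15 * Real.exp (-(ε ^ 2 * k0 * κ / 248832 * d)) := by
  have hdR : (12 : ℝ) ≤ d := by exact_mod_cast hd
  have hmR : (0 : ℝ) < m := by linarith
  have h1 : (6 * Real.exp (-((ε / (2 * (6 : ℕ))) ^ 2 * k0 / (4 * d *
      (1 / (2 * (m : ℝ))) ^ 2)))) ^ (κ / (2 * (6 : ℕ))) ≤
      6 * Real.exp (-(ε ^ 2 * k0 * κ / 248832 * d)) := by
    refine (six_exp_rpow (by positivity) ?_).trans ?_
    · norm_num; linarith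
    · apply mul_le_mul_of_nonneg_left _ (by norm_num)
      apply Real.exp_le_exp.mpr
      apply neg_le_neg
      have e1 : (ε / (2 * (6 : ℕ))) ^ 2 * k0 / (4 * d * (1 / (2 * (m : ℝ))) ^ 2) *
          (κ / (2 * (6 : ℕ))) = ε ^ 2 * k0 * κ / 1728 * (m ^ 2 / d) := by
        push_cast
        field_simp
        ring
      rw [e1]
      have e2 : (d : ℝ) / 144 ≤ m ^ 2 / d := by
        rw [div_le_div_iff₀ (by norm_num) (by linarith)]
        nlinarith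
      calc ε ^ 2 * k0 * κ / 248832 * d = ε ^ 2 * k0 * κ / 1728 * (d / 144) := by ring
        _ ≤ _ := mul_le_mul_of_nonneg_left e2 (by positivity)
  have h2 : Real.exp (α * (2 * (6 + 1) + 1 : ℕ)) ≤ Real.exp 15 := by
    apply Real.exp_le_exp.mpr
    push_cast
    linarith
  have h3 : 5 * (2 * (d : ℝ) + 1) ^ (2 * (6 + 1) + 1) / q ≤ 10 * (3 * d) ^ 15 := by
    rw [div_le_iff₀ (by linarith)]
    have : (2 * (d : ℝ) + 1) ^ 15 ≤ (3 * d) ^ 15 :=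
      pow_le_pow_left₀ (by positivity) (by linarith) 15
    have h4 : (0 : ℝ) ≤ (3 * d) ^ 15 := by positivity
    norm_num
    nlinarith
  unfold A0
  calc _ ≤ (6 * Real.exp (-(ε ^ 2 * k0 * κ / 248832 * d))) * Real.exp 15 *
        (10 * (3 * d) ^ 15) := by
        apply mul_le_mul (mul_le_mul h1 h2 (by positivity) (by positivity)) h3 _ (by positivity)
        have : 0 < q := by linarith
        positivity
    _ = _ := by ring

theorem Ak_exponent {d m : ℕ} (hd : 12 ≤ d) (hm : (d : ℝ) ≤ 12 * m) {ε k0 κ : ℝ}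
    (hk0 : 0 < k0) (hκ : 0 < κ) (hE : 128 * (d : ℝ) ^ 6 ≤ 2 ^ d) (k : ℕ) :
    ε ^ 2 * k0 * κ / (64 * 6 ^ 6) * d ^ 2 * 4 ^ k ≤
      (ε * (1 / 2) ^ k / (4 * d)) ^ 2 * k0 / (4 * d *
        (if k = 0 then (1 / (2 * (m : ℝ))) ^ 6 / 4 else 4 ^ k * (1 / 2) ^ (k * d) / 4)) *
        (κ * (1 / 2) ^ k / (4 * d)) := by
  have hdR : (12 : ℝ) ≤ d := by exact_mod_cast hd
  have hd0 : (0 : ℝ) < d := by linarith
  have hmR : (0 : ℝ) < m := by linarith
  by_cases hk : k = 0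
  · subst hk
    rw [if_pos rfl]
    have e1 : (ε * (1 / 2) ^ 0 / (4 * d)) ^ 2 * k0 / (4 * d * ((1 / (2 * (m : ℝ))) ^ 6 / 4)) *
        (κ * (1 / 2) ^ 0 / (4 * d)) = ε ^ 2 * k0 * κ / 64 * ((2 * m) ^ 6 / d ^ 4) := by
      rw [pow_zero, mul_one, mul_one]
      field_simp
      ring
    rw [e1]
    have e2 : (d : ℝ) ^ 2 / 6 ^ 6 ≤ (2 * m) ^ 6 / d ^ 4 := by
      rw [div_le_div_iff₀ (by norm_num) (by positivity)]
      have : (d : ℝ) ^ 6 ≤ (12 * m) ^ 6 := pow_le_pow_left₀ hd0.le hm 6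
      have f1 : (d : ℝ) ^ 2 * (d : ℝ) ^ 4 = (d : ℝ) ^ 6 := by ring
      have f2 : (12 * (m : ℝ)) ^ 6 = (2 * (m : ℝ)) ^ 6 * 6 ^ 6 := by ring
      rw [f1, ← f2]
      exact this
    calc ε ^ 2 * k0 * κ / (64 * 6 ^ 6) * d ^ 2 * 4 ^ 0 =
        ε ^ 2 * k0 * κ / 64 * (d ^ 2 / 6 ^ 6) := by ring
      _ ≤ _ := mul_le_mul_of_nonneg_left e2 (by positivity)
  · rw [if_neg hk]
    have e1 : (ε * (1 / 2) ^ k / (4 * d)) ^ 2 * k0 / (4 * d * (4 ^ k * (1 / 2) ^ (k * d) / 4)) *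
        (κ * (1 / 2) ^ k / (4 * d)) = ε ^ 2 * k0 * κ / 64 * ((2 ^ d / 32) ^ k / d ^ 4) := by
      have f1 : (1 / 2 : ℝ) ^ (k * d) = 1 / (2 ^ d) ^ k := by
        rw [mul_comm, pow_mul, one_div, inv_pow, inv_pow, one_div]
      have f2 : (1 / 2 : ℝ) ^ k = 1 / 2 ^ k := by rw [div_pow, one_pow]
      have f3 : ((2 : ℝ) ^ d / 32) ^ k = (2 ^ d) ^ k / 32 ^ k := div_pow _ _ _
      have f4 : (32 : ℝ) ^ k = 2 ^ k * 2 ^ k * 2 ^ k * 4 ^ k := by
        rw [← mul_pow, ← mul_pow, ← mul_pow]; norm_num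
      rw [f1, f2, f3, f4]
      field_simp
      ring
    rw [e1]
    have e2 : (d : ℝ) ^ 2 * 4 ^ k / 6 ^ 6 ≤ (2 ^ d / 32) ^ k / d ^ 4 := by
      rw [div_le_div_iff₀ (by norm_num) (by positivity)]
      have g1 : (4 * (d : ℝ) ^ 6) ^ k ≤ (2 ^ d / 32) ^ k := by
        apply pow_le_pow_left₀ (by positivity)
        rw [le_div_iff₀ (by norm_num)]
        linarith
      have g2 : (d : ℝ) ^ 6 ≤ (d ^ 6) ^ k := by
        have : (1 : ℝ) ≤ d ^ 6 := one_le_pow₀ (by linarith)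
        exact le_self_pow₀ this hk
      have g3 : (0 : ℝ) ≤ (2 ^ d / 32) ^ k := by positivity
      have g4 : (d : ℝ) ^ 2 * 4 ^ k * (d : ℝ) ^ 4 = 4 ^ k * (d : ℝ) ^ 6 := by ring
      have g5 : 4 ^ k * (d : ℝ) ^ 6 ≤ 4 ^ k * ((d : ℝ) ^ 6) ^ k :=
        mul_le_mul_of_nonneg_left g2 (by positivity)
      have g6 : 4 ^ k * ((d : ℝ) ^ 6) ^ k = (4 * (d : ℝ) ^ 6) ^ k := by rw [mul_pow]
      have g7 : ((2 : ℝ) ^ d / 32) ^ k ≤ (2 ^ d / 32) ^ k * 6 ^ 6 :=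
        le_mul_of_one_le_right g3 (by norm_num)
      rw [g4]
      rw [g6] at g5
      exact g5.trans (g1.trans g7)
    calc ε ^ 2 * k0 * κ / (64 * 6 ^ 6) * d ^ 2 * 4 ^ k =
        ε ^ 2 * k0 * κ / 64 * (d ^ 2 * 4 ^ k / 6 ^ 6) := by ring
      _ ≤ _ := mul_le_mul_of_nonneg_left e2 (by positivity)

theorem Ak_le {d m : ℕ} (hd : 12 ≤ d) (hm : (d : ℝ) ≤ 12 * m) {ε k0 κ α q : ℝ}
    (hk0 : 0 < k0) (hκ : 0 < κ) (hκ1 : κ ≤ 1) (hα1 : α ≤ 1) (hq : 1 / 2 ≤ q)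
    (hE : 128 * (d : ℝ) ^ 6 ≤ 2 ^ d)
    (hE2 : 21 + 7 * (d : ℝ) ≤ ε ^ 2 * k0 * κ / (64 * 6 ^ 6) * d ^ 2) (k : ℕ) :
    Ak d m ε k0 κ α q k ≤ 60 * (Real.exp (-d) * Real.exp (-d) ^ k) := by
  have hdR : (12 : ℝ) ≤ d := by exact_mod_cast hd
  have hd0 : (0 : ℝ) < d := by linarith
  have h2k : (1 : ℝ) ≤ 2 ^ k := one_le_pow₀ (by norm_num)
  have hrk : ((rk 6 k : ℕ) : ℝ) = 3 * 2 ^ k + 7 := by
    unfold rk; push_cast; ring
  have hp1 : κ * (1 / 2) ^ k / (4 * d) ≤ 1 := by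
    rw [div_le_one (by positivity)]
    have : (1 / 2 : ℝ) ^ k ≤ 1 := pow_le_one₀ (by norm_num) (by norm_num)
    nlinarith
  have h1 : (6 * Real.exp (-((ε * (1 / 2) ^ k / (4 * d)) ^ 2 * k0 / (4 * d *
      (if k = 0 then (1 / (2 * (m : ℝ))) ^ 6 / 4 else 4 ^ k * (1 / 2) ^ (k * d) / 4))))) ^
      (κ * (1 / 2) ^ k / (4 * d)) ≤
      6 * Real.exp (-(ε ^ 2 * k0 * κ / (64 * 6 ^ 6) * d ^ 2 * 4 ^ k)) := by
    refine (six_exp_rpow (by positivity) hp1).trans ?_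
    apply mul_le_mul_of_nonneg_left _ (by norm_num)
    apply Real.exp_le_exp.mpr
    exact neg_le_neg (Ak_exponent hd hm hk0 hκ hE k)
  have h2 : Real.exp (α * (2 * rk 6 k + 1 : ℕ)) ≤ Real.exp (21 * 2 ^ k) := by
    apply Real.exp_le_exp.mpr
    push_cast
    rw [hrk]
    nlinarith
  have h3 : 5 * (2 * (2 * (rk 6 k : ℝ) + 1) + 1) ^ d / q ≤ 10 * Real.exp (6 * d * 2 ^ k) := by
    rw [hrk]
    have e1 : 2 * (2 * (3 * (2 : ℝ) ^ k + 7) + 1) + 1 ≤ Real.exp (6 * 2 ^ k) := by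
      set y : ℝ := 2 ^ k with hy
      have g1 := Real.add_one_le_exp y
      have g2 : (y + 1) ^ 6 ≤ Real.exp y ^ 6 := pow_le_pow_left₀ (by linarith) g1 6
      have g3 : Real.exp (6 * y) = Real.exp y ^ 6 := by
        rw [← Real.exp_nat_mul]; norm_num
      rw [g3]
      refine le_trans ?_ g2
      have g4 : (2 : ℝ) ^ 4 ≤ (y + 1) ^ 4 := pow_le_pow_left₀ (by norm_num) (by linarith) 4
      have g5 : 0 ≤ (y + 1) ^ 2 := sq_nonneg _
      calc 2 * (2 * (3 * y + 7) + 1) + 1 ≤ (y + 1) ^ 2 * 2 ^ 4 := by nlinarith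
        _ ≤ (y + 1) ^ 2 * (y + 1) ^ 4 := mul_le_mul_of_nonneg_left g4 g5
        _ = _ := by ring
    have e2 : (2 * (2 * (3 * (2 : ℝ) ^ k + 7) + 1) + 1) ^ d ≤ Real.exp (6 * d * 2 ^ k) := by
      calc _ ≤ Real.exp (6 * 2 ^ k) ^ d := pow_le_pow_left₀ (by positivity) e1 d
        _ = _ := by rw [← Real.exp_nat_mul]; congr 1; ring
    rw [div_le_iff₀ (by linarith)]
    have := Real.exp_pos (6 * d * 2 ^ k : ℝ)
    nlinarith
  unfold Ak
  calc _ ≤ (6 * Real.exp (-(ε ^ 2 * k0 * κ / (64 * 6 ^ 6) * d ^ 2 * 4 ^ k))) *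
        Real.exp (21 * 2 ^ k) * (10 * Real.exp (6 * d * 2 ^ k)) := by
        apply mul_le_mul (mul_le_mul h1 h2 (by positivity) (by positivity)) h3 _ (by positivity)
        have : 0 < q := by linarith
        positivity
    _ = 60 * Real.exp (-(ε ^ 2 * k0 * κ / (64 * 6 ^ 6) * d ^ 2 * 4 ^ k) + 21 * 2 ^ k +
          6 * d * 2 ^ k) := by
        rw [Real.exp_add, Real.exp_add]; ring
    _ ≤ 60 * Real.exp (-d + k * (-d)) := by
        apply mul_le_mul_of_nonneg_left _ (by norm_num)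
        apply Real.exp_le_exp.mpr
        have f1 : (4 : ℝ) ^ k = 2 ^ k * 2 ^ k := by rw [← mul_pow]; norm_num
        have f2 : (21 + 7 * (d : ℝ)) * 4 ^ k ≤ ε ^ 2 * k0 * κ / (64 * 6 ^ 6) * d ^ 2 * 4 ^ k :=
          mul_le_mul_of_nonneg_right hE2 (by positivity)
        have f3 : (21 + 7 * (d : ℝ)) * 2 ^ k ≤ (21 + 7 * (d : ℝ)) * 4 ^ k := by
          apply mul_le_mul_of_nonneg_left _ (by positivity)
          rw [f1]
          nlinarith
        have f4 : (k : ℝ) + 1 ≤ 2 ^ k := by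
          have := Nat.lt_two_pow_self (n := k)
          exact_mod_cast this
        have f5 := mul_le_mul_of_nonneg_left f4 hd0.le
        nlinarith
    _ = _ := by
        rw [Real.exp_add, ← Real.exp_nat_mul]

theorem num {ε k0 κ α q : ℝ} (hε : 0 < ε) (hk0 : 0 < k0) (hκ : 0 < κ) (hκ1 : κ ≤ 1)
    (hα1 : α ≤ 1) (hq : 1 / 2 ≤ q) {δ : ℝ} (hδ : 0 < δ) :
    ∃ d₀ : ℕ, ∀ d, d₀ ≤ d → ∀ K, SbL d 6 (d / 6) K ε k0 κ α q ≤ δ / d := by
  -- the eventual conditions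
  have t1 : ∀ᶠ d : ℕ in atTop, 128 * (d : ℝ) ^ 6 ≤ 2 ^ d := by
    have h1 : Tendsto (fun y : ℝ => y ^ 6 * Real.exp (-y)) atTop (𝓝 0) :=
      Real.tendsto_pow_mul_exp_neg_atTop_nhds_zero 6
    have hl : 0 < Real.log 2 := Real.log_pos (by norm_num)
    have h2 : Tendsto (fun d : ℕ => Real.log 2 * (d : ℝ)) atTop atTop :=
      tendsto_natCast_atTop_atTop.const_mul_atTop hl
    have h3 := (h1.comp h2).eventually (gt_mem_nhds
      (show (0 : ℝ) < Real.log 2 ^ 6 / 128 by positivity))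
    filter_upwards [h3] with d hd
    simp only [Function.comp] at hd
    have e1 : Real.exp (-(Real.log 2 * d)) = (2 ^ d)⁻¹ := by
      rw [Real.exp_neg, mul_comm, Real.exp_nat_mul, Real.exp_log (by norm_num)]
    rw [e1, mul_pow, ← div_eq_mul_inv, div_lt_iff₀ (by positivity)] at hd
    have h5 : Real.log 2 ^ 6 * (128 * (d : ℝ) ^ 6) < Real.log 2 ^ 6 * 2 ^ d := by linarith
    exact (lt_of_mul_lt_mul_left h5 (by positivity)).le
  have t2 : ∀ᶠ d : ℕ in atTop,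
      21 + 7 * (d : ℝ) ≤ ε ^ 2 * k0 * κ / (64 * 6 ^ 6) * d ^ 2 := by
    set c := ε ^ 2 * k0 * κ / (64 * 6 ^ 6) with hc
    have hc0 : 0 < c := by positivity
    have h1 : Tendsto (fun d : ℕ => (d : ℝ)) atTop atTop := tendsto_natCast_atTop_atTop
    filter_upwards [h1.eventually_ge_atTop (28 / c), h1.eventually_ge_atTop 1] with d hd1 hd2
    rw [div_le_iff₀ hc0] at hd1
    nlinarith
  have t3 : ∀ᶠ d : ℕ in atTop, 360 * Real.exp 15 * (3 * (d : ℝ)) ^ 15 *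
      Real.exp (-(ε ^ 2 * k0 * κ / 248832 * d)) * d ≤ δ / 2 := by
    set c := ε ^ 2 * k0 * κ / 248832 with hc
    have hc0 : 0 < c := by positivity
    have h1 : Tendsto (fun y : ℝ => y ^ 16 * Real.exp (-y)) atTop (𝓝 0) :=
      Real.tendsto_pow_mul_exp_neg_atTop_nhds_zero 16
    have h2 : Tendsto (fun d : ℕ => c * (d : ℝ)) atTop atTop :=
      tendsto_natCast_atTop_atTop.const_mul_atTop hc0
    have h3 := (h1.comp h2).const_mul (360 * Real.exp 15 * 3 ^ 15 / c ^ 16)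
    rw [mul_zero] at h3
    have h4 := h3.eventually (gt_mem_nhds (show (0 : ℝ) < δ / 2 by positivity))
    filter_upwards [h4] with d hd
    refine le_trans (le_of_eq ?_) hd.le
    simp only [Function.comp]
    rw [mul_pow, mul_pow]
    field_simp
  have t4 : ∀ᶠ d : ℕ in atTop, 120 * (d : ℝ) ^ 2 * Real.exp (-d) ≤ δ / 2 := by
    have h1 : Tendsto (fun y : ℝ => y ^ 2 * Real.exp (-y)) atTop (𝓝 0) :=
      Real.tendsto_pow_mul_exp_neg_atTop_nhds_zero 2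
    have h2 : Tendsto (fun d : ℕ => (d : ℝ)) atTop atTop := tendsto_natCast_atTop_atTop
    have h3 := (h1.comp h2).const_mul 120
    rw [mul_zero] at h3
    have h4 := h3.eventually (gt_mem_nhds (show (0 : ℝ) < δ / 2 by positivity))
    filter_upwards [h4] with d hd
    refine le_trans (le_of_eq ?_) hd.le
    simp only [Function.comp]
    ring
  obtain ⟨d₀, h0⟩ := eventually_atTop.mp (t1.and (t2.and (t3.and (t4.and
    (eventually_ge_atTop 12)))))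
  refine ⟨d₀, fun d hd K => ?_⟩
  obtain ⟨c1, c2, c3, c4, c5⟩ := h0 d hd
  have hdR : (12 : ℝ) ≤ d := by exact_mod_cast c5
  have hd0 : (0 : ℝ) < d := by linarith
  have hm : (d : ℝ) ≤ 12 * (d / 6 : ℕ) := by
    have : d ≤ 12 * (d / 6) := by omega
    exact_mod_cast this
  rw [SbL_eq (by omega)]
  have b1 := A0_le c5 hm (ε := ε) hk0 hκ hκ1 hα1 hq
  have b2 : ∑ k ∈ range K, Ak d (d / 6) ε k0 κ α q k ≤ 120 * Real.exp (-d) := by
    have hx : Real.exp (-(d : ℝ)) ≤ 1 / 2 := by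
      rw [Real.exp_neg, one_div]
      apply inv_anti₀ (by norm_num)
      have := Real.add_one_le_exp (d : ℝ)
      linarith
    have hx0 := Real.exp_pos (-(d : ℝ))
    calc _ ≤ ∑ k ∈ range K, 60 * (Real.exp (-d) * Real.exp (-d) ^ k) :=
          Finset.sum_le_sum fun k _ => Ak_le c5 hm hk0 hκ hκ1 hα1 hq c1 c2 k
      _ = 60 * (Real.exp (-d) * ∑ k ∈ range K, Real.exp (-(d : ℝ)) ^ k) := by
          rw [Finset.mul_sum, Finset.mul_sum]
      _ ≤ 60 * (Real.exp (-d) * 2) := by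
          apply mul_le_mul_of_nonneg_left _ (by norm_num)
          apply mul_le_mul_of_nonneg_left _ hx0.le
          rw [geom_sum_eq (by linarith), ← neg_div_neg_eq,
            div_le_iff₀ (by linarith)]
          have := pow_nonneg hx0.le K
          linarith
      _ = _ := by ring
  rw [le_div_iff₀ hd0]
  have b3 : 6 * A0 d (d / 6) ε k0 κ α q * d ≤ δ / 2 := by
    refine le_trans ?_ c3
    have := mul_le_mul_of_nonneg_right b1 hd0.le
    linarith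
  have b4 : d * (∑ k ∈ range K, Ak d (d / 6) ε k0 κ α q k) * d ≤ δ / 2 := by
    refine le_trans ?_ c4
    have := mul_le_mul_of_nonneg_left b2 (by positivity : (0 : ℝ) ≤ d * d)
    nlinarith
  linarith

end Run7.h165
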