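import Pool.Agent.Run7.h165.Torus

/-!
The Ashkin–Teller spin system on the torus, and the resampling bound.
-/

namespace Run7.h165

open Finset
open scoped Classical

/-- Spins `(θ, τ)`. -/
abbrev Sp : Type := Bool × Bool

def sg (b : Bool) : ℝ := if b then 1 else -1

theorem sg_mul_self (b : Bool) : sg b * sg b = 1 := by cases b <;> simp [sg]

theorem sg_sq (b : Bool) : sg b ^ 2 = 1 := by cases b <;> simp [sg]

/-- The vector `(τ, τθ, θ)`. -/
def Sv (s : Sp) (a : Fin 3) : ℝ := ![sg s.2, sg s.2 * sg s.1, sg s.1] a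

@[simp] theorem Sv_zero (s : Sp) : Sv s 0 = sg s.2 := rfl
@[simp] theorem Sv_one (s : Sp) : Sv s 1 = sg s.2 * sg s.1 := rfl
@[simp] theorem Sv_two (s : Sp) : Sv s 2 = sg s.1 := rfl

theorem Sv_sq (s : Sp) (a : Fin 3) : Sv s a ^ 2 = 1 := by
  fin_cases a
  · exact sg_sq _
  · show (sg s.2 * sg s.1) ^ 2 = 1
    rw [mul_pow, sg_sq, sg_sq, mul_one]
  · exact sg_sq _

theorem abs_Sv (s : Sp) (a : Fin 3) : |Sv s a| = 1 := by
  rcases abs_eq_abs.mp (show |Sv s a ^ 2| = |(1 : ℝ)| by rw [Sv_sq]) with h | h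
  · have : |Sv s a| ^ 2 = 1 := by rw [sq_abs, Sv_sq]
    nlinarith [abs_nonneg (Sv s a)]
  · have : |Sv s a| ^ 2 = 1 := by rw [sq_abs, Sv_sq]
    nlinarith [abs_nonneg (Sv s a)]

/-- Coupling constants `(K₂, K₂, K₄)`. -/
def Kv (K2 K4 : ℝ) : Fin 3 → ℝ := ![K2, K2, K4]

@[simp] theorem Kv_zero (K2 K4 : ℝ) : Kv K2 K4 0 = K2 := rfl
@[simp] theorem Kv_one (K2 K4 : ℝ) : Kv K2 K4 1 = K2 := rfl
@[simp] theorem Kv_two (K2 K4 : ℝ) : Kv K2 K4 2 = K4 := rfl

variable {d N : ℕ} [NeZero N]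

/-- The (negative) energy of a spin configuration on the torus. -/
noncomputable def Ham (K2 K4 : ℝ) (σ : TV d N → Sp) : ℝ :=
  (1 / (2 * (d : ℝ))) * ∑ e : TE d N, ∑ a : Fin 3,
    Kv K2 K4 a * Sv (σ (tsrc e)) a * Sv (σ (ttgt e)) a

/-- Gibbs weight. -/
noncomputable def sw (K2 K4 : ℝ) (σ : TV d N → Sp) : ℝ := Real.exp (Ham K2 K4 σ)

theorem sw_pos (K2 K4 : ℝ) (σ : TV d N → Sp) : 0 < sw K2 K4 σ := Real.exp_pos _

theorem sw_sum_pos (K2 K4 : ℝ) : 0 < ∑ σ : TV d N → Sp, sw K2 K4 σ :=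
  Finset.sum_pos (fun σ _ => sw_pos K2 K4 σ) Finset.univ_nonempty

/-- Probability under the spin Gibbs measure. -/
noncomputable def SP (K2 K4 : ℝ) (A : (TV d N → Sp) → Prop) : ℝ :=
  Ex (sw K2 K4) (fun σ => ind (A σ))

theorem SP_nonneg (K2 K4 : ℝ) (A : (TV d N → Sp) → Prop) : 0 ≤ SP K2 K4 A := by
  exact Ex_nonneg _ _ (fun σ => (sw_pos K2 K4 σ).le) (fun σ => ind_nonneg _)

theorem SP_le_one (K2 K4 : ℝ) (A : (TV d N → Sp) → Prop) : SP K2 K4 A ≤ 1 := by
  rw [← Ex_const (sw (d := d) (N := N) K2 K4) 1 (sw_sum_pos K2 K4)]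
  exact Ex_mono _ _ _ (fun σ => (sw_pos K2 K4 σ).le) (fun σ => ind_le_one _)

theorem SP_mono (K2 K4 : ℝ) {A B : (TV d N → Sp) → Prop} (h : ∀ σ, A σ → B σ) :
    SP K2 K4 A ≤ SP K2 K4 B := by
  exact Ex_mono _ _ _ (fun σ => (sw_pos K2 K4 σ).le) (fun σ => ind_mono (h σ))

/-- Average of the spin vector over the `2d` neighbours of `x`. -/
noncomputable def star (σ : TV d N → Sp) (x : TV d N) (a : Fin 3) : ℝ :=
  (1 / (2 * (d : ℝ))) * ∑ i : Fin d,
    (Sv (σ (x + Pi.single i 1)) a + Sv (σ (x - Pi.single i 1)) a)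

/-! ### Expectations with respect to product measures -/

section product

variable {X T : Type*} [Fintype X] [DecidableEq X] [Fintype T]

theorem prod_sum_one (π : X → T → ℝ) (hπ1 : ∀ x, ∑ t, π x t = 1) :
    ∑ s : X → T, ∏ x, π x (s x) = 1 := by
  have := Finset.prod_univ_sum (fun _ : X => (univ : Finset T)) (fun x t => π x t)
  rw [Fintype.piFinset_univ] at this
  rw [← this]
  simp [hπ1]

theorem prod_sum_fun (π : X → T → ℝ) (h : X → T → ℝ) :
    ∑ s : X → T, (∏ x, π x (s x)) * ∏ x, h x (s x) = ∏ x, ∑ t, π x t * h x t := by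
  have := Finset.prod_univ_sum (fun _ : X => (univ : Finset T)) (fun x t => π x t * h x t)
  rw [Fintype.piFinset_univ] at this
  rw [this]
  apply Finset.sum_congr rfl
  intro s _
  rw [Finset.prod_mul_distrib]

theorem prod_exp_one (π : X → T → ℝ) (hπ1 : ∀ x, ∑ t, π x t = 1) (x : X) (F : T → ℝ) :
    ∑ s : X → T, (∏ x, π x (s x)) * F (s x) = ∑ t, π x t * F t := by
  have h1 := prod_sum_fun π (fun z t => if z = x then F t else 1)
  have h2 : ∀ s : X → T, (∏ z, (fun z t => if z = x then F t else 1) z (s z)) = F (s x) := by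
    intro s
    rw [Finset.prod_eq_single x]
    · simp
    · intro z _ hz; simp [hz]
    · simp
  simp only [h2] at h1
  rw [h1, Finset.prod_eq_single x]
  · simp
  · intro z _ hz
    simp [hz, hπ1]
  · simp

theorem prod_exp_two (π : X → T → ℝ) (hπ1 : ∀ x, ∑ t, π x t = 1) (x y : X) (hxy : x ≠ y)
    (F G : T → ℝ) :
    ∑ s : X → T, (∏ x, π x (s x)) * (F (s x) * G (s y)) =
      (∑ t, π x t * F t) * (∑ t, π y t * G t) := by
  have h1 := prod_sum_fun π (fun z t => if z = x then F t else if z = y then G t else 1)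
  have h2 : ∀ s : X → T, (∏ z, (fun z t => if z = x then F t else if z = y then G t else 1)
      z (s z)) = F (s x) * G (s y) := by
    intro s
    rw [← Finset.prod_subset (Finset.subset_univ {x, y})]
    · rw [Finset.prod_pair hxy]
      simp [hxy.symm]
    · intro z _ hz
      simp only [mem_insert, mem_singleton, not_or] at hz
      simp [hz.1, hz.2]
  simp only [h2] at h1
  rw [h1, ← Finset.prod_subset (Finset.subset_univ {x, y})]
  · rw [Finset.prod_pair hxy]
    simp [hxy.symm]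
  · intro z _ hz
    simp only [mem_insert, mem_singleton, not_or] at hz
    simp [hz.1, hz.2, hπ1]

/-- Gibbs variational inequality for a product trial measure. -/
theorem jensen_prod (π : X → T → ℝ) (hπ0 : ∀ x t, 0 < π x t) (hπ1 : ∀ x, ∑ t, π x t = 1)
    (f : (X → T) → ℝ) :
    Real.exp (∑ s : X → T, (∏ x, π x (s x)) * (f s - ∑ x, Real.log (π x (s x)))) ≤
      ∑ s, Real.exp (f s) := by
  have hW0 : ∀ s : X → T, 0 < ∏ x, π x (s x) := fun s => Finset.prod_pos fun x _ => hπ0 _ _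
  have h1 := convexOn_exp.map_sum_le (t := (univ : Finset (X → T)))
    (w := fun s => ∏ x, π x (s x))
    (p := fun s => f s - ∑ x, Real.log (π x (s x))) (fun s _ => (hW0 s).le)
    (prod_sum_one π hπ1) (fun s _ => Set.mem_univ _)
  simp only [smul_eq_mul] at h1
  refine h1.trans (le_of_eq ?_)
  apply Finset.sum_congr rfl
  intro s _
  rw [Real.exp_sub, Real.exp_sum]
  have : ∏ x, Real.exp (Real.log (π x (s x))) = ∏ x, π x (s x) :=
    Finset.prod_congr rfl fun x _ => Real.exp_log (hπ0 _ _)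
  rw [this, mul_div_assoc', mul_div_cancel_left₀ _ (hW0 s).ne']

end product

end Run7.h165
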