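import Pool.Agent.Run7.h165.Basic
import Pool.Agent.Run7.h165.Defs

/-!
Torus versions and the events used for the Ashkin–Teller random-cluster model.
-/

namespace Run7.h165

open Finset
open scoped Classical

/-- Vertices of the torus `(ℤ/N)^d`. -/
abbrev TV (d N : ℕ) : Type := Fin d → ZMod N

/-- Edges of the torus: `(x, i)` is the edge `{x, x + e_i}`. -/
abbrev TE (d N : ℕ) : Type := TV d N × Fin d

def tsrc {d N : ℕ} (e : TE d N) : TV d N := e.1

def ttgt {d N : ℕ} (e : TE d N) : TV d N := e.1 + Pi.single e.2 1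

/-- The periodic configuration on `ℤ^d` of a configuration on the torus. -/
def pull {d N : ℕ} (ω : TE d N → Fin 3) : Config d :=
  fun e => ω (fun j => ((e.1 j : ℤ) : ZMod N), e.2)

/-- Restriction of a configuration to the edges of the box `Λ_n` (value `0` elsewhere). -/
noncomputable def restr {d : ℕ} (n : ℕ) (ω : Config d) : Config d :=
  fun e => if e ∈ boxEdges d n then ω e else 0

/-- The event that the box `Λ_m` is connected, inside the box `Λ_n`, to a vertex with
sup-norm at least `n`, by edges with `ω(e) ≥ t`. -/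
def DD {d : ℕ} (t : Fin 3) (m n : ℕ) (ω : Config d) : Prop :=
  ∃ x ∈ box d m, ∃ y : Fin d → ℤ, (∃ i, (n : ℤ) ≤ |y i|) ∧
    (openGraph t (restr n ω)).Reachable x y

/-- Probability of an event under the box measure `φ_{Λ_M}`. -/
noncomputable def bprob (d M : ℕ) (β J₁ J₂ : ℝ) (A : Config d → Prop) : ℝ :=
  Ex (boxWeight d M β J₁ J₂) (fun ω => ind (A (extend0 ω)))

/-- Probability of an event under the random-cluster measure of the torus `(ℤ/N)^d`. -/
noncomputable def tprob (d N : ℕ) [NeZero N] (β J₁ J₂ : ℝ) (A : Config d → Prop) : ℝ :=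
  Ex (wt (tsrc : TE d N → TV d N) ttgt (par β J₁ J₂)) (fun ω => ind (A (pull ω)))

end Run7.h165
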